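import Pool.Agent.Trp.Defs
import Pool.Agent.Trp.Cnt

/-!
# The arrow of time has full mass at every large octave
-/

set_option autoImplicit false

namespace Pool.Agent.Am3

open Finset Filter Topology Pool.Agent.Bub4 Pool.Agent.SawM2 Pool.Agent.Taw Pool.Agent.Trp

variable {S V : Type} [Fintype S] [AddCommGroup V] {K : ℝ}

/-- mass of the self-avoiding words of length `n` with excess at least `t n` -/
noncomputable def am (Y : Sys S V) (γ : List S) (t : ℝ) (n : ℕ) : ℝ :=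
  Y.E n fun w => Y.sv w * ind (t * n ≤ Xg Y γ w)

/-- the block number `i` of length `L` of the word `w` -/
def bk {S : Type} (L i : ℕ) (w : List S) : List S := (w.drop (i * L)).take L

-- BEGIN split2
theorem split2 (Y : Sys S V) (p q : ℕ) {F G : List S → ℝ} (hF : ∀ w, 0 ≤ F w) (hG : ∀ w, 0 ≤ G w) :
    (Y.E (p + q) fun w => Y.sv w * (F (w.take p) * G (w.drop p))) ≤
      (Y.E p fun u => Y.sv u * F u) * (Y.E q fun v => Y.sv v * G v) := by
  rw [Y.E_add p q, ← Y.E_mul_right]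
  refine Y.E_mono fun u hu => ?_
  rw [← Y.E_mul_left]
  refine Y.E_mono fun v _ => ?_
  have h1 : (u ++ v).take p = u := by rw [← hu]; exact List.take_left
  have h2 : (u ++ v).drop p = v := by rw [← hu]; exact List.drop_left
  rw [h1, h2]
  calc Y.sv (u ++ v) * (F u * G v) ≤ (Y.sv u * Y.sv v) * (F u * G v) :=
        mul_le_mul_of_nonneg_right (Y.sv_append_le u v) (mul_nonneg (hF u) (hG v))
    _ = Y.sv u * F u * (Y.sv v * G v) := by ring
-- END split2

-- BEGIN oct_prod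
omit [Fintype S] in
private theorem oct_prod_left {i n : ℕ} (h : i < n) {u w : List S} (hu : u.length = 2 ^ n) :
    bl i (u ++ w) = bl i u := by
  have h2 : 2 ^ (i + 1) ≤ 2 ^ n := Nat.pow_le_pow_right (by norm_num) h
  rw [pow_succ] at h2
  unfold bl
  rw [List.drop_append_of_le_length (by omega), List.take_append_of_le_length]
  rw [List.length_drop]
  omega

omit [Fintype S] in
private theorem oct_prod_last {n : ℕ} {u w : List S} (hu : u.length = 2 ^ n)
    (hw : w.length = 2 ^ n) : bl n (u ++ w) = w := by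
  unfold bl
  rw [← hu, List.drop_left, hu, ← hw, List.take_length]

private theorem oct_prod_all (Y : Sys S V) (f : ℕ → List S → ℝ) (hf : ∀ i w, 0 ≤ f i w) (n : ℕ) :
    (Y.E (2 ^ n) fun u => Y.sv u * ∏ i ∈ range n, f i (bl i u)) ≤
      Y.a 1 * ∏ i ∈ range n, (Y.E (2 ^ i) fun w => Y.sv w * f i w) := by
  induction n with
  | zero =>
    simp only [pow_zero, Finset.range_zero, Finset.prod_empty, mul_one]
    exact le_of_eq rfl
  | succ n ih =>
    have h0 : 0 ≤ (Y.E (2 ^ n) fun w => Y.sv w * f n w) :=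
      Y.E_nonneg' fun w => mul_nonneg (Y.sv_nonneg w) (hf n w)
    have h1 : (Y.E (2 ^ (n + 1)) fun u => Y.sv u * ∏ i ∈ range (n + 1), f i (bl i u)) ≤
        (Y.E (2 ^ n) fun u => Y.sv u * ∏ i ∈ range n, f i (bl i u)) *
          (Y.E (2 ^ n) fun w => Y.sv w * f n w) := by
      rw [pow_succ, mul_two, Y.E_add, ← Y.E_mul_right]
      refine Y.E_mono fun u hu => ?_
      rw [← Y.E_mul_left]
      refine Y.E_mono fun w hw => ?_
      rw [Finset.prod_range_succ, oct_prod_last hu hw]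
      have h2 : ∏ i ∈ range n, f i (bl i (u ++ w)) = ∏ i ∈ range n, f i (bl i u) :=
        Finset.prod_congr rfl fun i hi => by rw [oct_prod_left (Finset.mem_range.1 hi) hu]
      rw [h2]
      have h3 : 0 ≤ ∏ i ∈ range n, f i (bl i u) := Finset.prod_nonneg fun i _ => hf i _
      calc Y.sv (u ++ w) * ((∏ i ∈ range n, f i (bl i u)) * f n w)
          ≤ (Y.sv u * Y.sv w) * ((∏ i ∈ range n, f i (bl i u)) * f n w) :=
            mul_le_mul_of_nonneg_right (Y.sv_append_le u w) (mul_nonneg h3 (hf n w))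
        _ = _ := by ring
    refine h1.trans ?_
    rw [Finset.prod_range_succ, ← mul_assoc]
    exact mul_le_mul_of_nonneg_right ih h0

theorem oct_prod (Y : Sys S V) (hK : ∀ n, Y.a n ≤ K) (φ : ℕ → List S → ℝ) (hφ : ∀ i w, 0 ≤ φ i w)
    (n N : ℕ) (hN : 2 ^ n ≤ N) :
    (Y.E N fun u => Y.sv u * ∏ i ∈ range n, φ i (bl i u)) ≤
      K ^ 2 * ∏ i ∈ range n, (Y.E (2 ^ i) fun w => Y.sv w * φ i w) := by
  have hK0 : 0 ≤ K := (Y.a_nonneg 0).trans (hK 0)
  obtain ⟨r, rfl⟩ := Nat.exists_eq_add_of_le hN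
  have h0 : 0 ≤ ∏ i ∈ range n, (Y.E (2 ^ i) fun w => Y.sv w * φ i w) :=
    Finset.prod_nonneg fun i _ => Y.E_nonneg' fun w => mul_nonneg (Y.sv_nonneg w) (hφ i w)
  have h1 : (Y.E (2 ^ n + r) fun u => Y.sv u * ∏ i ∈ range n, φ i (bl i u)) ≤
      (Y.E (2 ^ n) fun u => Y.sv u * ∏ i ∈ range n, φ i (bl i u)) * Y.a r := by
    rw [Y.E_add, ← Y.E_mul_right]
    refine Y.E_mono fun u hu => ?_
    unfold Sys.a
    rw [← Y.E_mul_left]
    refine Y.E_mono fun w _ => ?_
    have h2 : ∏ i ∈ range n, φ i (bl i (u ++ w)) = ∏ i ∈ range n, φ i (bl i u) :=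
      Finset.prod_congr rfl fun i hi => by rw [oct_prod_left (Finset.mem_range.1 hi) hu]
    rw [h2]
    have h3 : 0 ≤ ∏ i ∈ range n, φ i (bl i u) := Finset.prod_nonneg fun i _ => hφ i _
    calc Y.sv (u ++ w) * ∏ i ∈ range n, φ i (bl i u)
        ≤ (Y.sv u * Y.sv w) * ∏ i ∈ range n, φ i (bl i u) :=
          mul_le_mul_of_nonneg_right (Y.sv_append_le u w) h3
      _ = _ := by ring
  refine h1.trans ?_
  have h2 := oct_prod_all Y φ hφ n
  calc (Y.E (2 ^ n) fun u => Y.sv u * ∏ i ∈ range n, φ i (bl i u)) * Y.a r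
      ≤ (Y.a 1 * ∏ i ∈ range n, (Y.E (2 ^ i) fun w => Y.sv w * φ i w)) * Y.a r :=
        mul_le_mul_of_nonneg_right h2 (Y.a_nonneg r)
    _ ≤ (K * ∏ i ∈ range n, (Y.E (2 ^ i) fun w => Y.sv w * φ i w)) * K := by
        refine mul_le_mul (mul_le_mul_of_nonneg_right (hK 1) h0) (hK r) (Y.a_nonneg r)
          (mul_nonneg hK0 h0)
    _ = _ := by ring
-- END oct_prod

-- BEGIN blk_prod
theorem blk_prod (Y : Sys S V) (φ : List S → ℝ) (hφ : ∀ w, 0 ≤ φ w) (L M : ℕ) :
    (Y.E (M * L) fun w => Y.sv w * ∏ i ∈ range M, φ (bk L i w)) ≤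
      (Y.E L fun v => Y.sv v * φ v) ^ M := by
  induction M with
  | zero => simp
  | succ M ih =>
    have h0 : 0 ≤ (Y.E L fun v => Y.sv v * φ v) :=
      Y.E_nonneg' fun w => mul_nonneg (Y.sv_nonneg w) (hφ w)
    have h1 : (Y.E ((M + 1) * L) fun w => Y.sv w * ∏ i ∈ range (M + 1), φ (bk L i w)) ≤
        (Y.E (M * L) fun w => Y.sv w * ∏ i ∈ range M, φ (bk L i w)) *
          (Y.E L fun v => Y.sv v * φ v) := by
      rw [Nat.succ_mul, Y.E_add, ← Y.E_mul_right]
      refine Y.E_mono fun u hu => ?_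
      rw [← Y.E_mul_left]
      refine Y.E_mono fun w hw => ?_
      rw [Finset.prod_range_succ]
      have h2 : ∏ i ∈ range M, φ (bk L i (u ++ w)) = ∏ i ∈ range M, φ (bk L i u) := by
        refine Finset.prod_congr rfl fun i hi => ?_
        have h3 : (i + 1) * L ≤ M * L := Nat.mul_le_mul_right L (Finset.mem_range.1 hi)
        rw [Nat.succ_mul] at h3
        unfold bk
        rw [List.drop_append_of_le_length (by omega), List.take_append_of_le_length]
        rw [List.length_drop]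
        omega
      have h4 : bk L M (u ++ w) = w := by
        unfold bk
        rw [← hu, List.drop_left, ← hw, List.take_length]
      rw [h2, h4]
      have h3 : 0 ≤ ∏ i ∈ range M, φ (bk L i u) := Finset.prod_nonneg fun i _ => hφ _
      calc Y.sv (u ++ w) * ((∏ i ∈ range M, φ (bk L i u)) * φ w)
          ≤ (Y.sv u * Y.sv w) * ((∏ i ∈ range M, φ (bk L i u)) * φ w) :=
            mul_le_mul_of_nonneg_right (Y.sv_append_le u w) (mul_nonneg h3 (hφ w))
        _ = _ := by ring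
    refine h1.trans ?_
    rw [pow_succ]
    exact mul_le_mul_of_nonneg_right ih h0
-- END blk_prod

-- BEGIN blk_one
theorem blk_one (Y : Sys S V) (hK : ∀ n, Y.a n ≤ K) (φ : List S → ℝ) (hφ : ∀ w, 0 ≤ φ w)
    {L R i : ℕ} (hi : i < R) :
    (Y.E (R * L) fun w => Y.sv w * φ (bk L i w)) ≤ K ^ 2 * Y.E L fun v => Y.sv v * φ v := by
  have hK0 : 0 ≤ K := (Y.a_nonneg 0).trans (hK 0)
  obtain ⟨s, rfl⟩ : ∃ s, R = i + (1 + s) := ⟨R - i - 1, by omega⟩
  have h0 : 0 ≤ (Y.E L fun v => Y.sv v * φ v) :=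
    Y.E_nonneg' fun w => mul_nonneg (Y.sv_nonneg w) (hφ w)
  have h1 : (Y.E ((i + (1 + s)) * L) fun w => Y.sv w * φ (bk L i w)) ≤
      Y.a (i * L) * ((Y.E L fun v => Y.sv v * φ v) * Y.a (s * L)) := by
    have e : (i + (1 + s)) * L = i * L + (L + s * L) := by ring
    rw [e, Y.E_add]
    unfold Sys.a
    rw [← Y.E_mul_right]
    refine Y.E_mono fun u hu => ?_
    rw [Y.E_add, ← Y.E_mul_right, ← Y.E_mul_left]
    refine Y.E_mono fun v hv => ?_
    rw [← Y.E_mul_left, ← Y.E_mul_left]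
    refine Y.E_mono fun r _ => ?_
    have h4 : bk L i (u ++ (v ++ r)) = v := by
      unfold bk
      rw [← hu, List.drop_left, ← hv, List.take_left]
    rw [h4]
    have h9 : Y.sv (u ++ (v ++ r)) ≤ Y.sv u * (Y.sv v * Y.sv r) :=
      (Y.sv_append_le u (v ++ r)).trans
        (mul_le_mul_of_nonneg_left (Y.sv_append_le v r) (Y.sv_nonneg u))
    calc Y.sv (u ++ (v ++ r)) * φ v ≤ (Y.sv u * (Y.sv v * Y.sv r)) * φ v :=
          mul_le_mul_of_nonneg_right h9 (hφ v)
      _ = _ := by ring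
  refine h1.trans ?_
  calc Y.a (i * L) * ((Y.E L fun v => Y.sv v * φ v) * Y.a (s * L))
      ≤ K * ((Y.E L fun v => Y.sv v * φ v) * K) := by
        refine mul_le_mul (hK _) (mul_le_mul_of_nonneg_left (hK _) h0)
          (mul_nonneg h0 (Y.a_nonneg _)) hK0
    _ = _ := by ring
-- END blk_one

-- BEGIN Xg_blk
theorem Xg_blk (Y : Sys S V) (γ : List S) (L R : ℕ) (w : List S) (hw : w.length = R * L) :
    |Xg Y γ w - ∑ i ∈ range R, Xg Y γ (bk L i w)| ≤ R * γ.length := by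
  induction R generalizing w with
  | zero =>
    have h0 := Xg_le Y γ w
    rw [hw, Nat.zero_mul, Nat.cast_zero] at h0
    rw [Finset.sum_range_zero, sub_zero, Nat.cast_zero, zero_mul]
    exact h0
  | succ R ih =>
    have hs : (R + 1) * L = R * L + L := Nat.succ_mul R L
    have hl : (w.take (R * L)).length = R * L := by
      rw [List.length_take, hw, hs]
      exact Nat.min_eq_left (Nat.le_add_right _ _)
    have h1 := ih (w.take (R * L)) hl
    have h2 := Xg_append Y γ (w.take (R * L)) (w.drop (R * L))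
    rw [List.take_append_drop] at h2
    have h3 : ∀ i ∈ range R, bk L i (w.take (R * L)) = bk L i w := by
      intro i hi
      have hi' : i + 1 ≤ R := Finset.mem_range.1 hi
      have h5 : (i + 1) * L ≤ R * L := Nat.mul_le_mul_right L hi'
      rw [Nat.succ_mul] at h5
      unfold bk
      rw [List.drop_take, List.take_take, Nat.min_eq_left (by omega)]
    have h4 : bk L R w = w.drop (R * L) := by
      unfold bk
      refine List.take_of_length_le ?_
      rw [List.length_drop, hw, hs]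
      omega
    rw [Finset.sum_congr rfl (fun i hi => by rw [h3 i hi])] at h1
    rw [Finset.sum_range_succ, h4, Nat.cast_succ, add_mul, one_mul]
    rw [abs_le] at h1 h2 ⊢
    constructor <;> linarith [h1.1, h1.2, h2.1, h2.2]
-- END Xg_blk

-- BEGIN am_bar
private theorem am_bar_E (Y : Sys S V) (n : ℕ) (F : List S → ℝ) :
    (Y.E n fun u => F (bar Y u)) = Y.E n F := by
  have h1 := Y.E_neg n (fun w => F w.reverse)
  rw [Y.E_reverse] at h1
  exact h1

private theorem am_bar_sv (Y : Sys S V) (w : List S) : Y.sv (bar Y w) = Y.sv w := by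
  simp [bar]

theorem am_bar (Y : Sys S V) (γ : List S) (t : ℝ) (n : ℕ) :
    (Y.E n fun w => Y.sv w * ind (Xg Y γ w ≤ -(t * n))) = am Y γ t n := by
  unfold am
  rw [← am_bar_E Y n fun w => Y.sv w * ind (t * n ≤ Xg Y γ w)]
  refine Y.E_congr fun w _ => ?_
  rw [am_bar_sv, Xg_bar]
  congr 1
  exact ind_congr (by rw [le_neg])
-- END am_bar

-- BEGIN am_anti
theorem am_anti (Y : Sys S V) (γ : List S) {t t' : ℝ} (h : t ≤ t') (n : ℕ) :
    am Y γ t' n ≤ am Y γ t n := by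
  unfold am
  refine Y.E_mono fun w _ => ?_
  refine mul_le_mul_of_nonneg_left (ind_mono fun h1 => ?_) (Y.sv_nonneg w)
  exact (mul_le_mul_of_nonneg_right h (Nat.cast_nonneg n)).trans h1

theorem am_big (Y : Sys S V) (γ : List S) {t : ℝ} (h : 1 < t) {n : ℕ} (hn : 1 ≤ n) :
    am Y γ t n = 0 := by
  unfold am
  rw [← Y.E_zero_fun n]
  refine Y.E_congr fun w hw => ?_
  rw [ind_not, mul_zero]
  intro h1
  have h2 := (le_abs_self _).trans (Xg_le Y γ w)
  rw [hw] at h2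
  have h3 : (0 : ℝ) < n := by exact_mod_cast hn
  nlinarith
-- END am_anti

-- BEGIN down_pt
/-- pointwise: average over the `R` blocks of length `L` -/
theorem down_pt (Y : Sys S V) (γ : List S) {t1 t2 e : ℝ} (he : 0 < e) (ht2 : 0 ≤ t2)
    (h12 : t2 ≤ t1 + e) (L R : ℕ) (hL : 1 ≤ L) (hR : 1 ≤ R) (hk : (γ.length : ℝ) ≤ e * L)
    (w : List S) (hw : w.length = R * L) (hX : t1 * (R * L : ℕ) ≤ Xg Y γ w) :
    3 * e ≤ 5 * e * ((R : ℝ)⁻¹ * ∑ i ∈ range R, ind ((t1 - 4 * e) * L ≤ Xg Y γ (bk L i w))) +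
      (R : ℝ)⁻¹ * ∑ i ∈ range R, ind (t2 * L ≤ Xg Y γ (bk L i w)) := by
  classical
  have hL0 : (0 : ℝ) < L := by exact_mod_cast hL
  have hR0 : (0 : ℝ) < R := by exact_mod_cast hR
  have hlen : ∀ i ∈ range R, ((bk L i w).length : ℝ) ≤ L := by
    intro i _
    have : (bk L i w).length ≤ L := by
      unfold bk
      exact List.length_take_le _ _
    exact_mod_cast this
  have hpt : ∀ i ∈ range R, Xg Y γ (bk L i w) ≤ L * ((t1 - 4 * e) +
      5 * e * ind ((t1 - 4 * e) * L ≤ Xg Y γ (bk L i w)) + ind (t2 * L ≤ Xg Y γ (bk L i w))) := by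
    intro i hi
    have h1 : Xg Y γ (bk L i w) ≤ L :=
      ((le_abs_self _).trans (Xg_le Y γ (bk L i w))).trans (hlen i hi)
    set X := Xg Y γ (bk L i w) with hXdef
    by_cases hB : (t1 - 4 * e) * L ≤ X
    · by_cases hC : t2 * L ≤ X
      · rw [ind, if_pos hB, ind, if_pos hC]
        nlinarith
      · rw [ind, if_pos hB, ind, if_neg hC]
        push Not at hC
        nlinarith
    · push Not at hB
      by_cases hC : t2 * L ≤ X
      · rw [ind, if_neg (not_le.mpr hB), ind, if_pos hC]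
        nlinarith
      · rw [ind, if_neg (not_le.mpr hB), ind, if_neg hC]
        nlinarith
  have hsum := Finset.sum_le_sum hpt
  rw [← Finset.mul_sum, Finset.sum_add_distrib, Finset.sum_add_distrib, Finset.sum_const,
    Finset.card_range, nsmul_eq_mul, ← Finset.mul_sum] at hsum
  have hblk := abs_le.mp (Xg_blk Y γ L R w hw)
  have hRk : (R : ℝ) * γ.length ≤ R * (e * L) := mul_le_mul_of_nonneg_left hk hR0.le
  push_cast at hX
  set SB := ∑ i ∈ range R, ind ((t1 - 4 * e) * L ≤ Xg Y γ (bk L i w)) with hSB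
  set SC := ∑ i ∈ range R, ind (t2 * L ≤ Xg Y γ (bk L i w)) with hSC
  have hmain : t1 * (R * L) - R * (e * L) ≤ L * (R * (t1 - 4 * e) + 5 * e * SB + SC) := by
    linarith [hblk.2]
  have hmain2 : R * (3 * e) ≤ 5 * e * SB + SC := by
    have h2 : L * (R * (3 * e)) ≤ L * (5 * e * SB + SC) := by linarith
    exact le_of_mul_le_mul_left h2 hL0
  have h3 : 5 * e * ((R : ℝ)⁻¹ * SB) + (R : ℝ)⁻¹ * SC = (5 * e * SB + SC) / R := by
    field_simp
  rw [h3, le_div_iff₀ hR0]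
  linarith
-- END down_pt

-- BEGIN down_le
theorem down_le (Y : Sys S V) (hK : ∀ n, Y.a n ≤ K) (γ : List S) {t1 t2 e : ℝ} (he : 0 < e)
    (ht2 : 0 ≤ t2) (h12 : t2 ≤ t1 + e) (L R : ℕ) (hL : 1 ≤ L) (hR : 1 ≤ R)
    (hk : (γ.length : ℝ) ≤ e * L) :
    3 * e * am Y γ t1 (R * L) ≤ 5 * e * (K ^ 2 * am Y γ (t1 - 4 * e) L) + K ^ 2 * am Y γ t2 L := by
  have hR0 : (0 : ℝ) < R := by exact_mod_cast hR
  have h1 : 3 * e * am Y γ t1 (R * L) ≤ Y.E (R * L) fun w => Y.sv w *
      (5 * e * ((R : ℝ)⁻¹ * ∑ i ∈ range R, ind ((t1 - 4 * e) * L ≤ Xg Y γ (bk L i w))) +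
        (R : ℝ)⁻¹ * ∑ i ∈ range R, ind (t2 * L ≤ Xg Y γ (bk L i w))) := by
    unfold am
    rw [← Y.E_mul_left]
    refine Y.E_mono fun w hw => ?_
    have h2 : 0 ≤ 5 * e * ((R : ℝ)⁻¹ * ∑ i ∈ range R, ind ((t1 - 4 * e) * L ≤ Xg Y γ (bk L i w))) +
        (R : ℝ)⁻¹ * ∑ i ∈ range R, ind (t2 * L ≤ Xg Y γ (bk L i w)) := by
      have h3 : 0 ≤ ∑ i ∈ range R, ind ((t1 - 4 * e) * L ≤ Xg Y γ (bk L i w)) :=
        Finset.sum_nonneg fun i _ => ind_nonneg _
      have h4 : 0 ≤ ∑ i ∈ range R, ind (t2 * L ≤ Xg Y γ (bk L i w)) :=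
        Finset.sum_nonneg fun i _ => ind_nonneg _
      positivity
    by_cases hX : t1 * (R * L : ℕ) ≤ Xg Y γ w
    · have h3 := down_pt Y γ he ht2 h12 L R hL hR hk w hw hX
      rw [ind_of hX, mul_one, mul_comm]
      exact mul_le_mul_of_nonneg_left h3 (Y.sv_nonneg w)
    · rw [ind_not hX, mul_zero, mul_zero]
      exact mul_nonneg (Y.sv_nonneg w) h2
  refine h1.trans ?_
  have h2 : (Y.E (R * L) fun w => Y.sv w *
      (5 * e * ((R : ℝ)⁻¹ * ∑ i ∈ range R, ind ((t1 - 4 * e) * L ≤ Xg Y γ (bk L i w))) +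
        (R : ℝ)⁻¹ * ∑ i ∈ range R, ind (t2 * L ≤ Xg Y γ (bk L i w)))) =
      5 * e * ((R : ℝ)⁻¹ * ∑ i ∈ range R, Y.E (R * L) fun w => Y.sv w *
        ind ((t1 - 4 * e) * L ≤ Xg Y γ (bk L i w))) +
      (R : ℝ)⁻¹ * ∑ i ∈ range R, Y.E (R * L) fun w => Y.sv w *
        ind (t2 * L ≤ Xg Y γ (bk L i w)) := by
    rw [← Y.E_fsum, ← Y.E_fsum, ← Y.E_mul_left, ← Y.E_mul_left, ← Y.E_mul_left, ← Y.E_fadd]
    refine Y.E_congr fun w _ => ?_
    rw [← Finset.mul_sum, ← Finset.mul_sum]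
    ring
  rw [h2]
  have h3 : ∀ t : ℝ, (R : ℝ)⁻¹ * (∑ i ∈ range R, Y.E (R * L) fun w => Y.sv w *
      ind (t * L ≤ Xg Y γ (bk L i w))) ≤ K ^ 2 * am Y γ t L := by
    intro t
    have h4 : (∑ i ∈ range R, Y.E (R * L) fun w => Y.sv w * ind (t * L ≤ Xg Y γ (bk L i w))) ≤
        ∑ i ∈ range R, K ^ 2 * am Y γ t L :=
      Finset.sum_le_sum fun i hi => blk_one Y hK (fun v => ind (t * L ≤ Xg Y γ v))
        (fun _ => ind_nonneg _) (Finset.mem_range.1 hi)
    rw [Finset.sum_const, Finset.card_range, nsmul_eq_mul] at h4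
    rw [inv_mul_le_iff₀ hR0]
    exact h4
  exact add_le_add (mul_le_mul_of_nonneg_left (h3 _) (by positivity)) (h3 _)
-- END down_le

-- BEGIN am_trunc
/-- cutting off a short end -/
theorem am_trunc (Y : Sys S V) (hK : ∀ n, Y.a n ≤ K) (γ : List S) {t e : ℝ} (ht : 0 ≤ t)
    (L R r : ℕ) (hr : (r : ℝ) + γ.length ≤ e * (R * L : ℕ)) :
    am Y γ t (R * L + r) ≤ K * am Y γ (t - e) (R * L) := by
  have h1 : am Y γ t (R * L + r) ≤ Y.E (R * L + r) fun w => Y.sv w *
      (ind ((t - e) * (R * L : ℕ) ≤ Xg Y γ (w.take (R * L))) * (fun _ : List S => (1 : ℝ))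
        (w.drop (R * L))) := by
    unfold am
    refine Y.E_mono fun w hw => ?_
    refine mul_le_mul_of_nonneg_left ?_ (Y.sv_nonneg w)
    rw [mul_one]
    by_cases hX : t * ((R * L + r : ℕ) : ℝ) ≤ Xg Y γ w
    · have h2 : (t - e) * ((R * L : ℕ) : ℝ) ≤ Xg Y γ (w.take (R * L)) := by
        have h3 := abs_le.mp (Xg_append Y γ (w.take (R * L)) (w.drop (R * L)))
        rw [List.take_append_drop] at h3
        have h4 := (le_abs_self _).trans (Xg_le Y γ (w.drop (R * L)))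
        have h5 : ((w.drop (R * L)).length : ℝ) = r := by
          rw [List.length_drop, hw]
          congr 1
          omega
        rw [h5] at h4
        have h6 : t * ((R * L + r : ℕ) : ℝ) = t * ((R * L : ℕ) : ℝ) + t * r := by
          push_cast
          ring
        rw [h6] at hX
        have h7 : 0 ≤ t * (r : ℝ) := mul_nonneg ht (Nat.cast_nonneg r)
        have h8 : (t - e) * ((R * L : ℕ) : ℝ) = t * ((R * L : ℕ) : ℝ) - e * ((R * L : ℕ) : ℝ) := by
          ring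
        rw [h8]
        linarith [h3.2]
      rw [ind, if_pos hX, ind, if_pos h2]
    · rw [ind, if_neg hX]
      unfold ind
      split_ifs <;> norm_num
  have h2 := split2 Y (R * L) r
    (F := fun u => ind ((t - e) * (R * L : ℕ) ≤ Xg Y γ u)) (G := fun _ => (1 : ℝ))
    (fun w => by unfold ind; split_ifs <;> norm_num) (fun _ => zero_le_one)
  have h3 : (Y.E r fun v => Y.sv v * (1 : ℝ)) ≤ K := by
    have : (Y.E r fun v => Y.sv v * (1 : ℝ)) = Y.a r := by
      unfold Sys.a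
      exact Y.E_congr fun w _ => mul_one _
    rw [this]
    exact hK r
  have h4 : 0 ≤ am Y γ (t - e) (R * L) := by
    unfold am
    refine Y.E_nonneg' fun w => mul_nonneg (Y.sv_nonneg w) ?_
    unfold ind
    split_ifs <;> norm_num
  calc am Y γ t (R * L + r) ≤ _ := h1
    _ ≤ (Y.E (R * L) fun u => Y.sv u * ind ((t - e) * (R * L : ℕ) ≤ Xg Y γ u)) *
        (Y.E r fun v => Y.sv v * (1 : ℝ)) := h2
    _ ≤ am Y γ (t - e) (R * L) * K := mul_le_mul_of_nonneg_left h3 h4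
    _ = K * am Y γ (t - e) (R * L) := mul_comm _ _
-- END am_trunc

-- BEGIN down
theorem down (Y : Sys S V) (h1 : ∀ n, 1 ≤ Y.a n) (hK : ∀ n, Y.a n ≤ K) (γ : List S)
    {t1 t2 e κ : ℝ} (he : 0 < e) (ht1 : 0 ≤ t1) (ht2 : 0 ≤ t2) (h12 : t2 ≤ t1 + e) (hκ : 0 < κ)
    (hf : ∃ᶠ n : ℕ in atTop, κ ≤ am Y γ t1 n)
    (h2 : ∀ x : ℝ, 0 < x → ∀ᶠ n : ℕ in atTop, am Y γ t2 n < x) :
    ∀ᶠ n : ℕ in atTop, κ / (2 * K ^ 3) ≤ am Y γ (t1 - 9 * e) n := by
  have hK1 : 1 ≤ K := (h1 0).trans (hK 0)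
  have hK0 : 0 < K := lt_of_lt_of_le one_pos hK1
  have hx : 0 < e * κ / K ^ 3 := by positivity
  obtain ⟨n0, hn0⟩ := exists_nat_ge ((γ.length : ℝ) / e)
  filter_upwards [h2 _ hx, eventually_ge_atTop (max 1 n0)] with n hn hnn
  have hn1 : 1 ≤ n := (le_max_left 1 n0).trans hnn
  have hnn0 : n0 ≤ n := (le_max_right 1 n0).trans hnn
  have hge : (γ.length : ℝ) ≤ e * n := by
    have h3 : (n0 : ℝ) ≤ n := by exact_mod_cast hnn0
    have h4 : (γ.length : ℝ) / e ≤ n := hn0.trans h3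
    rw [div_le_iff₀ he] at h4
    linarith [mul_comm (n : ℝ) e]
  obtain ⟨m0, hm0⟩ := exists_nat_ge ((n + (γ.length : ℝ)) / e)
  obtain ⟨N, hN, hNκ⟩ := (frequently_atTop.1 hf) (n + m0)
  have hdm : N / n * n + N % n = N := Nat.div_add_mod' N n
  have hr : N % n < n := Nat.mod_lt _ hn1
  have hR : 1 ≤ N / n := (Nat.one_le_div_iff hn1).2 (by omega)
  obtain ⟨R, hRe⟩ : ∃ R, R = N / n := ⟨_, rfl⟩
  obtain ⟨r, hre⟩ : ∃ r, r = N % n := ⟨_, rfl⟩
  rw [← hRe, ← hre] at hdm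
  rw [← hre] at hr
  rw [← hRe] at hR
  have hbig : m0 ≤ R * n := by omega
  have hcond : (r : ℝ) + γ.length ≤ e * (R * n : ℕ) := by
    have h3 : (m0 : ℝ) ≤ (R * n : ℕ) := by exact_mod_cast hbig
    have h4 : (n + (γ.length : ℝ)) / e ≤ (R * n : ℕ) := hm0.trans h3
    rw [div_le_iff₀ he] at h4
    have h5 : (r : ℝ) ≤ n := by exact_mod_cast hr.le
    linarith [mul_comm ((R * n : ℕ) : ℝ) e]
  have hA := am_trunc Y hK γ (t := t1) (e := e) ht1 n R r hcond
  rw [hdm] at hA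
  have hB := down_le Y hK γ (t1 := t1 - e) (t2 := t2) (e := 2 * e) (by linarith) ht2
    (by linarith) n R hn1 hR (by nlinarith [hge, he, (Nat.cast_nonneg n : (0 : ℝ) ≤ n)])
  have h9 : t1 - e - 4 * (2 * e) = t1 - 9 * e := by ring
  rw [h9] at hB
  have hC : K ^ 2 * am Y γ t2 n ≤ e * κ / K := by
    have h3 : K ^ 2 * am Y γ t2 n ≤ K ^ 2 * (e * κ / K ^ 3) :=
      mul_le_mul_of_nonneg_left hn.le (by positivity)
    have h4 : K ^ 2 * (e * κ / K ^ 3) = e * κ / K := by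
      field_simp
    rw [h4] at h3
    exact h3
  have hD : κ / K ≤ am Y γ (t1 - e) (R * n) := by
    rw [div_le_iff₀ hK0]
    linarith [mul_comm K (am Y γ (t1 - e) (R * n))]
  have hE : 3 * (2 * e) * (κ / K) ≤ 3 * (2 * e) * am Y γ (t1 - e) (R * n) :=
    mul_le_mul_of_nonneg_left hD (by linarith)
  have hF : e * κ / K = e * (κ / K) := mul_div_assoc e κ K
  have hG : 5 * (e * (κ / K)) ≤ 10 * (e * (K ^ 2 * am Y γ (t1 - 9 * e) n)) := by
    rw [hF] at hC
    linarith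
  have hH : κ / K ≤ 2 * (K ^ 2 * am Y γ (t1 - 9 * e) n) := by
    have h3 : e * (κ / K) ≤ e * (2 * (K ^ 2 * am Y γ (t1 - 9 * e) n)) := by linarith
    exact le_of_mul_le_mul_left h3 he
  rw [div_le_iff₀ (by positivity)]
  rw [div_le_iff₀ hK0] at hH
  calc κ ≤ 2 * (K ^ 2 * am Y γ (t1 - 9 * e) n) * K := hH
    _ = am Y γ (t1 - 9 * e) n * (2 * K ^ 3) := by ring
-- END down

-- BEGIN pow_pt
theorem pow_pt (Y : Sys S V) (γ : List S) {t1 t2 t ζ lam : ℝ} (ht : t < t2) (hlam : 0 ≤ lam)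
    (L M : ℕ) (hL : 1 ≤ L) (hζ : t2 - t1 + γ.length / L ≤ ζ * (t2 - t)) (w : List S)
    (hw : w.length = M * L) :
    ind (t1 * (M * L : ℕ) ≤ Xg Y γ w) ≤ (∑ i ∈ range M, ind (t2 * L ≤ Xg Y γ (bk L i w))) +
      Real.exp (lam * ζ * M) *
        ∏ i ∈ range M, (ind (t * L ≤ Xg Y γ (bk L i w)) + Real.exp (-lam)) := by
  classical
  have hs0 : 0 ≤ ∑ i ∈ range M, ind (t2 * L ≤ Xg Y γ (bk L i w)) :=
    Finset.sum_nonneg fun _ _ => ind_nonneg _
  have hp0 : 0 ≤ ∏ i ∈ range M, (ind (t * L ≤ Xg Y γ (bk L i w)) + Real.exp (-lam)) :=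
    Finset.prod_nonneg fun _ _ => add_nonneg (ind_nonneg _) (Real.exp_pos _).le
  have he0 := Real.exp_pos (lam * ζ * M)
  by_cases h1 : t1 * (M * L : ℕ) ≤ Xg Y γ w
  swap
  · rw [ind_not h1]
    positivity
  rw [ind_of h1]
  by_cases h2 : ∃ i ∈ range M, t2 * L ≤ Xg Y γ (bk L i w)
  · obtain ⟨i, hi, h3⟩ := h2
    have h4 : ind (t2 * L ≤ Xg Y γ (bk L i w)) ≤
        ∑ i ∈ range M, ind (t2 * L ≤ Xg Y γ (bk L i w)) :=
      Finset.single_le_sum (f := fun i => ind (t2 * L ≤ Xg Y γ (bk L i w)))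
        (fun _ _ => ind_nonneg _) hi
    rw [ind_of h3] at h4
    have h5 : 0 ≤ Real.exp (lam * ζ * M) *
        ∏ i ∈ range M, (ind (t * L ≤ Xg Y γ (bk L i w)) + Real.exp (-lam)) :=
      mul_nonneg he0.le hp0
    linarith
  push Not at h2
  obtain ⟨B, hB⟩ : ∃ B : Finset ℕ, B = (range M).filter fun i => Xg Y γ (bk L i w) < t * L :=
    ⟨_, rfl⟩
  have hLpos : (0 : ℝ) < L := by exact_mod_cast hL
  have hcard : (B.card : ℝ) ≤ ζ * M := by
    have h3 := Xg_blk Y γ L M w hw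
    have h4 := (abs_le.1 h3).2
    have h5 : ∑ i ∈ range M, Xg Y γ (bk L i w) ≤
        ∑ i ∈ range M, (t2 * L - (if i ∈ B then (t2 - t) * L else 0)) := by
      refine Finset.sum_le_sum fun i hi => ?_
      by_cases hiB : i ∈ B
      · rw [if_pos hiB]
        rw [hB, Finset.mem_filter] at hiB
        have := hiB.2
        linarith
      · rw [if_neg hiB]
        have := h2 i hi
        linarith
    have h6 : ∑ i ∈ range M, (t2 * L - (if i ∈ B then (t2 - t) * (L : ℝ) else 0)) =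
        M * (t2 * L) - B.card * ((t2 - t) * L) := by
      rw [Finset.sum_sub_distrib, Finset.sum_const, Finset.card_range, nsmul_eq_mul,
        ← Finset.sum_filter, Finset.sum_const, nsmul_eq_mul]
      congr 3
      rw [hB]
      congr 1
      ext i
      simp only [Finset.mem_filter]
      tauto
    rw [h6] at h5
    push_cast at h1
    have h7 : (B.card : ℝ) * ((t2 - t) * L) ≤ ζ * M * ((t2 - t) * L) := by
      have h8 : (M : ℝ) * ((t2 - t1 + γ.length / L) * L) ≤ M * (ζ * (t2 - t) * L) :=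
        mul_le_mul_of_nonneg_left (mul_le_mul_of_nonneg_right hζ hLpos.le) (Nat.cast_nonneg _)
      have h9 : (t2 - t1 + (γ.length : ℝ) / L) * L = (t2 - t1) * L + γ.length := by
        field_simp
      rw [h9] at h8
      nlinarith
    have h10 : 0 < (t2 - t) * (L : ℝ) := mul_pos (by linarith) hLpos
    exact le_of_mul_le_mul_right h7 h10
  have hprod : Real.exp (-lam) ^ B.card ≤
      ∏ i ∈ range M, (ind (t * L ≤ Xg Y γ (bk L i w)) + Real.exp (-lam)) := by
    have h3 : ∏ i ∈ range M, (if i ∈ B then Real.exp (-lam) else 1) = Real.exp (-lam) ^ B.card := by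
      rw [← Finset.prod_filter, Finset.prod_const]
      congr 2
      rw [hB]
      ext i
      simp only [Finset.mem_filter]
      tauto
    rw [← h3]
    refine Finset.prod_le_prod (fun i _ => ?_) fun i hi => ?_
    · split_ifs
      · exact (Real.exp_pos _).le
      · exact zero_le_one
    · by_cases hiB : i ∈ B
      · rw [if_pos hiB]
        have := ind_nonneg (t * L ≤ Xg Y γ (bk L i w))
        linarith
      · rw [if_neg hiB]
        have h4 : t * L ≤ Xg Y γ (bk L i w) := by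
          by_contra hcon
          exact hiB (by rw [hB, Finset.mem_filter]; exact ⟨hi, not_le.1 hcon⟩)
        rw [ind_of h4]
        have := Real.exp_pos (-lam)
        linarith
  have h11 : (1 : ℝ) ≤ Real.exp (lam * ζ * M) * Real.exp (-lam) ^ B.card := by
    rw [← Real.exp_nat_mul, ← Real.exp_add]
    refine Real.one_le_exp ?_
    have := mul_le_mul_of_nonneg_left hcard hlam
    nlinarith
  have h12 := mul_le_mul_of_nonneg_left hprod he0.le
  linarith
-- END pow_pt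

-- BEGIN am_pow
theorem am_pow (Y : Sys S V) (hK : ∀ n, Y.a n ≤ K) (γ : List S) {t1 t2 t ζ lam : ℝ} (ht : t < t2)
    (hlam : 0 ≤ lam) (L M : ℕ) (hL : 1 ≤ L) (hζ : t2 - t1 + γ.length / L ≤ ζ * (t2 - t)) :
    am Y γ t1 (M * L) ≤ M * (K ^ 2 * am Y γ t2 L) +
      Real.exp (lam * ζ * M) * (am Y γ t L + K * Real.exp (-lam)) ^ M := by
  have h1 : am Y γ t1 (M * L) ≤ (Y.E (M * L) fun w => ∑ i ∈ range M, Y.sv w *
      ind (t2 * L ≤ Xg Y γ (bk L i w))) + Real.exp (lam * ζ * M) * Y.E (M * L) fun w => Y.sv w *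
        ∏ i ∈ range M, (ind (t * L ≤ Xg Y γ (bk L i w)) + Real.exp (-lam)) := by
    unfold am
    rw [← Y.E_mul_left, ← Y.E_fadd]
    refine Y.E_mono fun w hw => ?_
    have h2 := mul_le_mul_of_nonneg_left (pow_pt Y γ ht hlam L M hL hζ w hw) (Y.sv_nonneg w)
    refine h2.trans (le_of_eq ?_)
    rw [← Finset.mul_sum]
    ring
  refine h1.trans (add_le_add ?_ (mul_le_mul_of_nonneg_left ?_ (Real.exp_pos _).le))
  · rw [Y.E_fsum]
    have h4 : (∑ i ∈ range M, Y.E (M * L) fun w => Y.sv w * ind (t2 * L ≤ Xg Y γ (bk L i w))) ≤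
        ∑ i ∈ range M, K ^ 2 * am Y γ t2 L :=
      Finset.sum_le_sum fun i hi => blk_one Y hK (fun v => ind (t2 * L ≤ Xg Y γ v))
        (fun _ => ind_nonneg _) (Finset.mem_range.1 hi)
    rw [Finset.sum_const, Finset.card_range, nsmul_eq_mul] at h4
    exact h4
  · have h2 := blk_prod Y (fun v => ind (t * L ≤ Xg Y γ v) + Real.exp (-lam))
      (fun v => add_nonneg (ind_nonneg _) (Real.exp_pos _).le) L M
    refine h2.trans (pow_le_pow_left₀ ?_ ?_ M)
    · exact Y.E_nonneg' fun v => mul_nonneg (Y.sv_nonneg v)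
        (add_nonneg (ind_nonneg _) (Real.exp_pos _).le)
    · have h3 : (Y.E L fun v => Y.sv v * (ind (t * L ≤ Xg Y γ v) + Real.exp (-lam))) =
          am Y γ t L + Y.a L * Real.exp (-lam) := by
        unfold am Sys.a
        rw [← Y.E_mul_right, ← Y.E_fadd]
        refine Y.E_congr fun v _ => ?_
        ring
      rw [h3]
      have h4 := mul_le_mul_of_nonneg_right (hK L) (Real.exp_pos (-lam)).le
      linarith
-- END am_pow

-- BEGIN arr_one
theorem arr_one (Y : Sys S V) (h1 : ∀ n, 1 ≤ Y.a n) (hK : ∀ n, Y.a n ≤ K) (γ : List S) {δ κ : ℝ}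
    (hδ : 0 < δ) (hκ : 0 < κ) (h : ∃ᶠ n : ℕ in atTop, κ ≤ am Y γ δ n) :
    ∃ t : ℝ, 0 < t ∧ ∀ θ : ℝ, 0 < θ → ∀ᶠ n : ℕ in atTop, 1 - θ ≤ am Y γ t n := by
  have hK1 : 1 ≤ K := (h1 0).trans (hK 0)
  have hK0 : 0 < K := lt_of_lt_of_le one_pos hK1
  obtain ⟨T, hT⟩ : ∃ T : Set ℝ,
      T = {t : ℝ | ∃ x : ℝ, 0 < x ∧ ∃ᶠ n : ℕ in atTop, x ≤ am Y γ t n} := ⟨_, rfl⟩
  have hTb : ∀ t ∈ T, t ≤ 1 := by
    intro t ht
    rw [hT] at ht
    obtain ⟨x, hx, hf⟩ := ht
    by_contra hcon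
    obtain ⟨n, hn, hn1⟩ := (hf.and_eventually (eventually_ge_atTop 1)).exists
    rw [am_big Y γ (not_le.1 hcon) hn1] at hn
    linarith
  have hbdd : BddAbove T := ⟨1, fun t ht => hTb t ht⟩
  have hδT : δ ∈ T := by rw [hT]; exact ⟨κ, hκ, h⟩
  obtain ⟨τ, hτ⟩ : ∃ τ : ℝ, τ = sSup T := ⟨_, rfl⟩
  have hτ0 : 0 < τ := by rw [hτ]; exact lt_of_lt_of_le hδ (le_csSup hbdd hδT)
  have hnot : ∀ t2 : ℝ, τ < t2 → ∀ x : ℝ, 0 < x → ∀ᶠ n : ℕ in atTop, am Y γ t2 n < x := by
    intro t2 ht2 x hx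
    by_contra hcon
    rw [Filter.not_eventually] at hcon
    have h3 : t2 ∈ T := by
      rw [hT]
      exact ⟨x, hx, hcon.mono fun n hn => not_lt.1 hn⟩
    have h4 := le_csSup hbdd h3
    rw [← hτ] at h4
    linarith
  have hnn : ∀ n : ℕ, 1 ≤ n → 0 ≤ am Y γ (τ / 2) n := by
    intro n hn
    have h2 := am_anti Y γ (le_max_left (τ / 2) 2) n
    rw [am_big Y γ (lt_of_lt_of_le one_lt_two (le_max_right (τ / 2) 2)) hn] at h2
    exact h2
  refine ⟨τ / 2, by linarith, ?_⟩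
  intro θ hθ
  by_cases hθ1 : 1 ≤ θ
  · filter_upwards [eventually_ge_atTop 1] with n hn
    have h2 := hnn n hn
    linarith
  rw [not_le] at hθ1
  obtain ⟨lam, hlam⟩ : ∃ lam : ℝ, lam = Real.log (2 * K / θ) := ⟨_, rfl⟩
  have hq : 1 < 2 * K / θ := by
    rw [lt_div_iff₀ hθ]; linarith
  have hlam0 : 0 < lam := by rw [hlam]; exact Real.log_pos hq
  have hexp : K * Real.exp (-lam) = θ / 2 := by
    rw [Real.exp_neg, hlam, Real.exp_log (by positivity)]
    field_simp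
  obtain ⟨ζ, hζ⟩ : ∃ ζ : ℝ, ζ = θ / (4 * lam) := ⟨_, rfl⟩
  have hζ0 : 0 < ζ := by rw [hζ]; positivity
  have hlz : lam * ζ = θ / 4 := by rw [hζ]; field_simp
  obtain ⟨e, he⟩ : ∃ e : ℝ, e = min (ζ * τ / 22) τ := ⟨_, rfl⟩
  have he0 : 0 < e := by rw [he]; exact lt_min (by positivity) hτ0
  have he1 : e ≤ ζ * τ / 22 := by rw [he]; exact min_le_left _ _
  have he2 : e ≤ τ := by rw [he]; exact min_le_right _ _
  obtain ⟨t1, ht1, ht1'⟩ := exists_lt_of_lt_csSup ⟨δ, hδT⟩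
    (show τ - e / 2 < sSup T by rw [← hτ]; linarith)
  have ht1n : t1 ≤ τ := by rw [hτ]; exact le_csSup hbdd ht1
  have ht1x := ht1
  rw [hT] at ht1x
  obtain ⟨x, hx, hf⟩ := ht1x
  have hdown := down Y h1 hK γ (t1 := t1) (t2 := τ + e / 2) he0 (by linarith) (by linarith)
    (by linarith) hx hf (hnot (τ + e / 2) (by linarith))
  obtain ⟨y, hy⟩ : ∃ y : ℝ, y = x / (2 * K ^ 3) := ⟨_, rfl⟩
  have hy0 : 0 < y := by rw [hy]; positivity
  rw [← hy] at hdown
  obtain ⟨M, hM1, hM⟩ : ∃ M : ℕ, 1 ≤ M ∧ Real.exp (-(θ * M / 4)) < y / 2 := by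
    have h2 : Tendsto (fun M : ℕ => Real.exp (-(θ * M / 4))) atTop (𝓝 0) := by
      apply Real.tendsto_exp_atBot.comp
      apply tendsto_neg_atTop_atBot.comp
      have h3 : Tendsto (fun M : ℕ => (θ / 4) * (M : ℝ)) atTop atTop :=
        tendsto_natCast_atTop_atTop.const_mul_atTop (by positivity)
      refine h3.congr fun M => by ring
    obtain ⟨M, h3, h4⟩ := ((h2.eventually (gt_mem_nhds (half_pos hy0))).and
      (eventually_ge_atTop 1)).exists
    exact ⟨M, h4, h3⟩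
  have hM0 : (0 : ℝ) < M := by exact_mod_cast hM1
  have hmul : Tendsto (fun n : ℕ => M * n) atTop atTop :=
    tendsto_id.const_mul_atTop' hM1
  have hsm := hnot (τ + e / 2) (by linarith) (y / (2 * (M * K ^ 2))) (by positivity)
  have hlen : ∀ᶠ n : ℕ in atTop, (γ.length : ℝ) / n ≤ e := by
    have h2 : Tendsto (fun n : ℕ => (γ.length : ℝ) / n) atTop (𝓝 0) :=
      tendsto_const_div_atTop_nhds_zero_nat _
    exact (h2.eventually (gt_mem_nhds he0)).mono fun n hn => hn.le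
  filter_upwards [hmul.eventually hdown, hsm, hlen, eventually_ge_atTop 1] with n hd hs hl hn
  by_contra hcon
  rw [not_le] at hcon
  have hc : τ + e / 2 - (t1 - 9 * e) + (γ.length : ℝ) / n ≤ ζ * (τ + e / 2 - τ / 2) := by
    have h2 : 0 ≤ ζ * e := by positivity
    nlinarith
  have hp := am_pow Y hK γ (t1 := t1 - 9 * e) (t2 := τ + e / 2) (t := τ / 2) (ζ := ζ) (lam := lam)
    (by linarith) hlam0.le n M hn hc
  have h5 : (M : ℝ) * (K ^ 2 * am Y γ (τ + e / 2) n) < y / 2 := by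
    have h6 : (M : ℝ) * K ^ 2 * am Y γ (τ + e / 2) n < (M : ℝ) * K ^ 2 * (y / (2 * (M * K ^ 2))) :=
      mul_lt_mul_of_pos_left hs (by positivity)
    have h7 : (M : ℝ) * K ^ 2 * (y / (2 * (M * K ^ 2))) = y / 2 := by field_simp
    rw [h7] at h6
    calc (M : ℝ) * (K ^ 2 * am Y γ (τ + e / 2) n) = (M : ℝ) * K ^ 2 * am Y γ (τ + e / 2) n := by ring
      _ < y / 2 := h6
  have h8 : (am Y γ (τ / 2) n + K * Real.exp (-lam)) ^ M ≤ Real.exp (-(θ / 2) * M) := by
    rw [hexp]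
    calc (am Y γ (τ / 2) n + θ / 2) ^ M ≤ (Real.exp (-(θ / 2))) ^ M := by
          apply pow_le_pow_left₀ (by have := hnn n hn; linarith)
          have h9 := Real.add_one_le_exp (-(θ / 2))
          linarith
      _ = Real.exp (-(θ / 2) * M) := by rw [← Real.exp_nat_mul]; congr 1; ring
  have h9 : Real.exp (lam * ζ * M) * (am Y γ (τ / 2) n + K * Real.exp (-lam)) ^ M < y / 2 := by
    calc Real.exp (lam * ζ * M) * (am Y γ (τ / 2) n + K * Real.exp (-lam)) ^ M
        ≤ Real.exp (lam * ζ * M) * Real.exp (-(θ / 2) * M) :=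
          mul_le_mul_of_nonneg_left h8 (Real.exp_pos _).le
      _ = Real.exp (-(θ * M / 4)) := by
          rw [hlz, ← Real.exp_add]; congr 1; ring
      _ < y / 2 := hM
  linarith
-- END arr_one

-- BEGIN arr_freq
theorem arr_freq (Y : Sys S V) (hno : ¬ NoArr Y) : ∃ γ : List S, ∃ δ : ℝ, 0 < δ ∧ ∃ κ : ℝ, 0 < κ ∧
    ∃ᶠ n : ℕ in atTop, κ ≤ am Y γ δ n := by
  classical
  unfold NoArr at hno
  push Not at hno
  obtain ⟨k, δ, hδ, n0, hn0⟩ := hno
  have hS : ∀ n ≥ n0, δ < 2 * ∑ f : Fin k → S, am Y (List.ofFn f) δ n := by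
    intro n hn
    refine lt_of_lt_of_le (hn0 n hn) ?_
    have h1 : (Y.E n fun w => Y.sv w * ind (∃ γ : List S, γ.length = k ∧
        δ * n ≤ |(cnt γ w : ℝ) - cnt (bar Y γ) w|)) ≤
        Y.E n fun w => ∑ f : Fin k → S, (Y.sv w * ind (δ * n ≤ Xg Y (List.ofFn f) w) +
          Y.sv w * ind (Xg Y (List.ofFn f) w ≤ -(δ * n))) := by
      refine Y.E_mono fun w _ => ?_
      have hsv : 0 ≤ Y.sv w := by unfold Sys.sv; split_ifs <;> norm_num
      have hnn : ∀ f : Fin k → S, 0 ≤ Y.sv w * ind (δ * n ≤ Xg Y (List.ofFn f) w) +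
          Y.sv w * ind (Xg Y (List.ofFn f) w ≤ -(δ * n)) := fun f =>
        add_nonneg (mul_nonneg hsv (ind_nonneg _)) (mul_nonneg hsv (ind_nonneg _))
      by_cases hex : ∃ γ : List S, γ.length = k ∧ δ * n ≤ |(cnt γ w : ℝ) - cnt (bar Y γ) w|
      · obtain ⟨γ, hγ, hle⟩ := hex
        rw [ind_of ⟨γ, hγ, hle⟩, mul_one]
        have hf : List.ofFn (fun i : Fin k => γ.get (Fin.cast hγ.symm i)) = γ := by
          apply List.ext_getElem
          · simp [hγ]
          · intro i h1 h2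
            simp
        refine le_trans ?_ (Finset.single_le_sum (fun f _ => hnn f)
          (Finset.mem_univ (fun i : Fin k => γ.get (Fin.cast hγ.symm i))))
        simp only [hf]
        rcases le_abs.1 hle with h | h
        · rw [ind_of (show δ * n ≤ Xg Y γ w from h), mul_one]
          have := mul_nonneg hsv (ind_nonneg (Xg Y γ w ≤ -(δ * n)))
          linarith
        · rw [ind_of (show Xg Y γ w ≤ -(δ * n) by
            have : δ * n ≤ -(Xg Y γ w) := h
            linarith), mul_one]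
          have := mul_nonneg hsv (ind_nonneg (δ * n ≤ Xg Y γ w))
          linarith
      · rw [ind_not hex, mul_zero]
        exact Finset.sum_nonneg fun f _ => hnn f
    refine h1.trans (le_of_eq ?_)
    rw [Y.E_fsum_univ]
    rw [Finset.mul_sum]
    refine Finset.sum_congr rfl fun f _ => ?_
    rw [Y.E_fadd, am_bar Y (List.ofFn f) δ n]
    unfold am
    ring
  by_contra hcon
  push Not at hcon
  set N : ℝ := (Fintype.card (Fin k → S) : ℝ) with hN
  have hN0 : 0 ≤ N := Nat.cast_nonneg _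
  have hκ : 0 < δ / (2 * (N + 1)) := by positivity
  have hev : ∀ᶠ n : ℕ in atTop, ∀ f : Fin k → S, am Y (List.ofFn f) δ n < δ / (2 * (N + 1)) := by
    rw [Filter.eventually_all]
    intro f
    exact hcon (List.ofFn f) δ hδ _ hκ
  obtain ⟨n, hn, hn'⟩ := (hev.and (eventually_ge_atTop n0)).exists
  have h1 := hS n hn'
  have h2 : ∑ f : Fin k → S, am Y (List.ofFn f) δ n ≤ N * (δ / (2 * (N + 1))) := by
    have := Finset.sum_le_card_nsmul Finset.univ (fun f : Fin k → S => am Y (List.ofFn f) δ n)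
      (δ / (2 * (N + 1))) (fun f _ => (hn f).le)
    rw [nsmul_eq_mul, Finset.card_univ] at this
    exact this
  have h3 : 2 * (N * (δ / (2 * (N + 1)))) ≤ δ := by
    have : 2 * (N * (δ / (2 * (N + 1)))) = δ * (N / (N + 1)) := by
      field_simp
    rw [this]
    have h4 : N / (N + 1) ≤ 1 := by
      rw [div_le_one (by linarith)]
      linarith
    nlinarith
  linarith
-- END arr_freq

-- BEGIN classes
theorem two_cls (Y : Sys S V) (γ : List S) {t : ℝ} (ht : 0 < t) {n : ℕ} (hn : 1 ≤ n) :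
    am Y γ t n + am Y γ t n ≤ Y.a n := by
  have h0 : (0 : ℝ) < n := by exact_mod_cast hn
  have h1 : am Y γ t n + am Y γ t n = Y.E n fun w =>
      Y.sv w * ind (t * n ≤ Xg Y γ w) + Y.sv w * ind (Xg Y γ w ≤ -(t * n)) := by
    rw [Y.E_fadd, am_bar]
    rfl
  rw [h1]
  refine Y.E_mono fun w _ => ?_
  rw [← mul_add]
  refine mul_le_of_le_one_right (Y.sv_nonneg w) ?_
  by_cases h2 : t * n ≤ Xg Y γ w
  · rw [ind_not (P := Xg Y γ w ≤ -(t * n)), add_zero]
    · exact ind_le_one _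
    · intro h3
      nlinarith
  · rw [ind_not h2, zero_add]
    exact ind_le_one _

theorem three_cls (Y : Sys S V) (γ : List S) {t δ : ℝ} (ht : 0 < t) (hδ : δ < t) {n : ℕ}
    (hn : 1 ≤ n) : am Y γ t n + am Y γ t n + nm Y γ.length δ n ≤ Y.a n := by
  have h0 : (0 : ℝ) < n := by exact_mod_cast hn
  have h1 : am Y γ t n + am Y γ t n + nm Y γ.length δ n = Y.E n fun w =>
      (Y.sv w * ind (t * n ≤ Xg Y γ w) + Y.sv w * ind (Xg Y γ w ≤ -(t * n))) +
        Y.sv w * ind (Nt Y γ.length δ w) := by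
    rw [Y.E_fadd, Y.E_fadd, am_bar]
    rfl
  rw [h1]
  refine Y.E_mono fun w hw => ?_
  rw [← mul_add, ← mul_add]
  refine mul_le_of_le_one_right (Y.sv_nonneg w) ?_
  by_cases h4 : Nt Y γ.length δ w
  · have h5 := h4 γ rfl
    rw [hw] at h5
    have h6 := abs_le.1 h5
    rw [ind_not (P := Xg Y γ w ≤ -(t * n)), ind_not (P := t * n ≤ Xg Y γ w), zero_add, zero_add]
    · exact ind_le_one _
    · intro h3
      nlinarith [h6.2]
    · intro h3
      nlinarith [h6.1]
  · rw [ind_not h4, add_zero]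
    by_cases h2 : t * n ≤ Xg Y γ w
    · rw [ind_not (P := Xg Y γ w ≤ -(t * n)), add_zero]
      · exact ind_le_one _
      · intro h3
        nlinarith
    · rw [ind_not h2, zero_add]
      exact ind_le_one _
-- END classes

end Pool.Agent.Am3
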