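import Pool.Agent.Trp.Defs
import Pool.Agent.Trp.Cnt
import Pool.Agent.Bub4.Bridge

/-!
# Symmetries of the steps, the junction factor
-/

set_option autoImplicit false

namespace Pool.Agent.Am3

open Finset Filter Topology Pool.Agent.Bub4 Pool.Agent.SawM2 Pool.Agent.Taw Pool.Agent.Trp

section gen

variable {S V : Type} [Fintype S] [AddCommGroup V] {K : ℝ}

/-- a symmetry of a system of steps -/
structure SM (Y : Sys S V) where
  f : S ≃ S
  T : V →+ V
  inj : Function.Injective T
  vec_f : ∀ s, Y.vec (f s) = T (Y.vec s)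
  neg_f : ∀ s, Y.neg (f s) = f (Y.neg s)

namespace SM

variable {Y : Sys S V}

theorem sm_map (h : SM Y) (w : List S) : Y.sm (w.map h.f) = h.T (Y.sm w) := by
  induction w with
  | nil => simp
  | cons s w ih => simp only [List.map_cons, Sys.sm_cons, ih, h.vec_f, map_add]

theorem map_symm_map (h : SM Y) (w : List S) : (w.map h.f).map h.f.symm = w := by
  rw [List.map_map]
  simp

theorem map_map_symm (h : SM Y) (w : List S) : (w.map h.f.symm).map h.f = w := by
  rw [List.map_map]
  simp

theorem saw_map (h : SM Y) (w : List S) : Y.Saw (w.map h.f) ↔ Y.Saw w := by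
  constructor
  · intro hw b hb hb' h0
    refine hw (b.map h.f) (hb.map h.f) (by simpa using hb') ?_
    rw [h.sm_map, h0, map_zero]
  · intro hw b hb hb' h0
    have h1 : b.map h.f.symm <:+: w := by
      have := hb.map h.f.symm
      rwa [h.map_symm_map] at this
    refine hw (b.map h.f.symm) h1 (by simpa using hb') ?_
    have h2 := h.sm_map (b.map h.f.symm)
    rw [h.map_map_symm, h0] at h2
    exact h.inj (by rw [← h2, map_zero])

theorem sv_map (h : SM Y) (w : List S) : Y.sv (w.map h.f) = Y.sv w := by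
  by_cases hw : Y.Saw w
  · rw [Y.sv_of hw, Y.sv_of ((h.saw_map w).2 hw)]
  · rw [Y.sv_of_not hw, Y.sv_of_not fun h' => hw ((h.saw_map w).1 h')]

theorem bar_map (h : SM Y) (w : List S) : bar Y (w.map h.f) = (bar Y w).map h.f := by
  unfold bar
  rw [List.map_map, ← List.map_reverse, ← List.map_reverse, List.map_map]
  exact List.map_congr_left fun s _ => h.neg_f s

omit [Fintype S] in
theorem cnt_map (f : S ≃ S) (γ w : List S) : cnt (γ.map f) (w.map f) = cnt γ w := by
  classical
  unfold cnt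
  rw [List.length_map]
  congr 1
  refine Finset.filter_congr fun i _ => ?_
  constructor
  · intro h
    have h1 := h.map f.symm
    rw [← List.map_drop] at h1
    simpa [List.map_map] using h1
  · intro h
    have h1 := h.map f
    rw [List.map_drop] at h1
    exact h1

theorem Xg_map (h : SM Y) (γ w : List S) : Xg Y (γ.map h.f) (w.map h.f) = Xg Y γ w := by
  unfold Xg
  rw [h.bar_map, cnt_map, cnt_map]

theorem Nt_map (h : SM Y) (k : ℕ) (δ : ℝ) (w : List S) : Nt Y k δ (w.map h.f) ↔ Nt Y k δ w := by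
  constructor
  · intro hw γ hγ
    have h1 := hw (γ.map h.f) (by rw [List.length_map]; exact hγ)
    rw [h.Xg_map, List.length_map] at h1
    exact h1
  · intro hw γ hγ
    have h1 := hw (γ.map h.f.symm) (by rw [List.length_map]; exact hγ)
    have h2 := h.Xg_map (γ.map h.f.symm) w
    rw [h.map_map_symm] at h2
    rw [h2, List.length_map]
    exact h1

theorem ind_Nt_map (h : SM Y) (k : ℕ) (δ : ℝ) (w : List S) :
    ind (Nt Y k δ (w.map h.f)) = ind (Nt Y k δ w) := by
  by_cases hw : Nt Y k δ w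
  · rw [ind_of hw, ind_of ((h.Nt_map k δ w).2 hw)]
  · rw [ind_not hw, ind_not fun h' => hw ((h.Nt_map k δ w).1 h')]

theorem E_map (h : SM Y) (n : ℕ) (F : List S → ℝ) :
    (Y.E n fun w => F (w.map h.f)) = Y.E n F := by
  induction n generalizing F with
  | zero => rfl
  | succ n ih =>
    rw [Y.E_succ, Y.E_succ]
    congr 1
    simp only [List.map_cons]
    have h1 : ∀ s, (Y.E n fun w => F (h.f s :: w.map h.f)) = Y.E n fun w => F (h.f s :: w) :=
      fun s => ih fun w => F (h.f s :: w)
    simp only [h1]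
    exact Equiv.sum_comp h.f fun s => Y.E n fun w => F (s :: w)

end SM

/-- the mass of the words with a given first step does not depend on the step -/
theorem sym_first (Y : Sys S V) (P : SM Y → Prop) (hT : ∀ s t : S, ∃ h : SM Y, P h ∧ h.f s = t)
    {G : List S → ℝ} (hG : ∀ h : SM Y, P h → ∀ w, G (w.map h.f) = G w) (n : ℕ) (s t : S) :
    (Y.E n fun w => Y.sv (t :: w) * G (t :: w)) = Y.E n fun w => Y.sv (s :: w) * G (s :: w) := by
  obtain ⟨h, hP, rfl⟩ := hT s t
  rw [← h.E_map n fun w => Y.sv (h.f s :: w) * G (h.f s :: w)]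
  refine Y.E_congr fun w _ => ?_
  have h1 : h.f s :: w.map h.f = (s :: w).map h.f := by rw [List.map_cons]
  rw [h1, h.sv_map, hG h hP]

theorem sym_turn (Y : Sys S V) (u w : List S) (r : S) :
    Y.sv ((u ++ [r]) ++ (Y.neg r :: w)) = 0 := by
  refine Y.sv_of_not fun hs => ?_
  refine hs [r, Y.neg r] ⟨u, w, by simp⟩ (by simp) ?_
  simp [Y.vec_neg]

/-- one junction costs the factor `1 - 1 / |S|` -/
theorem sym_junction (Y : Sys S V) (P : SM Y → Prop) (hT : ∀ s t : S, ∃ h : SM Y, P h ∧ h.f s = t)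
    {F G : List S → ℝ} (hF : ∀ w, 0 ≤ F w) (hG0 : ∀ w, 0 ≤ G w)
    (hG : ∀ h : SM Y, P h → ∀ w, G (w.map h.f) = G w) {p q : ℕ} (hp : 1 ≤ p) (hq : 1 ≤ q) :
    (Y.E (p + q) fun w => Y.sv w * (F (w.take p) * G (w.drop p))) ≤
      (1 - (Fintype.card S : ℝ)⁻¹) *
        ((Y.E p fun u => Y.sv u * F u) * (Y.E q fun v => Y.sv v * G v)) := by
  classical
  have hz : 0 < Y.z := Y.z_pos
  obtain ⟨q, rfl⟩ : ∃ q', q = q' + 1 := ⟨q - 1, by omega⟩
  rw [Y.E_add p (q + 1)]
  have key : ∀ u : List S, u.length = p →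
      (Y.E (q + 1) fun v => Y.sv (u ++ v) * (F ((u ++ v).take p) * G ((u ++ v).drop p))) ≤
        (1 - (Fintype.card S : ℝ)⁻¹) * (Y.sv u * F u * (Y.E (q + 1) fun v => Y.sv v * G v)) := by
    intro u hu
    obtain ⟨u', r, rfl⟩ : ∃ u' r, u = u' ++ [r] := by
      rcases List.eq_nil_or_concat u with rfl | ⟨u', r, h⟩
      · simp at hu
        omega
      · exact ⟨u', r, by simpa using h⟩
    have hcard : (0 : ℝ) < Fintype.card S := by
      have : 0 < Fintype.card S := Fintype.card_pos_iff.2 ⟨r⟩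
      exact_mod_cast this
    have hne : (Fintype.card S : ℝ) ≠ 0 := hcard.ne'
    have ht1 : ∀ v : List S, ((u' ++ [r]) ++ v).take p = u' ++ [r] := fun v => by
      rw [← hu]; exact List.take_left
    have ht2 : ∀ v : List S, ((u' ++ [r]) ++ v).drop p = v := fun v => by
      rw [← hu]; exact List.drop_left
    simp only [ht1, ht2]
    rw [Y.E_succ, Y.E_succ]
    obtain ⟨x, hx⟩ : ∃ x : ℝ, x = Y.E q fun w => Y.sv (r :: w) * G (r :: w) := ⟨_, rfl⟩
    have hx0 : 0 ≤ x := by
      rw [hx]
      exact Y.E_nonneg' fun w => mul_nonneg (Y.sv_nonneg _) (hG0 _)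
    have hc : ∀ s : S, (Y.E q fun w => Y.sv (s :: w) * G (s :: w)) = x := fun s => by
      rw [hx]
      exact sym_first Y P hT hG q r s
    have hsF : 0 ≤ Y.sv (u' ++ [r]) * F (u' ++ [r]) := mul_nonneg (Y.sv_nonneg _) (hF _)
    have h1 : ∀ s : S, (Y.E q fun w => Y.sv ((u' ++ [r]) ++ (s :: w)) *
        (F (u' ++ [r]) * G (s :: w))) ≤
        if s = Y.neg r then 0 else Y.sv (u' ++ [r]) * F (u' ++ [r]) * x := by
      intro s
      split_ifs with hs
      · refine le_of_eq ?_
        have : (Y.E q fun w => Y.sv ((u' ++ [r]) ++ (s :: w)) * (F (u' ++ [r]) * G (s :: w))) =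
            Y.E q fun _ => 0 := Y.E_congr fun w _ => by rw [hs, sym_turn, zero_mul]
        rw [this, Y.E_zero_fun]
      · rw [← hc s, ← Y.E_mul_left]
        refine Y.E_mono fun w _ => ?_
        calc Y.sv ((u' ++ [r]) ++ (s :: w)) * (F (u' ++ [r]) * G (s :: w))
            ≤ (Y.sv (u' ++ [r]) * Y.sv (s :: w)) * (F (u' ++ [r]) * G (s :: w)) :=
              mul_le_mul_of_nonneg_right (Y.sv_append_le _ _) (mul_nonneg (hF _) (hG0 _))
          _ = _ := by ring
    have h2 : ∑ s : S, (if s = Y.neg r then (0 : ℝ) else Y.sv (u' ++ [r]) * F (u' ++ [r]) * x) =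
        ((Fintype.card S : ℝ) - 1) * (Y.sv (u' ++ [r]) * F (u' ++ [r]) * x) := by
      have h3 : ∀ s : S, (if s = Y.neg r then (0 : ℝ) else Y.sv (u' ++ [r]) * F (u' ++ [r]) * x) =
          Y.sv (u' ++ [r]) * F (u' ++ [r]) * x -
            if s = Y.neg r then Y.sv (u' ++ [r]) * F (u' ++ [r]) * x else 0 := by
        intro s
        split_ifs <;> ring
      simp only [h3]
      rw [Finset.sum_sub_distrib, Finset.sum_const, Finset.card_univ, nsmul_eq_mul,
        Finset.sum_ite_eq' Finset.univ]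
      simp only [Finset.mem_univ, if_true]
      ring
    have h4 : ∑ s : S, (Y.E q fun w => Y.sv (s :: w) * G (s :: w)) = (Fintype.card S : ℝ) * x := by
      simp only [hc]
      rw [Finset.sum_const, Finset.card_univ, nsmul_eq_mul]
    rw [h4]
    calc Y.z * ∑ s : S, (Y.E q fun w => Y.sv ((u' ++ [r]) ++ (s :: w)) *
          (F (u' ++ [r]) * G (s :: w)))
        ≤ Y.z * (((Fintype.card S : ℝ) - 1) * (Y.sv (u' ++ [r]) * F (u' ++ [r]) * x)) := by
          refine mul_le_mul_of_nonneg_left ?_ hz.le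
          rw [← h2]
          exact Finset.sum_le_sum fun s _ => h1 s
      _ = _ := by
          field_simp
  refine (Y.E_mono key).trans (le_of_eq ?_)
  rw [Y.E_mul_left, Y.E_mul_right]

/-- products over the octaves with the junction factor -/
theorem oct_junction (Y : Sys S V) (P : SM Y → Prop)
    (hT : ∀ s t : S, ∃ h : SM Y, P h ∧ h.f s = t) (hK : ∀ n, Y.a n ≤ K) (φ : ℕ → List S → ℝ)
    (hφ : ∀ i w, 0 ≤ φ i w) (hi : ∀ i, ∀ h : SM Y, P h → ∀ w, φ i (w.map h.f) = φ i w)
    (n N : ℕ) (hN : 2 ^ n ≤ N) :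
    (Y.E N fun u => Y.sv u * ∏ i ∈ range n, φ i (bl i u)) ≤
      K ^ 2 * ∏ i ∈ range n,
        ((1 - (Fintype.card S : ℝ)⁻¹) * Y.E (2 ^ i) fun w => Y.sv w * φ i w) := by
  classical
  have hK0 : 0 ≤ K := (Y.a_nonneg 0).trans (hK 0)
  have hc0 : 0 ≤ 1 - (Fintype.card S : ℝ)⁻¹ := by
    rcases Nat.eq_zero_or_pos (Fintype.card S) with h | h
    · rw [h]
      simp
    · have h1 : (1 : ℝ) ≤ Fintype.card S := by exact_mod_cast h
      have h2 := inv_le_one_of_one_le₀ h1
      linarith
  have hE0 : ∀ i, 0 ≤ Y.E (2 ^ i) fun w => Y.sv w * φ i w := fun i =>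
    Y.E_nonneg' fun w => mul_nonneg (Y.sv_nonneg _) (hφ i w)
  have hblt : ∀ {i m : ℕ} (_ : 2 ^ (i + 1) ≤ m) (w : List S), bl i (w.take m) = bl i w := by
    intro i m h w
    unfold bl
    rw [pow_succ] at h
    rw [List.drop_take, List.take_take]
    congr 1
    omega
  have main : ∀ n, (Y.E (2 ^ n) fun u => Y.sv u * ∏ i ∈ range n, φ i (bl i u)) ≤
      K * ∏ i ∈ range n,
        ((1 - (Fintype.card S : ℝ)⁻¹) * Y.E (2 ^ i) fun w => Y.sv w * φ i w) := by
    intro n
    induction n with
    | zero =>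
      simp only [pow_zero, Finset.range_zero, Finset.prod_empty, mul_one]
      exact hK 1
    | succ n ih =>
      have h1 := sym_junction Y P hT (F := fun w => ∏ i ∈ range n, φ i (bl i w)) (G := φ n)
        (fun w => Finset.prod_nonneg fun i _ => hφ i _) (hφ n) (hi n)
        (p := 2 ^ n) (q := 2 ^ n) Nat.one_le_two_pow Nat.one_le_two_pow
      rw [pow_succ, mul_two]
      have h2 : (Y.E (2 ^ n + 2 ^ n) fun u => Y.sv u * ∏ i ∈ range (n + 1), φ i (bl i u)) =
          Y.E (2 ^ n + 2 ^ n) fun w => Y.sv w *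
            ((∏ i ∈ range n, φ i (bl i (w.take (2 ^ n)))) * φ n (w.drop (2 ^ n))) := by
        refine Y.E_congr fun w hw => ?_
        rw [Finset.prod_range_succ]
        have h3 : bl n w = w.drop (2 ^ n) := by
          unfold bl
          refine List.take_of_length_le ?_
          rw [List.length_drop]
          omega
        have h4 : ∏ i ∈ range n, φ i (bl i (w.take (2 ^ n))) = ∏ i ∈ range n, φ i (bl i w) :=
          Finset.prod_congr rfl fun i hin => by
            rw [hblt (Nat.pow_le_pow_right (by norm_num) (Finset.mem_range.1 hin)) w]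
        rw [h3, h4]
      rw [h2]
      refine h1.trans ?_
      rw [Finset.prod_range_succ, ← mul_assoc K]
      have h5 : 0 ≤ (1 - (Fintype.card S : ℝ)⁻¹) * Y.E (2 ^ n) fun w => Y.sv w * φ n w :=
        mul_nonneg hc0 (hE0 n)
      have h6 := mul_le_mul_of_nonneg_right ih h5
      refine le_trans (le_of_eq ?_) h6
      ring
  obtain ⟨m, rfl⟩ : ∃ m, N = 2 ^ n + m := ⟨N - 2 ^ n, by omega⟩
  have h7 : (Y.E (2 ^ n + m) fun u => Y.sv u * ∏ i ∈ range n, φ i (bl i u)) ≤
      (Y.E (2 ^ n) fun u => Y.sv u * ∏ i ∈ range n, φ i (bl i u)) * Y.a m := by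
    rw [Y.E_add, ← Y.E_mul_right]
    refine Y.E_mono fun u hu => ?_
    unfold Sys.a
    rw [← Y.E_mul_left]
    refine Y.E_mono fun v _ => ?_
    have h8 : ∏ i ∈ range n, φ i (bl i (u ++ v)) = ∏ i ∈ range n, φ i (bl i u) := by
      refine Finset.prod_congr rfl fun i hin => ?_
      have h9 := hblt (Nat.pow_le_pow_right (by norm_num) (Finset.mem_range.1 hin)) (u ++ v)
      have h10 : (u ++ v).take (2 ^ n) = u := by rw [← hu]; exact List.take_left
      rw [h10] at h9
      rw [h9]
    rw [h8]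
    have h11 : 0 ≤ ∏ i ∈ range n, φ i (bl i u) := Finset.prod_nonneg fun i _ => hφ i _
    calc Y.sv (u ++ v) * ∏ i ∈ range n, φ i (bl i u)
        ≤ (Y.sv u * Y.sv v) * ∏ i ∈ range n, φ i (bl i u) :=
          mul_le_mul_of_nonneg_right (Y.sv_append_le _ _) h11
      _ = _ := by ring
  refine h7.trans ?_
  have h12 : 0 ≤ ∏ i ∈ range n,
      ((1 - (Fintype.card S : ℝ)⁻¹) * Y.E (2 ^ i) fun w => Y.sv w * φ i w) :=
    Finset.prod_nonneg fun i _ => mul_nonneg hc0 (hE0 i)
  calc (Y.E (2 ^ n) fun u => Y.sv u * ∏ i ∈ range n, φ i (bl i u)) * Y.a m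
      ≤ (K * ∏ i ∈ range n,
        ((1 - (Fintype.card S : ℝ)⁻¹) * Y.E (2 ^ i) fun w => Y.sv w * φ i w)) * K :=
        mul_le_mul (main n) (hK m) (Y.a_nonneg m) (mul_nonneg hK0 h12)
    _ = _ := by ring

/-- products over `M` blocks of length `L` with the junction factor -/
theorem blk_junction (Y : Sys S V) (P : SM Y → Prop)
    (hT : ∀ s t : S, ∃ h : SM Y, P h ∧ h.f s = t) (φ : List S → ℝ)
    (hφ : ∀ w, 0 ≤ φ w) (hi : ∀ h : SM Y, P h → ∀ w, φ (w.map h.f) = φ w)
    {L : ℕ} (hL : 1 ≤ L) (M : ℕ) :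
    (Y.E ((M + 1) * L) fun w => Y.sv w * ∏ i ∈ range (M + 1), φ ((w.drop (i * L)).take L)) ≤
      (1 - (Fintype.card S : ℝ)⁻¹) ^ M * (Y.E L fun v => Y.sv v * φ v) ^ (M + 1) := by
  classical
  have hc0 : 0 ≤ 1 - (Fintype.card S : ℝ)⁻¹ := by
    rcases Nat.eq_zero_or_pos (Fintype.card S) with h | h
    · rw [h]
      simp
    · have h1 : (1 : ℝ) ≤ Fintype.card S := by exact_mod_cast h
      have h2 := inv_le_one_of_one_le₀ h1
      linarith
  have hE0 : 0 ≤ Y.E L fun w => Y.sv w * φ w :=
    Y.E_nonneg' fun w => mul_nonneg (Y.sv_nonneg _) (hφ w)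
  induction M with
  | zero =>
    simp only [zero_add, one_mul, Finset.range_one, Finset.prod_singleton, zero_mul,
      List.drop_zero, pow_zero, pow_one]
    refine Y.E_mono fun w hw => ?_
    rw [List.take_of_length_le (by omega)]
  | succ M ih =>
    have hML : 1 ≤ (M + 1) * L := Nat.one_le_iff_ne_zero.2 (by positivity)
    have h1 := sym_junction Y P hT (F := fun w => ∏ i ∈ range (M + 1), φ ((w.drop (i * L)).take L))
      (G := φ) (fun w => Finset.prod_nonneg fun i _ => hφ _) hφ hi
      (p := (M + 1) * L) (q := L) hML hL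
    have h2 : (Y.E ((M + 1 + 1) * L) fun w => Y.sv w *
        ∏ i ∈ range (M + 1 + 1), φ ((w.drop (i * L)).take L)) =
        Y.E ((M + 1) * L + L) fun w => Y.sv w *
          ((∏ i ∈ range (M + 1), φ (((w.take ((M + 1) * L)).drop (i * L)).take L)) *
            φ (w.drop ((M + 1) * L))) := by
      rw [show (M + 1 + 1) * L = (M + 1) * L + L by ring]
      refine Y.E_congr fun w hw => ?_
      rw [Finset.prod_range_succ]
      have h3 : (w.drop ((M + 1) * L)).take L = w.drop ((M + 1) * L) := by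
        refine List.take_of_length_le ?_
        rw [List.length_drop]
        omega
      have h4 : ∏ i ∈ range (M + 1), φ (((w.take ((M + 1) * L)).drop (i * L)).take L) =
          ∏ i ∈ range (M + 1), φ ((w.drop (i * L)).take L) := by
        refine Finset.prod_congr rfl fun i hin => ?_
        have h5 : i + 1 ≤ M + 1 := Finset.mem_range.1 hin
        have h6 : (i + 1) * L ≤ (M + 1) * L := Nat.mul_le_mul_right L h5
        have h7 : (i + 1) * L = i * L + L := by ring
        rw [List.drop_take, List.take_take]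
        congr 2
        omega
      rw [h3, h4]
    rw [h2]
    refine h1.trans ?_
    have h8 := mul_le_mul_of_nonneg_right ih (mul_nonneg hc0 hE0)
    refine le_trans (le_of_eq ?_) (h8.trans (le_of_eq ?_))
    · ring
    · ring

end gen

section lat

variable {m : ℕ} {μ : ℝ}

/-- the signed permutation of the coordinates `i ↦ π i`, with the sign of the coordinate `i`
reversed if `e i` -/
noncomputable def sgp (hμ : 0 < μ) (π : Equiv.Perm (Fin (m + 2))) (e : Fin (m + 2) → Bool) :
    SM (lat m hμ) where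
  f :=
    { toFun := fun s => (π s.1, xor s.2 (e s.1))
      invFun := fun s => (π.symm s.1, xor s.2 (e (π.symm s.1)))
      left_inv := by
        rintro ⟨i, b⟩
        simp
      right_inv := by
        rintro ⟨i, b⟩
        simp }
  T :=
    { toFun := fun v j => if e (π.symm j) then - v (π.symm j) else v (π.symm j)
      map_zero' := by
        funext j
        simp
      map_add' := by
        intro v w
        funext j
        by_cases h : e (π.symm j)
        · simp [h]
          ring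
        · simp [h] }
  inj := by
    intro v w h
    funext i
    have h1 := congrFun h (π i)
    simp only [AddMonoidHom.coe_mk, ZeroHom.coe_mk, Equiv.symm_apply_apply] at h1
    by_cases hi : e i
    · simpa [hi] using h1
    · simpa [hi] using h1
  vec_f := by
    rintro ⟨i, b⟩
    funext j
    show SubBall.stv m (π i, xor b (e i)) j =
      if e (π.symm j) then - SubBall.stv m (i, b) (π.symm j) else SubBall.stv m (i, b) (π.symm j)
    unfold SubBall.stv
    by_cases hj : j = π i
    · subst hj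
      cases b <;> by_cases h : e i <;> simp [h]
    · have hj' : π.symm j ≠ i := fun h => hj (by rw [← h, Equiv.apply_symm_apply])
      cases b <;> by_cases h : e i <;> by_cases h' : e (π.symm j) <;> simp [h, h', hj, hj']
  neg_f := by
    rintro ⟨i, b⟩
    show (π i, !(xor b (e i))) = (π i, xor (!b) (e i))
    cases b <;> cases e i <;> rfl

theorem sgp_f (hμ : 0 < μ) (π : Equiv.Perm (Fin (m + 2))) (e : Fin (m + 2) → Bool)
    (i : Fin (m + 2)) (b : Bool) : (sgp hμ π e).f (i, b) = (π i, xor b (e i)) := rfl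

/-- the signed permutations are transitive on the directions -/
theorem sgp_trans (hμ : 0 < μ) (s t : SubBall.St m) :
    ∃ h : SM (lat m hμ), True ∧ h.f s = t := by
  obtain ⟨i, b⟩ := s
  obtain ⟨j, c⟩ := t
  refine ⟨sgp hμ (Equiv.swap i j) fun _ => xor b c, trivial, ?_⟩
  rw [sgp_f]
  rw [Equiv.swap_apply_left]
  cases b <;> cases c <;> rfl

theorem card_St : Fintype.card (SubBall.St m) = 2 * (m + 2) := by
  show Fintype.card (Fin (m + 2) × Bool) = _
  rw [Fintype.card_prod, Fintype.card_fin, Fintype.card_bool]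
  ring

end lat

end Pool.Agent.Am3
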