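import Pool.Agent.Trp.Defs
import Pool.Agent.Trp.Cnt
import Pool.Agent.Bub4.Bridge
import Pool.Agent.Am3.Arr
import Pool.Agent.Am3.Sym

/-!
# Symmetric classes: every junction costs a factor, the arrow classes weigh `12 / 5`
-/

set_option autoImplicit false

namespace Pool.Agent.Am3

open Finset Filter Topology Pool.Agent.Bub4 Pool.Agent.SawM2 Pool.Agent.Taw Pool.Agent.Trp

variable {S V : Type} [Fintype S] [AddCommGroup V] {K : ℝ}

/-- a permutation of the steps that comes from a symmetry of the lattice -/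
structure Sy (Y : Sys S V) (σ : Equiv.Perm S) : Prop where
  lin : ∃ A : V →+ V, Function.Injective A ∧ ∀ s, Y.vec (σ s) = A (Y.vec s)
  neg : ∀ s, Y.neg (σ s) = σ (Y.neg s)

/-- a group of symmetries that is transitive on the steps, generated by `c`, `b` with relations as
in the tetrahedral group -/
structure Gr (Y : Sys S V) (T : Subgroup (Equiv.Perm S)) (c b : Equiv.Perm S) : Prop where
  sy : ∀ σ ∈ T, Sy Y σ
  tr : ∀ x y : S, ∃ σ ∈ T, σ x = y
  gen : T = Subgroup.closure {c, b}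
  c3 : c * c * c = 1
  b3 : b * (c * b * c⁻¹) * (c * (c * b * c⁻¹) * c⁻¹) = 1
  two : 2 ≤ Fintype.card S

/-- mass of the self-avoiding words of length `n` with `t n ≤ F` -/
noncomputable def fm (Y : Sys S V) (F : List S → ℝ) (t : ℝ) (n : ℕ) : ℝ :=
  Y.E n fun w => Y.sv w * ind (t * n ≤ F w)

/-- nonnegative, at most the length, subadditive up to `k` -/
structure Sb (F : List S → ℝ) (k : ℕ) : Prop where
  nonneg : ∀ w, 0 ≤ F w
  le : ∀ w, F w ≤ w.length
  add : ∀ u v, F (u ++ v) ≤ F u + F v + k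

/-- a vector valued observable, additive up to `k`, odd under reversal, equivariant under `T` -/
structure Vx (Y : Sys S V) (T : Subgroup (Equiv.Perm S)) {W : Type} [NormedAddCommGroup W]
    [InnerProductSpace ℝ W] (X : List S → W) (act : Equiv.Perm S → W → W) (k : ℕ) : Prop where
  le : ∀ w, ‖X w‖ ≤ w.length
  add : ∀ u v, ‖X (u ++ v) - X u - X v‖ ≤ k
  bar : ∀ w, X (bar Y w) = - X w
  map : ∀ σ ∈ T, ∀ w, X (w.map σ) = act σ (X w)
  iso : ∀ σ x y, ‖act σ x - act σ y‖ = ‖x - y‖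
  mul : ∀ σ τ x, act (σ * τ) x = act σ (act τ x)
  one : ∀ x, act 1 x = x
  neg : ∀ σ x, act σ (-x) = - act σ x
  smul : ∀ σ (r : ℝ) x, act σ (r • x) = r • act σ x

/-- the word `w` has its vector near `L v` -/
def Bl {W : Type} [NormedAddCommGroup W] [InnerProductSpace ℝ W] (X : List S → W) (v : W) (ρ : ℝ)
    (L : ℕ) (w : List S) : Prop := ‖X w - (L : ℝ) • v‖ < ρ * L

/-- some image of the word `w` has its vector near `L v` -/
def Tb (T : Subgroup (Equiv.Perm S)) {W : Type} [NormedAddCommGroup W] [InnerProductSpace ℝ W]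
    (X : List S → W) (v : W) (ρ : ℝ) (L : ℕ) (w : List S) : Prop := ∃ σ ∈ T, Bl X v ρ L (w.map σ)

noncomputable def bm (Y : Sys S V) {W : Type} [NormedAddCommGroup W] [InnerProductSpace ℝ W]
    (X : List S → W) (v : W) (ρ : ℝ) (L : ℕ) : ℝ := Y.E L fun w => Y.sv w * ind (Bl X v ρ L w)

noncomputable def tm (Y : Sys S V) (T : Subgroup (Equiv.Perm S)) {W : Type}
    [NormedAddCommGroup W] [InnerProductSpace ℝ W] (X : List S → W) (v : W) (ρ : ℝ) (L : ℕ) : ℝ :=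
  Y.E L fun w => Y.sv w * ind (Tb T X v ρ L w)

/-- the factor of a junction -/
noncomputable def jf (S : Type) [Fintype S] : ℝ := 1 - (Fintype.card S : ℝ)⁻¹

-- BEGIN sv_map
private theorem sv_map_sm (Y : Sys S V) {σ : Equiv.Perm S} {A : V →+ V}
    (hA : ∀ s, Y.vec (σ s) = A (Y.vec s)) (b : List S) : Y.sm (b.map σ) = A (Y.sm b) := by
  unfold Sys.sm
  rw [map_list_sum, List.map_map, List.map_map]
  congr 1
  exact List.map_congr_left fun s _ => hA s

theorem sv_map (Y : Sys S V) {σ : Equiv.Perm S} (h : Sy Y σ) (w : List S) :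
    Y.sv (w.map σ) = Y.sv w := by
  obtain ⟨A, hinj, hA⟩ := h.lin
  have hiff : Y.Saw (w.map σ) ↔ Y.Saw w := by
    constructor
    · intro hw b hb hne h0
      refine hw (b.map σ) (hb.map σ) (by simpa using hne) ?_
      rw [sv_map_sm Y hA, h0, map_zero]
    · intro hw b hb hne h0
      obtain ⟨b', hb', rfl⟩ := List.infix_map_iff.1 hb
      refine hw b' hb' (by simpa using hne) (hinj ?_)
      rw [map_zero, ← sv_map_sm Y hA, h0]
  by_cases hw : Y.Saw w
  · rw [Sys.sv, Sys.sv, if_pos hw, if_pos (hiff.2 hw)]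
  · rw [Sys.sv, Sys.sv, if_neg hw, if_neg fun h' => hw (hiff.1 h')]
-- END sv_map

-- BEGIN E_map
theorem E_map (Y : Sys S V) (σ : Equiv.Perm S) (n : ℕ) (F : List S → ℝ) :
    (Y.E n fun w => F (w.map σ)) = Y.E n F := by
  induction n generalizing F with
  | zero => rfl
  | succ n ih =>
    have h1 : ∀ s, (Y.E n fun w => F ((s :: w).map σ)) = Y.E n fun w => F (σ s :: w) := by
      intro s
      simp only [List.map_cons]
      exact ih fun w => F (σ s :: w)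
    calc (Y.E (n + 1) fun w => F (w.map σ)) = Y.z * ∑ s, Y.E n fun w => F ((s :: w).map σ) := rfl
      _ = Y.z * ∑ s, Y.E n fun w => F (σ s :: w) := by
          rw [Finset.sum_congr rfl fun s _ => h1 s]
      _ = Y.z * ∑ s, Y.E n fun w => F (s :: w) := by
          rw [Equiv.sum_comp σ fun s => Y.E n fun w => F (s :: w)]
      _ = Y.E (n + 1) F := rfl
-- END E_map

-- BEGIN Xg_map
omit [Fintype S] in
private theorem Xg_map_cnt (σ : Equiv.Perm S) (γ w : List S) :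
    cnt (γ.map σ) (w.map σ) = cnt γ w := by
  classical
  unfold cnt
  rw [List.length_map]
  congr 1
  refine Finset.filter_congr fun i _ => ?_
  rw [← List.map_drop]
  constructor
  · intro h
    have h1 := h.map σ.symm
    rwa [List.map_map, List.map_map, Equiv.symm_comp_self, List.map_id, List.map_id] at h1
  · intro h
    exact h.map σ

theorem Xg_map (Y : Sys S V) {σ : Equiv.Perm S} (h : Sy Y σ) (γ w : List S) :
    Xg Y (γ.map σ) (w.map σ) = Xg Y γ w := by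
  have hbar : bar Y (γ.map σ) = (bar Y γ).map σ := by
    unfold bar
    rw [List.map_reverse, List.map_map, List.map_map]
    congr 1
    exact List.map_congr_left fun s _ => h.neg s
  unfold Xg
  rw [hbar, Xg_map_cnt, Xg_map_cnt]
-- END Xg_map

-- BEGIN junction
theorem junction (Y : Sys S V) (T : Subgroup (Equiv.Perm S)) (hT : ∀ σ ∈ T, Sy Y σ)
    (htr : ∀ x y : S, ∃ σ ∈ T, σ x = y) (p q : ℕ) (hp : 1 ≤ p) (hq : 1 ≤ q)
    {F G : List S → ℝ} (hF : ∀ w, 0 ≤ F w) (hG : ∀ w, 0 ≤ G w)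
    (hinv : ∀ σ ∈ T, ∀ w, G (w.map σ) = G w) :
    (Y.E (p + q) fun w => Y.sv w * (F (w.take p) * G (w.drop p))) ≤
      jf S * ((Y.E p fun u => Y.sv u * F u) * (Y.E q fun v => Y.sv v * G v)) := by
  refine sym_junction Y (fun h => h.f ∈ T) (fun s t => ?_) hF hG (fun h hh w => hinv h.f hh w)
    hp hq
  obtain ⟨σ, hσ, hst⟩ := htr s t
  obtain ⟨A, hA, hv⟩ := (hT σ hσ).lin
  exact ⟨⟨σ, A, hA, hv, (hT σ hσ).neg⟩, hσ, hst⟩
-- END junction

-- BEGIN blk_prodJ
private theorem blk_prodJ_jf (hc : 2 ≤ Fintype.card S) : 0 ≤ jf S ∧ jf S ≤ 1 := by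
  unfold jf
  have h1 : (2 : ℝ) ≤ (Fintype.card S : ℝ) := by exact_mod_cast hc
  have h2 : (Fintype.card S : ℝ)⁻¹ ≤ 1 := inv_le_one_of_one_le₀ (by linarith)
  have h3 : 0 ≤ (Fintype.card S : ℝ)⁻¹ := by positivity
  constructor <;> linarith

omit [Fintype S] in
private theorem blk_prodJ_bk (φ : List S → ℝ) (L M : ℕ) (w : List S) (hw : w.length = M * L + L) :
    ∏ i ∈ range (M + 1), φ (bk L i w) =
      (∏ i ∈ range M, φ (bk L i (w.take (M * L)))) * φ (w.drop (M * L)) := by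
  have h3 : ∀ i ∈ range M, φ (bk L i w) = φ (bk L i (w.take (M * L))) := by
    intro i hi
    have hi' : i + 1 ≤ M := Finset.mem_range.1 hi
    have h5 : (i + 1) * L ≤ M * L := Nat.mul_le_mul_right L hi'
    rw [Nat.succ_mul] at h5
    unfold bk
    rw [List.drop_take, List.take_take, Nat.min_eq_left (by omega)]
  have h4 : bk L M w = w.drop (M * L) := by
    unfold bk
    refine List.take_of_length_le ?_
    rw [List.length_drop, hw]
    omega
  rw [Finset.prod_range_succ, h4, Finset.prod_congr rfl h3]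

theorem blk_prodJ (Y : Sys S V) (T : Subgroup (Equiv.Perm S)) (hT : ∀ σ ∈ T, Sy Y σ)
    (htr : ∀ x y : S, ∃ σ ∈ T, σ x = y) (hc : 2 ≤ Fintype.card S) (φ : List S → ℝ)
    (hφ : ∀ w, 0 ≤ φ w) (hinv : ∀ σ ∈ T, ∀ w, φ (w.map σ) = φ w) (L M : ℕ) (hL : 1 ≤ L) :
    jf S * (Y.E (M * L) fun w => Y.sv w * ∏ i ∈ range M, φ (bk L i w)) ≤
      (jf S * Y.E L fun v => Y.sv v * φ v) ^ M := by
  obtain ⟨hj0, hj1⟩ := blk_prodJ_jf (S := S) hc
  have h0 : 0 ≤ (Y.E L fun v => Y.sv v * φ v) :=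
    Y.E_nonneg' fun w => mul_nonneg (Y.sv_nonneg w) (hφ w)
  induction M with
  | zero =>
    have h1 : (Y.E (0 * L) fun w => Y.sv w * ∏ i ∈ range 0, φ (bk L i w)) ≤ 1 := by simp
    rw [pow_zero]
    calc jf S * (Y.E (0 * L) fun w => Y.sv w * ∏ i ∈ range 0, φ (bk L i w)) ≤ jf S * 1 :=
          mul_le_mul_of_nonneg_left h1 hj0
      _ ≤ 1 := by rw [mul_one]; exact hj1
  | succ M ih =>
    rcases Nat.eq_zero_or_pos M with hM | hM
    · subst hM
      rw [zero_add, pow_one, one_mul]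
      refine mul_le_mul_of_nonneg_left (Y.E_mono fun w hw => le_of_eq ?_) hj0
      have h2 := blk_prodJ_bk φ L 0 w (by rw [zero_mul, zero_add, hw])
      rw [zero_add] at h2
      rw [h2, Finset.prod_range_zero, one_mul, zero_mul, List.drop_zero]
    · have h1 : (Y.E ((M + 1) * L) fun w => Y.sv w * ∏ i ∈ range (M + 1), φ (bk L i w)) ≤
          jf S * ((Y.E (M * L) fun w => Y.sv w * ∏ i ∈ range M, φ (bk L i w)) *
            (Y.E L fun v => Y.sv v * φ v)) := by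
        rw [Nat.succ_mul]
        refine le_trans (Y.E_mono fun w hw => le_of_eq ?_)
          (junction Y T hT htr (M * L) L (Nat.mul_pos hM hL) hL
            (F := fun w => ∏ i ∈ range M, φ (bk L i w)) (G := φ)
            (fun w => Finset.prod_nonneg fun i _ => hφ _) hφ hinv)
        rw [blk_prodJ_bk φ L M w hw]
      rw [pow_succ]
      calc jf S * (Y.E ((M + 1) * L) fun w => Y.sv w * ∏ i ∈ range (M + 1), φ (bk L i w))
          ≤ jf S * (jf S * ((Y.E (M * L) fun w => Y.sv w * ∏ i ∈ range M, φ (bk L i w)) *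
            (Y.E L fun v => Y.sv v * φ v))) := mul_le_mul_of_nonneg_left h1 hj0
        _ = (jf S * (Y.E (M * L) fun w => Y.sv w * ∏ i ∈ range M, φ (bk L i w))) *
            (jf S * Y.E L fun v => Y.sv v * φ v) := by ring
        _ ≤ _ := mul_le_mul_of_nonneg_right ih (mul_nonneg hj0 h0)
-- END blk_prodJ

-- BEGIN F_blk
theorem F_blk {F : List S → ℝ} {k : ℕ} (hF : Sb F k) (L R : ℕ) (w : List S)
    (hw : w.length = R * L) : F w ≤ (∑ i ∈ range R, F (bk L i w)) + R * k := by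
  induction R generalizing w with
  | zero =>
    have h0 := hF.le w
    rw [hw, Nat.zero_mul, Nat.cast_zero] at h0
    rw [Finset.sum_range_zero, Nat.cast_zero, zero_mul, add_zero]
    exact h0
  | succ R ih =>
    have hs : (R + 1) * L = R * L + L := Nat.succ_mul R L
    have hl : (w.take (R * L)).length = R * L := by
      rw [List.length_take, hw, hs]
      exact Nat.min_eq_left (Nat.le_add_right _ _)
    have h1 := ih (w.take (R * L)) hl
    have h2 := hF.add (w.take (R * L)) (w.drop (R * L))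
    rw [List.take_append_drop] at h2
    have h3 : ∀ i ∈ range R, bk L i (w.take (R * L)) = bk L i w := by
      intro i hi
      have hi' : i + 1 ≤ R := Finset.mem_range.1 hi
      have h5 : (i + 1) * L ≤ R * L := Nat.mul_le_mul_right L hi'
      rw [Nat.succ_mul] at h5
      unfold bk
      rw [List.drop_take, List.take_take, Nat.min_eq_left (by omega)]
    have h4 : bk L R w = w.drop (R * L) := by
      unfold bk
      refine List.take_of_length_le ?_
      rw [List.length_drop, hw, hs]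
      omega
    rw [Finset.sum_congr rfl (fun i hi => by rw [h3 i hi])] at h1
    rw [Finset.sum_range_succ, h4, Nat.cast_succ, add_mul, one_mul]
    linarith
-- END F_blk

-- BEGIN downF_pt
theorem downF_pt {F : List S → ℝ} {k : ℕ} (hF : Sb F k) {t1 t2 e : ℝ} (he : 0 < e) (ht2 : 0 ≤ t2)
    (h12 : t2 ≤ t1 + e) (L R : ℕ) (hL : 1 ≤ L) (hR : 1 ≤ R) (hk : (k : ℝ) ≤ e * L)
    (w : List S) (hw : w.length = R * L) (hX : t1 * (R * L : ℕ) ≤ F w) :
    3 * e ≤ 5 * e * ((R : ℝ)⁻¹ * ∑ i ∈ range R, ind ((t1 - 4 * e) * L ≤ F (bk L i w))) +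
      (R : ℝ)⁻¹ * ∑ i ∈ range R, ind (t2 * L ≤ F (bk L i w)) := by
  classical
  have hL0 : (0 : ℝ) < L := by exact_mod_cast hL
  have hR0 : (0 : ℝ) < R := by exact_mod_cast hR
  have hlen : ∀ i ∈ range R, ((bk L i w).length : ℝ) ≤ L := by
    intro i _
    have h1 : (bk L i w).length ≤ L := by
      unfold bk
      exact List.length_take_le _ _
    exact_mod_cast h1
  have hpt : ∀ i ∈ range R, F (bk L i w) ≤ L * ((t1 - 4 * e) +
      5 * e * ind ((t1 - 4 * e) * L ≤ F (bk L i w)) + ind (t2 * L ≤ F (bk L i w))) := by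
    intro i hi
    have h1 : F (bk L i w) ≤ L := (hF.le (bk L i w)).trans (hlen i hi)
    set X := F (bk L i w) with hXdef
    by_cases hB : (t1 - 4 * e) * L ≤ X
    · by_cases hC : t2 * L ≤ X
      · rw [ind, if_pos hB, ind, if_pos hC]
        nlinarith
      · rw [ind, if_pos hB, ind, if_neg hC]
        push Not at hC
        nlinarith
    · push Not at hB
      by_cases hC : t2 * L ≤ X
      · rw [ind, if_neg (not_le.mpr hB), ind, if_pos hC]
        nlinarith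
      · rw [ind, if_neg (not_le.mpr hB), ind, if_neg hC]
        nlinarith
  have hsum := Finset.sum_le_sum hpt
  rw [← Finset.mul_sum, Finset.sum_add_distrib, Finset.sum_add_distrib, Finset.sum_const,
    Finset.card_range, nsmul_eq_mul, ← Finset.mul_sum] at hsum
  have hblk := F_blk hF L R w hw
  have hRk : (R : ℝ) * k ≤ R * (e * L) := mul_le_mul_of_nonneg_left hk hR0.le
  push_cast at hX
  set SB := ∑ i ∈ range R, ind ((t1 - 4 * e) * L ≤ F (bk L i w)) with hSB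
  set SC := ∑ i ∈ range R, ind (t2 * L ≤ F (bk L i w)) with hSC
  have hmain : t1 * (R * L) - R * (e * L) ≤ L * (R * (t1 - 4 * e) + 5 * e * SB + SC) := by
    linarith
  have hmain2 : R * (3 * e) ≤ 5 * e * SB + SC := by
    have h2 : L * (R * (3 * e)) ≤ L * (5 * e * SB + SC) := by linarith
    exact le_of_mul_le_mul_left h2 hL0
  have h3 : 5 * e * ((R : ℝ)⁻¹ * SB) + (R : ℝ)⁻¹ * SC = (5 * e * SB + SC) / R := by
    field_simp
  rw [h3, le_div_iff₀ hR0]
  linarith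
-- END downF_pt

-- BEGIN downF_le
theorem downF_le (Y : Sys S V) (hK : ∀ n, Y.a n ≤ K) {F : List S → ℝ} {k : ℕ} (hF : Sb F k)
    {t1 t2 e : ℝ} (he : 0 < e) (ht2 : 0 ≤ t2) (h12 : t2 ≤ t1 + e) (L R : ℕ) (hL : 1 ≤ L)
    (hR : 1 ≤ R) (hk : (k : ℝ) ≤ e * L) :
    3 * e * fm Y F t1 (R * L) ≤ 5 * e * (K ^ 2 * fm Y F (t1 - 4 * e) L) + K ^ 2 * fm Y F t2 L := by
  have hR0 : (0 : ℝ) < R := by exact_mod_cast hR
  have h1 : 3 * e * fm Y F t1 (R * L) ≤ Y.E (R * L) fun w => Y.sv w *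
      (5 * e * ((R : ℝ)⁻¹ * ∑ i ∈ range R, ind ((t1 - 4 * e) * L ≤ F (bk L i w))) +
        (R : ℝ)⁻¹ * ∑ i ∈ range R, ind (t2 * L ≤ F (bk L i w))) := by
    unfold fm
    rw [← Y.E_mul_left]
    refine Y.E_mono fun w hw => ?_
    have h2 : 0 ≤ 5 * e * ((R : ℝ)⁻¹ * ∑ i ∈ range R, ind ((t1 - 4 * e) * L ≤ F (bk L i w))) +
        (R : ℝ)⁻¹ * ∑ i ∈ range R, ind (t2 * L ≤ F (bk L i w)) := by
      have h3 : 0 ≤ ∑ i ∈ range R, ind ((t1 - 4 * e) * L ≤ F (bk L i w)) :=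
        Finset.sum_nonneg fun i _ => ind_nonneg _
      have h4 : 0 ≤ ∑ i ∈ range R, ind (t2 * L ≤ F (bk L i w)) :=
        Finset.sum_nonneg fun i _ => ind_nonneg _
      positivity
    by_cases hX : t1 * (R * L : ℕ) ≤ F w
    · have h3 := downF_pt hF he ht2 h12 L R hL hR hk w hw hX
      rw [ind_of hX, mul_one, mul_comm]
      exact mul_le_mul_of_nonneg_left h3 (Y.sv_nonneg w)
    · rw [ind_not hX, mul_zero, mul_zero]
      exact mul_nonneg (Y.sv_nonneg w) h2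
  refine h1.trans ?_
  have h2 : (Y.E (R * L) fun w => Y.sv w *
      (5 * e * ((R : ℝ)⁻¹ * ∑ i ∈ range R, ind ((t1 - 4 * e) * L ≤ F (bk L i w))) +
        (R : ℝ)⁻¹ * ∑ i ∈ range R, ind (t2 * L ≤ F (bk L i w)))) =
      5 * e * ((R : ℝ)⁻¹ * ∑ i ∈ range R, Y.E (R * L) fun w => Y.sv w *
        ind ((t1 - 4 * e) * L ≤ F (bk L i w))) +
      (R : ℝ)⁻¹ * ∑ i ∈ range R, Y.E (R * L) fun w => Y.sv w *
        ind (t2 * L ≤ F (bk L i w)) := by
    rw [← Y.E_fsum, ← Y.E_fsum, ← Y.E_mul_left, ← Y.E_mul_left, ← Y.E_mul_left, ← Y.E_fadd]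
    refine Y.E_congr fun w _ => ?_
    rw [← Finset.mul_sum, ← Finset.mul_sum]
    ring
  rw [h2]
  have h3 : ∀ t : ℝ, (R : ℝ)⁻¹ * (∑ i ∈ range R, Y.E (R * L) fun w => Y.sv w *
      ind (t * L ≤ F (bk L i w))) ≤ K ^ 2 * fm Y F t L := by
    intro t
    have h4 : (∑ i ∈ range R, Y.E (R * L) fun w => Y.sv w * ind (t * L ≤ F (bk L i w))) ≤
        ∑ i ∈ range R, K ^ 2 * fm Y F t L :=
      Finset.sum_le_sum fun i hi => blk_one Y hK (fun v => ind (t * L ≤ F v))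
        (fun _ => ind_nonneg _) (Finset.mem_range.1 hi)
    rw [Finset.sum_const, Finset.card_range, nsmul_eq_mul] at h4
    rw [inv_mul_le_iff₀ hR0]
    exact h4
  exact add_le_add (mul_le_mul_of_nonneg_left (h3 _) (by positivity)) (h3 _)
-- END downF_le

-- BEGIN truncF
theorem truncF (Y : Sys S V) (hK : ∀ n, Y.a n ≤ K) {F : List S → ℝ} {k : ℕ} (hF : Sb F k)
    {t e : ℝ} (ht : 0 ≤ t) (L R r : ℕ) (hr : (r : ℝ) + k ≤ e * (R * L : ℕ)) :
    fm Y F t (R * L + r) ≤ K * fm Y F (t - e) (R * L) := by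
  have h1 : fm Y F t (R * L + r) ≤ Y.E (R * L + r) fun w => Y.sv w *
      (ind ((t - e) * (R * L : ℕ) ≤ F (w.take (R * L))) * (fun _ : List S => (1 : ℝ))
        (w.drop (R * L))) := by
    unfold fm
    refine Y.E_mono fun w hw => ?_
    refine mul_le_mul_of_nonneg_left ?_ (Y.sv_nonneg w)
    rw [mul_one]
    by_cases hX : t * ((R * L + r : ℕ) : ℝ) ≤ F w
    · have h2 : (t - e) * ((R * L : ℕ) : ℝ) ≤ F (w.take (R * L)) := by
        have h3 := hF.add (w.take (R * L)) (w.drop (R * L))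
        rw [List.take_append_drop] at h3
        have h4 := hF.le (w.drop (R * L))
        have h5 : ((w.drop (R * L)).length : ℝ) = r := by
          rw [List.length_drop, hw]
          congr 1
          omega
        rw [h5] at h4
        have h6 : t * ((R * L + r : ℕ) : ℝ) = t * ((R * L : ℕ) : ℝ) + t * r := by
          push_cast
          ring
        rw [h6] at hX
        have h7 : 0 ≤ t * (r : ℝ) := mul_nonneg ht (Nat.cast_nonneg r)
        have h8 : (t - e) * ((R * L : ℕ) : ℝ) = t * ((R * L : ℕ) : ℝ) - e * ((R * L : ℕ) : ℝ) := by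
          ring
        rw [h8]
        linarith
      rw [ind, if_pos hX, ind, if_pos h2]
    · rw [ind, if_neg hX]
      unfold ind
      split_ifs <;> norm_num
  have h2 := split2 Y (R * L) r
    (F := fun u => ind ((t - e) * (R * L : ℕ) ≤ F u)) (G := fun _ => (1 : ℝ))
    (fun w => by unfold ind; split_ifs <;> norm_num) (fun _ => zero_le_one)
  have h3 : (Y.E r fun v => Y.sv v * (1 : ℝ)) ≤ K := by
    have : (Y.E r fun v => Y.sv v * (1 : ℝ)) = Y.a r := by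
      unfold Sys.a
      exact Y.E_congr fun w _ => mul_one _
    rw [this]
    exact hK r
  have h4 : 0 ≤ fm Y F (t - e) (R * L) := by
    unfold fm
    refine Y.E_nonneg' fun w => mul_nonneg (Y.sv_nonneg w) ?_
    unfold ind
    split_ifs <;> norm_num
  calc fm Y F t (R * L + r) ≤ _ := h1
    _ ≤ (Y.E (R * L) fun u => Y.sv u * ind ((t - e) * (R * L : ℕ) ≤ F u)) *
        (Y.E r fun v => Y.sv v * (1 : ℝ)) := h2
    _ ≤ fm Y F (t - e) (R * L) * K := mul_le_mul_of_nonneg_left h3 h4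
    _ = K * fm Y F (t - e) (R * L) := mul_comm _ _
-- END truncF

-- BEGIN downF
theorem downF (Y : Sys S V) (h1 : ∀ n, 1 ≤ Y.a n) (hK : ∀ n, Y.a n ≤ K) {F : List S → ℝ} {k : ℕ}
    (hF : Sb F k) {t1 t2 e κ : ℝ} (he : 0 < e) (ht1 : 0 ≤ t1) (ht2 : 0 ≤ t2) (h12 : t2 ≤ t1 + e)
    (hκ : 0 < κ) (hf : ∃ᶠ n : ℕ in atTop, κ ≤ fm Y F t1 n)
    (h2 : ∀ x : ℝ, 0 < x → ∀ᶠ n : ℕ in atTop, fm Y F t2 n < x) :
    ∀ᶠ n : ℕ in atTop, κ / (2 * K ^ 3) ≤ fm Y F (t1 - 9 * e) n := by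
  have hK1 : 1 ≤ K := (h1 0).trans (hK 0)
  have hK0 : 0 < K := lt_of_lt_of_le one_pos hK1
  have hx : 0 < e * κ / K ^ 3 := by positivity
  obtain ⟨n0, hn0⟩ := exists_nat_ge ((k : ℝ) / e)
  filter_upwards [h2 _ hx, eventually_ge_atTop (max 1 n0)] with n hn hnn
  have hn1 : 1 ≤ n := (le_max_left 1 n0).trans hnn
  have hnn0 : n0 ≤ n := (le_max_right 1 n0).trans hnn
  have hge : (k : ℝ) ≤ e * n := by
    have h3 : (n0 : ℝ) ≤ n := by exact_mod_cast hnn0
    have h4 : (k : ℝ) / e ≤ n := hn0.trans h3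
    rw [div_le_iff₀ he] at h4
    linarith [mul_comm (n : ℝ) e]
  obtain ⟨m0, hm0⟩ := exists_nat_ge ((n + (k : ℝ)) / e)
  obtain ⟨N, hN, hNκ⟩ := (frequently_atTop.1 hf) (n + m0)
  have hdm : N / n * n + N % n = N := Nat.div_add_mod' N n
  have hr : N % n < n := Nat.mod_lt _ hn1
  have hR : 1 ≤ N / n := (Nat.one_le_div_iff hn1).2 (by omega)
  obtain ⟨R, hRe⟩ : ∃ R, R = N / n := ⟨_, rfl⟩
  obtain ⟨r, hre⟩ : ∃ r, r = N % n := ⟨_, rfl⟩
  rw [← hRe, ← hre] at hdm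
  rw [← hre] at hr
  rw [← hRe] at hR
  have hbig : m0 ≤ R * n := by omega
  have hcond : (r : ℝ) + k ≤ e * (R * n : ℕ) := by
    have h3 : (m0 : ℝ) ≤ (R * n : ℕ) := by exact_mod_cast hbig
    have h4 : (n + (k : ℝ)) / e ≤ (R * n : ℕ) := hm0.trans h3
    rw [div_le_iff₀ he] at h4
    have h5 : (r : ℝ) ≤ n := by exact_mod_cast hr.le
    linarith [mul_comm ((R * n : ℕ) : ℝ) e]
  have hA := truncF Y hK hF (t := t1) (e := e) ht1 n R r hcond
  rw [hdm] at hA
  have hB := downF_le Y hK hF (t1 := t1 - e) (t2 := t2) (e := 2 * e) (by linarith) ht2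
    (by linarith) n R hn1 hR (by nlinarith [hge, he, (Nat.cast_nonneg n : (0 : ℝ) ≤ n)])
  have h9 : t1 - e - 4 * (2 * e) = t1 - 9 * e := by ring
  rw [h9] at hB
  have hC : K ^ 2 * fm Y F t2 n ≤ e * κ / K := by
    have h3 : K ^ 2 * fm Y F t2 n ≤ K ^ 2 * (e * κ / K ^ 3) :=
      mul_le_mul_of_nonneg_left hn.le (by positivity)
    have h4 : K ^ 2 * (e * κ / K ^ 3) = e * κ / K := by
      field_simp
    rw [h4] at h3
    exact h3
  have hD : κ / K ≤ fm Y F (t1 - e) (R * n) := by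
    rw [div_le_iff₀ hK0]
    linarith [mul_comm K (fm Y F (t1 - e) (R * n))]
  have hE : 3 * (2 * e) * (κ / K) ≤ 3 * (2 * e) * fm Y F (t1 - e) (R * n) :=
    mul_le_mul_of_nonneg_left hD (by linarith)
  have hFF : e * κ / K = e * (κ / K) := mul_div_assoc e κ K
  have hG : 5 * (e * (κ / K)) ≤ 10 * (e * (K ^ 2 * fm Y F (t1 - 9 * e) n)) := by
    rw [hFF] at hC
    linarith
  have hH : κ / K ≤ 2 * (K ^ 2 * fm Y F (t1 - 9 * e) n) := by
    have h3 : e * (κ / K) ≤ e * (2 * (K ^ 2 * fm Y F (t1 - 9 * e) n)) := by linarith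
    exact le_of_mul_le_mul_left h3 he
  rw [div_le_iff₀ (by positivity)]
  rw [div_le_iff₀ hK0] at hH
  calc κ ≤ 2 * (K ^ 2 * fm Y F (t1 - 9 * e) n) * K := hH
    _ = fm Y F (t1 - 9 * e) n * (2 * K ^ 3) := by ring
-- END downF

-- BEGIN top
/-- the top value of `F / n` -/
theorem top (Y : Sys S V) (h1 : ∀ n, 1 ≤ Y.a n) (hK : ∀ n, Y.a n ≤ K) {F : List S → ℝ} {k : ℕ}
    (hF : Sb F k) {δ κ : ℝ} (hδ : 0 < δ) (hκ : 0 < κ) (hf : ∃ᶠ n : ℕ in atTop, κ ≤ fm Y F δ n) :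
    ∃ s : ℝ, δ ≤ s ∧ s ≤ 1 ∧ ∀ e : ℝ, 0 < e →
      (∃ κ' : ℝ, 0 < κ' ∧ ∀ᶠ n : ℕ in atTop, κ' ≤ fm Y F (s - e) n) ∧
      ∀ x : ℝ, 0 < x → ∀ᶠ n : ℕ in atTop, fm Y F (s + e) n < x := by
  have hanti : ∀ {t t' : ℝ}, t ≤ t' → ∀ n : ℕ, fm Y F t' n ≤ fm Y F t n := by
    intro t t' h n
    unfold fm
    refine Y.E_mono fun w _ => ?_
    refine mul_le_mul_of_nonneg_left (ind_mono fun h1 => ?_) (Y.sv_nonneg w)
    exact (mul_le_mul_of_nonneg_right h (Nat.cast_nonneg n)).trans h1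
  have hbig : ∀ {t : ℝ}, 1 < t → ∀ n : ℕ, 1 ≤ n → fm Y F t n = 0 := by
    intro t ht n hn
    unfold fm
    rw [← Y.E_zero_fun n]
    refine Y.E_congr fun w hw => ?_
    rw [ind_not, mul_zero]
    intro h1
    have h2 := hF.le w
    rw [hw] at h2
    have h3 : (0 : ℝ) < n := by exact_mod_cast hn
    nlinarith
  obtain ⟨T, hT⟩ : ∃ T : Set ℝ,
      T = {t : ℝ | ∃ x : ℝ, 0 < x ∧ ∃ᶠ n : ℕ in atTop, x ≤ fm Y F t n} := ⟨_, rfl⟩
  have hTb : ∀ t ∈ T, t ≤ 1 := by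
    intro t ht
    rw [hT] at ht
    obtain ⟨x, hx, hf⟩ := ht
    by_contra hcon
    obtain ⟨n, hn, hn1⟩ := (hf.and_eventually (eventually_ge_atTop 1)).exists
    rw [hbig (not_le.1 hcon) n hn1] at hn
    linarith
  have hbdd : BddAbove T := ⟨1, fun t ht => hTb t ht⟩
  have hδT : δ ∈ T := by rw [hT]; exact ⟨κ, hκ, hf⟩
  obtain ⟨s, hs⟩ : ∃ s : ℝ, s = sSup T := ⟨_, rfl⟩
  have hδs : δ ≤ s := by rw [hs]; exact le_csSup hbdd hδT
  have hnot : ∀ t2 : ℝ, s < t2 → ∀ x : ℝ, 0 < x → ∀ᶠ n : ℕ in atTop, fm Y F t2 n < x := by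
    intro t2 ht2 x hx
    by_contra hcon
    rw [Filter.not_eventually] at hcon
    have h3 : t2 ∈ T := by
      rw [hT]
      exact ⟨x, hx, hcon.mono fun n hn => not_lt.1 hn⟩
    have h4 := le_csSup hbdd h3
    rw [← hs] at h4
    linarith
  refine ⟨s, hδs, ?_, fun e he => ⟨?_, fun x hx => hnot (s + e) (by linarith) x hx⟩⟩
  · rw [hs]
    exact csSup_le ⟨δ, hδT⟩ hTb
  · obtain ⟨t1, ht1, ht1'⟩ := exists_lt_of_lt_csSup ⟨δ, hδT⟩
      (show max (s - e / 20) 0 < sSup T by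
        rw [← hs]
        exact max_lt (by linarith) (by linarith))
    have ht1a : s - e / 20 < t1 := lt_of_le_of_lt (le_max_left _ _) ht1'
    have ht1b : 0 < t1 := lt_of_le_of_lt (le_max_right _ _) ht1'
    rw [hT] at ht1
    obtain ⟨x, hx, hfx⟩ := ht1
    have hK1 : 1 ≤ K := (h1 0).trans (hK 0)
    have hK0 : 0 < K := lt_of_lt_of_le one_pos hK1
    refine ⟨x / (2 * K ^ 3), by positivity, ?_⟩
    have h5 := downF Y h1 hK hF (t1 := t1) (t2 := s + e / 40) (e := e / 10) (κ := x)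
      (by positivity) ht1b.le (by linarith) (by linarith) hx hfx
      (hnot (s + e / 40) (by linarith))
    filter_upwards [h5] with n hn
    exact hn.trans (hanti (by linarith) n)
-- END top

section vec

variable {W : Type} [NormedAddCommGroup W] [InnerProductSpace ℝ W] {X : List S → W}
  {act : Equiv.Perm S → W → W} {k : ℕ} {T : Subgroup (Equiv.Perm S)} {c b : Equiv.Perm S}

-- BEGIN norm_sb
theorem norm_sb (Y : Sys S V) (hX : Vx Y T X act k) : Sb (fun w => ‖X w‖) k := by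
  refine ⟨fun w => norm_nonneg _, hX.le, fun u v => ?_⟩
  have h := hX.add u v
  have e : X (u ++ v) = (X (u ++ v) - X u - X v) + X u + X v := by abel
  calc ‖X (u ++ v)‖ = ‖(X (u ++ v) - X u - X v) + X u + X v‖ := by rw [← e]
    _ ≤ ‖(X (u ++ v) - X u - X v) + X u‖ + ‖X v‖ := norm_add_le _ _
    _ ≤ ‖X (u ++ v) - X u - X v‖ + ‖X u‖ + ‖X v‖ := by
        have := norm_add_le (X (u ++ v) - X u - X v) (X u)
        linarith
    _ ≤ ‖X u‖ + ‖X v‖ + k := by linarith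
-- END norm_sb

-- BEGIN near_pt
private theorem near_pt_sum {Y : Sys S V} (hX : Vx Y T X act k) (L : ℕ) :
    ∀ (M : ℕ) (w : List S), w.length = M * L → 1 ≤ M →
      ‖X w - ∑ i ∈ range M, X (bk L i w)‖ ≤ (M : ℝ) * k := by
  intro M
  induction M with
  | zero => intro w _ h; omega
  | succ M ih =>
    intro w hw _
    rcases Nat.eq_zero_or_pos M with h0 | h0
    · subst h0
      have h1 : bk L 0 w = w := by
        unfold bk
        rw [Nat.zero_mul, List.drop_zero, List.take_of_length_le]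
        omega
      simp [h1]
    · have hw1 : (w.take (M * L)).length = M * L := by
        rw [List.length_take, hw]
        exact min_eq_left (Nat.mul_le_mul_right _ (Nat.le_succ M))
      have h2 := ih (w.take (M * L)) hw1 h0
      have h3 : ∀ i ∈ range M, X (bk L i (w.take (M * L))) = X (bk L i w) := by
        intro i hi
        rw [Finset.mem_range] at hi
        have h4 : i * L + L ≤ M * L := by
          have := Nat.mul_le_mul_right L (Nat.succ_le_of_lt hi)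
          rw [Nat.succ_mul] at this
          exact this
        congr 1
        unfold bk
        rw [List.drop_take, List.take_take, min_eq_left (by omega)]
      rw [Finset.sum_congr rfl h3] at h2
      have h5 : bk L M w = w.drop (M * L) := by
        unfold bk
        rw [List.take_of_length_le]
        rw [List.length_drop, hw, Nat.succ_mul]
        omega
      have h6 := hX.add (w.take (M * L)) (w.drop (M * L))
      rw [List.take_append_drop] at h6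
      rw [Finset.sum_range_succ, h5]
      have h7 : X w - (∑ i ∈ range M, X (bk L i w) + X (w.drop (M * L))) =
          (X w - X (w.take (M * L)) - X (w.drop (M * L))) +
            (X (w.take (M * L)) - ∑ i ∈ range M, X (bk L i w)) := by abel
      rw [h7]
      refine (norm_add_le _ _).trans ?_
      push_cast
      linarith

private theorem near_pt_var {M : ℕ} (y : ℕ → W) {q : W}
    (hq : (M : ℝ) • q = ∑ i ∈ range M, y i) :
    ∑ i ∈ range M, ‖y i - q‖ ^ 2 = ∑ i ∈ range M, ‖y i‖ ^ 2 - M * ‖q‖ ^ 2 := by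
  have h1 : ∀ i ∈ range M, ‖y i - q‖ ^ 2 = ‖y i‖ ^ 2 - 2 * inner ℝ (y i) q + ‖q‖ ^ 2 :=
    fun i _ => norm_sub_sq_real _ _
  rw [Finset.sum_congr rfl h1, Finset.sum_add_distrib, Finset.sum_sub_distrib,
    ← Finset.mul_sum, ← sum_inner, ← hq, real_inner_smul_left, real_inner_self_eq_norm_sq,
    Finset.sum_const, Finset.card_range, nsmul_eq_mul]
  ring

/-- all children but few have their vectors near the vector of the parent -/
theorem near_pt (Y : Sys S V) (hX : Vx Y T X act k) {s e ρ : ℝ} (he : 0 < e) (hes : 2 * e ≤ s)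
    (heρ : 2 * e ≤ ρ) (L M : ℕ) (hL : 1 ≤ L) (hM : 1 ≤ M) (hk : (k : ℝ) ≤ e * L) (w : List S)
    (hw : w.length = M * L) (v : W) (hv : ‖X w - ((M * L : ℕ) : ℝ) • v‖ < ρ * (M * L : ℕ))
    (hn : (s - e) * (M * L : ℕ) ≤ ‖X w‖) (hc : ∀ i < M, ‖X (bk L i w)‖ < (s + e) * L) :
    ((open Classical in (range M).filter fun i => ¬ Bl X v (2 * ρ) L (bk L i w)).card : ℝ) ≤
      24 * s * e / ρ ^ 2 * M := by
  classical
  have hL0 : (0 : ℝ) < L := by exact_mod_cast hL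
  have hM0 : (0 : ℝ) < M := by exact_mod_cast hM
  have hρ : 0 < ρ := by linarith
  have hML : ((M * L : ℕ) : ℝ) = M * L := by push_cast; ring
  rw [hML] at hv hn
  have hML0 : (0 : ℝ) < M * L := by positivity
  set y : ℕ → W := fun i => (L : ℝ)⁻¹ • X (bk L i w) with hy
  set q : W := (M : ℝ)⁻¹ • ∑ i ∈ range M, y i with hq
  set x : W := ((M : ℝ) * L)⁻¹ • X w with hx
  have hq1 : (M : ℝ) • q = ∑ i ∈ range M, y i := by
    rw [hq, smul_smul, mul_inv_cancel₀ hM0.ne', one_smul]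
  -- the parent is near the mean
  have hxq : ‖x - q‖ ≤ e := by
    have h1 := near_pt_sum hX L M w hw hM
    have h2 : x - q = ((M : ℝ) * L)⁻¹ • (X w - ∑ i ∈ range M, X (bk L i w)) := by
      rw [hx, hq, smul_sub, ← Finset.smul_sum, smul_smul, mul_inv]
    rw [h2, norm_smul, Real.norm_eq_abs, abs_of_pos (inv_pos.2 hML0), inv_mul_le_iff₀ hML0]
    calc ‖X w - ∑ i ∈ range M, X (bk L i w)‖ ≤ M * k := h1
      _ ≤ M * (e * L) := mul_le_mul_of_nonneg_left hk hM0.le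
      _ = M * L * e := by ring
  have hxn : s - e ≤ ‖x‖ := by
    rw [hx, norm_smul, Real.norm_eq_abs, abs_of_pos (inv_pos.2 hML0), le_inv_mul_iff₀ hML0]
    linarith
  have hqn : s - 2 * e ≤ ‖q‖ := by
    have h1 : ‖x‖ ≤ ‖x - q‖ + ‖q‖ := by
      calc ‖x‖ = ‖(x - q) + q‖ := by rw [sub_add_cancel]
        _ ≤ _ := norm_add_le _ _
    linarith
  have hxv : ‖x - v‖ < ρ := by
    have h2 : x - v = ((M : ℝ) * L)⁻¹ • (X w - ((M : ℝ) * L) • v) := by
      rw [hx, smul_sub, smul_smul, inv_mul_cancel₀ hML0.ne', one_smul]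
    rw [h2, norm_smul, Real.norm_eq_abs, abs_of_pos (inv_pos.2 hML0), inv_mul_lt_iff₀ hML0]
    linarith
  have hyn : ∀ i ∈ range M, ‖y i‖ ^ 2 ≤ (s + e) ^ 2 := by
    intro i hi
    have h1 := hc i (Finset.mem_range.1 hi)
    have h2 : ‖y i‖ ≤ s + e := by
      rw [hy, norm_smul, Real.norm_eq_abs, abs_of_pos (inv_pos.2 hL0), inv_mul_le_iff₀ hL0]
      linarith
    exact pow_le_pow_left₀ (norm_nonneg _) h2 2
  have hvar : ∑ i ∈ range M, ‖y i - q‖ ^ 2 ≤ 6 * s * e * M := by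
    rw [near_pt_var y hq1]
    have h1 : ∑ i ∈ range M, ‖y i‖ ^ 2 ≤ M * (s + e) ^ 2 := by
      refine (Finset.sum_le_sum hyn).trans ?_
      rw [Finset.sum_const, Finset.card_range, nsmul_eq_mul]
    have h2 : (s - 2 * e) ^ 2 ≤ ‖q‖ ^ 2 := pow_le_pow_left₀ (by linarith) hqn 2
    have h3 := mul_le_mul_of_nonneg_left h2 hM0.le
    have h4 : 0 ≤ (M : ℝ) * e ^ 2 := by positivity
    nlinarith
  set Bad := (range M).filter fun i => ¬ Bl X v (2 * ρ) L (bk L i w) with hBad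
  have hbad : ∀ i ∈ Bad, ρ ^ 2 / 4 ≤ ‖y i - q‖ ^ 2 := by
    intro i hi
    have h1 := (Finset.mem_filter.1 hi).2
    unfold Bl at h1
    push Not at h1
    have h2 : 2 * ρ ≤ ‖y i - v‖ := by
      have h3 : y i - v = (L : ℝ)⁻¹ • (X (bk L i w) - (L : ℝ) • v) := by
        rw [hy, smul_sub, smul_smul, inv_mul_cancel₀ hL0.ne', one_smul]
      rw [h3, norm_smul, Real.norm_eq_abs, abs_of_pos (inv_pos.2 hL0), le_inv_mul_iff₀ hL0]
      linarith
    have h3 : ‖y i - v‖ ≤ ‖y i - q‖ + ‖q - v‖ := by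
      calc ‖y i - v‖ = ‖(y i - q) + (q - v)‖ := by congr 1; abel
        _ ≤ _ := norm_add_le _ _
    have h4 : ‖q - v‖ ≤ ‖x - v‖ + ‖x - q‖ := by
      calc ‖q - v‖ = ‖(x - v) - (x - q)‖ := by congr 1; abel
        _ ≤ _ := norm_sub_le _ _
    have h5 : ρ / 2 ≤ ‖y i - q‖ := by linarith
    calc ρ ^ 2 / 4 = (ρ / 2) ^ 2 := by ring
      _ ≤ _ := pow_le_pow_left₀ (by linarith) h5 2
  have hcheb : (Bad.card : ℝ) * (ρ ^ 2 / 4) ≤ 6 * s * e * M := by
    calc (Bad.card : ℝ) * (ρ ^ 2 / 4) = ∑ i ∈ Bad, ρ ^ 2 / 4 := by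
          rw [Finset.sum_const, nsmul_eq_mul]
      _ ≤ ∑ i ∈ Bad, ‖y i - q‖ ^ 2 := Finset.sum_le_sum hbad
      _ ≤ ∑ i ∈ range M, ‖y i - q‖ ^ 2 :=
          Finset.sum_le_sum_of_subset_of_nonneg (Finset.filter_subset _ _)
            (fun _ _ _ => sq_nonneg _)
      _ ≤ _ := hvar
  have hρ2 : 0 < ρ ^ 2 := by positivity
  rw [div_mul_eq_mul_div, le_div_iff₀ hρ2]
  linarith
-- END near_pt

-- BEGIN cover
theorem cover [ProperSpace W] {ρ : ℝ} (hρ : 0 < ρ) :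
    ∃ A : Finset W, ∀ x : W, ‖x‖ ≤ 1 → ∃ v ∈ A, ‖x - v‖ < ρ := by
  obtain ⟨t, _, hfin, hcov⟩ := (isCompact_closedBall (0 : W) 1).finite_cover_balls hρ
  refine ⟨hfin.toFinset, fun x hx => ?_⟩
  have h1 : x ∈ Metric.closedBall (0 : W) 1 := by
    rw [mem_closedBall_zero_iff]
    exact hx
  obtain ⟨v, hv, hxv⟩ := Set.mem_iUnion₂.1 (hcov h1)
  refine ⟨v, hfin.mem_toFinset.2 hv, ?_⟩
  rw [← dist_eq_norm]
  exact hxv
-- END cover

-- BEGIN pow_ptv
theorem pow_ptv (Y : Sys S V) (hX : Vx Y T X act k) {s e ρ lam : ℝ} (he : 0 < e)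
    (hes : 2 * e ≤ s) (heρ : 2 * e ≤ ρ) (hlam : 0 ≤ lam) (A : Finset W)
    (hA : ∀ x : W, ‖x‖ ≤ 1 → ∃ v ∈ A, ‖x - v‖ < ρ) (L M : ℕ) (hL : 1 ≤ L) (hM : 1 ≤ M)
    (hk : (k : ℝ) ≤ e * L) (w : List S) (hw : w.length = M * L) :
    ind ((s - e) * (M * L : ℕ) ≤ ‖X w‖) ≤ (∑ i ∈ range M, ind ((s + e) * L ≤ ‖X (bk L i w)‖)) +
      ∑ v ∈ (open Classical in A.filter fun v => s - e - ρ ≤ ‖v‖),
        Real.exp (lam * (24 * s * e / ρ ^ 2) * M) *
          ∏ i ∈ range M, (ind (Bl X v (2 * ρ) L (bk L i w)) + Real.exp (-lam)) := by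
  have hs0 : 0 ≤ ∑ i ∈ range M, ind ((s + e) * L ≤ ‖X (bk L i w)‖) :=
    Finset.sum_nonneg fun _ _ => ind_nonneg _
  have hp0 : ∀ v : W, 0 ≤ Real.exp (lam * (24 * s * e / ρ ^ 2) * M) *
      ∏ i ∈ range M, (ind (Bl X v (2 * ρ) L (bk L i w)) + Real.exp (-lam)) := fun v =>
    mul_nonneg (Real.exp_pos _).le
      (Finset.prod_nonneg fun _ _ => add_nonneg (ind_nonneg _) (Real.exp_pos _).le)
  by_cases h1 : (s - e) * (M * L : ℕ) ≤ ‖X w‖
  swap
  · rw [ind_not h1]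
    exact add_nonneg hs0 (Finset.sum_nonneg fun v _ => hp0 v)
  rw [ind_of h1]
  by_cases h2 : ∃ i ∈ range M, (s + e) * L ≤ ‖X (bk L i w)‖
  · obtain ⟨i, hi, h3⟩ := h2
    have h4 : ind ((s + e) * L ≤ ‖X (bk L i w)‖) ≤
        ∑ i ∈ range M, ind ((s + e) * L ≤ ‖X (bk L i w)‖) :=
      Finset.single_le_sum (f := fun i => ind ((s + e) * L ≤ ‖X (bk L i w)‖))
        (fun _ _ => ind_nonneg _) hi
    rw [ind_of h3] at h4
    exact h4.trans (le_add_of_nonneg_right (Finset.sum_nonneg fun v _ => hp0 v))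
  push Not at h2
  have hML : (0 : ℝ) < ((M * L : ℕ) : ℝ) := by
    have : 0 < M * L := Nat.mul_pos hM hL
    exact_mod_cast this
  have hx1 : ‖(((M * L : ℕ) : ℝ)⁻¹) • X w‖ = ((M * L : ℕ) : ℝ)⁻¹ * ‖X w‖ := by
    rw [norm_smul, Real.norm_of_nonneg (inv_nonneg.2 hML.le)]
  have hle := hX.le w
  rw [hw] at hle
  obtain ⟨v, hvA, hv⟩ := hA ((((M * L : ℕ) : ℝ)⁻¹) • X w) (by
    rw [hx1, inv_mul_le_iff₀ hML, mul_one]
    exact hle)
  have hv' : ‖X w - ((M * L : ℕ) : ℝ) • v‖ < ρ * (M * L : ℕ) := by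
    have h3 : X w - ((M * L : ℕ) : ℝ) • v =
        ((M * L : ℕ) : ℝ) • ((((M * L : ℕ) : ℝ)⁻¹) • X w - v) := by
      rw [smul_sub, smul_inv_smul₀ hML.ne']
    rw [h3, norm_smul, Real.norm_of_nonneg hML.le, mul_comm]
    exact mul_lt_mul_of_pos_right hv hML
  have hvn : s - e - ρ ≤ ‖v‖ := by
    have h3 : s - e ≤ ‖(((M * L : ℕ) : ℝ)⁻¹) • X w‖ := by
      rw [hx1, le_inv_mul_iff₀ hML, mul_comm]
      exact h1
    have h4 := norm_sub_norm_le ((((M * L : ℕ) : ℝ)⁻¹) • X w) v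
    linarith
  have hcard := near_pt Y hX he hes heρ L M hL hM hk w hw v hv' h1
    (fun i hi => h2 i (Finset.mem_range.2 hi))
  obtain ⟨B, hB, hBm, hBs⟩ : ∃ B : Finset ℕ,
      (open Classical in (range M).filter fun i => ¬ Bl X v (2 * ρ) L (bk L i w)) = B ∧
        (∀ i ∈ range M, (i ∈ B ↔ ¬ Bl X v (2 * ρ) L (bk L i w))) ∧ B ⊆ range M := by
    classical
    refine ⟨_, rfl, fun i hi => ?_, Finset.filter_subset _ _⟩
    exact ⟨fun h => (Finset.mem_filter.1 h).2, fun h => Finset.mem_filter.2 ⟨hi, h⟩⟩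
  rw [hB] at hcard
  have hprod : Real.exp (-lam) ^ B.card ≤
      ∏ i ∈ range M, (ind (Bl X v (2 * ρ) L (bk L i w)) + Real.exp (-lam)) := by
    have h3 : ∏ i ∈ range M, (if i ∈ B then Real.exp (-lam) else 1) = Real.exp (-lam) ^ B.card := by
      rw [← Finset.prod_filter, Finset.prod_const, Finset.filter_mem_eq_inter,
        Finset.inter_eq_right.2 hBs]
    rw [← h3]
    refine Finset.prod_le_prod (fun i _ => ?_) fun i hi => ?_
    · split_ifs
      · exact (Real.exp_pos _).le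
      · exact zero_le_one
    · by_cases hiB : i ∈ B
      · rw [if_pos hiB]
        have := ind_nonneg (Bl X v (2 * ρ) L (bk L i w))
        linarith
      · rw [if_neg hiB]
        have h4 : Bl X v (2 * ρ) L (bk L i w) := by
          by_contra hcon
          exact hiB ((hBm i hi).2 hcon)
        rw [ind_of h4]
        have := Real.exp_pos (-lam)
        linarith
  have h11 : (1 : ℝ) ≤ Real.exp (lam * (24 * s * e / ρ ^ 2) * M) * Real.exp (-lam) ^ B.card := by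
    rw [← Real.exp_nat_mul, ← Real.exp_add]
    refine Real.one_le_exp ?_
    have := mul_le_mul_of_nonneg_left hcard hlam
    linarith
  have h12 := mul_le_mul_of_nonneg_left hprod
    (Real.exp_pos (lam * (24 * s * e / ρ ^ 2) * M)).le
  have h13 : Real.exp (lam * (24 * s * e / ρ ^ 2) * M) *
      ∏ i ∈ range M, (ind (Bl X v (2 * ρ) L (bk L i w)) + Real.exp (-lam)) ≤
      ∑ v ∈ (open Classical in A.filter fun v => s - e - ρ ≤ ‖v‖),
        Real.exp (lam * (24 * s * e / ρ ^ 2) * M) *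
          ∏ i ∈ range M, (ind (Bl X v (2 * ρ) L (bk L i w)) + Real.exp (-lam)) :=
    Finset.single_le_sum (f := fun v => Real.exp (lam * (24 * s * e / ρ ^ 2) * M) *
      ∏ i ∈ range M, (ind (Bl X v (2 * ρ) L (bk L i w)) + Real.exp (-lam)))
      (fun v _ => hp0 v) (Finset.mem_filter.2 ⟨hvA, hvn⟩)
  linarith
-- END pow_ptv

-- BEGIN two_bd
omit [AddCommGroup V] in
private theorem two_bd_jf (h : 2 ≤ Fintype.card S) : 0 ≤ jf S ∧ jf S ≤ 1 := by
  have hc : (2 : ℝ) ≤ (Fintype.card S : ℝ) := by exact_mod_cast h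
  have h1 : (Fintype.card S : ℝ)⁻¹ ≤ 1 := inv_le_one_of_one_le₀ (by linarith)
  have h2 : 0 ≤ (Fintype.card S : ℝ)⁻¹ := inv_nonneg.2 (by linarith)
  unfold jf
  constructor <;> linarith

omit [Fintype S] in
private theorem two_bd_Tb {ρ : ℝ} {v : W} {L : ℕ} {w : List S} (h : Bl X v ρ L w) :
    Tb T X v ρ L w := by
  refine ⟨1, T.one_mem, ?_⟩
  have e : w.map (1 : Equiv.Perm S) = w := by
    rw [Equiv.Perm.coe_one, List.map_id]
  rw [e]
  exact h

omit [Fintype S] in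
private theorem two_bd_inv {ρ : ℝ} {v : W} {L : ℕ} {σ : Equiv.Perm S} (hσ : σ ∈ T) (w : List S) :
    Tb T X v ρ L (w.map σ) ↔ Tb T X v ρ L w := by
  constructor
  · rintro ⟨τ, hτ, h⟩
    refine ⟨τ * σ, T.mul_mem hτ hσ, ?_⟩
    rw [List.map_map] at h
    exact h
  · rintro ⟨τ, hτ, h⟩
    refine ⟨τ * σ⁻¹, T.mul_mem hτ (T.inv_mem hσ), ?_⟩
    have e : (w.map σ).map (τ * σ⁻¹ : Equiv.Perm S) = w.map τ := by
      rw [List.map_map]
      refine List.map_congr_left fun x _ => ?_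
      simp
    rw [e]
    exact h

/-- two bounds for the mass of the words all but few of whose children are near `v` -/
theorem two_bd (Y : Sys S V) (hK : ∀ n, Y.a n ≤ K) (hG : Gr Y T c b) (hX : Vx Y T X act k)
    {ρ lam : ℝ} (L M : ℕ) (hL : 1 ≤ L) (v : W) :
    (Y.E (M * L) fun w => Y.sv w *
      ∏ i ∈ range M, (ind (Bl X v ρ L (bk L i w)) + Real.exp (-lam))) ≤
      (bm Y X v ρ L + K * Real.exp (-lam)) ^ M ∧
    jf S * (Y.E (M * L) fun w => Y.sv w *
      ∏ i ∈ range M, (ind (Bl X v ρ L (bk L i w)) + Real.exp (-lam))) ≤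
      (jf S * tm Y T X v ρ L + K * Real.exp (-lam)) ^ M := by
  obtain ⟨hj0, hj1⟩ := two_bd_jf (S := S) hG.two
  have he : (0 : ℝ) < Real.exp (-lam) := Real.exp_pos _
  have hKe : Y.a L * Real.exp (-lam) ≤ K * Real.exp (-lam) :=
    mul_le_mul_of_nonneg_right (hK L) he.le
  have hae : 0 ≤ Y.a L * Real.exp (-lam) := mul_nonneg (Y.a_nonneg L) he.le
  have hsum : ∀ P : List S → Prop, (Y.E L fun w => Y.sv w * (ind (P w) + Real.exp (-lam))) =
      (Y.E L fun w => Y.sv w * ind (P w)) + Y.a L * Real.exp (-lam) := by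
    intro P
    unfold Sys.a
    rw [← Y.E_mul_right, ← Y.E_fadd]
    refine Y.E_congr fun v _ => ?_
    ring
  have hnn : ∀ P : List S → Prop,
      0 ≤ (Y.E L fun w => Y.sv w * (ind (P w) + Real.exp (-lam))) := fun P =>
    Y.E_nonneg' fun w => mul_nonneg (Y.sv_nonneg w) (add_nonneg (ind_nonneg _) he.le)
  constructor
  · have h2 := blk_prod Y (fun w => ind (Bl X v ρ L w) + Real.exp (-lam))
      (fun w => add_nonneg (ind_nonneg _) he.le) L M
    refine h2.trans (pow_le_pow_left₀ (hnn _) ?_ M)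
    rw [hsum]
    unfold bm
    linarith
  · have hle : (Y.E (M * L) fun w => Y.sv w *
        ∏ i ∈ range M, (ind (Bl X v ρ L (bk L i w)) + Real.exp (-lam))) ≤
        (Y.E (M * L) fun w => Y.sv w *
          ∏ i ∈ range M, (ind (Tb T X v ρ L (bk L i w)) + Real.exp (-lam))) := by
      refine Y.E_mono fun w _ => mul_le_mul_of_nonneg_left ?_ (Y.sv_nonneg w)
      refine Finset.prod_le_prod (fun i _ => add_nonneg (ind_nonneg _) he.le) fun i _ => ?_
      have h1 : ind (Bl X v ρ L (bk L i w)) ≤ ind (Tb T X v ρ L (bk L i w)) :=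
        ind_mono two_bd_Tb
      linarith
    have h3 := blk_prodJ Y T hG.sy hG.tr hG.two
      (fun w => ind (Tb T X v ρ L w) + Real.exp (-lam))
      (fun w => add_nonneg (ind_nonneg _) he.le)
      (fun σ hσ w => by rw [ind_congr (two_bd_inv hσ w)]) L M hL
    refine (mul_le_mul_of_nonneg_left hle hj0).trans
      (h3.trans (pow_le_pow_left₀ (mul_nonneg hj0 (hnn _)) ?_ M))
    rw [hsum]
    unfold tm
    have h4 : jf S * (Y.a L * Real.exp (-lam)) ≤ Y.a L * Real.exp (-lam) :=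
      mul_le_of_le_one_left hae hj1
    linarith [mul_add (jf S) (Y.E L fun w => Y.sv w * ind (Tb T X v ρ L w))
      (Y.a L * Real.exp (-lam))]
-- END two_bd

-- BEGIN pick
private theorem pick_jf (Y : Sys S V) (hG : Gr Y T c b) : 1 / 2 ≤ jf S := by
  have h2 : (2 : ℝ) ≤ (Fintype.card S : ℝ) := by exact_mod_cast hG.two
  have h3 : (Fintype.card S : ℝ)⁻¹ ≤ 2⁻¹ := inv_anti₀ (by norm_num) h2
  unfold jf
  norm_num at h3 ⊢
  linarith

private theorem pick_sum (Y : Sys S V) (hK : ∀ n, Y.a n ≤ K) (hX : Vx Y T X act k)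
    {s e ρ lam : ℝ} (he : 0 < e)
    (hes : 2 * e ≤ s) (heρ : 2 * e ≤ ρ) (hlam : 0 ≤ lam) (A : Finset W)
    (hA : ∀ x : W, ‖x‖ ≤ 1 → ∃ v ∈ A, ‖x - v‖ < ρ) (L M : ℕ) (hL : 1 ≤ L) (hM : 1 ≤ M)
    (hk : (k : ℝ) ≤ e * L) :
    fm Y (fun w => ‖X w‖) (s - e) (M * L) ≤ M * (K ^ 2 * fm Y (fun w => ‖X w‖) (s + e) L) +
      ∑ v ∈ (open Classical in A.filter fun v => s - e - ρ ≤ ‖v‖),
        Real.exp (lam * (24 * s * e / ρ ^ 2) * M) * (Y.E (M * L) fun w => Y.sv w *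
          ∏ i ∈ range M, (ind (Bl X v (2 * ρ) L (bk L i w)) + Real.exp (-lam))) := by
  have h1 : fm Y (fun w => ‖X w‖) (s - e) (M * L) ≤
      (Y.E (M * L) fun w => ∑ i ∈ range M, Y.sv w * ind ((s + e) * L ≤ ‖X (bk L i w)‖)) +
      (Y.E (M * L) fun w => ∑ v ∈ (open Classical in A.filter fun v => s - e - ρ ≤ ‖v‖),
        Real.exp (lam * (24 * s * e / ρ ^ 2) * M) * (Y.sv w *
          ∏ i ∈ range M, (ind (Bl X v (2 * ρ) L (bk L i w)) + Real.exp (-lam)))) := by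
    unfold fm
    rw [← Y.E_fadd]
    refine Y.E_mono fun w hw => ?_
    have h2 := mul_le_mul_of_nonneg_left
      (pow_ptv Y hX he hes heρ hlam A hA L M hL hM hk w hw) (Y.sv_nonneg w)
    refine h2.trans (le_of_eq ?_)
    rw [mul_add, Finset.mul_sum, Finset.mul_sum]
    congr 1
    refine Finset.sum_congr rfl fun v _ => ?_
    ring
  refine h1.trans (add_le_add ?_ (le_of_eq ?_))
  · rw [Y.E_fsum]
    have h4 : (∑ i ∈ range M, Y.E (M * L) fun w => Y.sv w *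
        ind ((s + e) * L ≤ ‖X (bk L i w)‖)) ≤
        ∑ i ∈ range M, K ^ 2 * fm Y (fun w => ‖X w‖) (s + e) L :=
      Finset.sum_le_sum fun i hi => blk_one Y hK (fun v => ind ((s + e) * L ≤ ‖X v‖))
        (fun _ => ind_nonneg _) (Finset.mem_range.1 hi)
    rw [Finset.sum_const, Finset.card_range, nsmul_eq_mul] at h4
    exact h4
  · rw [Y.E_fsum]
    refine Finset.sum_congr rfl fun v _ => ?_
    rw [Y.E_mul_left]

private theorem pick_pow {x θ : ℝ} (hx0 : 0 ≤ x) (hx : x < 1 - θ) (hθ : 0 < θ) (M : ℕ) :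
    (x + θ / 4) ^ M ≤ Real.exp (-(3 * θ * M / 4)) := by
  calc (x + θ / 4) ^ M ≤ (Real.exp (-(3 * θ / 4))) ^ M := by
        apply pow_le_pow_left₀ (by positivity)
        have h9 := Real.add_one_le_exp (-(3 * θ / 4))
        linarith
    _ = Real.exp (-(3 * θ * M / 4)) := by rw [← Real.exp_nat_mul]; congr 1; ring

/-- at every large length one class has mass `1` and its saturation mass `1 / jf` -/
theorem pick [ProperSpace W] (Y : Sys S V) (h1 : ∀ n, 1 ≤ Y.a n) (hK : ∀ n, Y.a n ≤ K)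
    (hG : Gr Y T c b) (hX : Vx Y T X act k) {s ρ θ : ℝ} (hs : 0 < s) (hρ : 0 < ρ) (hθ : 0 < θ)
    (hθ1 : θ < 1)
    (hlow : ∀ e : ℝ, 0 < e → ∃ κ' : ℝ, 0 < κ' ∧
      ∀ᶠ n : ℕ in atTop, κ' ≤ fm Y (fun w => ‖X w‖) (s - e) n)
    (hup : ∀ e : ℝ, 0 < e → ∀ x : ℝ, 0 < x →
      ∀ᶠ n : ℕ in atTop, fm Y (fun w => ‖X w‖) (s + e) n < x) :
    ∀ᶠ L : ℕ in atTop, ∃ v : W, s - 2 * ρ ≤ ‖v‖ ∧ 1 - θ ≤ bm Y X v (2 * ρ) L ∧
      1 - θ ≤ jf S * tm Y T X v (2 * ρ) L := by
  have hK1 : 1 ≤ K := (h1 0).trans (hK 0)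
  have hK0 : 0 < K := lt_of_lt_of_le one_pos hK1
  have hj : 1 / 2 ≤ jf S := pick_jf Y hG
  obtain ⟨lam, hlam⟩ : ∃ lam : ℝ, lam = Real.log (4 * K / θ) := ⟨_, rfl⟩
  have hq : 1 < 4 * K / θ := by
    rw [lt_div_iff₀ hθ]; linarith
  have hlam0 : 0 < lam := by rw [hlam]; exact Real.log_pos hq
  have hexp : K * Real.exp (-lam) = θ / 4 := by
    rw [Real.exp_neg, hlam, Real.exp_log (by positivity)]
    field_simp
  obtain ⟨e, he⟩ : ∃ e : ℝ, e = min (s / 2) (min (ρ / 2) (θ * ρ ^ 2 / (192 * lam * s))) := ⟨_, rfl⟩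
  have he0 : 0 < e := by
    rw [he]
    exact lt_min (by positivity) (lt_min (by positivity) (by positivity))
  have he1 : e ≤ s / 2 := by rw [he]; exact min_le_left _ _
  have he2 : e ≤ ρ / 2 := by rw [he]; exact (min_le_right _ _).trans (min_le_left _ _)
  have he3 : e ≤ θ * ρ ^ 2 / (192 * lam * s) := by
    rw [he]; exact (min_le_right _ _).trans (min_le_right _ _)
  have hle : lam * (24 * s * e / ρ ^ 2) ≤ θ / 8 := by
    have h2 : lam * (24 * s * e / ρ ^ 2) ≤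
        lam * (24 * s * (θ * ρ ^ 2 / (192 * lam * s)) / ρ ^ 2) := by
      gcongr
    have h3 : lam * (24 * s * (θ * ρ ^ 2 / (192 * lam * s)) / ρ ^ 2) = θ / 8 := by
      field_simp
      norm_num
    linarith
  obtain ⟨A, hA⟩ := cover (W := W) hρ
  obtain ⟨κ, hκ, hlowκ⟩ := hlow e he0
  obtain ⟨M, hM1, hM⟩ : ∃ M : ℕ, 1 ≤ M ∧
      (A.card : ℝ) * (2 * Real.exp (-(θ * M / 2))) < κ / 4 := by
    have h2 : Tendsto (fun M : ℕ => (A.card : ℝ) * (2 * Real.exp (-(θ * M / 2)))) atTop (𝓝 0) := by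
      have h5 : Tendsto (fun M : ℕ => Real.exp (-(θ * M / 2))) atTop (𝓝 0) := by
        apply Real.tendsto_exp_atBot.comp
        apply tendsto_neg_atTop_atBot.comp
        have h3 : Tendsto (fun M : ℕ => (θ / 2) * (M : ℝ)) atTop atTop :=
          tendsto_natCast_atTop_atTop.const_mul_atTop (by positivity)
        refine h3.congr fun M => by ring
      have h6 := (h5.const_mul (2 : ℝ)).const_mul (A.card : ℝ)
      rw [mul_zero, mul_zero] at h6
      exact h6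
    obtain ⟨M, h3, h4⟩ := ((h2.eventually (gt_mem_nhds (show (0 : ℝ) < κ / 4 by positivity))).and
      (eventually_ge_atTop 1)).exists
    exact ⟨M, h4, h3⟩
  have hM0 : (0 : ℝ) < M := by exact_mod_cast hM1
  have hmul : Tendsto (fun n : ℕ => M * n) atTop atTop :=
    tendsto_id.const_mul_atTop' hM1
  have hsm := hup e he0 (κ / (4 * (M * K ^ 2))) (by positivity)
  have hlen : ∀ᶠ n : ℕ in atTop, (k : ℝ) ≤ e * n := by
    have h3 : Tendsto (fun n : ℕ => e * (n : ℝ)) atTop atTop :=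
      tendsto_natCast_atTop_atTop.const_mul_atTop he0
    exact h3.eventually (eventually_ge_atTop (k : ℝ))
  filter_upwards [hmul.eventually hlowκ, hsm, hlen, eventually_ge_atTop 1] with L hd hs1 hl hL
  by_contra hcon
  have hm := pick_sum Y hK hX (s := s) (e := e) (ρ := ρ) (lam := lam) he0 (by linarith)
    (by linarith) hlam0.le A hA L M hL hM1 hl
  have h5 : (M : ℝ) * (K ^ 2 * fm Y (fun w => ‖X w‖) (s + e) L) < κ / 4 := by
    have h6 : (M : ℝ) * K ^ 2 * fm Y (fun w => ‖X w‖) (s + e) L <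
        (M : ℝ) * K ^ 2 * (κ / (4 * (M * K ^ 2))) :=
      mul_lt_mul_of_pos_left hs1 (by positivity)
    have h7 : (M : ℝ) * K ^ 2 * (κ / (4 * (M * K ^ 2))) = κ / 4 := by field_simp
    rw [h7] at h6
    calc (M : ℝ) * (K ^ 2 * fm Y (fun w => ‖X w‖) (s + e) L) =
        (M : ℝ) * K ^ 2 * fm Y (fun w => ‖X w‖) (s + e) L := by ring
      _ < κ / 4 := h6
  have hP : ∀ v : W, s - e - ρ ≤ ‖v‖ → Real.exp (lam * (24 * s * e / ρ ^ 2) * M) *
      (Y.E (M * L) fun w => Y.sv w *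
        ∏ i ∈ range M, (ind (Bl X v (2 * ρ) L (bk L i w)) + Real.exp (-lam))) ≤
      2 * Real.exp (-(θ * M / 2)) := by
    intro v hv
    obtain ⟨hb1, hb2⟩ := two_bd Y hK hG hX (ρ := 2 * ρ) (lam := lam) L M hL v
    rw [hexp] at hb1 hb2
    have hbm0 : 0 ≤ bm Y X v (2 * ρ) L :=
      Y.E_nonneg' fun w => mul_nonneg (Y.sv_nonneg w) (ind_nonneg _)
    have htm0 : 0 ≤ tm Y T X v (2 * ρ) L :=
      Y.E_nonneg' fun w => mul_nonneg (Y.sv_nonneg w) (ind_nonneg _)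
    obtain ⟨P, hPd⟩ : ∃ P : ℝ, P = (Y.E (M * L) fun w => Y.sv w *
        ∏ i ∈ range M, (ind (Bl X v (2 * ρ) L (bk L i w)) + Real.exp (-lam))) := ⟨_, rfl⟩
    rw [← hPd] at hb1 hb2 ⊢
    have hP2 : P ≤ 2 * Real.exp (-(3 * θ * M / 4)) := by
      by_cases hc1 : 1 - θ ≤ bm Y X v (2 * ρ) L
      · have hc2 : jf S * tm Y T X v (2 * ρ) L < 1 - θ := by
          by_contra hc3
          exact hcon ⟨v, by linarith, hc1, not_lt.1 hc3⟩
        have h8 := hb2.trans (pick_pow (by positivity) hc2 hθ M)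
        have h9 : 0 < Real.exp (-(3 * θ * M / 4)) := Real.exp_pos _
        by_contra hc4
        rw [not_le] at hc4
        have h10 : 1 / 2 * P ≤ jf S * P := mul_le_mul_of_nonneg_right hj (by linarith)
        linarith
      · have h8 := hb1.trans (pick_pow hbm0 (not_le.1 hc1) hθ M)
        have h9 : 0 < Real.exp (-(3 * θ * M / 4)) := Real.exp_pos _
        linarith
    have h11 : Real.exp (lam * (24 * s * e / ρ ^ 2) * M) ≤ Real.exp (θ / 8 * M) :=
      Real.exp_le_exp.2 (mul_le_mul_of_nonneg_right hle hM0.le)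
    have h12 : Real.exp (lam * (24 * s * e / ρ ^ 2) * M) * P ≤
        Real.exp (lam * (24 * s * e / ρ ^ 2) * M) * (2 * Real.exp (-(3 * θ * M / 4))) :=
      mul_le_mul_of_nonneg_left hP2 (Real.exp_pos _).le
    have h13 : Real.exp (lam * (24 * s * e / ρ ^ 2) * M) * (2 * Real.exp (-(3 * θ * M / 4))) ≤
        Real.exp (θ / 8 * M) * (2 * Real.exp (-(3 * θ * M / 4))) :=
      mul_le_mul_of_nonneg_right h11 (by positivity)
    have h14 : Real.exp (θ / 8 * M) * (2 * Real.exp (-(3 * θ * M / 4))) =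
        2 * Real.exp (-(5 * θ * M / 8)) := by
      rw [mul_left_comm, ← Real.exp_add]
      congr 2
      ring
    have h15 : Real.exp (-(5 * θ * M / 8)) ≤ Real.exp (-(θ * M / 2)) := by
      apply Real.exp_le_exp.2
      have h16 : 0 ≤ θ * M := by positivity
      linarith
    linarith
  have h20 : (∑ v ∈ (open Classical in A.filter fun v => s - e - ρ ≤ ‖v‖),
        Real.exp (lam * (24 * s * e / ρ ^ 2) * M) * (Y.E (M * L) fun w => Y.sv w *
          ∏ i ∈ range M, (ind (Bl X v (2 * ρ) L (bk L i w)) + Real.exp (-lam)))) ≤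
      (A.card : ℝ) * (2 * Real.exp (-(θ * M / 2))) := by
    have h21 : (∑ v ∈ (open Classical in A.filter fun v => s - e - ρ ≤ ‖v‖),
        Real.exp (lam * (24 * s * e / ρ ^ 2) * M) * (Y.E (M * L) fun w => Y.sv w *
          ∏ i ∈ range M, (ind (Bl X v (2 * ρ) L (bk L i w)) + Real.exp (-lam)))) ≤
        ∑ v ∈ (open Classical in A.filter fun v => s - e - ρ ≤ ‖v‖),
          2 * Real.exp (-(θ * M / 2)) :=
      Finset.sum_le_sum fun v hv => hP v (Finset.mem_filter.1 hv).2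
    refine h21.trans ?_
    rw [Finset.sum_const, nsmul_eq_mul]
    refine mul_le_mul_of_nonneg_right ?_ (by positivity)
    exact_mod_cast Finset.card_filter_le _ _
  linarith
-- END pick

-- BEGIN grp
private theorem grp_mul {r : ℝ} {v : W} (Y : Sys S V) (hX : Vx Y T X act k)
    (hr : 3 * r ≤ 2 * ‖v‖) (h : ∀ σ ∈ T, ‖act σ v - v‖ < r ∨ ‖act σ v + v‖ < r)
    {σ τ : Equiv.Perm S} (hσ : σ ∈ T) (hτ : τ ∈ T)
    (hs : (‖act σ v - v‖ < r ∧ ‖act τ v - v‖ < r) ∨ (‖act σ v + v‖ < r ∧ ‖act τ v + v‖ < r)) :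
    ‖act (σ * τ) v - v‖ < r := by
  rcases h (σ * τ) (T.mul_mem hσ hτ) with h1 | h1
  · exact h1
  · exfalso
    have h2 : ‖act (σ * τ) v - v‖ < 2 * r := by
      rw [hX.mul]
      rcases hs with ⟨a1, a2⟩ | ⟨a1, a2⟩
      · have h3 : ‖act σ (act τ v) - act σ v‖ < r := by rw [hX.iso]; exact a2
        have h4 : act σ (act τ v) - v = (act σ (act τ v) - act σ v) + (act σ v - v) := by abel
        rw [h4]
        exact (norm_add_le _ _).trans_lt (by linarith)
      · have h3 : ‖act σ (act τ v) - act σ (-v)‖ < r := by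
          rw [hX.iso, sub_neg_eq_add]; exact a2
        have h4 : act σ (act τ v) - v = (act σ (act τ v) - act σ (-v)) + (act σ (-v) - v) := by abel
        have h5 : ‖act σ (-v) - v‖ < r := by
          rw [hX.neg, ← norm_neg]
          have h6 : -(-act σ v - v) = act σ v + v := by abel
          rw [h6]
          exact a1
        rw [h4]
        exact (norm_add_le _ _).trans_lt (by linarith)
    have h3 : (2 : ℝ) * ‖v‖ < 3 * r := by
      have h4 : (2 : ℝ) • v = (act (σ * τ) v + v) - (act (σ * τ) v - v) := by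
        rw [two_smul]; abel
      have h5 : ‖(2 : ℝ) • v‖ = 2 * ‖v‖ := by
        rw [norm_smul, Real.norm_eq_abs, abs_of_pos (by norm_num : (0 : ℝ) < 2)]
      rw [← h5, h4]
      exact (norm_sub_le _ _).trans_lt (by linarith)
    linarith

private theorem grp_mul' {r : ℝ} {v : W} (Y : Sys S V) (hX : Vx Y T X act k)
    (hr : 3 * r ≤ 2 * ‖v‖) (h : ∀ σ ∈ T, ‖act σ v - v‖ < r ∨ ‖act σ v + v‖ < r)
    {σ τ : Equiv.Perm S} (hσ : σ ∈ T) (hτ : τ ∈ T)
    (hs : (‖act σ v - v‖ < r ∧ ‖act τ v + v‖ < r) ∨ (‖act σ v + v‖ < r ∧ ‖act τ v - v‖ < r)) :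
    ‖act (σ * τ) v + v‖ < r := by
  rcases h (σ * τ) (T.mul_mem hσ hτ) with h1 | h1
  · exfalso
    have h2 : ‖act (σ * τ) v + v‖ < 2 * r := by
      rw [hX.mul]
      rcases hs with ⟨a1, a2⟩ | ⟨a1, a2⟩
      · have h3 : ‖act σ (act τ v) - act σ (-v)‖ < r := by
          rw [hX.iso, sub_neg_eq_add]; exact a2
        have h4 : act σ (act τ v) + v = (act σ (act τ v) - act σ (-v)) + (act σ (-v) + v) := by abel
        have h5 : ‖act σ (-v) + v‖ < r := by
          rw [hX.neg, ← norm_neg]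
          have h6 : -(-act σ v + v) = act σ v - v := by abel
          rw [h6]
          exact a1
        rw [h4]
        exact (norm_add_le _ _).trans_lt (by linarith)
      · have h3 : ‖act σ (act τ v) - act σ v‖ < r := by rw [hX.iso]; exact a2
        have h4 : act σ (act τ v) + v = (act σ (act τ v) - act σ v) + (act σ v + v) := by abel
        rw [h4]
        exact (norm_add_le _ _).trans_lt (by linarith)
    have h3 : (2 : ℝ) * ‖v‖ < 3 * r := by
      have h4 : (2 : ℝ) • v = (act (σ * τ) v + v) - (act (σ * τ) v - v) := by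
        rw [two_smul]; abel
      have h5 : ‖(2 : ℝ) • v‖ = 2 * ‖v‖ := by
        rw [norm_smul, Real.norm_eq_abs, abs_of_pos (by norm_num : (0 : ℝ) < 2)]
      rw [← h5, h4]
      exact (norm_sub_le _ _).trans_lt (by linarith)
    linarith
  · exact h1

private theorem grp_excl {r : ℝ} {v : W} (hr : 3 * r ≤ 2 * ‖v‖) (x : W)
    (h1 : ‖x - v‖ < r) (h2 : ‖x + v‖ < r) : False := by
  have h4 : (2 : ℝ) • v = (x + v) - (x - v) := by rw [two_smul]; abel
  have h5 : ‖(2 : ℝ) • v‖ = 2 * ‖v‖ := by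
    rw [norm_smul, Real.norm_eq_abs, abs_of_pos (by norm_num : (0 : ℝ) < 2)]
  have h6 : (2 : ℝ) * ‖v‖ < 2 * r := by
    rw [← h5, h4]
    exact (norm_sub_le _ _).trans_lt (by linarith)
  have h7 : 0 ≤ ‖x - v‖ := norm_nonneg _
  linarith

/-- the generators fix `v` approximately -/
theorem grp (Y : Sys S V) (hG : Gr Y T c b) (hX : Vx Y T X act k) {r : ℝ} (v : W)
    (hr : 3 * r ≤ 2 * ‖v‖) (h : ∀ σ ∈ T, ‖act σ v - v‖ < r ∨ ‖act σ v + v‖ < r) :
    ∀ σ ∈ T, ‖act σ v - v‖ < r := by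
  have hcT : c ∈ T := by rw [hG.gen]; exact Subgroup.subset_closure (by simp)
  have hbT : b ∈ T := by rw [hG.gen]; exact Subgroup.subset_closure (by simp)
  have hone : ‖act 1 v - v‖ < r := by
    rcases h 1 T.one_mem with h1 | h1
    · exact h1
    · exfalso
      rw [hX.one] at h1
      have h5 : ‖v + v‖ = 2 * ‖v‖ := by
        rw [← two_smul ℝ v, norm_smul, Real.norm_eq_abs, abs_of_pos (by norm_num : (0 : ℝ) < 2)]
      rw [h5] at h1
      have := norm_nonneg v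
      linarith
  have hinv : ∀ σ ∈ T, ‖act σ v - v‖ < r → ‖act σ⁻¹ v - v‖ < r := by
    intro σ hσ h1
    rcases h σ⁻¹ (T.inv_mem hσ) with h2 | h2
    · exact h2
    · exfalso
      have h3 := grp_mul' Y hX hr h hσ (T.inv_mem hσ) (Or.inl ⟨h1, h2⟩)
      rw [mul_inv_cancel] at h3
      exact grp_excl hr _ hone h3
  have hinv' : ∀ σ ∈ T, ‖act σ v + v‖ < r → ‖act σ⁻¹ v + v‖ < r := by
    intro σ hσ h1
    rcases h σ⁻¹ (T.inv_mem hσ) with h2 | h2
    · exfalso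
      have h3 := grp_mul' Y hX hr h hσ (T.inv_mem hσ) (Or.inr ⟨h1, h2⟩)
      rw [mul_inv_cancel] at h3
      exact grp_excl hr _ hone h3
    · exact h2
  -- the generator of order three
  have hc : ‖act c v - v‖ < r := by
    rcases h c hcT with h1 | h1
    · exact h1
    · exfalso
      have h2 := grp_mul Y hX hr h hcT hcT (Or.inr ⟨h1, h1⟩)
      have h3 := grp_mul' Y hX hr h (T.mul_mem hcT hcT) hcT (Or.inl ⟨h2, h1⟩)
      rw [hG.c3] at h3
      exact grp_excl hr _ hone h3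
  have hb : ‖act b v - v‖ < r := by
    rcases h b hbT with h1 | h1
    · exact h1
    · exfalso
      have hconj : ∀ σ ∈ T, ‖act σ v + v‖ < r → ‖act (c * σ * c⁻¹) v + v‖ < r := by
        intro σ hσ h2
        exact grp_mul' Y hX hr h (T.mul_mem hcT hσ) (T.inv_mem hcT)
          (Or.inr ⟨grp_mul' Y hX hr h hcT hσ (Or.inl ⟨hc, h2⟩), hinv c hcT hc⟩)
      have m2 : c * b * c⁻¹ ∈ T := T.mul_mem (T.mul_mem hcT hbT) (T.inv_mem hcT)
      have m3 : c * (c * b * c⁻¹) * c⁻¹ ∈ T := T.mul_mem (T.mul_mem hcT m2) (T.inv_mem hcT)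
      have h2 := hconj b hbT h1
      have h3 := hconj _ m2 h2
      have h4 := grp_mul Y hX hr h hbT m2 (Or.inr ⟨h1, h2⟩)
      have h5 := grp_mul' Y hX hr h (T.mul_mem hbT m2) m3 (Or.inl ⟨h4, h3⟩)
      rw [hG.b3] at h5
      exact grp_excl hr _ hone h5
  intro σ hσ
  have hmem : ∀ τ ∈ Subgroup.closure {c, b}, τ ∈ T ∧ ‖act τ v - v‖ < r := by
    intro τ hτ
    refine Subgroup.closure_induction (p := fun τ _ => τ ∈ T ∧ ‖act τ v - v‖ < r) ?_ ?_ ?_ ?_ hτ
    · rintro x (rfl | rfl)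
      · exact ⟨hcT, hc⟩
      · exact ⟨hbT, hb⟩
    · exact ⟨T.one_mem, hone⟩
    · rintro x y _ _ ⟨hx, hx'⟩ ⟨hy, hy'⟩
      exact ⟨T.mul_mem hx hy, grp_mul Y hX hr h hx hy (Or.inl ⟨hx', hy'⟩)⟩
    · rintro x _ ⟨hx, hx'⟩
      exact ⟨T.inv_mem hx, hinv x hx hx'⟩
  have hσ' : σ ∈ Subgroup.closure {c, b} := by rw [← hG.gen]; exact hσ
  exact (hmem σ hσ').2
-- END grp

-- BEGIN bm_sym
private theorem bm_sym_E (Y : Sys S V) (n : ℕ) (F : List S → ℝ) :
    (Y.E n fun u => F (bar Y u)) = Y.E n F := by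
  have h1 := Y.E_neg n (fun w => F w.reverse)
  rw [Y.E_reverse] at h1
  exact h1

private theorem bm_sym_sv (Y : Sys S V) (w : List S) : Y.sv (bar Y w) = Y.sv w := by
  simp [bar]

theorem bm_bar (Y : Sys S V) (hX : Vx Y T X act k) (v : W) (ρ : ℝ) (L : ℕ) :
    bm Y X (-v) ρ L = bm Y X v ρ L := by
  unfold bm
  rw [← bm_sym_E Y L fun w => Y.sv w * ind (Bl X v ρ L w)]
  refine Y.E_congr fun w _ => ?_
  rw [bm_sym_sv]
  congr 1
  refine ind_congr ?_
  unfold Bl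
  have e : ‖X w - (L : ℝ) • (-v)‖ = ‖X (bar Y w) - (L : ℝ) • v‖ := by
    rw [hX.bar w, ← norm_neg]
    congr 1
    rw [smul_neg]
    abel
  rw [e]

theorem bm_act (Y : Sys S V) (hG : Gr Y T c b) (hX : Vx Y T X act k) (v : W) (ρ : ℝ) (L : ℕ)
    {σ : Equiv.Perm S} (hσ : σ ∈ T) : bm Y X (act σ v) ρ L = bm Y X v ρ L := by
  unfold bm
  rw [← E_map Y σ L fun w => Y.sv w * ind (Bl X (act σ v) ρ L w)]
  refine Y.E_congr fun w _ => ?_
  rw [sv_map Y (hG.sy σ hσ)]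
  congr 1
  refine ind_congr ?_
  unfold Bl
  rw [hX.map σ hσ, ← hX.smul, hX.iso]
-- END bm_sym

-- BEGIN typed4
omit [Fintype S] in
private theorem typed4_far {u v : W} {ρ : ℝ} (h : 4 * ρ ≤ ‖u - v‖) {L : ℕ} (hL : 1 ≤ L)
    {w : List S} (h1 : Bl X v (2 * ρ) L w) (h2 : Bl X u (2 * ρ) L w) : False := by
  unfold Bl at h1 h2
  have hLp : (0 : ℝ) < L := by exact_mod_cast hL
  have h3 : ‖(L : ℝ) • u - (L : ℝ) • v‖ ≤ ‖X w - (L : ℝ) • v‖ + ‖X w - (L : ℝ) • u‖ := by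
    have h5 : (L : ℝ) • u - (L : ℝ) • v = (X w - (L : ℝ) • v) - (X w - (L : ℝ) • u) := by abel
    rw [h5]
    exact norm_sub_le _ _
  rw [← smul_sub, norm_smul, Real.norm_eq_abs, abs_of_pos hLp] at h3
  have h4 : (L : ℝ) * (4 * ρ) ≤ L * ‖u - v‖ := mul_le_mul_of_nonneg_left h hLp.le
  linarith

omit [Fintype S] in
private theorem typed4_norm {u : W} {ρ t n : ℝ} (hu : ‖u‖ = n) (ht : t ≤ n - 2 * ρ) {L : ℕ}
    {w : List S} (h : Bl X u (2 * ρ) L w) : t * L ≤ ‖X w‖ := by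
  unfold Bl at h
  have h0 : (0 : ℝ) ≤ L := Nat.cast_nonneg L
  have h1 : ‖(L : ℝ) • u‖ ≤ ‖X w‖ + ‖X w - (L : ℝ) • u‖ := by
    have h5 : (L : ℝ) • u = X w - (X w - (L : ℝ) • u) := by abel
    calc ‖(L : ℝ) • u‖ = ‖X w - (X w - (L : ℝ) • u)‖ := by rw [← h5]
      _ ≤ ‖X w‖ + ‖X w - (L : ℝ) • u‖ := norm_sub_le _ _
  rw [norm_smul, Real.norm_eq_abs, abs_of_nonneg h0, hu] at h1
  have h2 : t * L ≤ (n - 2 * ρ) * L := mul_le_mul_of_nonneg_right ht h0
  linarith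

/-- four disjoint classes -/
theorem typed4 (Y : Sys S V) (hG : Gr Y T c b) (hX : Vx Y T X act k) {ρ t : ℝ} (hρ : 0 < ρ)
    (v : W) (hv : 2 * ρ ≤ ‖v‖) (ht : t ≤ ‖v‖ - 2 * ρ) {σ : Equiv.Perm S} (hσ : σ ∈ T)
    (h1 : 4 * ρ ≤ ‖act σ v - v‖) (h2 : 4 * ρ ≤ ‖act σ v + v‖) (L : ℕ) (hL : 1 ≤ L) :
    4 * bm Y X v (2 * ρ) L ≤ fm Y (fun w => ‖X w‖) t L := by
  have hact0 : act σ 0 = 0 := by
    have h5 := hX.smul σ 0 (0 : W)
    simpa using h5
  have hn : ‖act σ v‖ = ‖v‖ := by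
    have h5 := hX.iso σ v 0
    rwa [hact0, sub_zero, sub_zero] at h5
  have e1 : bm Y X (-v) (2 * ρ) L = bm Y X v (2 * ρ) L := bm_bar Y hX v _ L
  have e2 : bm Y X (act σ v) (2 * ρ) L = bm Y X v (2 * ρ) L := bm_act Y hG hX v _ L hσ
  have e3 : bm Y X (-act σ v) (2 * ρ) L = bm Y X v (2 * ρ) L := (bm_bar Y hX _ _ L).trans e2
  have f12 : 4 * ρ ≤ ‖-v - v‖ := by
    have h5 : -v - v = -((2 : ℝ) • v) := by rw [two_smul]; abel
    rw [h5, norm_neg, norm_smul]
    norm_num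
    linarith
  have f34 : 4 * ρ ≤ ‖-act σ v - act σ v‖ := by
    have h5 : -act σ v - act σ v = -((2 : ℝ) • act σ v) := by rw [two_smul]; abel
    rw [h5, norm_neg, norm_smul, hn]
    norm_num
    linarith
  have f14 : 4 * ρ ≤ ‖-act σ v - v‖ := by
    have h5 : -act σ v - v = -(act σ v + v) := by abel
    rwa [h5, norm_neg]
  have f23 : 4 * ρ ≤ ‖act σ v - -v‖ := by rwa [sub_neg_eq_add]
  have f24 : 4 * ρ ≤ ‖-act σ v - -v‖ := by
    have h5 : -act σ v - -v = -(act σ v - v) := by abel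
    rwa [h5, norm_neg]
  have key : ∀ w : List S, ind (Bl X v (2 * ρ) L w) + ind (Bl X (-v) (2 * ρ) L w) +
      ind (Bl X (act σ v) (2 * ρ) L w) + ind (Bl X (-act σ v) (2 * ρ) L w) ≤
      ind (t * L ≤ ‖X w‖) := by
    intro w
    by_cases b1 : Bl X v (2 * ρ) L w
    · rw [ind_of b1, ind_not fun b2 => typed4_far f12 hL b1 b2,
        ind_not fun b3 => typed4_far h1 hL b1 b3, ind_not fun b4 => typed4_far f14 hL b1 b4,
        ind_of (typed4_norm rfl ht b1)]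
      norm_num
    rw [ind_not b1]
    by_cases b2 : Bl X (-v) (2 * ρ) L w
    · rw [ind_of b2, ind_not fun b3 => typed4_far f23 hL b2 b3,
        ind_not fun b4 => typed4_far f24 hL b2 b4, ind_of (typed4_norm (norm_neg v) ht b2)]
      norm_num
    rw [ind_not b2]
    by_cases b3 : Bl X (act σ v) (2 * ρ) L w
    · rw [ind_of b3, ind_not fun b4 => typed4_far f34 hL b3 b4, ind_of (typed4_norm hn ht b3)]
      norm_num
    rw [ind_not b3]
    by_cases b4 : Bl X (-act σ v) (2 * ρ) L w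
    · rw [ind_of b4, ind_of (typed4_norm ((norm_neg _).trans hn) ht b4)]
      norm_num
    rw [ind_not b4]
    have h5 := ind_nonneg (t * L ≤ ‖X w‖)
    linarith
  have hs : 4 * bm Y X v (2 * ρ) L = Y.E L fun w => Y.sv w * (ind (Bl X v (2 * ρ) L w) +
      ind (Bl X (-v) (2 * ρ) L w) + ind (Bl X (act σ v) (2 * ρ) L w) +
      ind (Bl X (-act σ v) (2 * ρ) L w)) := by
    calc 4 * bm Y X v (2 * ρ) L = bm Y X v (2 * ρ) L + bm Y X (-v) (2 * ρ) L +
        bm Y X (act σ v) (2 * ρ) L + bm Y X (-act σ v) (2 * ρ) L := by rw [e1, e2, e3]; ring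
      _ = _ := by
        unfold bm
        rw [← Y.E_fadd, ← Y.E_fadd, ← Y.E_fadd]
        refine Y.E_congr fun w _ => ?_
        ring
  rw [hs]
  unfold fm
  exact Y.E_mono fun w _ => mul_le_mul_of_nonneg_left (key w) (Y.sv_nonneg w)
-- END typed4

-- BEGIN typed2
private theorem typed2_E (Y : Sys S V) (n : ℕ) (F : List S → ℝ) :
    (Y.E n fun w => F (bar Y w)) = Y.E n F := by
  unfold bar
  rw [Y.E_neg n fun w => F w.reverse, Y.E_reverse]

private theorem typed2_sv (Y : Sys S V) (w : List S) : Y.sv (bar Y w) = Y.sv w := by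
  unfold bar
  rw [Y.sv_reverse, Y.sv_neg]

private theorem typed2_near (Y : Sys S V) (hX : Vx Y T X act k) {ρ : ℝ} (v : W)
    (h : ∀ σ ∈ T, ‖act σ v - v‖ < 4 * ρ) (L : ℕ) (hL : 1 ≤ L) (w : List S)
    (hw : Tb T X v (2 * ρ) L w) : ‖X w - (L : ℝ) • v‖ < 6 * ρ * L := by
  obtain ⟨σ, hσ, hB⟩ := hw
  unfold Bl at hB
  rw [hX.map σ hσ] at hB
  have hL0 : (0 : ℝ) < L := by exact_mod_cast hL
  have h1 : act σ⁻¹ (act σ (X w)) = X w := by
    rw [← hX.mul, inv_mul_cancel, hX.one]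
  have h2 : ‖X w - (L : ℝ) • act σ⁻¹ v‖ < 2 * ρ * L := by
    rw [← hX.smul, ← h1, hX.iso]
    exact hB
  have h3 := h σ⁻¹ (T.inv_mem hσ)
  have h4 : ‖(L : ℝ) • act σ⁻¹ v - (L : ℝ) • v‖ < 4 * ρ * L := by
    rw [← smul_sub, norm_smul, Real.norm_of_nonneg hL0.le, mul_comm]
    exact mul_lt_mul_of_pos_right h3 hL0
  have h5 : X w - (L : ℝ) • v =
      (X w - (L : ℝ) • act σ⁻¹ v) + ((L : ℝ) • act σ⁻¹ v - (L : ℝ) • v) := by abel
  rw [h5]
  refine (norm_add_le _ _).trans_lt ?_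
  linarith

/-- two disjoint saturated classes -/
theorem typed2 (Y : Sys S V) (hG : Gr Y T c b) (hX : Vx Y T X act k) {ρ t : ℝ} (hρ : 0 < ρ)
    (v : W) (hv : 6 * ρ ≤ ‖v‖) (ht : t ≤ ‖v‖ - 6 * ρ) (h : ∀ σ ∈ T, ‖act σ v - v‖ < 4 * ρ)
    (L : ℕ) (hL : 1 ≤ L) :
    2 * tm Y T X v (2 * ρ) L ≤ fm Y (fun w => ‖X w‖) t L := by
  have hL0 : (0 : ℝ) < L := by exact_mod_cast hL
  have hbar : (Y.E L fun w => Y.sv w * ind (Tb T X v (2 * ρ) L (bar Y w))) =
      tm Y T X v (2 * ρ) L := by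
    unfold tm
    rw [← typed2_E Y L fun w => Y.sv w * ind (Tb T X v (2 * ρ) L w)]
    refine Y.E_congr fun w _ => ?_
    rw [typed2_sv]
  have hLv : ‖(L : ℝ) • v‖ = ‖v‖ * L := by
    rw [norm_smul, Real.norm_of_nonneg hL0.le, mul_comm]
  have hpt : ∀ w : List S, Y.sv w * ind (Tb T X v (2 * ρ) L w) +
      Y.sv w * ind (Tb T X v (2 * ρ) L (bar Y w)) ≤ Y.sv w * ind (t * L ≤ ‖X w‖) := by
    intro w
    rw [← mul_add]
    refine mul_le_mul_of_nonneg_left ?_ (Y.sv_nonneg w)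
    have htL : t * L ≤ ‖v‖ * L - 6 * ρ * L := by
      have := mul_le_mul_of_nonneg_right ht hL0.le
      linarith
    have hvL : 6 * ρ * L ≤ ‖v‖ * L := mul_le_mul_of_nonneg_right hv hL0.le
    by_cases c1 : Tb T X v (2 * ρ) L w
    · have d1 := typed2_near Y hX v h L hL w c1
      have f1 : ‖(L : ℝ) • v‖ ≤ ‖X w‖ + ‖X w - (L : ℝ) • v‖ := by
        have h6 : (L : ℝ) • v = X w - (X w - (L : ℝ) • v) := by abel
        calc ‖(L : ℝ) • v‖ = ‖X w - (X w - (L : ℝ) • v)‖ := by rw [← h6]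
          _ ≤ _ := norm_sub_le _ _
      have g1 : t * L ≤ ‖X w‖ := by
        rw [hLv] at f1
        linarith
      rw [ind_of c1, ind_of g1]
      by_cases c2 : Tb T X v (2 * ρ) L (bar Y w)
      · exfalso
        have d2 := typed2_near Y hX v h L hL _ c2
        rw [hX.bar] at d2
        have h7 : (2 : ℝ) • ((L : ℝ) • v) = -(X w - (L : ℝ) • v) - (-X w - (L : ℝ) • v) := by
          rw [two_smul]
          abel
        have h8 : 2 * (‖v‖ * L) ≤ ‖X w - (L : ℝ) • v‖ + ‖-X w - (L : ℝ) • v‖ := by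
          have h9 : ‖(2 : ℝ) • ((L : ℝ) • v)‖ = 2 * (‖v‖ * L) := by
            rw [norm_smul, hLv]
            norm_num
          rw [← h9, h7]
          refine (norm_sub_le _ _).trans ?_
          rw [norm_neg]
        linarith
      · rw [ind_not c2, add_zero]
    · by_cases c2 : Tb T X v (2 * ρ) L (bar Y w)
      · have d2 := typed2_near Y hX v h L hL _ c2
        rw [hX.bar] at d2
        have f1 : ‖(L : ℝ) • v‖ ≤ ‖X w‖ + ‖-X w - (L : ℝ) • v‖ := by
          have h6 : (L : ℝ) • v = -X w - (-X w - (L : ℝ) • v) := by abel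
          calc ‖(L : ℝ) • v‖ = ‖-X w - (-X w - (L : ℝ) • v)‖ := by rw [← h6]
            _ ≤ ‖-X w‖ + ‖-X w - (L : ℝ) • v‖ := norm_sub_le _ _
            _ = _ := by rw [norm_neg]
        have g1 : t * L ≤ ‖X w‖ := by
          rw [hLv] at f1
          linarith
        rw [ind_not c1, ind_of c2, ind_of g1, zero_add]
      · rw [ind_not c1, ind_not c2, add_zero]
        exact ind_nonneg _
  have h10 := Y.E_mono (n := L) fun w _ => hpt w
  rw [Y.E_fadd, hbar] at h10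
  have h11 : (Y.E L fun w => Y.sv w * ind (Tb T X v (2 * ρ) L w)) = tm Y T X v (2 * ρ) L := rfl
  rw [h11] at h10
  have h12 : (Y.E L fun w => Y.sv w * ind (t * L ≤ ‖X w‖)) = fm Y (fun w => ‖X w‖) t L := rfl
  rw [h12] at h10
  linarith
-- END typed2

-- BEGIN arr6
theorem arr6 [ProperSpace W] (Y : Sys S V) (h1 : ∀ n, 1 ≤ Y.a n) (hK : ∀ n, Y.a n ≤ K)
    (hG : Gr Y T c b) (hX : Vx Y T X act k) {δ κ : ℝ} (hδ : 0 < δ) (hκ : 0 < κ)
    (hf : ∃ᶠ n : ℕ in atTop, κ ≤ fm Y (fun w => ‖X w‖) δ n) :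
    ∃ t : ℝ, 0 < t ∧ ∀ θ : ℝ, 0 < θ → ∀ᶠ n : ℕ in atTop,
      2 / jf S * (1 - θ) ≤ fm Y (fun w => ‖X w‖) t n := by
  obtain ⟨s, hs, -, hsE⟩ := top Y h1 hK (norm_sb Y hX) hδ hκ hf
  have hs0 : 0 < s := hδ.trans_le hs
  have hcard : (2 : ℝ) ≤ (Fintype.card S : ℝ) := by exact_mod_cast hG.two
  have hinv : (Fintype.card S : ℝ)⁻¹ ≤ 1 / 2 := by
    rw [inv_eq_one_div]
    exact one_div_le_one_div_of_le (by norm_num) hcard
  have hjf : 1 / 2 ≤ jf S := by
    unfold jf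
    linarith
  have hjf0 : 0 < jf S := by linarith
  have hjf4 : 2 / jf S ≤ 4 := by
    rw [div_le_iff₀ hjf0]
    linarith
  refine ⟨s / 2, by positivity, fun θ hθ => ?_⟩
  rcases le_or_gt 1 θ with hθ1 | hθ1
  · refine Filter.Eventually.of_forall fun n => ?_
    have h2 : 2 / jf S * (1 - θ) ≤ 0 :=
      mul_nonpos_of_nonneg_of_nonpos (by positivity) (by linarith)
    refine h2.trans ?_
    unfold fm
    refine Y.E_nonneg' fun w => mul_nonneg ?_ (ind_nonneg _)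
    unfold Sys.sv
    split_ifs <;> norm_num
  · have hρ : 0 < s / 100 := by positivity
    have hp := pick Y h1 hK hG hX hs0 hρ hθ hθ1 (fun e he => (hsE e he).1)
      (fun e he => (hsE e he).2)
    filter_upwards [hp, eventually_ge_atTop 1] with L hL hL1
    obtain ⟨v, hv, hb, ht⟩ := hL
    by_cases hall : ∀ σ ∈ T, ‖act σ v - v‖ < 4 * (s / 100) ∨ ‖act σ v + v‖ < 4 * (s / 100)
    · have hg := grp Y hG hX v (by linarith) hall
      have h3 := typed2 Y hG hX hρ v (by linarith) (t := s / 2) (by linarith) hg L hL1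
      refine le_trans ?_ h3
      rw [div_mul_eq_mul_div, div_le_iff₀ hjf0]
      nlinarith
    · push Not at hall
      obtain ⟨σ, hσ, h4, h5⟩ := hall
      have h3 := typed4 Y hG hX hρ v (by linarith) (t := s / 2) (by linarith) hσ h4 h5 L hL1
      refine le_trans ?_ h3
      have h6 : 0 ≤ 1 - θ := by linarith
      calc 2 / jf S * (1 - θ) ≤ 4 * (1 - θ) := mul_le_mul_of_nonneg_right hjf4 h6
        _ ≤ 4 * bm Y X v (2 * (s / 100)) L := by linarith
-- END arr6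

end vec

/-- mass of the words of length `n` with an arrow of size `t` in some pattern of length `k` -/
noncomputable def ty (Y : Sys S V) (k : ℕ) (t : ℝ) (n : ℕ) : ℝ :=
  Y.E n fun w => Y.sv w * ind (∃ γ : List S, γ.length = k ∧ t * n ≤ |Xg Y γ w|)

/-- the vector of all arrows, normalised -/
noncomputable def XV (Y : Sys S V) (k : ℕ) (w : List S) : EuclideanSpace ℝ (Fin k → S) :=
  WithLp.toLp 2 fun f => (Fintype.card (Fin k → S) : ℝ)⁻¹ * Xg Y (List.ofFn f) w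

/-- the action of the permutations of the steps -/
noncomputable def av (S : Type) [Fintype S] (k : ℕ) (σ : Equiv.Perm S)
    (x : EuclideanSpace ℝ (Fin k → S)) : EuclideanSpace ℝ (Fin k → S) :=
  WithLp.toLp 2 fun f => x fun i => σ⁻¹ (f i)

-- BEGIN XV_vx
private theorem XV_vx_nm {ι : Type} [Fintype ι] (x : EuclideanSpace ℝ ι) {c : ℝ} (hc : 0 ≤ c)
    (h : ∀ i, |x i| ≤ (Fintype.card ι : ℝ)⁻¹ * c) : ‖x‖ ≤ c := by
  rw [EuclideanSpace.norm_eq]
  refine Real.sqrt_le_iff.2 ⟨hc, ?_⟩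
  rcases isEmpty_or_nonempty ι with he | hn
  · rw [Finset.univ_eq_empty, Finset.sum_empty]
    positivity
  · have hcard : (1 : ℝ) ≤ Fintype.card ι := by exact_mod_cast Fintype.card_pos
    have hne : (Fintype.card ι : ℝ) ≠ 0 := by positivity
    calc ∑ i, ‖x i‖ ^ 2 ≤ ∑ _i : ι, ((Fintype.card ι : ℝ)⁻¹ * c) ^ 2 := by
          refine Finset.sum_le_sum fun i _ => ?_
          rw [Real.norm_eq_abs]
          exact pow_le_pow_left₀ (abs_nonneg _) (h i) 2
      _ = (Fintype.card ι : ℝ)⁻¹ * c ^ 2 := by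
          rw [Finset.sum_const, Finset.card_univ, nsmul_eq_mul]
          field_simp
      _ ≤ 1 * c ^ 2 := by
          refine mul_le_mul_of_nonneg_right ?_ (sq_nonneg c)
          exact inv_le_one_of_one_le₀ hcard
      _ = c ^ 2 := one_mul _

theorem XV_vx (Y : Sys S V) (k : ℕ) (T : Subgroup (Equiv.Perm S)) (hT : ∀ σ ∈ T, Sy Y σ) :
    Vx Y T (XV Y k) (av S k) k := by
  have hc0 : (0 : ℝ) ≤ (Fintype.card (Fin k → S) : ℝ)⁻¹ := inv_nonneg.2 (Nat.cast_nonneg _)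
  refine ⟨fun w => ?_, fun u v => ?_, fun w => ?_, fun σ hσ w => ?_, fun σ x y => ?_,
    fun σ τ x => ?_, fun x => ?_, fun σ x => ?_, fun σ r x => ?_⟩
  · refine XV_vx_nm _ (Nat.cast_nonneg _) fun f => ?_
    change |(Fintype.card (Fin k → S) : ℝ)⁻¹ * Xg Y (List.ofFn f) w| ≤ _
    rw [abs_mul, abs_of_nonneg hc0]
    exact mul_le_mul_of_nonneg_left (Xg_le Y _ w) hc0
  · refine XV_vx_nm _ (Nat.cast_nonneg _) fun f => ?_
    change |(Fintype.card (Fin k → S) : ℝ)⁻¹ * Xg Y (List.ofFn f) (u ++ v) -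
      (Fintype.card (Fin k → S) : ℝ)⁻¹ * Xg Y (List.ofFn f) u -
      (Fintype.card (Fin k → S) : ℝ)⁻¹ * Xg Y (List.ofFn f) v| ≤ _
    rw [← mul_sub, ← mul_sub, abs_mul, abs_of_nonneg hc0]
    refine mul_le_mul_of_nonneg_left ((Xg_append Y _ u v).trans_eq ?_) hc0
    rw [List.length_ofFn]
  · ext f
    change (Fintype.card (Fin k → S) : ℝ)⁻¹ * Xg Y (List.ofFn f) (bar Y w) =
      -((Fintype.card (Fin k → S) : ℝ)⁻¹ * Xg Y (List.ofFn f) w)
    rw [Xg_bar]
    ring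
  · ext f
    change (Fintype.card (Fin k → S) : ℝ)⁻¹ * Xg Y (List.ofFn f) (w.map σ) =
      (Fintype.card (Fin k → S) : ℝ)⁻¹ * Xg Y (List.ofFn fun i => σ⁻¹ (f i)) w
    have h1 : (List.ofFn fun i => σ⁻¹ (f i)).map σ = List.ofFn f := by
      rw [List.map_ofFn]
      congr 1
      funext i
      simp
    rw [← Xg_map Y (hT σ hσ) (List.ofFn fun i => σ⁻¹ (f i)) w, h1]
  · rw [EuclideanSpace.norm_eq, EuclideanSpace.norm_eq]
    congr 1
    exact Equiv.sum_comp (Equiv.arrowCongr (Equiv.refl (Fin k)) σ⁻¹) fun f => ‖(x - y) f‖ ^ 2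
  · ext f
    change x (fun i => (σ * τ)⁻¹ (f i)) = x (fun i => τ⁻¹ (σ⁻¹ (f i)))
    rw [mul_inv_rev]
    rfl
  · ext f
    change x (fun i => (1 : Equiv.Perm S)⁻¹ (f i)) = x f
    rw [inv_one]
    rfl
  · rfl
  · rfl
-- END XV_vx

-- BEGIN XV_ty
theorem XV_ty [Nonempty S] (Y : Sys S V) (k : ℕ) {t : ℝ} (n : ℕ) :
    fm Y (fun w => ‖XV Y k w‖) t n ≤ ty Y k t n ∧
    ty Y k t n ≤ fm Y (fun w => ‖XV Y k w‖) (t / Fintype.card (Fin k → S)) n := by
  classical
  have hne : Nonempty (Fin k → S) := ⟨fun _ => Classical.arbitrary S⟩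
  have hc : 0 < (Fintype.card (Fin k → S) : ℝ) := by exact_mod_cast Fintype.card_pos
  have hc1 : 1 ≤ (Fintype.card (Fin k → S) : ℝ) := by exact_mod_cast Fintype.card_pos
  have hco : ∀ (w : List S) (f : Fin k → S),
      XV Y k w f = (Fintype.card (Fin k → S) : ℝ)⁻¹ * Xg Y (List.ofFn f) w := fun w f => rfl
  have hlen : ∀ f : Fin k → S, (List.ofFn f).length = k := fun f => List.length_ofFn
  constructor
  · unfold fm ty
    refine Y.E_mono fun w hw => ?_
    refine mul_le_mul_of_nonneg_left ?_ (Y.sv_nonneg w)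
    refine ind_mono fun h => ?_
    obtain ⟨f0, hf0⟩ := Finite.exists_max fun f : Fin k → S => |Xg Y (List.ofFn f) w|
    refine ⟨List.ofFn f0, hlen f0, h.trans ?_⟩
    show ‖XV Y k w‖ ≤ |Xg Y (List.ofFn f0) w|
    rw [EuclideanSpace.norm_eq]
    rw [Real.sqrt_le_left (abs_nonneg _)]
    have h1 : ∀ f ∈ (Finset.univ : Finset (Fin k → S)), ‖XV Y k w f‖ ^ 2 ≤
        (Fintype.card (Fin k → S) : ℝ)⁻¹ * |Xg Y (List.ofFn f0) w| ^ 2 := by
      intro f _
      rw [hco w f, norm_mul, Real.norm_eq_abs, Real.norm_eq_abs, abs_of_pos (inv_pos.2 hc), mul_pow]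
      have h2 : ((Fintype.card (Fin k → S) : ℝ)⁻¹) ^ 2 ≤ (Fintype.card (Fin k → S) : ℝ)⁻¹ := by
        have h3 : (Fintype.card (Fin k → S) : ℝ)⁻¹ ≤ 1 := inv_le_one_of_one_le₀ hc1
        have h4 : 0 ≤ (Fintype.card (Fin k → S) : ℝ)⁻¹ := (inv_pos.2 hc).le
        nlinarith
      have h5 : |Xg Y (List.ofFn f) w| ^ 2 ≤ |Xg Y (List.ofFn f0) w| ^ 2 :=
        pow_le_pow_left₀ (abs_nonneg _) (hf0 f) 2
      exact mul_le_mul h2 h5 (by positivity) (inv_pos.2 hc).le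
    refine (Finset.sum_le_sum h1).trans ?_
    rw [Finset.sum_const, Finset.card_univ, nsmul_eq_mul, ← mul_assoc, mul_inv_cancel₀ hc.ne', one_mul]
  · unfold fm ty
    refine Y.E_mono fun w hw => ?_
    refine mul_le_mul_of_nonneg_left ?_ (Y.sv_nonneg w)
    refine ind_mono fun h => ?_
    obtain ⟨γ, hγ, hle⟩ := h
    obtain ⟨f, hf⟩ : ∃ f : Fin k → S, List.ofFn f = γ := by
      subst hγ
      exact ⟨γ.get, List.ofFn_get γ⟩
    have h1 : ‖XV Y k w f‖ ≤ ‖XV Y k w‖ := PiLp.norm_apply_le _ f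
    rw [hco w f, hf, norm_mul, Real.norm_eq_abs, Real.norm_eq_abs, abs_of_pos (inv_pos.2 hc)] at h1
    show t / (Fintype.card (Fin k → S) : ℝ) * n ≤ ‖XV Y k w‖
    refine le_trans ?_ h1
    calc t / (Fintype.card (Fin k → S) : ℝ) * n = (Fintype.card (Fin k → S) : ℝ)⁻¹ * (t * n) := by
          rw [div_eq_mul_inv]; ring
      _ ≤ _ := mul_le_mul_of_nonneg_left hle (inv_pos.2 hc).le
-- END XV_ty

-- BEGIN lat_gr
/-- the cyclic permutation of the three coordinates -/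
private def lat_gr_c : Equiv.Perm (Pool.Agent.SubBall.St 1) where
  toFun s := (s.1 + 1, s.2)
  invFun s := (s.1 - 1, s.2)
  left_inv := by
    rintro ⟨i, x⟩
    simp
  right_inv := by
    rintro ⟨i, x⟩
    simp

/-- the sign changes of the coordinates `0` and `1` -/
private def lat_gr_b : Equiv.Perm (Pool.Agent.SubBall.St 1) where
  toFun s := (s.1, xor (decide (s.1 ≠ 2)) s.2)
  invFun s := (s.1, xor (decide (s.1 ≠ 2)) s.2)
  left_inv := by
    rintro ⟨i, x⟩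
    simp
  right_inv := by
    rintro ⟨i, x⟩
    simp

/-- signed permutations -/
private def lat_gr_P (σ : Equiv.Perm (Pool.Agent.SubBall.St 1)) : Prop :=
  ∃ (π : Equiv.Perm (Fin 3)) (fl : Fin 3 → Bool), ∀ (i : Fin 3) (x : Bool),
    σ (i, x) = (π i, xor (fl i) x)

private theorem lat_gr_inv {σ : Equiv.Perm (Pool.Agent.SubBall.St 1)} (h : lat_gr_P σ) :
    lat_gr_P σ⁻¹ := by
  obtain ⟨π, fl, h⟩ := h
  refine ⟨π⁻¹, fun j => fl (π⁻¹ j), ?_⟩
  intro j x
  rw [Equiv.Perm.inv_eq_iff_eq, h]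
  simp

private theorem lat_gr_mul {σ τ : Equiv.Perm (Pool.Agent.SubBall.St 1)} (h : lat_gr_P σ)
    (h' : lat_gr_P τ) : lat_gr_P (σ * τ) := by
  obtain ⟨π, fl, h⟩ := h
  obtain ⟨π', fl', h'⟩ := h'
  refine ⟨π * π', fun j => xor (fl (π' j)) (fl' j), ?_⟩
  intro j x
  rw [Equiv.Perm.mul_apply, h', h]
  simp

private theorem lat_gr_sy {μ : ℝ} (hμ : 0 < μ) {σ : Equiv.Perm (Pool.Agent.SubBall.St 1)}
    (h : lat_gr_P σ) : Sy (lat 1 hμ) σ := by
  obtain ⟨π, fl, h⟩ := h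
  refine ⟨⟨{ toFun := fun v j => if fl (π⁻¹ j) then - v (π⁻¹ j) else v (π⁻¹ j)
             map_zero' := ?_
             map_add' := ?_ }, ?_, ?_⟩, ?_⟩
  · funext j
    simp
  · intro u v
    funext j
    show (if fl (π⁻¹ j) then -(u (π⁻¹ j) + v (π⁻¹ j)) else u (π⁻¹ j) + v (π⁻¹ j)) =
      (if fl (π⁻¹ j) then - u (π⁻¹ j) else u (π⁻¹ j)) +
        (if fl (π⁻¹ j) then - v (π⁻¹ j) else v (π⁻¹ j))
    split_ifs
    · ring
    · rfl
  · intro u v huv
    funext i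
    have h1 := congrFun huv (π i)
    by_cases hj : fl i
    · simpa [hj] using h1
    · simpa [hj] using h1
  · rintro ⟨i, x⟩
    rw [h]
    funext j
    have e1 : ∀ s : Pool.Agent.SubBall.St 1, (lat 1 hμ).vec s = Pool.Agent.SubBall.stv 1 s :=
      fun _ => rfl
    rw [e1, e1]
    have e2 : (j = π i) ↔ (π⁻¹ j = i) := by
      rw [Equiv.Perm.inv_eq_iff_eq]
    by_cases hj : π⁻¹ j = i
    · have hj2 := e2.2 hj
      subst hj2
      cases x <;> by_cases hf : fl i <;> simp [Pool.Agent.SubBall.stv, hf]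
    · have hj2 : j ≠ π i := fun h0 => hj (e2.1 h0)
      have hj' : ¬ (π.symm j = i) := hj
      cases x <;> by_cases hf : fl i <;>
        simp [Pool.Agent.SubBall.stv, hf, hj2, hj']
  · rintro ⟨i, x⟩
    have e1 : ∀ s : Pool.Agent.SubBall.St 1, (lat 1 hμ).neg s = (s.1, !s.2) := fun _ => rfl
    rw [e1, e1, h, h]
    simp

private theorem lat_gr_tr : ∀ x y : Pool.Agent.SubBall.St 1, ∃ e : Fin 3,
    (lat_gr_c ^ (e : ℕ)) x = y ∨ (lat_gr_b * lat_gr_c ^ (e : ℕ)) x = y ∨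
      (lat_gr_c * lat_gr_b * lat_gr_c⁻¹ * lat_gr_c ^ (e : ℕ)) x = y := by
  decide

open Pool.Agent.SubBall (St) in
theorem lat_gr {μ : ℝ} (hμ : 0 < μ) : ∃ (T : Subgroup (Equiv.Perm (St 1)))
    (c b : Equiv.Perm (St 1)), Gr (lat 1 hμ) T c b := by
  have hc : lat_gr_c ∈ Subgroup.closure {lat_gr_c, lat_gr_b} :=
    Subgroup.subset_closure (Or.inl rfl)
  have hb : lat_gr_b ∈ Subgroup.closure {lat_gr_c, lat_gr_b} :=
    Subgroup.subset_closure (Or.inr rfl)
  refine ⟨Subgroup.closure {lat_gr_c, lat_gr_b}, lat_gr_c, lat_gr_b, ?_⟩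
  refine { sy := ?_, tr := ?_, gen := rfl, c3 := by decide, b3 := by decide, two := ?_ }
  · intro σ hσ
    apply lat_gr_sy hμ
    induction hσ using Subgroup.closure_induction with
    | mem x hx =>
      rcases hx with hx | hx
      · rw [hx]
        refine ⟨Equiv.addRight 1, fun _ => false, ?_⟩
        intro i x
        show (i + 1, x) = _
        simp
      · rw [hx]
        refine ⟨1, fun i => decide (i ≠ 2), ?_⟩
        intro i x
        rfl
    | one =>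
      refine ⟨1, fun _ => false, ?_⟩
      intro i x
      simp
    | mul x y _ _ h1 h2 => exact lat_gr_mul h1 h2
    | inv x _ h1 => exact lat_gr_inv h1
  · intro x y
    obtain ⟨e, h | h | h⟩ := lat_gr_tr x y
    · exact ⟨_, Subgroup.pow_mem _ hc _, h⟩
    · exact ⟨_, Subgroup.mul_mem _ hb (Subgroup.pow_mem _ hc _), h⟩
    · exact ⟨_, Subgroup.mul_mem _ (Subgroup.mul_mem _ (Subgroup.mul_mem _ hc hb)
        (Subgroup.inv_mem _ hc)) (Subgroup.pow_mem _ hc _), h⟩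
  · simp
-- END lat_gr

-- BEGIN arrows
theorem arrows {μ : ℝ} (hμ : 0 < μ) (h1 : ∀ n, 1 ≤ (lat 1 hμ).a n)
    (hK : ∀ n, (lat 1 hμ).a n ≤ K) (hno : ¬ NoArr (lat 1 hμ)) :
    ∃ (k : ℕ) (t : ℝ), 0 < t ∧ ∀ θ : ℝ, 0 < θ →
      ∀ᶠ n : ℕ in atTop, 12 / 5 * (1 - θ) ≤ ty (lat 1 hμ) k t n := by
  unfold NoArr at hno
  push Not at hno
  obtain ⟨k, δ, hδ, n0, hn0⟩ := hno
  obtain ⟨T, c, b, hG⟩ := lat_gr hμ
  have hX := XV_vx (lat 1 hμ) k T hG.sy
  have hne : Nonempty (Fin k → Pool.Agent.SubBall.St 1) := ⟨fun _ => (0, true)⟩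
  have hcard : (0 : ℝ) < Fintype.card (Fin k → Pool.Agent.SubBall.St 1) :=
    Nat.cast_pos.2 Fintype.card_pos
  have hf : ∃ᶠ n : ℕ in atTop, δ ≤ fm (lat 1 hμ) (fun w => ‖XV (lat 1 hμ) k w‖)
      (δ / Fintype.card (Fin k → Pool.Agent.SubBall.St 1)) n := by
    refine (eventually_atTop.2 ⟨n0, fun n hn => ?_⟩).frequently
    exact (hn0 n hn).le.trans (XV_ty (lat 1 hμ) k n).2
  obtain ⟨t, ht, h⟩ := arr6 (lat 1 hμ) h1 hK hG hX (div_pos hδ hcard) hδ hf
  have hj : 2 / jf (Pool.Agent.SubBall.St 1) = 12 / 5 := by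
    have h6 : Fintype.card (Pool.Agent.SubBall.St 1) = 6 := by
      simp [Pool.Agent.SubBall.St]
    unfold jf
    rw [h6]
    norm_num
  refine ⟨k, t, ht, fun θ hθ => ?_⟩
  filter_upwards [h θ hθ] with n hn
  rw [hj] at hn
  exact hn.trans (XV_ty (lat 1 hμ) k n).1
-- END arrows

-- BEGIN ty_nm
theorem ty_nm (Y : Sys S V) (k : ℕ) {t δ : ℝ} (ht : δ < t) {n : ℕ} (hn : 1 ≤ n) :
    ty Y k t n + nm Y k δ n ≤ Y.a n := by
  have h0 : (0 : ℝ) < n := by exact_mod_cast hn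
  unfold ty nm Sys.a
  rw [← Y.E_fadd]
  refine Y.E_mono fun w hw => ?_
  rw [← mul_add]
  refine mul_le_of_le_one_right (Y.sv_nonneg w) ?_
  by_cases h2 : ∃ γ : List S, γ.length = k ∧ t * n ≤ |Xg Y γ w|
  · rw [ind_not (P := Nt Y k δ w), add_zero]
    · exact ind_le_one _
    · intro h3
      obtain ⟨γ, hγ, h4⟩ := h2
      have h5 := h3 γ hγ
      rw [hw] at h5
      nlinarith
  · rw [ind_not h2, zero_add]
    exact ind_le_one _
-- END ty_nm

end Pool.Agent.Am3
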