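import Pool.Agent.Am3.Dens
import Pool.Agent.Am3.Sym
import Pool.Agent.Am3.Jun

/-!
# The amplitude, for almost all lengths along a sequence of scales

If the normalised number of self-avoiding words is bounded then the typed and the neutral classes
are heavy on most octaves; the conclusion for the density of the good lengths needs no hypothesis.
-/

set_option autoImplicit false

namespace Pool.Agent.Am3

open Finset Filter Topology Pool.Agent.Bub4 Pool.Agent.SawM2 Pool.Agent.Taw Pool.Agent.Trp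

variable {S V : Type} [Fintype S] [AddCommGroup V]

open Classical in
/-- if `B ≤ a n` for all large `n` in the bounded case then the lengths with `B ≤ a n` have upper
density one -/
theorem amp_ev (Y : Sys S V) (h1 : ∀ n, 1 ≤ Y.a n) {B : ℝ}
    (hB : ∀ K, (∀ n, Y.a n ≤ K) → ∀ᶠ n : ℕ in atTop, B ≤ Y.a n) {η : ℝ} (hη : 0 < η) :
    ∃ᶠ N : ℕ in atTop, (1 - η) * N ≤ (((range N).filter fun n => B ≤ Y.a n).card : ℝ) := by
  refine dens_one Y.a h1 Y.a_add_le B (fun hK η' hη' => ?_) hη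
  obtain ⟨K, hK⟩ := hK
  obtain ⟨n₀, hn₀⟩ := eventually_atTop.1 (hB K hK)
  obtain ⟨q, hq⟩ := exists_nat_gt ((n₀ : ℝ) / η')
  filter_upwards [eventually_ge_atTop q] with J hJ
  have h2 : ((range J).filter fun j => ∃ n : ℕ, 2 ^ j ≤ n ∧ n < 2 ^ (j + 1) ∧ Y.a n < B).card ≤
      n₀ := by
    rw [← Finset.card_range n₀]
    refine Finset.card_le_card fun j hj => ?_
    rw [Finset.mem_filter] at hj
    obtain ⟨-, n, h3, -, h4⟩ := hj
    rw [Finset.mem_range]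
    by_contra h5
    have h6 : j < 2 ^ j := Nat.lt_two_pow_self
    exact absurd (hn₀ n (by omega)) (not_le.2 h4)
  have h3 : (n₀ : ℝ) ≤ η' * J := by
    rw [div_lt_iff₀ hη'] at hq
    have h4 : (q : ℝ) ≤ J := by exact_mod_cast hJ
    nlinarith
  exact (Nat.cast_le.2 h2).trans h3

open Classical in
/-- typed and neutral classes together -/
theorem amp_sum (Y : Sys S V) (h1 : ∀ n, 1 ≤ Y.a n) {B C₁ C₂ : ℝ} (hB : B < C₁ + C₂)
    (hty : ∀ K, (∀ n, Y.a n ≤ K) → ∃ (k : ℕ) (t : ℝ), 0 < t ∧ ∀ x : ℝ, x < C₁ →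
      ∀ᶠ n : ℕ in atTop, x ≤ ty Y k t n)
    (hnm : ∀ K, (∀ n, Y.a n ≤ K) → ∀ (k : ℕ) (δ e : ℝ), 0 < δ → 0 < e →
      ∀ᶠ J : ℕ in atTop, (((range J).filter fun j => ∃ n : ℕ, 2 ^ j ≤ n ∧ n < 2 ^ (j + 1) ∧
        nm Y k δ n < C₂ - e).card : ℝ) ≤ e * J) {η : ℝ} (hη : 0 < η) :
    ∃ᶠ N : ℕ in atTop, (1 - η) * N ≤ (((range N).filter fun n => B ≤ Y.a n).card : ℝ) := by
  refine dens_one Y.a h1 Y.a_add_le B (fun hK η' hη' => ?_) hη
  obtain ⟨K, hK⟩ := hK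
  obtain ⟨k, t, ht, h2⟩ := hty K hK
  have hg : 0 < C₁ + C₂ - B := by linarith
  obtain ⟨e, he⟩ : ∃ e : ℝ, e = min (η' / 2) ((C₁ + C₂ - B) / 2) := ⟨_, rfl⟩
  have he0 : 0 < e := by
    rw [he]
    exact lt_min (by positivity) (by positivity)
  have he1 : e ≤ η' / 2 := by rw [he]; exact min_le_left _ _
  have he2 : e ≤ (C₁ + C₂ - B) / 2 := by rw [he]; exact min_le_right _ _
  obtain ⟨n₁, hn₁⟩ := eventually_atTop.1 ((h2 (C₁ - e) (by linarith)).and (eventually_ge_atTop 1))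
  obtain ⟨q, hq⟩ := exists_nat_gt (2 * (n₁ : ℝ) / η')
  filter_upwards [hnm K hK k (t / 2) e (half_pos ht) he0, eventually_ge_atTop q] with J hJ hJq
  have h3 : ((range J).filter fun j => ∃ n : ℕ, 2 ^ j ≤ n ∧ n < 2 ^ (j + 1) ∧ Y.a n < B).card ≤
      n₁ + ((range J).filter fun j => ∃ n : ℕ, 2 ^ j ≤ n ∧ n < 2 ^ (j + 1) ∧
        nm Y k (t / 2) n < C₂ - e).card := by
    have h4 : ((range J).filter fun j => ∃ n : ℕ, 2 ^ j ≤ n ∧ n < 2 ^ (j + 1) ∧ Y.a n < B) ⊆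
        range n₁ ∪ ((range J).filter fun j => ∃ n : ℕ, 2 ^ j ≤ n ∧ n < 2 ^ (j + 1) ∧
          nm Y k (t / 2) n < C₂ - e) := by
      intro j hj
      rw [Finset.mem_filter] at hj
      obtain ⟨hj1, n, h5, h6, h7⟩ := hj
      rw [Finset.mem_union, Finset.mem_range, Finset.mem_filter]
      by_cases h8 : j < n₁
      · exact Or.inl h8
      · right
        refine ⟨hj1, n, h5, h6, ?_⟩
        have h9 : j < 2 ^ j := Nat.lt_two_pow_self
        obtain ⟨h10, h11⟩ := hn₁ n (by omega)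
        have h12 := ty_nm Y k (half_lt_self ht) h11
        linarith
    refine (Finset.card_le_card h4).trans ((Finset.card_union_le _ _).trans ?_)
    rw [Finset.card_range]
  have h4 : (n₁ : ℝ) ≤ η' / 2 * J := by
    rw [div_lt_iff₀ hη'] at hq
    have h5 : (q : ℝ) ≤ J := by exact_mod_cast hJq
    nlinarith
  have h5 : e * (J : ℝ) ≤ η' / 2 * J := mul_le_mul_of_nonneg_right he1 (Nat.cast_nonneg _)
  have h6 := Nat.cast_le (α := ℝ).2 h3
  push_cast at h6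
  linarith

open Classical in
/-- typed classes alone -/
theorem amp_ty (Y : Sys S V) (h1 : ∀ n, 1 ≤ Y.a n) {B C₁ : ℝ} (hB : B < C₁)
    (hty : ∀ K, (∀ n, Y.a n ≤ K) → ∃ (k : ℕ) (t : ℝ), 0 < t ∧ ∀ x : ℝ, x < C₁ →
      ∀ᶠ n : ℕ in atTop, x ≤ ty Y k t n) {η : ℝ} (hη : 0 < η) :
    ∃ᶠ N : ℕ in atTop, (1 - η) * N ≤ (((range N).filter fun n => B ≤ Y.a n).card : ℝ) := by
  refine amp_ev Y h1 (fun K hK => ?_) hη
  obtain ⟨k, t, ht, h2⟩ := hty K hK
  filter_upwards [h2 B hB, eventually_ge_atTop 1] with n hn hn1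
  have h3 := ty_nm Y k (half_lt_self ht) hn1
  have h4 : 0 ≤ nm Y k (t / 2) n :=
    Y.E_nonneg' fun w => mul_nonneg (Y.sv_nonneg _) (ind_nonneg _)
  linarith

/-- the connective constant is at most `2 * d - 1` -/
theorem mu_le {m : ℕ} {μ : ℝ} (hμ : 0 < μ) (h1 : ∀ n, 1 ≤ (lat m hμ).a n) :
    μ ≤ 2 * (m + 2) - 1 := by
  by_contra hcon
  push Not at hcon
  have hz : (lat m hμ).z = μ⁻¹ := rfl
  have hc : (Fintype.card (Pool.Agent.SubBall.St m) : ℝ) = 2 * (m + 2) := by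
    rw [card_St]
    push_cast
    ring
  have hm : (0 : ℝ) ≤ m := Nat.cast_nonneg m
  have h0 : (0 : ℝ) < 2 * (m + 2) - 1 := by linarith
  have ha1 : (lat m hμ).a 1 ≤ 2 * (m + 2) * μ⁻¹ := by
    have h2 : (lat m hμ).a 1 ≤ (lat m hμ).E 1 fun _ => (1 : ℝ) :=
      (lat m hμ).E_mono fun w _ => (lat m hμ).sv_le_one w
    refine h2.trans (le_of_eq ?_)
    rw [(lat m hμ).E_eq, hz]
    simp only [Finset.sum_const, Finset.card_univ, nsmul_eq_mul, mul_one, pow_one]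
    rw [Fintype.card_pi_const, pow_one, hc]
  have key : ∀ M : ℕ, (1 : ℝ) ≤ ((2 * (m + 2) - 1) / μ) ^ M * (2 * (m + 2) * μ⁻¹) := by
    intro M
    have h3 := blk_junction (lat m hμ) (fun _ => True) (sgp_trans hμ) (fun _ => (1 : ℝ))
      (fun _ => zero_le_one) (fun _ _ _ => rfl) le_rfl M
    simp only [Finset.prod_const_one, mul_one] at h3
    have h4 : (lat m hμ).a (M + 1) ≤
        (1 - (Fintype.card (Pool.Agent.SubBall.St m) : ℝ)⁻¹) ^ M * (lat m hμ).a 1 ^ (M + 1) := h3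
    rw [hc] at h4
    have h5 : (0 : ℝ) ≤ (1 - (2 * ((m : ℝ) + 2))⁻¹) ^ M := by
      refine pow_nonneg ?_ M
      have : (2 * ((m : ℝ) + 2))⁻¹ ≤ 1 := inv_le_one_of_one_le₀ (by linarith)
      linarith
    have h6 : (lat m hμ).a 1 ^ (M + 1) ≤ (2 * (m + 2) * μ⁻¹) ^ (M + 1) :=
      pow_le_pow_left₀ ((lat m hμ).a_nonneg 1) ha1 _
    refine (h1 (M + 1)).trans (h4.trans ((mul_le_mul_of_nonneg_left h6 h5).trans (le_of_eq ?_)))
    rw [pow_succ, ← mul_assoc, ← mul_pow]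
    congr 2
    field_simp
  have h7 : (2 * ((m : ℝ) + 2) - 1) / μ < 1 := by
    rw [div_lt_one hμ]
    exact hcon
  have h8 : 0 ≤ (2 * ((m : ℝ) + 2) - 1) / μ := by positivity
  have h9 := (tendsto_pow_atTop_nhds_zero_of_lt_one h8 h7).mul_const (2 * ((m : ℝ) + 2) * μ⁻¹)
  rw [zero_mul] at h9
  obtain ⟨M, hM⟩ := ((tendsto_order.1 h9).2 1 one_pos).exists
  exact absurd (key M) (not_le.2 hM)

end Pool.Agent.Am3
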