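import Pool.Agent.HadS.Sch

/-!
# A submultiplicative sequence which is at least `B` on most octaves if it is bounded
-/

set_option autoImplicit false

namespace Pool.Agent.Am3

open Finset Filter Topology

private theorem dens_sum {a : ℕ → ℝ} (h1 : ∀ n, 1 ≤ a n) (hsub : ∀ m n, a (m + n) ≤ a m * a n) {B : ℝ}
    (H : ℕ) (y : Fin H → ℕ) (hy : ∀ i, a (y i) ≤ B) : a (∑ i, y i) ≤ a 0 * B ^ H := by
  induction H with
  | zero => simp
  | succ H ih =>
    have hB : 0 ≤ B := by
      have := h1 (y 0)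
      have := hy 0
      linarith
    rw [Fin.sum_univ_castSucc]
    have h2 := ih (fun i => y i.castSucc) fun i => hy _
    have h3 : 0 ≤ a 0 * B ^ H := mul_nonneg (by linarith [h1 0]) (pow_nonneg hB H)
    calc a (∑ i : Fin H, y i.castSucc + y (Fin.last H))
        ≤ a (∑ i : Fin H, y i.castSucc) * a (y (Fin.last H)) := hsub _ _
      _ ≤ (a 0 * B ^ H) * B :=
          mul_le_mul h2 (hy _) (by linarith [h1 (y (Fin.last H))]) h3
      _ = _ := by ring

/-- a submultiplicative sequence which is below `B` on a set of positive lower density is bounded -/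
private theorem dens_bdd {a : ℕ → ℝ} (h1 : ∀ n, 1 ≤ a n) (hsub : ∀ m n, a (m + n) ≤ a m * a n)
    {B η : ℝ} (hη : 0 < η) (h : ∀ᶠ N : ℕ in atTop,
      η * N ≤ (((range N).filter fun n => a n < B).card : ℝ)) : ∃ K, ∀ n, a n ≤ K := by
  classical
  obtain ⟨N₀, hN₀⟩ := eventually_atTop.1 h
  set B' : ℝ := max B (max (a 0) (a 1)) + 1 with hB'
  have hBB' : B < B' := lt_of_le_of_lt (le_max_left _ _) (lt_add_one _)
  have h0B : a 0 < B' := lt_of_le_of_lt ((le_max_left _ _).trans (le_max_right _ _)) (lt_add_one _)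
  have h1B : a 1 < B' := lt_of_le_of_lt ((le_max_right _ _).trans (le_max_right _ _)) (lt_add_one _)
  obtain ⟨q, hq⟩ := exists_nat_gt (2 / η)
  have hq0 : (0 : ℝ) < q := lt_trans (by positivity) hq
  have hqη : 2 ≤ η * q := by
    rw [div_lt_iff₀ hη] at hq
    linarith
  set D : ℕ := max N₀ q + 1 with hD
  have hDN : N₀ ≤ D := (le_max_left _ _).trans (Nat.le_succ _)
  have hDq : q ≤ D := (le_max_right _ _).trans (Nat.le_succ _)
  obtain ⟨H, -, hH⟩ := Pool.Agent.HadS.sch D (Nat.succ_pos _)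
  have key : ∀ x : ℕ, (x : ℝ) ≤ D * (({m | a m < B'} ∩ Set.Icc 1 x : Set ℕ).ncard : ℝ) := by
    intro x
    have hfin : ({m | a m < B'} ∩ Set.Icc 1 x : Set ℕ).Finite :=
      (Set.finite_Icc 1 x).subset Set.inter_subset_right
    rcases Nat.eq_zero_or_pos x with rfl | hx0
    · simp
    rcases lt_or_ge x D with hx | hx
    · have h2 : 1 ≤ ({m | a m < B'} ∩ Set.Icc 1 x : Set ℕ).ncard := by
        rw [Nat.one_le_iff_ne_zero, Ne, Set.ncard_eq_zero hfin]
        intro h3
        have h4 : 1 ∈ ({m | a m < B'} ∩ Set.Icc 1 x : Set ℕ) := ⟨h1B, le_rfl, hx0⟩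
        rw [h3] at h4
        exact h4
      have h3 : (1 : ℝ) ≤ (({m | a m < B'} ∩ Set.Icc 1 x : Set ℕ).ncard : ℝ) := by
        exact_mod_cast h2
      have h4 : (x : ℝ) ≤ D := by exact_mod_cast hx.le
      have h5 : (0 : ℝ) ≤ D := Nat.cast_nonneg D
      nlinarith
    · have h2 := hN₀ x (hDN.trans hx)
      have h3 : ((range x).filter fun n => a n < B).card ≤
          ({m | a m < B'} ∩ Set.Icc 1 x : Set ℕ).ncard + 1 := by
        have h4 : (((range x).filter fun n => a n < B) : Finset ℕ) ⊆ insert 0 hfin.toFinset := by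
          intro m hm
          rw [Finset.mem_filter, Finset.mem_range] at hm
          rw [Finset.mem_insert, Set.Finite.mem_toFinset]
          rcases Nat.eq_zero_or_pos m with h5 | h5
          · exact Or.inl h5
          · exact Or.inr ⟨hm.2.trans hBB', h5, hm.1.le⟩
        refine (Finset.card_le_card h4).trans ((Finset.card_insert_le _ _).trans ?_)
        rw [Set.ncard_eq_toFinset_card _ hfin]
      have h4 : (((range x).filter fun n => a n < B).card : ℝ) ≤
          (({m | a m < B'} ∩ Set.Icc 1 x : Set ℕ).ncard : ℝ) + 1 := by exact_mod_cast h3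
      set c : ℝ := (({m | a m < B'} ∩ Set.Icc 1 x : Set ℕ).ncard : ℝ) with hc
      have h5 : (D : ℝ) ≤ x := by exact_mod_cast hx
      have h6 : (q : ℝ) ≤ D := by exact_mod_cast hDq
      have h7 : η * x ≤ c + 1 := h2.trans h4
      have h8 : 2 ≤ η * x := hqη.trans (mul_le_mul_of_nonneg_left (h6.trans h5) hη.le)
      have h9 : η * x ≤ 2 * c := by linarith
      have h10 : 0 ≤ c := Nat.cast_nonneg _
      have h11 : 2 ≤ η * D := hqη.trans (mul_le_mul_of_nonneg_left h6 hη.le)
      have h12 : η * x ≤ η * (D * c) := by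
        calc η * x ≤ 2 * c := h9
          _ ≤ (η * D) * c := mul_le_mul_of_nonneg_right h11 h10
          _ = η * (D * c) := by ring
      exact le_of_mul_le_mul_left h12 hη
  refine ⟨a 0 * B' ^ H, fun n => ?_⟩
  obtain ⟨y, hy, hn⟩ := hH n {m | a m < B'} h0B (fun x _ => key x) n le_rfl
  rw [hn]
  exact dens_sum h1 hsub H y fun i => (hy i).le

open Classical in
/-- If a submultiplicative sequence is at least `B` on all integers of most octaves in case it is
bounded, then in any case it is at least `B` on a set of upper density one. -/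
theorem dens_one (a : ℕ → ℝ) (h1 : ∀ n, 1 ≤ a n) (hsub : ∀ m n, a (m + n) ≤ a m * a n) (B : ℝ)
    (hb : (∃ K, ∀ n, a n ≤ K) → ∀ η : ℝ, 0 < η → ∀ᶠ J : ℕ in atTop,
      (((range J).filter fun j => ∃ n : ℕ, 2 ^ j ≤ n ∧ n < 2 ^ (j + 1) ∧ a n < B).card : ℝ) ≤
        η * J) {η : ℝ} (hη : 0 < η) :
    ∃ᶠ N : ℕ in atTop, (1 - η) * N ≤ (((range N).filter fun n => B ≤ a n).card : ℝ) := by
  by_contra hcon
  rw [Filter.not_frequently] at hcon
  have hbd : ∃ K, ∀ n, a n ≤ K := by
    refine dens_bdd h1 hsub (B := B) hη ?_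
    filter_upwards [hcon] with N hN
    have h2 : ((range N).filter fun n => B ≤ a n).card + ((range N).filter fun n => a n < B).card =
        N := by
      have h3 := Finset.card_filter_add_card_filter_not (s := range N) (fun n => B ≤ a n)
      simp only [not_le, Finset.card_range] at h3
      exact h3
    have h3 : (((range N).filter fun n => B ≤ a n).card : ℝ) +
        (((range N).filter fun n => a n < B).card : ℝ) = N := by exact_mod_cast h2
    linarith
  obtain ⟨j₀, hj₀⟩ := eventually_atTop.1 hcon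
  -- every window of `h + 1` octaves contains a bad octave
  obtain ⟨h, hh⟩ := exists_pow_lt_of_lt_one hη (by norm_num : (1 / 2 : ℝ) < 1)
  have hwin : ∀ i : ℕ, ∃ b : ℕ, j₀ + (h + 1) * i ≤ b ∧ b < j₀ + (h + 1) * (i + 1) ∧
      ∃ n : ℕ, 2 ^ b ≤ n ∧ n < 2 ^ (b + 1) ∧ a n < B := by
    intro i
    by_contra hno
    push Not at hno
    obtain ⟨l, hl⟩ : ∃ l : ℕ, l = j₀ + (h + 1) * i := ⟨_, rfl⟩
    rw [← hl] at hno
    have hl2 : j₀ + (h + 1) * (i + 1) = l + (h + 1) := by rw [hl]; ring
    have hN : j₀ ≤ 2 ^ (l + (h + 1)) := by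
      have h2 : l + (h + 1) < 2 ^ (l + (h + 1)) := Nat.lt_two_pow_self
      omega
    have h2 := hj₀ _ hN
    refine h2 ?_
    have hgood : ∀ n, 2 ^ l ≤ n → n < 2 ^ (l + (h + 1)) → B ≤ a n := by
      intro n hn1 hn2
      have hn0 : n ≠ 0 := by
        have : 0 < 2 ^ l := by positivity
        omega
      have h3 : 2 ^ Nat.log 2 n ≤ n := Nat.pow_log_le_self 2 hn0
      have h4 : n < 2 ^ (Nat.log 2 n + 1) := Nat.lt_pow_succ_log_self (by norm_num) n
      refine hno (Nat.log 2 n) ?_ ?_ n h3 h4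
      · exact (Nat.le_log_iff_pow_le (by norm_num) hn0).2 hn1
      · rw [hl2]
        exact (Nat.log_lt_iff_lt_pow (by norm_num) hn0).2 hn2
    have h3 : (range (2 ^ (l + (h + 1)))).card ≤
        ((range (2 ^ (l + (h + 1)))).filter fun n => B ≤ a n).card + 2 ^ l := by
      have h4 : range (2 ^ (l + (h + 1))) ⊆
          ((range (2 ^ (l + (h + 1)))).filter fun n => B ≤ a n) ∪ range (2 ^ l) := by
        intro n hn
        rw [Finset.mem_union, Finset.mem_filter]
        rcases lt_or_ge n (2 ^ l) with h5 | h5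
        · exact Or.inr (Finset.mem_range.2 h5)
        · exact Or.inl ⟨hn, hgood n h5 (Finset.mem_range.1 hn)⟩
      refine (Finset.card_le_card h4).trans ((Finset.card_union_le _ _).trans ?_)
      rw [Finset.card_range]
    rw [Finset.card_range] at h3
    have h4 : ((2 ^ (l + (h + 1)) : ℕ) : ℝ) ≤
        (((range (2 ^ (l + (h + 1)))).filter fun n => B ≤ a n).card : ℝ) + ((2 ^ l : ℕ) : ℝ) := by
      exact_mod_cast h3
    have h5 : ((2 ^ l : ℕ) : ℝ) ≤ η * ((2 ^ (l + (h + 1)) : ℕ) : ℝ) := by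
      have e1 : ((2 ^ (l + (h + 1)) : ℕ) : ℝ) = 2 ^ l * 2 ^ (h + 1) := by
        push_cast
        exact pow_add _ _ _
      have e2 : ((2 ^ l : ℕ) : ℝ) = 2 ^ l := by push_cast; rfl
      rw [e1, e2]
      have h6 : (1 : ℝ) ≤ η * 2 ^ (h + 1) := by
        have h7 : (1 / 2 : ℝ) ^ h * 2 ^ h = 1 := by
          rw [← mul_pow]
          norm_num
        have h8 : (0 : ℝ) < 2 ^ h := by positivity
        have h9 := mul_lt_mul_of_pos_right hh h8
        rw [h7] at h9
        rw [pow_succ]
        nlinarith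
      have h7 : (0 : ℝ) < 2 ^ l := by positivity
      nlinarith
    linarith
  choose b hb1 hb2 hb3 using hwin
  have hev := hb hbd (1 / (2 * (h + 1))) (by positivity)
  obtain ⟨J₁, hJ₁⟩ := eventually_atTop.1 hev
  set r : ℕ := J₁ + j₀ + 1 with hr
  have hJ : J₁ ≤ j₀ + (h + 1) * r := by
    have : r ≤ (h + 1) * r := Nat.le_mul_of_pos_left r (Nat.succ_pos h)
    omega
  have h2 := hJ₁ _ hJ
  have h3 : r ≤ ((range (j₀ + (h + 1) * r)).filter fun j => ∃ n : ℕ, 2 ^ j ≤ n ∧ n < 2 ^ (j + 1) ∧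
      a n < B).card := by
    have h4 : (range r).card ≤ ((range (j₀ + (h + 1) * r)).filter fun j => ∃ n : ℕ, 2 ^ j ≤ n ∧
        n < 2 ^ (j + 1) ∧ a n < B).card := by
      refine Finset.card_le_card_of_injOn b ?_ ?_
      · intro i hi
        have hi' : i < r := Finset.mem_range.1 (Finset.mem_coe.1 hi)
        have h5 : (h + 1) * (i + 1) ≤ (h + 1) * r := Nat.mul_le_mul_left _ hi'
        rw [Finset.mem_coe, Finset.mem_filter, Finset.mem_range]
        exact ⟨lt_of_lt_of_le (hb2 i) (by omega), hb3 i⟩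
      · intro i _ i' _ hii
        by_contra hne
        rcases lt_or_gt_of_ne hne with h5 | h5
        · have h6 : (h + 1) * (i + 1) ≤ (h + 1) * i' := Nat.mul_le_mul_left _ h5
          have h7 := hb2 i
          have h8 := hb1 i'
          have h9 : b i = b i' := hii
          omega
        · have h6 : (h + 1) * (i' + 1) ≤ (h + 1) * i := Nat.mul_le_mul_left _ h5
          have h7 := hb2 i'
          have h8 := hb1 i
          have h9 : b i = b i' := hii
          omega
    rwa [Finset.card_range] at h4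
  have h4 : (r : ℝ) ≤ (((range (j₀ + (h + 1) * r)).filter fun j => ∃ n : ℕ, 2 ^ j ≤ n ∧
      n < 2 ^ (j + 1) ∧ a n < B).card : ℝ) := by exact_mod_cast h3
  have h5 := h4.trans h2
  push_cast at h5
  have h6 : 1 / (2 * ((h : ℝ) + 1)) * (j₀ + (h + 1) * r) = j₀ / (2 * ((h : ℝ) + 1)) + r / 2 := by
    field_simp
  rw [h6] at h5
  have h7 : (j₀ : ℝ) / (2 * ((h : ℝ) + 1)) ≤ j₀ / 2 := by
    refine div_le_div_of_nonneg_left (Nat.cast_nonneg _) (by norm_num) ?_
    have : (0 : ℝ) ≤ h := Nat.cast_nonneg h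
    linarith
  have h8 : (j₀ : ℝ) + 1 ≤ r := by
    rw [hr]
    push_cast
    have : (0 : ℝ) ≤ J₁ := Nat.cast_nonneg J₁
    linarith
  linarith

end Pool.Agent.Am3
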