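import Pool.Agent.Am3.Jun

/-!
# The arrow classes on `ℤ^4` weigh `16 / 7`
-/

set_option autoImplicit false

namespace Pool.Agent.Am3

open Finset Filter Topology Pool.Agent.Bub4 Pool.Agent.SawM2 Pool.Agent.Taw Pool.Agent.Trp

open Pool.Agent.SubBall (St Vt stv)

variable {S V : Type} [Fintype S] [AddCommGroup V] {K : ℝ}

/-- a signed permutation of the coordinates -/
private def gr4_sp {m : ℕ} (f g : Fin (m + 2) → Fin (m + 2)) (ε : Fin (m + 2) → Bool)
    (hl : ∀ i, g (f i) = i) (hr : ∀ i, f (g i) = i) : Equiv.Perm (St m) where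
  toFun s := (f s.1, xor s.2 (ε s.1))
  invFun s := (g s.1, xor s.2 (ε (g s.1)))
  left_inv := by
    rintro ⟨i, b⟩
    show (g (f i), xor (xor b (ε i)) (ε (g (f i)))) = (i, b)
    rw [hl]
    cases b <;> cases (ε i) <;> rfl
  right_inv := by
    rintro ⟨i, b⟩
    show (f (g i), xor (xor b (ε (g i))) (ε (g i))) = (i, b)
    rw [hr]
    cases b <;> cases (ε (g i)) <;> rfl

private theorem gr4_sy {m : ℕ} {μ : ℝ} (hμ : 0 < μ) (f g : Fin (m + 2) → Fin (m + 2))
    (ε : Fin (m + 2) → Bool) (hl : ∀ i, g (f i) = i) (hr : ∀ i, f (g i) = i) :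
    Sy (lat m hμ) (gr4_sp f g ε hl hr) := by
  constructor
  · refine ⟨⟨⟨fun v j => if ε (g j) then -v (g j) else v (g j), ?_⟩, ?_⟩, ?_, ?_⟩
    · funext j
      show (if ε (g j) then -(0 : Vt m) (g j) else (0 : Vt m) (g j)) = 0
      split_ifs
      · exact neg_zero
      · rfl
    · intro v w
      funext j
      show (if ε (g j) then -(v + w) (g j) else (v + w) (g j)) =
        (if ε (g j) then -v (g j) else v (g j)) + (if ε (g j) then -w (g j) else w (g j))
      rw [Pi.add_apply]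
      split_ifs
      · exact neg_add _ _
      · rfl
    · intro v w h
      funext i
      have h1 : (if ε (g (f i)) then -v (g (f i)) else v (g (f i))) =
          (if ε (g (f i)) then -w (g (f i)) else w (g (f i))) := congrFun h (f i)
      rw [hl] at h1
      split_ifs at h1
      · exact neg_injective h1
      · exact h1
    · rintro ⟨i, b⟩
      funext j
      show stv m (f i, xor b (ε i)) j =
        (if ε (g j) then -stv m (i, b) (g j) else stv m (i, b) (g j))
      by_cases hj : j = f i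
      · rw [hj, hl]
        unfold stv
        cases b <;> cases (ε i) <;> simp
      · have hg : g j ≠ i := fun h => hj (by rw [← h, hr])
        unfold stv
        cases b <;> cases (ε i) <;> simp [hj, hg]
  · rintro ⟨i, b⟩
    show (f i, !(xor b (ε i))) = (f i, xor (!b) (ε i))
    cases b <;> cases (ε i) <;> rfl

private theorem gr4_mul {Y : Sys S V} {σ τ : Equiv.Perm S} (h1 : Sy Y σ) (h2 : Sy Y τ) :
    Sy Y (σ * τ) := by
  obtain ⟨A, hA, hA'⟩ := h1.lin
  obtain ⟨B, hB, hB'⟩ := h2.lin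
  refine ⟨⟨A.comp B, hA.comp hB, fun s => ?_⟩, fun s => ?_⟩
  · show Y.vec (σ (τ s)) = A (B (Y.vec s))
    rw [hA', hB']
  · show Y.neg (σ (τ s)) = σ (τ (Y.neg s))
    rw [h1.neg, h2.neg]

private theorem gr4_one (Y : Sys S V) : Sy Y 1 :=
  ⟨⟨AddMonoidHom.id V, Function.injective_id, fun _ => rfl⟩, fun _ => rfl⟩

private theorem gr4_inv {Y : Sys S V} {σ : Equiv.Perm S} (h : Sy Y σ) : Sy Y σ⁻¹ := by
  classical
  have hp : ∀ n : ℕ, Sy Y (σ ^ n) := by
    intro n
    induction n with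
    | zero => rw [pow_zero]; exact gr4_one Y
    | succ n ih => rw [pow_succ]; exact gr4_mul ih h
  have ho : 0 < orderOf σ := orderOf_pos σ
  have h2 : σ⁻¹ = σ ^ (orderOf σ - 1) := by
    rw [inv_eq_iff_mul_eq_one, ← pow_succ', Nat.sub_add_cancel ho, pow_orderOf_eq_one]
  rw [h2]
  exact hp _

/-- the rotation of three coordinates -/
private def gr4_c : Equiv.Perm (St 2) :=
  gr4_sp (fun i => if i = 0 then 1 else if i = 1 then 2 else if i = 2 then 0 else 3)
    (fun i => if i = 0 then 2 else if i = 1 then 0 else if i = 2 then 1 else 3)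
    (fun _ => false) (by decide) (by decide)

/-- the second generator -/
private def gr4_b : Equiv.Perm (St 2) :=
  gr4_sp (fun i => if i = 0 then 3 else if i = 1 then 0 else if i = 2 then 2 else 1)
    (fun i => if i = 0 then 1 else if i = 1 then 3 else if i = 2 then 2 else 0)
    (fun i => if i = 2 then true else if i = 3 then true else false) (by decide) (by decide)

theorem lat_gr4 {μ : ℝ} (hμ : 0 < μ) : ∃ (T : Subgroup (Equiv.Perm (St 2)))
    (c b : Equiv.Perm (St 2)), Gr (lat 2 hμ) T c b := by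
  refine ⟨Subgroup.closure {gr4_c, gr4_b}, gr4_c, gr4_b, ?_⟩
  have hc : gr4_c ∈ Subgroup.closure {gr4_c, gr4_b} := Subgroup.subset_closure (by simp)
  have hb : gr4_b ∈ Subgroup.closure {gr4_c, gr4_b} := Subgroup.subset_closure (by simp)
  refine ⟨?_, ?_, rfl, ?_, ?_, ?_⟩
  · intro σ hσ
    refine Subgroup.closure_induction (p := fun σ _ => Sy (lat 2 hμ) σ) ?_ ?_ ?_ ?_ hσ
    · rintro x (hx | hx)
      · rw [hx]; exact gr4_sy hμ _ _ _ _ _
      · rw [Set.mem_singleton_iff.1 hx]; exact gr4_sy hμ _ _ _ _ _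
    · exact gr4_one _
    · intro x y _ _ hx hy
      exact gr4_mul hx hy
    · intro x _ hx
      exact gr4_inv hx
  · have key : ∀ y : St 2, ∃ σ ∈ Subgroup.closure {gr4_c, gr4_b}, σ ((0, false) : St 2) = y := by
      rintro ⟨i, s⟩
      fin_cases i <;> cases s
      · exact ⟨1, one_mem _, by decide⟩
      · exact ⟨gr4_c * (gr4_c * (gr4_b * gr4_b)), mul_mem hc (mul_mem hc (mul_mem hb hb)),
          by decide⟩
      · exact ⟨gr4_c, hc, by decide⟩
      · exact ⟨gr4_b * gr4_b, mul_mem hb hb, by decide⟩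
      · exact ⟨gr4_c * gr4_c, mul_mem hc hc, by decide⟩
      · exact ⟨gr4_c * (gr4_b * gr4_b), mul_mem hc (mul_mem hb hb), by decide⟩
      · exact ⟨gr4_b, hb, by decide⟩
      · exact ⟨gr4_b * (gr4_c * (gr4_c * (gr4_b * gr4_b))),
          mul_mem hb (mul_mem hc (mul_mem hc (mul_mem hb hb))), by decide⟩
    intro x y
    obtain ⟨σ, hσ, h1⟩ := key x
    obtain ⟨τ, hτ, h2⟩ := key y
    refine ⟨τ * σ⁻¹, mul_mem hτ (inv_mem hσ), ?_⟩
    show τ (σ.symm x) = y
    rw [← h1, Equiv.symm_apply_apply, h2]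
  · exact Equiv.ext (by decide)
  · exact Equiv.ext (by decide)
  · decide

theorem arrows4 {μ : ℝ} (hμ : 0 < μ) (h1 : ∀ n, 1 ≤ (lat 2 hμ).a n)
    (hK : ∀ n, (lat 2 hμ).a n ≤ K) (hno : ¬ NoArr (lat 2 hμ)) :
    ∃ (k : ℕ) (t : ℝ), 0 < t ∧ ∀ θ : ℝ, 0 < θ →
      ∀ᶠ n : ℕ in atTop, 16 / 7 * (1 - θ) ≤ ty (lat 2 hμ) k t n := by
  unfold NoArr at hno
  push Not at hno
  obtain ⟨k, δ, hδ, n0, hn0⟩ := hno
  obtain ⟨T, c, b, hG⟩ := lat_gr4 hμ
  have hX := XV_vx (lat 2 hμ) k T hG.sy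
  have hne : Nonempty (Fin k → St 2) := ⟨fun _ => (0, true)⟩
  have hcard : (0 : ℝ) < Fintype.card (Fin k → St 2) := Nat.cast_pos.2 Fintype.card_pos
  have hf : ∃ᶠ n : ℕ in atTop, δ ≤ fm (lat 2 hμ) (fun w => ‖XV (lat 2 hμ) k w‖)
      (δ / Fintype.card (Fin k → St 2)) n := by
    refine (eventually_atTop.2 ⟨n0, fun n hn => ?_⟩).frequently
    exact (hn0 n hn).le.trans (XV_ty (lat 2 hμ) k n).2
  obtain ⟨t, ht, h⟩ := arr6 (lat 2 hμ) h1 hK hG hX (div_pos hδ hcard) hδ hf
  have hj : 2 / jf (St 2) = 16 / 7 := by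
    have h8 : Fintype.card (St 2) = 8 := by
      simp [St]
    unfold jf
    rw [h8]
    norm_num
  refine ⟨k, t, ht, fun θ hθ => ?_⟩
  filter_upwards [h θ hθ] with n hn
  rw [hj] at hn
  exact hn.trans (XV_ty (lat 2 hμ) k n).1

end Pool.Agent.Am3
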