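import Pool.Agent.Am3.Arr

/-!
# Rigidity of the neutral class

If the self-avoiding words of length `M L` that are nearly neutral have mass at least `c`, then most
of them have only neutral blocks of length `L`, and the neutral words of length `L` have nearly full
mass.
-/

set_option autoImplicit false

namespace Pool.Agent.Am3

open Finset Filter Topology Pool.Agent.Bub4 Pool.Agent.SawM2 Pool.Agent.Taw Pool.Agent.Trp

variable {S V : Type} [Fintype S] [AddCommGroup V] {K : ℝ}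

/-- index of the cell of width `D` that contains the excess of `w` -/
noncomputable def cl (Y : Sys S V) (γ : List S) (D : ℝ) (w : List S) : ℤ := ⌊Xg Y γ w / D⌋

/-- mass of the cell `i` -/
noncomputable def cm (Y : Sys S V) (γ : List S) (D : ℝ) (n : ℕ) (i : ℤ) : ℝ :=
  Y.E n fun w => Y.sv w * ind (cl Y γ D w = i)

/-- the relevant cells -/
noncomputable def ix (N : ℕ) : Finset ℤ := Finset.Icc (-(N : ℤ) - 1) (N + 1)

open Classical in
/-- the cells of mass at least `ε` -/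
noncomputable def hv (Y : Sys S V) (γ : List S) (D : ℝ) (N n : ℕ) (ε : ℝ) : Finset ℤ :=
  (ix N).filter fun i => ε ≤ cm Y γ D n i

/-- the window of length `L` at the place `s` -/
def wd {S : Type} (L s : ℕ) (w : List S) : List S := (w.drop s).take L

theorem cm_nonneg (Y : Sys S V) (γ : List S) (D : ℝ) (n : ℕ) (i : ℤ) : 0 ≤ cm Y γ D n i :=
  Y.E_nonneg' fun w => mul_nonneg (Y.sv_nonneg w) (ind_nonneg _)

theorem cl_mem (Y : Sys S V) (γ : List S) {D : ℝ} (hD : 1 ≤ D) {N : ℕ} {w : List S}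
    (hw : w.length ≤ N) : cl Y γ D w ∈ ix N := by
  have h1 := Xg_le Y γ w
  have h2 : (w.length : ℝ) ≤ N := by exact_mod_cast hw
  have h3 : |Xg Y γ w / D| ≤ N := by
    rw [abs_div, abs_of_pos (by linarith : (0 : ℝ) < D), div_le_iff₀ (by linarith)]
    nlinarith [Nat.cast_nonneg (α := ℝ) N]
  rw [abs_le] at h3
  unfold ix cl
  rw [Finset.mem_Icc]
  constructor
  · rw [Int.le_floor]
    push_cast
    linarith
  · have h4 : (⌊Xg Y γ w / D⌋ : ℝ) ≤ ((N : ℤ) + 1 : ℤ) := by
      refine (Int.floor_le _).trans ?_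
      push_cast
      linarith
    exact_mod_cast h4

theorem sum_cm (Y : Sys S V) (γ : List S) (D : ℝ) (A : Finset ℤ) (n : ℕ) :
    ∑ i ∈ A, cm Y γ D n i ≤ Y.a n := by
  unfold cm
  rw [← Y.E_fsum]
  refine Y.E_mono fun w _ => ?_
  rw [← Finset.mul_sum]
  refine mul_le_of_le_one_right (Y.sv_nonneg w) ?_
  by_cases h : cl Y γ D w ∈ A
  · rw [Finset.sum_eq_single_of_mem _ h]
    · exact ind_le_one _
    · intro i _ hi
      exact ind_not fun h1 => hi h1.symm
  · rw [Finset.sum_eq_zero]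
    · norm_num
    · intro i hi
      refine ind_not fun h1 => h ?_
      rw [h1]
      exact hi

theorem hv_card (Y : Sys S V) (hK : ∀ n, Y.a n ≤ K) (γ : List S) (D : ℝ) (N n : ℕ) {ε : ℝ}
    (hε : 0 < ε) : ((hv Y γ D N n ε).card : ℝ) ≤ K / ε := by
  rw [le_div_iff₀ hε]
  have h1 : ((hv Y γ D N n ε).card : ℝ) * ε ≤ ∑ i ∈ hv Y γ D N n ε, cm Y γ D n i := by
    rw [← nsmul_eq_mul]
    refine Finset.card_nsmul_le_sum _ _ _ fun i hi => ?_
    unfold hv at hi
    rw [Finset.mem_filter] at hi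
    exact hi.2
  exact h1.trans ((sum_cm Y γ D _ n).trans (hK n))

theorem split2' (Y : Sys S V) {p N : ℕ} (hp : p ≤ N) {F G : List S → ℝ} (hF : ∀ w, 0 ≤ F w)
    (hG : ∀ w, 0 ≤ G w) :
    (Y.E N fun w => Y.sv w * (F (w.take p) * G (w.drop p))) ≤
      (Y.E p fun u => Y.sv u * F u) * (Y.E (N - p) fun v => Y.sv v * G v) := by
  obtain ⟨q, rfl⟩ := Nat.exists_eq_add_of_le hp
  rw [Nat.add_sub_cancel_left]
  exact split2 Y p q hF hG

-- BEGIN win_one
/-- a fixed window -/
theorem win_one (Y : Sys S V) (hK : ∀ n, Y.a n ≤ K) (φ : List S → ℝ) (hφ : ∀ w, 0 ≤ φ w)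
    {s L N : ℕ} (h : s + L ≤ N) :
    (Y.E N fun w => Y.sv w * φ (wd L s w)) ≤ K ^ 2 * Y.E L fun v => Y.sv v * φ v := by
  have hK0 : 0 ≤ K := (Y.a_nonneg 0).trans (hK 0)
  have h1 := split2' Y (p := s) (N := N) (by omega) (F := fun _ => 1) (G := fun v => φ (v.take L))
    (fun _ => zero_le_one) (fun _ => hφ _)
  have h2 := split2' Y (p := L) (N := N - s) (by omega) (F := φ) (G := fun _ => 1) hφ
    (fun _ => zero_le_one)
  simp only [one_mul, mul_one] at h1 h2
  have h0 : 0 ≤ Y.E L fun v => Y.sv v * φ v :=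
    Y.E_nonneg' fun v => mul_nonneg (Y.sv_nonneg v) (hφ v)
  have h3 : (Y.E (N - s) fun w => Y.sv w * φ (w.take L)) ≤ K * Y.E L fun v => Y.sv v * φ v := by
    refine h2.trans ?_
    rw [mul_comm]
    exact mul_le_mul_of_nonneg_right (hK _) h0
  unfold wd
  refine h1.trans ?_
  calc (Y.E s fun u => Y.sv u) * (Y.E (N - s) fun w => Y.sv w * φ (w.take L))
      ≤ K * (K * Y.E L fun v => Y.sv v * φ v) :=
        mul_le_mul (hK s) h3 (Y.E_nonneg' fun v => mul_nonneg (Y.sv_nonneg v) (hφ _)) hK0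
    _ = _ := by ring
-- END win_one

-- BEGIN cl_drop
/-- the cell of the suffix of a neutral word is determined by that of the prefix, up to six
possibilities -/
theorem cl_drop (Y : Sys S V) (γ : List S) {D : ℝ} (hD : 0 < D) (hk : (γ.length : ℝ) ≤ D)
    (w : List S) (t : ℕ) (hw : |Xg Y γ w| ≤ D) :
    ∃ e ∈ Finset.Icc (-3 : ℤ) 2, cl Y γ D (w.drop t) = -cl Y γ D (w.take t) + e := by
  have h1 := Xg_append Y γ (w.take t) (w.drop t)
  rw [List.take_append_drop] at h1
  set a := Xg Y γ (w.take t) with ha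
  set b := Xg Y γ (w.drop t) with hb
  set x := Xg Y γ w with hx
  rw [abs_le] at h1 hw
  have h2 : |a / D + b / D| ≤ 2 := by
    rw [← add_div, abs_div, abs_of_pos hD, div_le_iff₀ hD, abs_le]
    constructor <;> nlinarith
  rw [abs_le] at h2
  have f1 := Int.floor_le (a / D)
  have f2 := Int.lt_floor_add_one (a / D)
  have f3 := Int.floor_le (b / D)
  have f4 := Int.lt_floor_add_one (b / D)
  refine ⟨cl Y γ D (w.drop t) + cl Y γ D (w.take t), ?_, by ring⟩
  unfold cl
  rw [← ha, ← hb, Finset.mem_Icc]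
  constructor
  · have : ((-4 : ℤ) : ℝ) < ((⌊b / D⌋ + ⌊a / D⌋ : ℤ) : ℝ) := by push_cast; linarith
    have h3 : (-4 : ℤ) < ⌊b / D⌋ + ⌊a / D⌋ := by exact_mod_cast this
    omega
  · have : ((⌊b / D⌋ + ⌊a / D⌋ : ℤ) : ℝ) ≤ ((2 : ℤ) : ℝ) := by push_cast; linarith
    exact_mod_cast this
-- END cl_drop

-- BEGIN pre_cell
/-- the prefix of a neutral word lies in a heavy cell -/
theorem pre_cell (Y : Sys S V) (hK : ∀ n, Y.a n ≤ K) (γ : List S) {D ε : ℝ} (hD : 1 ≤ D)
    (hk : (γ.length : ℝ) ≤ D) (hε : 0 < ε) {t N : ℕ} (ht : t ≤ N) :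
    (Y.E N fun w => Y.sv w * (ind (|Xg Y γ w| ≤ D) *
      ind (cl Y γ D (w.take t) ∉ hv Y γ D N t ε))) ≤ 6 * ε * K := by
  classical
  set H := hv Y γ D N t ε with hH
  have hpt : ∀ w : List S, w.length = N → Y.sv w * (ind (|Xg Y γ w| ≤ D) *
      ind (cl Y γ D (w.take t) ∉ H)) ≤
      ∑ i ∈ ix N \ H, ∑ e ∈ Finset.Icc (-3 : ℤ) 2, Y.sv w * (ind (cl Y γ D (w.take t) = i) *
        ind (cl Y γ D (w.drop t) = -i + e)) := by
    intro w hw
    simp_rw [← Finset.mul_sum]
    refine mul_le_mul_of_nonneg_left ?_ (Y.sv_nonneg w)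
    by_cases h1 : |Xg Y γ w| ≤ D
    · by_cases h2 : cl Y γ D (w.take t) ∉ H
      · obtain ⟨e, he, h3⟩ := cl_drop Y γ (by linarith) hk w t h1
        have h4 : cl Y γ D (w.take t) ∈ ix N \ H := by
          rw [Finset.mem_sdiff]
          refine ⟨cl_mem Y γ hD ?_, h2⟩
          rw [List.length_take]
          omega
        rw [ind_of h1, ind_of h2, mul_one]
        refine le_trans ?_ (Finset.single_le_sum
          (f := fun i => ind (cl Y γ D (w.take t) = i) * ∑ e ∈ Finset.Icc (-3 : ℤ) 2,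
            ind (cl Y γ D (w.drop t) = -i + e))
          (fun i _ => mul_nonneg (ind_nonneg _) (Finset.sum_nonneg fun _ _ => ind_nonneg _)) h4)
        simp only
        rw [ind_of trivial, one_mul]
        refine le_trans ?_ (Finset.single_le_sum
          (f := fun e => ind (cl Y γ D (w.drop t) = -cl Y γ D (w.take t) + e))
          (fun i _ => ind_nonneg _) he)
        rw [ind_of h3]
      · rw [ind_not h2, mul_zero]
        exact Finset.sum_nonneg fun i _ => mul_nonneg (ind_nonneg _)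
          (Finset.sum_nonneg fun _ _ => ind_nonneg _)
    · rw [ind_not h1, zero_mul]
      exact Finset.sum_nonneg fun i _ => mul_nonneg (ind_nonneg _)
        (Finset.sum_nonneg fun _ _ => ind_nonneg _)
  refine (Y.E_mono hpt).trans ?_
  rw [Y.E_fsum]
  simp_rw [Y.E_fsum]
  have h5 : ∀ i ∈ ix N \ H, ∀ e ∈ Finset.Icc (-3 : ℤ) 2,
      (Y.E N fun w => Y.sv w * (ind (cl Y γ D (w.take t) = i) *
        ind (cl Y γ D (w.drop t) = -i + e))) ≤ ε * cm Y γ D (N - t) (-i + e) := by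
    intro i hi e _
    have h6 := split2' Y ht (F := fun u => ind (cl Y γ D u = i))
      (G := fun v => ind (cl Y γ D v = -i + e)) (fun _ => ind_nonneg _) (fun _ => ind_nonneg _)
    refine h6.trans (mul_le_mul_of_nonneg_right ?_ (cm_nonneg Y γ D _ _))
    rw [Finset.mem_sdiff, hH] at hi
    unfold hv at hi
    rw [Finset.mem_filter, not_and] at hi
    exact (not_le.1 (hi.2 hi.1)).le
  refine (Finset.sum_le_sum fun i hi => Finset.sum_le_sum (h5 i hi)).trans ?_
  rw [Finset.sum_comm]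
  have h7 : ∀ e ∈ Finset.Icc (-3 : ℤ) 2,
      ∑ i ∈ ix N \ H, ε * cm Y γ D (N - t) (-i + e) ≤ ε * K := by
    intro e _
    rw [← Finset.mul_sum]
    refine mul_le_mul_of_nonneg_left ?_ hε.le
    have h8 : ∑ i ∈ ix N \ H, cm Y γ D (N - t) (-i + e) =
        ∑ j ∈ (ix N \ H).image (fun i => -i + e), cm Y γ D (N - t) j := by
      rw [Finset.sum_image]
      intro a _ b _ hab
      simp only at hab
      omega
    rw [h8]
    exact (sum_cm Y γ D _ _).trans (hK _)
  refine (Finset.sum_le_sum h7).trans ?_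
  rw [Finset.sum_const]
  simp
  linarith
-- END pre_cell

-- BEGIN cl_win
/-- the cell of a window is determined by the cells of two prefixes, up to four possibilities -/
theorem cl_win (Y : Sys S V) (γ : List S) {D : ℝ} (hD : 0 < D) (hk : (γ.length : ℝ) ≤ D)
    (w : List S) (s L : ℕ) :
    ∃ e ∈ Finset.Icc (-2 : ℤ) 1, cl Y γ D (wd L s w) =
      cl Y γ D (w.take (s + L)) - cl Y γ D (w.take s) + e := by
  have h0 : w.take (s + L) = w.take s ++ wd L s w := by
    unfold wd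
    rw [List.take_add]
  have h1 := Xg_append Y γ (w.take s) (wd L s w)
  rw [← h0] at h1
  set a := Xg Y γ (w.take s) with ha
  set b := Xg Y γ (wd L s w) with hb
  set x := Xg Y γ (w.take (s + L)) with hx
  rw [abs_le] at h1
  have h2 : |x / D - a / D - b / D| ≤ 1 := by
    rw [← sub_div, ← sub_div, abs_div, abs_of_pos hD, div_le_iff₀ hD, abs_le]
    constructor <;> linarith
  rw [abs_le] at h2
  have f1 := Int.floor_le (a / D)
  have f2 := Int.lt_floor_add_one (a / D)
  have f3 := Int.floor_le (b / D)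
  have f4 := Int.lt_floor_add_one (b / D)
  have f5 := Int.floor_le (x / D)
  have f6 := Int.lt_floor_add_one (x / D)
  refine ⟨cl Y γ D (wd L s w) - cl Y γ D (w.take (s + L)) + cl Y γ D (w.take s), ?_, by ring⟩
  unfold cl
  rw [← ha, ← hb, ← hx, Finset.mem_Icc]
  constructor
  · have : ((-3 : ℤ) : ℝ) < ((⌊b / D⌋ - ⌊x / D⌋ + ⌊a / D⌋ : ℤ) : ℝ) := by push_cast; linarith
    have h3 : (-3 : ℤ) < ⌊b / D⌋ - ⌊x / D⌋ + ⌊a / D⌋ := by exact_mod_cast this
    omega
  · have : ((⌊b / D⌋ - ⌊x / D⌋ + ⌊a / D⌋ : ℤ) : ℝ) < ((2 : ℤ) : ℝ) := by push_cast; linarith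
    have h3 : ⌊b / D⌋ - ⌊x / D⌋ + ⌊a / D⌋ < (2 : ℤ) := by exact_mod_cast this
    omega
-- END cl_win

-- BEGIN win_cell
/-- a window of a neutral word lies in a heavy cell of the law of the words of length `L` -/
theorem win_cell (Y : Sys S V) (hK : ∀ n, Y.a n ≤ K) (γ : List S) {D ε η : ℝ} (hD : 1 ≤ D)
    (hk : (γ.length : ℝ) ≤ D) (hε : 0 < ε) (hη : 0 < η) {s L N : ℕ} (h : s + L ≤ N) :
    (Y.E N fun w => Y.sv w * (ind (|Xg Y γ w| ≤ D) *
      ind (cl Y γ D (wd L s w) ∉ hv Y γ D N L η))) ≤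
      12 * ε * K + 4 * (K / ε) ^ 2 * (K ^ 2 * η) := by
  classical
  have hK0 : 0 ≤ K := (Y.a_nonneg 0).trans (hK 0)
  set H := hv Y γ D N L η with hH
  set A := hv Y γ D N s ε with hA
  set B := hv Y γ D N (s + L) ε with hB
  set C : Finset ℤ := ((B ×ˢ A) ×ˢ Finset.Icc (-2 : ℤ) 1).image
    (fun p => p.1.1 - p.1.2 + p.2) with hC
  have hpt : ∀ w : List S, w.length = N → Y.sv w * (ind (|Xg Y γ w| ≤ D) *
      ind (cl Y γ D (wd L s w) ∉ H)) ≤
      Y.sv w * (ind (|Xg Y γ w| ≤ D) * ind (cl Y γ D (w.take s) ∉ A)) +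
      Y.sv w * (ind (|Xg Y γ w| ≤ D) * ind (cl Y γ D (w.take (s + L)) ∉ B)) +
      ∑ c ∈ C \ H, Y.sv w * ind (cl Y γ D (wd L s w) = c) := by
    intro w hw
    rw [← Finset.mul_sum, ← mul_add, ← mul_add]
    refine mul_le_mul_of_nonneg_left ?_ (Y.sv_nonneg w)
    have h0 : 0 ≤ ∑ c ∈ C \ H, ind (cl Y γ D (wd L s w) = c) :=
      Finset.sum_nonneg fun _ _ => ind_nonneg _
    have h0' : 0 ≤ ind (|Xg Y γ w| ≤ D) * ind (cl Y γ D (w.take s) ∉ A) :=
      mul_nonneg (ind_nonneg _) (ind_nonneg _)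
    have h0'' : 0 ≤ ind (|Xg Y γ w| ≤ D) * ind (cl Y γ D (w.take (s + L)) ∉ B) :=
      mul_nonneg (ind_nonneg _) (ind_nonneg _)
    by_cases h1 : |Xg Y γ w| ≤ D
    swap
    · rw [ind_not h1, zero_mul]
      rw [ind_not h1] at h0' h0''
      linarith
    by_cases h2 : cl Y γ D (wd L s w) ∉ H
    swap
    · rw [ind_not h2, mul_zero]
      linarith
    rw [ind_of h1, ind_of h2, one_mul, one_mul, one_mul]
    rw [ind_of h1, one_mul] at h0' h0''
    by_cases h3 : cl Y γ D (w.take s) ∉ A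
    · rw [ind_of h3]
      linarith
    by_cases h4 : cl Y γ D (w.take (s + L)) ∉ B
    · rw [ind_of h4]
      linarith
    rw [not_not] at h3 h4
    obtain ⟨e, he, h5⟩ := cl_win Y γ (by linarith) hk w s L
    have h6 : cl Y γ D (wd L s w) ∈ C \ H := by
      rw [Finset.mem_sdiff]
      refine ⟨?_, h2⟩
      rw [hC, Finset.mem_image]
      exact ⟨((_, _), e), Finset.mem_product.2 ⟨Finset.mem_product.2 ⟨h4, h3⟩, he⟩, h5.symm⟩
    have h7 := Finset.single_le_sum (f := fun c => ind (cl Y γ D (wd L s w) = c))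
      (fun _ _ => ind_nonneg _) h6
    simp only at h7
    rw [ind_of trivial] at h7
    linarith
  refine (Y.E_mono hpt).trans ?_
  rw [Y.E_fadd, Y.E_fadd, Y.E_fsum]
  have h1 := pre_cell Y hK γ hD hk hε (t := s) (N := N) (by omega)
  have h2 := pre_cell Y hK γ hD hk hε (t := s + L) (N := N) h
  rw [← hA] at h1
  rw [← hB] at h2
  have h3 : ∀ c ∈ C \ H, (Y.E N fun w => Y.sv w * ind (cl Y γ D (wd L s w) = c)) ≤
      K ^ 2 * η := by
    intro c hc
    refine (win_one Y hK (fun v => ind (cl Y γ D v = c)) (fun _ => ind_nonneg _) h).trans ?_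
    refine mul_le_mul_of_nonneg_left ?_ (sq_nonneg K)
    by_cases h4 : c ∈ ix N
    · rw [Finset.mem_sdiff, hH] at hc
      unfold hv at hc
      rw [Finset.mem_filter, not_and] at hc
      exact (not_le.1 (hc.2 h4)).le
    · refine le_trans (Y.E_mono (G := fun _ => 0) fun v hv => ?_) ?_
      · rw [ind_not, mul_zero]
        intro h5
        exact h4 (h5 ▸ cl_mem Y γ hD (by omega))
      · rw [Y.E_zero_fun]
        exact hη.le
  have h4 := Finset.sum_le_sum h3
  rw [Finset.sum_const, nsmul_eq_mul] at h4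
  have h5 : ((C \ H).card : ℝ) ≤ 4 * (K / ε) ^ 2 := by
    have h6 : (C \ H).card ≤ B.card * A.card * 4 := by
      refine (Finset.card_le_card Finset.sdiff_subset).trans (Finset.card_image_le.trans ?_)
      rw [Finset.card_product, Finset.card_product]
      simp
    have h7 : ((C \ H).card : ℝ) ≤ (B.card : ℝ) * A.card * 4 := by exact_mod_cast h6
    have h8 : (A.card : ℝ) ≤ K / ε := hv_card Y hK γ D N s hε
    have h9 : (B.card : ℝ) ≤ K / ε := hv_card Y hK γ D N (s + L) hε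
    have h10 : (B.card : ℝ) * A.card ≤ (K / ε) * (K / ε) :=
      mul_le_mul h9 h8 (Nat.cast_nonneg _) (div_nonneg hK0 hε.le)
    nlinarith
  have h6 := mul_le_mul_of_nonneg_right h5 (mul_nonneg (sq_nonneg K) hη.le)
  linarith
-- END win_cell

-- BEGIN path_cell
/-- a path with steps at most `σ` that spends all but `b` units of time in the cells of `H` does
not move -/
theorem path_cell (x : ℕ → ℝ) {σ D : ℝ} (hσ : 0 ≤ σ) (hD : 0 < D) (H : Finset ℤ) (n : ℕ)
    (hx : ∀ s < n, |x (s + 1) - x s| ≤ σ) {s : ℕ} (hs : s ≤ n) :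
    |x s - x 0| ≤ 2 * σ * ((open Classical in (range n).filter fun s => ⌊x s / D⌋ ∉ H).card : ℝ) +
      H.card * (D + 2 * σ) := by
  classical
  set B := (range n).filter fun s => ⌊x s / D⌋ ∉ H with hB
  -- the intermediate values are taken
  have hiv : ∀ s ≤ n, ∀ y ∈ Set.uIcc (x 0) (x s), y = x 0 ∨
      ∃ i < s, y ∈ Set.uIcc (x i) (x (i + 1)) := by
    intro s
    induction s with
    | zero =>
      intro _ y hy
      left
      simpa using hy
    | succ s ih =>
      intro hs y hy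
      have h1 : y ∈ Set.uIcc (x 0) (x s) ∪ Set.uIcc (x s) (x (s + 1)) :=
        Set.uIcc_subset_uIcc_union_uIcc hy
      rcases h1 with h1 | h1
      · rcases ih (by omega) y h1 with h2 | ⟨i, hi, h2⟩
        · exact Or.inl h2
        · exact Or.inr ⟨i, by omega, h2⟩
      · exact Or.inr ⟨s, by omega, h1⟩
  have hcov : Set.uIcc (x 0) (x s) ⊆ {x 0} ∪ ((⋃ i ∈ B, Set.Icc (x i - σ) (x i + σ)) ∪
      (⋃ j ∈ H, Set.Icc ((j : ℝ) * D - σ) ((j : ℝ) * D + (D + σ)))) := by
    intro y hy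
    rcases hiv s hs y hy with h1 | ⟨i, hi, h1⟩
    · exact Or.inl h1
    · right
      have h2 := abs_le.1 (hx i (by omega))
      have h3 : x i - σ ≤ y ∧ y ≤ x i + σ := by
        rw [Set.mem_uIcc] at h1
        rcases h1 with ⟨h4, h5⟩ | ⟨h4, h5⟩
        · exact ⟨by linarith, by linarith [h2.2]⟩
        · exact ⟨by linarith [h2.1], by linarith⟩
      by_cases h4 : i ∈ B
      · left
        rw [Set.mem_iUnion₂]
        exact ⟨i, h4, h3⟩
      · right
        rw [hB, Finset.mem_filter, not_and, Finset.mem_range, not_not] at h4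
        rw [Set.mem_iUnion₂]
        refine ⟨_, h4 (by omega), ?_⟩
        have h5 := Int.floor_le (x i / D)
        have h6 := Int.lt_floor_add_one (x i / D)
        rw [le_div_iff₀ hD] at h5
        rw [div_lt_iff₀ hD] at h6
        constructor
        · linarith [h3.1]
        · nlinarith [h3.2]
  have hv := MeasureTheory.measure_mono (μ := MeasureTheory.volume) hcov
  have hv0 : MeasureTheory.volume (Set.uIcc (x 0) (x s)) = ENNReal.ofReal |x s - x 0| := by
    unfold Set.uIcc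
    rw [Real.volume_Icc]
    congr 1
    rcases le_total (x 0) (x s) with h | h
    · rw [sup_eq_right.2 h, inf_eq_left.2 h, abs_of_nonneg (by linarith)]
    · rw [sup_eq_left.2 h, inf_eq_right.2 h, abs_of_nonpos (by linarith)]
      ring
  rw [hv0] at hv
  have h1 : MeasureTheory.volume (⋃ i ∈ B, Set.Icc (x i - σ) (x i + σ)) ≤
      ENNReal.ofReal ((B.card : ℝ) * (2 * σ)) := by
    refine (MeasureTheory.measure_biUnion_finset_le _ _).trans ?_
    have h2 : ∀ i ∈ B, MeasureTheory.volume (Set.Icc (x i - σ) (x i + σ)) =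
        ENNReal.ofReal (2 * σ) := by
      intro i _
      rw [Real.volume_Icc]
      congr 1
      ring
    rw [Finset.sum_congr rfl h2, Finset.sum_const, nsmul_eq_mul,
      ENNReal.ofReal_mul (Nat.cast_nonneg _), ENNReal.ofReal_natCast]
  have h2 : MeasureTheory.volume (⋃ j ∈ H, Set.Icc ((j : ℝ) * D - σ) ((j : ℝ) * D + (D + σ))) ≤
      ENNReal.ofReal ((H.card : ℝ) * (D + 2 * σ)) := by
    refine (MeasureTheory.measure_biUnion_finset_le _ _).trans ?_
    have h2 : ∀ j ∈ H, MeasureTheory.volume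
        (Set.Icc ((j : ℝ) * D - σ) ((j : ℝ) * D + (D + σ))) = ENNReal.ofReal (D + 2 * σ) := by
      intro i _
      rw [Real.volume_Icc]
      congr 1
      ring
    rw [Finset.sum_congr rfl h2, Finset.sum_const, nsmul_eq_mul,
      ENNReal.ofReal_mul (Nat.cast_nonneg _), ENNReal.ofReal_natCast]
  have h3 := (MeasureTheory.measure_union_le (μ := MeasureTheory.volume) {x 0}
    ((⋃ i ∈ B, Set.Icc (x i - σ) (x i + σ)) ∪
      (⋃ j ∈ H, Set.Icc ((j : ℝ) * D - σ) ((j : ℝ) * D + (D + σ))))).trans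
    (add_le_add (le_of_eq (by simp : MeasureTheory.volume ({x 0} : Set ℝ) = 0))
      ((MeasureTheory.measure_union_le _ _).trans (add_le_add h1 h2)))
  have h4 := hv.trans h3
  rw [zero_add, ← ENNReal.ofReal_add (by positivity) (by positivity),
    ENNReal.ofReal_le_ofReal_iff (by positivity)] at h4
  linarith
-- END path_cell

-- BEGIN win_step
/-- neighbouring windows -/
theorem win_step (Y : Sys S V) (γ : List S) (L s : ℕ) (w : List S) :
    |Xg Y γ (wd L (s + 1) w) - Xg Y γ (wd L s w)| ≤ 2 * (γ.length + 1) := by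
  have h1 : (w.drop s).take (L + 1) = wd L s w ++ ((w.drop s).drop L).take 1 := by
    unfold wd
    rw [List.take_add]
  have h2 : (w.drop s).take (L + 1) = (w.drop s).take 1 ++ wd L (s + 1) w := by
    unfold wd
    rw [add_comm L 1, List.take_add, List.drop_drop]
  have h3 := Xg_append Y γ (wd L s w) (((w.drop s).drop L).take 1)
  rw [← h1] at h3
  have h4 := Xg_append Y γ ((w.drop s).take 1) (wd L (s + 1) w)
  rw [← h2] at h4
  have h5 : |Xg Y γ (((w.drop s).drop L).take 1)| ≤ 1 := by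
    refine (Xg_le Y γ _).trans ?_
    have h : (((w.drop s).drop L).take 1).length ≤ 1 := List.length_take_le _ _
    exact_mod_cast h
  have h6 : |Xg Y γ ((w.drop s).take 1)| ≤ 1 := by
    refine (Xg_le Y γ _).trans ?_
    have h : ((w.drop s).take 1).length ≤ 1 := List.length_take_le _ _
    exact_mod_cast h
  rw [abs_le] at h3 h4 h5 h6 ⊢
  constructor <;> linarith
-- END win_step

-- BEGIN bk_take
theorem bk_take {S : Type} {L T i : ℕ} (hi : i < T) (w : List S) :
    bk L i (w.take (T * L)) = bk L i w := by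
  unfold bk
  rw [List.drop_take, List.take_take]
  congr 1
  have h1 : (i + 1) * L ≤ T * L := Nat.mul_le_mul_right L hi
  rw [Nat.add_mul, one_mul] at h1
  omega
-- END bk_take

-- BEGIN child_pt
/-- if a nearly neutral word has nearly all windows in few cells, its blocks are neutral -/
theorem child_pt (Y : Sys S V) (γ : List S) {D b : ℝ} (hD : 0 < D) (H : Finset ℤ) {L T N : ℕ}
    (hT : T * L ≤ N) (hN : N < (T + 1) * L) (w : List S) (hw : w.length = N)
    (hX : |Xg Y γ w| ≤ D)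
    (hb : ((open Classical in (range ((T - 1) * L)).filter fun s =>
      cl Y γ D (wd L s w) ∉ H).card : ℝ) ≤ b) {i : ℕ} (hi : i < T) :
    |Xg Y γ (bk L i w)| ≤ D + L / T + 2 * γ.length + 2 * (4 * (γ.length + 1) * b +
      H.card * (D + 4 * (γ.length + 1))) := by
  classical
  set x : ℕ → ℝ := fun s => Xg Y γ (wd L s w) with hx
  set k : ℝ := (γ.length : ℝ) with hk
  have hk0 : 0 ≤ k := Nat.cast_nonneg _
  have hT1 : 1 ≤ T := by omega
  have hT0 : (0 : ℝ) < T := by exact_mod_cast hT1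
  have hTT : (1 : ℝ) ≤ T := by exact_mod_cast hT1
  set Q : ℝ := 4 * (k + 1) * b + H.card * (D + 4 * (k + 1)) with hQ
  have h1 : ∀ i < T, |x (i * L) - x 0| ≤ Q := by
    intro i hi
    have h2 : i * L ≤ (T - 1) * L := Nat.mul_le_mul_right L (by omega)
    have h3 := path_cell x (σ := 2 * (k + 1)) (D := D) (by positivity) hD H ((T - 1) * L)
      (fun s _ => win_step Y γ L s w) h2
    refine h3.trans ?_
    have h4 : (((range ((T - 1) * L)).filter fun s => ⌊x s / D⌋ ∉ H).card : ℝ) ≤ b := hb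
    have h5 := mul_le_mul_of_nonneg_left h4 (by positivity : 0 ≤ 2 * (2 * (k + 1)))
    rw [hQ]
    linarith
  have h2 : |∑ i ∈ range T, x (i * L)| ≤ D + L + (T + 1) * k := by
    have h3 := Xg_blk Y γ L T (w.take (T * L)) (by rw [List.length_take]; omega)
    have h4 : ∑ i ∈ range T, Xg Y γ (bk L i (w.take (T * L))) = ∑ i ∈ range T, x (i * L) := by
      refine Finset.sum_congr rfl fun i hi => ?_
      rw [bk_take (Finset.mem_range.1 hi)]
      rfl
    rw [h4] at h3
    have h5 := Xg_append Y γ (w.take (T * L)) (w.drop (T * L))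
    rw [List.take_append_drop] at h5
    have h6 : |Xg Y γ (w.drop (T * L))| ≤ L := by
      refine (Xg_le Y γ _).trans ?_
      have h : (w.drop (T * L)).length ≤ L := by
        rw [List.length_drop, hw]
        rw [Nat.add_mul, one_mul] at hN
        omega
      exact_mod_cast h
    rw [abs_le] at h3 h5 h6 hX ⊢
    constructor <;> nlinarith
  have h3 : |(T : ℝ) * x 0| ≤ T * Q + (D + L + (T + 1) * k) := by
    have h4 : (T : ℝ) * x 0 = (∑ i ∈ range T, x (i * L)) - ∑ i ∈ range T, (x (i * L) - x 0) := by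
      rw [Finset.sum_sub_distrib, Finset.sum_const, Finset.card_range, nsmul_eq_mul]
      ring
    have h5 : |∑ i ∈ range T, (x (i * L) - x 0)| ≤ T * Q := by
      refine (Finset.abs_sum_le_sum_abs _ _).trans ?_
      refine (Finset.sum_le_sum fun i hi => h1 i (Finset.mem_range.1 hi)).trans ?_
      rw [Finset.sum_const, Finset.card_range, nsmul_eq_mul]
    rw [h4]
    refine (abs_sub _ _).trans ?_
    linarith
  have h4 : |x 0| ≤ Q + D + L / T + 2 * k := by
    rw [abs_mul, abs_of_pos hT0] at h3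
    have h5 : (T : ℝ) * (Q + D + L / T + 2 * k) = T * Q + T * D + L + T * (2 * k) := by
      field_simp
    have h6 : (T : ℝ) * |x 0| ≤ T * (Q + D + L / T + 2 * k) := by
      rw [h5]
      nlinarith
    exact le_of_mul_le_mul_left h6 hT0
  have h5 := h1 i hi
  have h6 : |x (i * L)| ≤ |x (i * L) - x 0| + |x 0| := by
    have := abs_add_le (x (i * L) - x 0) (x 0)
    rwa [sub_add_cancel] at this
  show |x (i * L)| ≤ _
  linarith
-- END child_pt

-- BEGIN mark
/-- few nearly neutral words have many windows outside the heavy cells -/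
theorem mark (Y : Sys S V) (hK : ∀ n, Y.a n ≤ K) (γ : List S) {D ε η b : ℝ} (hD : 1 ≤ D)
    (hk : (γ.length : ℝ) ≤ D) (hε : 0 < ε) (hη : 0 < η) (hb : 0 < b) {L T N : ℕ} (hT1 : 1 ≤ T)
    (hT : T * L ≤ N) :
    (Y.E N fun w => Y.sv w * (ind (|Xg Y γ w| ≤ D) *
      ind (b < ((open Classical in (range ((T - 1) * L)).filter fun s =>
        cl Y γ D (wd L s w) ∉ hv Y γ D N L η).card : ℝ)))) ≤
      N / b * (12 * ε * K + 4 * (K / ε) ^ 2 * (K ^ 2 * η)) := by
  classical
  have hK0 : 0 ≤ K := (Y.a_nonneg 0).trans (hK 0)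
  set H := hv Y γ D N L η with hH
  have hpt : ∀ w : List S, w.length = N → Y.sv w * (ind (|Xg Y γ w| ≤ D) *
      ind (b < (((range ((T - 1) * L)).filter fun s => cl Y γ D (wd L s w) ∉ H).card : ℝ))) ≤
      b⁻¹ * ∑ s ∈ range ((T - 1) * L), Y.sv w * (ind (|Xg Y γ w| ≤ D) *
        ind (cl Y γ D (wd L s w) ∉ H)) := by
    intro w _
    rw [← Finset.mul_sum, ← Finset.mul_sum]
    have h1 : (((range ((T - 1) * L)).filter fun s => cl Y γ D (wd L s w) ∉ H).card : ℝ) =
        ∑ s ∈ range ((T - 1) * L), ind (cl Y γ D (wd L s w) ∉ H) := by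
      rw [Finset.card_filter, Nat.cast_sum]
      refine Finset.sum_congr rfl fun s _ => ?_
      by_cases h : cl Y γ D (wd L s w) ∉ H
      · rw [ind_of h, if_pos h, Nat.cast_one]
      · rw [ind_not h, if_neg h, Nat.cast_zero]
    rw [h1]
    have h2 : ind (b < ∑ s ∈ range ((T - 1) * L), ind (cl Y γ D (wd L s w) ∉ H)) ≤
        b⁻¹ * ∑ s ∈ range ((T - 1) * L), ind (cl Y γ D (wd L s w) ∉ H) := by
      by_cases h : b < ∑ s ∈ range ((T - 1) * L), ind (cl Y γ D (wd L s w) ∉ H)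
      · rw [ind_of h, ← div_eq_inv_mul, le_div_iff₀ hb, one_mul]
        exact h.le
      · rw [ind_not h]
        exact mul_nonneg (inv_nonneg.2 hb.le) (Finset.sum_nonneg fun _ _ => ind_nonneg _)
    have h3 := mul_le_mul_of_nonneg_left h2 (mul_nonneg (Y.sv_nonneg w)
      (ind_nonneg (|Xg Y γ w| ≤ D)))
    calc _ = Y.sv w * ind (|Xg Y γ w| ≤ D) *
          ind (b < ∑ s ∈ range ((T - 1) * L), ind (cl Y γ D (wd L s w) ∉ H)) := by ring
      _ ≤ _ := h3
      _ = _ := by ring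
  refine (Y.E_mono hpt).trans ?_
  rw [Y.E_mul_left, Y.E_fsum]
  have h1 : ∀ s ∈ range ((T - 1) * L), (Y.E N fun w => Y.sv w * (ind (|Xg Y γ w| ≤ D) *
      ind (cl Y γ D (wd L s w) ∉ H))) ≤ 12 * ε * K + 4 * (K / ε) ^ 2 * (K ^ 2 * η) := by
    intro s hs
    rw [Finset.mem_range] at hs
    refine win_cell Y hK γ hD hk hε hη ?_
    have h2 : (T - 1) * L + L = T * L := by
      obtain ⟨t, rfl⟩ := Nat.exists_eq_add_of_le hT1
      rw [Nat.add_sub_cancel_left]
      ring
    omega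
  have h2 := Finset.sum_le_sum h1
  rw [Finset.sum_const, Finset.card_range, nsmul_eq_mul] at h2
  have h3 : (((T - 1) * L : ℕ) : ℝ) ≤ N := by
    have h4 : (T - 1) * L ≤ T * L := Nat.mul_le_mul_right L (by omega)
    exact_mod_cast h4.trans hT
  have h4 : 0 ≤ 12 * ε * K + 4 * (K / ε) ^ 2 * (K ^ 2 * η) := by positivity
  have h5 := mul_le_mul_of_nonneg_left (h2.trans (mul_le_mul_of_nonneg_right h3 h4))
    (inv_nonneg.2 hb.le)
  refine h5.trans (le_of_eq ?_)
  rw [div_eq_mul_inv]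
  ring
-- END mark

-- BEGIN rig_step
theorem rig_step (Y : Sys S V) (hK : ∀ n, Y.a n ≤ K) (k : ℕ) {δ δ₁ ε η b : ℝ} {L T N : ℕ}
    (hT1 : 1 ≤ T) (hT : T * L ≤ N) (hN : N < (T + 1) * L) (hL : 1 ≤ L) (hε : 0 < ε) (hη : 0 < η)
    (hb : 0 < b) (hD : 1 ≤ δ₁ * N) (hk : (k : ℝ) ≤ δ₁ * N)
    (hδ : δ₁ * N + L / T + 2 * k + 2 * (4 * (k + 1) * b +
      K / η * (δ₁ * N + 4 * (k + 1))) ≤ δ * L) :
    nm Y k δ₁ N ≤ (Fintype.card S : ℝ) ^ k *
      (N / b * (12 * ε * K + 4 * (K / ε) ^ 2 * (K ^ 2 * η))) +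
      K * Y.E (T * L) fun w => Y.sv w * ∏ i ∈ range T, ind (Nt Y k δ (bk L i w)) := by
  classical
  have hK0 : 0 ≤ K := (Y.a_nonneg 0).trans (hK 0)
  set D : ℝ := δ₁ * N with hDd
  set bd : (Fin k → S) → List S → ℝ := fun v w =>
    (((range ((T - 1) * L)).filter fun s => cl Y (List.ofFn v) D (wd L s w) ∉
      hv Y (List.ofFn v) D N L η).card : ℝ) with hbd
  have hpt : ∀ w : List S, w.length = N → Y.sv w * ind (Nt Y k δ₁ w) ≤
      (∑ v : Fin k → S, Y.sv w * (ind (|Xg Y (List.ofFn v) w| ≤ D) * ind (b < bd v w))) +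
      Y.sv w * ∏ i ∈ range T, ind (Nt Y k δ (bk L i (w.take (T * L)))) := by
    intro w hw
    rw [← Finset.mul_sum, ← mul_add]
    refine mul_le_mul_of_nonneg_left ?_ (Y.sv_nonneg w)
    have h01 : 0 ≤ ∑ v : Fin k → S, ind (|Xg Y (List.ofFn v) w| ≤ D) * ind (b < bd v w) :=
      Finset.sum_nonneg fun _ _ => mul_nonneg (ind_nonneg _) (ind_nonneg _)
    have h02 : 0 ≤ ∏ i ∈ range T, ind (Nt Y k δ (bk L i (w.take (T * L)))) :=
      Finset.prod_nonneg fun _ _ => ind_nonneg _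
    by_cases h1 : Nt Y k δ₁ w
    swap
    · rw [ind_not h1]
      linarith
    rw [ind_of h1]
    by_cases h2 : ∃ v : Fin k → S, b < bd v w
    · obtain ⟨v, h3⟩ := h2
      have h4 : |Xg Y (List.ofFn v) w| ≤ D := by
        have := h1 (List.ofFn v) (List.length_ofFn)
        rwa [hw] at this
      have h5 := Finset.single_le_sum
        (f := fun v => ind (|Xg Y (List.ofFn v) w| ≤ D) * ind (b < bd v w))
        (fun _ _ => mul_nonneg (ind_nonneg _) (ind_nonneg _)) (Finset.mem_univ v)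
      rw [ind_of h4, ind_of h3] at h5
      linarith
    · push Not at h2
      have h3 : ∏ i ∈ range T, ind (Nt Y k δ (bk L i (w.take (T * L)))) = 1 := by
        refine Finset.prod_eq_one fun i hi => ?_
        rw [Finset.mem_range] at hi
        rw [bk_take hi]
        refine ind_of fun γ hγ => ?_
        obtain ⟨v, rfl⟩ : ∃ v : Fin k → S, List.ofFn v = γ := by
          subst hγ
          exact ⟨γ.get, List.ofFn_get γ⟩
        have h4 : |Xg Y (List.ofFn v) w| ≤ D := by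
          have := h1 (List.ofFn v) (List.length_ofFn)
          rwa [hw] at this
        have h5 := child_pt Y (List.ofFn v) (D := D) (b := b) (by linarith)
          (hv Y (List.ofFn v) D N L η) hT hN w hw h4 (h2 v) hi
        rw [List.length_ofFn] at h5
        have h6 : (bk L i w).length = L := by
          unfold bk
          have h7 : (i + 1) * L ≤ T * L := Nat.mul_le_mul_right L hi
          rw [Nat.add_mul, one_mul] at h7
          rw [List.length_take, List.length_drop]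
          omega
        rw [h6]
        refine h5.trans (le_trans ?_ hδ)
        have h8 := hv_card Y hK (List.ofFn v) D N L hη
        have h9 := mul_le_mul_of_nonneg_right h8 (by positivity : 0 ≤ D + 4 * ((k : ℝ) + 1))
        linarith
      rw [h3]
      linarith
  refine (Y.E_mono hpt).trans ?_
  rw [Y.E_fadd, Y.E_fsum]
  refine add_le_add ?_ ?_
  · have h1 : ∀ v ∈ (Finset.univ : Finset (Fin k → S)),
        (Y.E N fun w => Y.sv w * (ind (|Xg Y (List.ofFn v) w| ≤ D) * ind (b < bd v w))) ≤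
        N / b * (12 * ε * K + 4 * (K / ε) ^ 2 * (K ^ 2 * η)) := by
      intro v _
      exact mark Y hK (List.ofFn v) hD (by rw [List.length_ofFn]; exact hk) hε hη hb hT1 hT
    refine (Finset.sum_le_sum h1).trans (le_of_eq ?_)
    rw [Finset.sum_const, Finset.card_univ, nsmul_eq_mul, Fintype.card_fun, Fintype.card_fin]
    push_cast
    ring
  · have h1 := split2' Y hT
      (F := fun u => ∏ i ∈ range T, ind (Nt Y k δ (bk L i u))) (G := fun _ => 1)
      (fun _ => Finset.prod_nonneg fun _ _ => ind_nonneg _) (fun _ => zero_le_one)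
    simp only [mul_one] at h1
    refine h1.trans ?_
    rw [mul_comm]
    exact mul_le_mul_of_nonneg_right (hK _) (Y.E_nonneg' fun w => mul_nonneg (Y.sv_nonneg w)
      (Finset.prod_nonneg fun _ _ => ind_nonneg _))
-- END rig_step

-- BEGIN rigid
/-- the junction inequality for the neutral blocks: each block costs at most `G L` -/
def JG (Y : Sys S V) (k : ℕ) (δ A : ℝ) (G : ℕ → ℝ) : Prop :=
  ∀ L T : ℕ, 1 ≤ L → 1 ≤ T → 0 ≤ G L ∧
    (Y.E (T * L) fun w => Y.sv w * ∏ i ∈ range T, ind (Nt Y k δ (bk L i w))) ≤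
      A * G L ^ (T - 1)

theorem nm_nonneg (Y : Sys S V) (k : ℕ) (δ : ℝ) (n : ℕ) : 0 ≤ nm Y k δ n :=
  Y.E_nonneg' fun w => mul_nonneg (Y.sv_nonneg w) (ind_nonneg _)

theorem nm_le_a (Y : Sys S V) (k : ℕ) (δ : ℝ) (n : ℕ) : nm Y k δ n ≤ Y.a n :=
  Y.E_mono fun w _ => mul_le_of_le_one_right (Y.sv_nonneg w) (ind_le_one _)

/-- from a junction factor `q` -/
theorem JG_of (Y : Sys S V) (hK : ∀ n, Y.a n ≤ K) (k : ℕ) (δ : ℝ) {q : ℝ} (hq : 0 ≤ q)
    (h : ∀ L T : ℕ, 1 ≤ L → 1 ≤ T →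
      (Y.E (T * L) fun w => Y.sv w * ∏ i ∈ range T, ind (Nt Y k δ (bk L i w))) ≤
        q ^ (T - 1) * nm Y k δ L ^ T) : JG Y k δ K fun L => q * nm Y k δ L := by
  intro L T hL hT
  have h0 := nm_nonneg Y k δ L
  refine ⟨mul_nonneg hq h0, (h L T hL hT).trans ?_⟩
  obtain ⟨t, rfl⟩ := Nat.exists_eq_add_of_le hT
  rw [Nat.add_sub_cancel_left]
  have h1 : q ^ t * nm Y k δ L ^ (1 + t) = nm Y k δ L * (q * nm Y k δ L) ^ t := by
    rw [pow_add, pow_one, mul_pow]
    ring
  rw [h1]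
  exact mul_le_mul_of_nonneg_right ((nm_le_a Y k δ L).trans (hK L))
    (pow_nonneg (mul_nonneg hq h0) t)

/-- no junction factor -/
theorem JG_one (Y : Sys S V) (hK : ∀ n, Y.a n ≤ K) (k : ℕ) (δ : ℝ) :
    JG Y k δ K fun L => 1 * nm Y k δ L := by
  refine JG_of Y hK k δ zero_le_one fun L T _ _ => ?_
  rw [one_pow, one_mul]
  exact blk_prod Y (fun w => ind (Nt Y k δ w)) (fun _ => ind_nonneg _) L T

/-- RIGIDITY: if the nearly neutral words of length `N` have mass at least `c`, then the neutral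
words of length `L`, `T L ≤ N < (T + 1) L`, have nearly full mass -/
theorem rigid (Y : Sys S V) (hK : ∀ n, Y.a n ≤ K) (hK1 : 1 ≤ K) (k : ℕ) {δ θ c A : ℝ}
    {G : ℕ → ℝ} (hδ : 0 < δ) (hθ : 0 < θ) (hθ1 : θ < 1) (hc : 0 < c) (hA : 0 < A)
    (hJ : JG Y k δ A G) :
    ∃ T₀ : ℕ, ∀ R : ℕ, ∃ δ₁ : ℝ, 0 < δ₁ ∧ ∃ n₀ : ℕ, ∀ L ≥ n₀, ∀ T N : ℕ, T₀ ≤ T → T ≤ R →
      T * L ≤ N → N < (T + 1) * L → c ≤ nm Y k δ₁ N → 1 - θ ≤ G L := by
  have hK0 : 0 < K := by linarith
  have hpos : 0 < c / (2 * K) / A := by positivity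
  have h1 : Tendsto (fun T : ℕ => (1 - θ) ^ T) atTop (𝓝 0) :=
    tendsto_pow_atTop_nhds_zero_of_lt_one (by linarith) (by linarith)
  obtain ⟨T₁, hT₁⟩ := eventually_atTop.1 (h1.eventually (gt_mem_nhds hpos))
  obtain ⟨T₂, hT₂⟩ := exists_nat_ge (8 / δ)
  refine ⟨max (T₁ + 1) (T₂ + 1), fun R => ?_⟩
  set C : ℝ := (Fintype.card S : ℝ) ^ k with hC
  have hC0 : 0 ≤ C := by positivity
  set r : ℝ := (R : ℝ) + 1 with hr
  have hr0 : 0 < r := by positivity
  set β : ℝ := δ / (64 * (k + 1) * r) with hβ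
  have hβ0 : 0 < β := by positivity
  set ε : ℝ := β * c / (48 * (C + 1) * K) with hε
  have hε0 : 0 < ε := by positivity
  set η : ℝ := β * c * ε ^ 2 / (16 * (C + 1) * K ^ 4) with hη
  have hη0 : 0 < η := by positivity
  set δ₁ : ℝ := δ / (8 * r * (1 + 2 * (K / η))) with hδ₁
  have hδ₁0 : 0 < δ₁ := by positivity
  obtain ⟨n₁, hn₁⟩ := exists_nat_ge ((2 * k + 2 * (K / η * (4 * (k + 1)))) * 8 / δ)
  obtain ⟨n₂, hn₂⟩ := exists_nat_ge ((k + 1) / δ₁)
  refine ⟨δ₁, hδ₁0, max (max n₁ n₂) 1, fun L hL T N hT0 hTR hTL hNL hcn => ?_⟩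
  have hL1 : 1 ≤ L := (le_max_right _ _).trans hL
  have hLn₁ : n₁ ≤ L := ((le_max_left _ _).trans (le_max_left _ _)).trans hL
  have hLn₂ : n₂ ≤ L := ((le_max_right _ _).trans (le_max_left _ _)).trans hL
  have hTT₁ : T₁ + 1 ≤ T := (le_max_left _ _).trans hT0
  have hTT₂ : T₂ + 1 ≤ T := (le_max_right _ _).trans hT0
  have hT1 : 1 ≤ T := by omega
  have hLr : (1 : ℝ) ≤ L := by exact_mod_cast hL1
  have hTr : (1 : ℝ) ≤ T := by exact_mod_cast hT1
  have hNr : (N : ℝ) ≤ r * L := by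
    have h2 : N ≤ (R + 1) * L := hNL.le.trans (Nat.mul_le_mul_right L (by omega))
    have h3 : (N : ℝ) ≤ (((R + 1) * L : ℕ) : ℝ) := by exact_mod_cast h2
    rw [hr]
    push_cast at h3
    exact h3
  have hNL' : (L : ℝ) ≤ N := by
    have h2 : L ≤ N := le_trans (by nlinarith) hTL
    exact_mod_cast h2
  have hN0 : (0 : ℝ) < N := by linarith
  have hb : 0 < β * N := by positivity
  have hkk : (0 : ℝ) ≤ k := Nat.cast_nonneg _
  have hDk : (k : ℝ) + 1 ≤ δ₁ * N := by
    have h2 : (k + 1 : ℝ) / δ₁ ≤ N := hn₂.trans (by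
      have : (n₂ : ℝ) ≤ L := by exact_mod_cast hLn₂
      linarith)
    rw [div_le_iff₀ hδ₁0] at h2
    linarith
  have hcond : δ₁ * N + L / T + 2 * k + 2 * (4 * (k + 1) * (β * N) +
      K / η * (δ₁ * N + 4 * (k + 1))) ≤ δ * L := by
    have e1 : δ₁ * N * (1 + 2 * (K / η)) ≤ δ * L / 8 := by
      have h2 : δ₁ * N * (1 + 2 * (K / η)) ≤ δ₁ * (r * L) * (1 + 2 * (K / η)) :=
        mul_le_mul_of_nonneg_right (mul_le_mul_of_nonneg_left hNr hδ₁0.le) (by positivity)
      refine h2.trans (le_of_eq ?_)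
      rw [hδ₁]
      field_simp
    have e2 : (L : ℝ) / T ≤ δ * L / 8 := by
      have h2 : 8 / δ ≤ T := hT₂.trans (by
        have : T₂ ≤ T := by omega
        exact_mod_cast this)
      rw [div_le_iff₀ hδ] at h2
      rw [div_le_iff₀ (by linarith)]
      nlinarith
    have e3 : 2 * (4 * (k + 1) * (β * N)) ≤ δ * L / 8 := by
      have h2 : 2 * (4 * ((k : ℝ) + 1) * (β * N)) ≤ 2 * (4 * ((k : ℝ) + 1) * (β * (r * L))) := by
        have := mul_le_mul_of_nonneg_left hNr hβ0.le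
        have := mul_le_mul_of_nonneg_left this (by positivity : 0 ≤ 2 * (4 * ((k : ℝ) + 1)))
        linarith
      refine h2.trans (le_of_eq ?_)
      rw [hβ]
      field_simp
      ring
    have e4 : 2 * k + 2 * (K / η * (4 * (k + 1))) ≤ δ * L / 8 := by
      have h2 : (2 * k + 2 * (K / η * (4 * (k + 1)))) * 8 / δ ≤ L := hn₁.trans (by
        exact_mod_cast hLn₁)
      rw [div_le_iff₀ hδ] at h2
      linarith
    have e5 : 0 ≤ δ * L := by positivity
    have e6 : δ₁ * N + L / T + 2 * k + 2 * (4 * (k + 1) * (β * N) +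
        K / η * (δ₁ * N + 4 * (k + 1))) = δ₁ * N * (1 + 2 * (K / η)) + L / T +
        2 * (4 * (k + 1) * (β * N)) + (2 * k + 2 * (K / η * (4 * (k + 1)))) := by ring
    rw [e6]
    linarith
  have hstep := rig_step Y hK k hT1 hTL hNL hL1 hε0 hη0 hb (by linarith) (by linarith) hcond
  have hsmall : C * (N / (β * N) * (12 * ε * K + 4 * (K / ε) ^ 2 * (K ^ 2 * η))) ≤ c / 2 := by
    have h2 : (N : ℝ) / (β * N) = 1 / β := by
      field_simp
    rw [h2]
    have h3 : 1 / β * (12 * ε * K) = c / (4 * (C + 1)) := by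
      rw [hε]
      field_simp
      ring
    have h4 : 1 / β * (4 * (K / ε) ^ 2 * (K ^ 2 * η)) = c / (4 * (C + 1)) := by
      rw [hη]
      field_simp
      ring
    have h5 : C * (1 / β * (12 * ε * K + 4 * (K / ε) ^ 2 * (K ^ 2 * η))) =
        C / (C + 1) * (c / 2) := by
      rw [mul_add, h3, h4]
      field_simp
      ring
    rw [h5]
    have h6 : C / (C + 1) ≤ 1 := by
      rw [div_le_one (by positivity)]
      linarith
    nlinarith
  have hE : c / (2 * K) ≤ Y.E (T * L) fun w => Y.sv w * ∏ i ∈ range T,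
      ind (Nt Y k δ (bk L i w)) := by
    rw [div_le_iff₀ (by positivity)]
    linarith
  obtain ⟨hG0, hJ1⟩ := hJ L T hL1 hT1
  by_contra hcon
  rw [not_le] at hcon
  have h2 : G L ^ (T - 1) ≤ (1 - θ) ^ (T - 1) := pow_le_pow_left₀ hG0 hcon.le _
  have h3 := hT₁ (T - 1) (by omega)
  rw [lt_div_iff₀ hA] at h3
  have h4 := mul_le_mul_of_nonneg_left h2 hA.le
  linarith
-- END rigid

end Pool.Agent.Am3
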