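import Pool.Agent.Trp.Lat
import Pool.Agent.Am3.Rig

/-!
# The neutral class has full mass at most octaves
-/

set_option autoImplicit false

namespace Pool.Agent.Am3

open Finset Filter Topology Pool.Agent.Bub4 Pool.Agent.SawM2 Pool.Agent.Taw Pool.Agent.Trp

-- BEGIN most_num
theorem most_num {P Q : ℕ → Prop} {ε : ℝ} (hε : 0 < ε) (r j₀ : ℕ)
    (h : ∀ j, j₀ ≤ j → P j → Q (j + r))
    (hQ : ∀ᶠ J : ℕ in atTop, ((open Classical in (range J).filter Q).card : ℝ) ≤ ε / 2 * J) :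
    ∀ᶠ J : ℕ in atTop, ((open Classical in (range J).filter P).card : ℝ) ≤ ε * J := by
  classical
  obtain ⟨J₁, hJ₁⟩ := eventually_atTop.1 hQ
  obtain ⟨J₂, hJ₂⟩ := exists_nat_ge ((j₀ + ε / 2 * r) / (ε / 2))
  filter_upwards [eventually_ge_atTop (max J₁ J₂)] with J hJ
  have h1 : J₁ ≤ J + r := ((le_max_left _ _).trans hJ).trans (Nat.le_add_right _ _)
  have h2 := hJ₁ (J + r) h1
  have h3 : ((range J).filter P).card ≤ j₀ + ((range (J + r)).filter Q).card := by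
    have h4 : (range J).filter P ⊆ range j₀ ∪ ((range J).filter fun j => Q (j + r)) := by
      intro j hj
      rw [Finset.mem_filter, Finset.mem_range] at hj
      rw [Finset.mem_union, Finset.mem_range, Finset.mem_filter, Finset.mem_range]
      by_cases h5 : j < j₀
      · exact Or.inl h5
      · exact Or.inr ⟨hj.1, h j (by omega) hj.2⟩
    have h5 : ((range J).filter fun j => Q (j + r)).card ≤ ((range (J + r)).filter Q).card := by
      refine Finset.card_le_card_of_injOn (fun j => j + r) ?_ ?_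
      · intro j hj
        rw [Finset.mem_coe, Finset.mem_filter, Finset.mem_range] at hj ⊢
        exact ⟨Nat.add_lt_add_right hj.1 r, hj.2⟩
      · intro a _ b _ hab
        simp only at hab
        omega
    refine (Finset.card_le_card h4).trans ((Finset.card_union_le _ _).trans ?_)
    rw [Finset.card_range]
    omega
  have h4 : (((range J).filter P).card : ℝ) ≤ j₀ + ((range (J + r)).filter Q).card := by
    exact_mod_cast h3
  have h5 : (j₀ + ε / 2 * r) / (ε / 2) ≤ J := hJ₂.trans (by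
    exact_mod_cast (le_max_right _ _).trans hJ)
  rw [div_le_iff₀ (by positivity)] at h5
  push_cast at h2
  linarith
-- END most_num

-- BEGIN most_G
/-- `G` is not nearly `1` at some length of the octave `j` -/
def BadO (G : ℕ → ℝ) (θ : ℝ) (j : ℕ) : Prop :=
  ∃ n, 2 ^ j ≤ n ∧ n < 2 ^ (j + 1) ∧ G n < 1 - θ

/-- in the bounded case `G n` is nearly at least `1`, for all `n` in all octaves outside a set of
density zero -/
theorem most_G {K μ : ℝ} (hμ : 0 < μ) (h1 : ∀ n, 1 ≤ (lat 1 hμ).a n)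
    (hK : ∀ n, (lat 1 hμ).a n ≤ K) (k : ℕ) {δ θ ε A : ℝ} {G : ℕ → ℝ} (hδ : 0 < δ) (hθ : 0 < θ)
    (hε : 0 < ε) (hA : 0 < A) (hJ : JG (lat 1 hμ) k δ A G) :
    ∀ᶠ J : ℕ in atTop, ((open Classical in (range J).filter (BadO G θ)).card : ℝ) ≤ ε * J := by
  classical
  have hK1 : 1 ≤ K := (h1 0).trans (hK 0)
  have hK0 : 0 < K := by linarith
  have hm : 0 < min θ (1 / 2) := lt_min hθ (by norm_num)
  obtain ⟨T₀, hT₀⟩ := rigid (lat 1 hμ) hK hK1 k hδ hm
    (lt_of_le_of_lt (min_le_right _ _) (by norm_num)) (c := 1 / (4 * K)) (by positivity) hA hJ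
  obtain ⟨δ₁, hδ₁, n₀, hn₀⟩ := hT₀ (2 ^ (T₀ + 1))
  refine most_num hε (T₀ + 1) n₀ ?_ (coex_words hμ h1 hK k hδ₁ (half_pos hε))
  rintro j hj ⟨n, hn1, hn2, hn3⟩
  by_contra hcon
  rw [not_lt] at hcon
  have hp : j < 2 ^ j := Nat.lt_two_pow_self
  have hT : T₀ < 2 ^ T₀ := Nat.lt_two_pow_self
  have hn0 : 0 < n := by omega
  have hN : (2 : ℕ) ^ (j + (T₀ + 1)) = 2 ^ T₀ * 2 ^ (j + 1) := by
    rw [← pow_add]
    congr 1
    omega
  have hN' : (2 : ℕ) ^ (j + (T₀ + 1)) = 2 ^ (T₀ + 1) * 2 ^ j := by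
    rw [← pow_add]
    congr 1
    omega
  have h2 := hn₀ n (by omega) (2 ^ (j + (T₀ + 1)) / n) (2 ^ (j + (T₀ + 1))) ?_ ?_ ?_ ?_ hcon
  · have h3 := min_le_left θ (1 / 2)
    linarith
  · rw [Nat.le_div_iff_mul_le hn0, hN]
    exact Nat.mul_le_mul hT.le hn2.le
  · refine Nat.div_le_of_le_mul ?_
    rw [hN', mul_comm n]
    exact Nat.mul_le_mul_left _ hn1
  · exact Nat.div_mul_le_self _ _
  · rw [add_mul, one_mul]
    have h3 := Nat.div_add_mod (2 ^ (j + (T₀ + 1))) n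
    have h4 := Nat.mod_lt (2 ^ (j + (T₀ + 1))) hn0
    rw [mul_comm]
    omega
-- END most_G

-- BEGIN neu_most
open Classical in
/-- a junction factor `q < 1` raises the mass of the neutral class -/
theorem neu_most_q {K μ : ℝ} (hμ : 0 < μ) (h1 : ∀ n, 1 ≤ (lat 1 hμ).a n)
    (hK : ∀ n, (lat 1 hμ).a n ≤ K) (k : ℕ) {δ η q : ℝ} (hδ : 0 < δ) (hη : 0 < η) (hq : 0 < q)
    (h : ∀ L T : ℕ, 1 ≤ L → 1 ≤ T →
      ((lat 1 hμ).E (T * L) fun w => (lat 1 hμ).sv w *
        ∏ i ∈ range T, ind (Nt (lat 1 hμ) k δ (bk L i w))) ≤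
        q ^ (T - 1) * nm (lat 1 hμ) k δ L ^ T) :
    ∀ᶠ J : ℕ in atTop, (((range J).filter fun j => ∃ n : ℕ, 2 ^ j ≤ n ∧ n < 2 ^ (j + 1) ∧
      nm (lat 1 hμ) k δ n < q⁻¹ - η).card : ℝ) ≤ η * J := by
  have hK1 : 1 ≤ K := (h1 0).trans (hK 0)
  have h2 := most_G hμ h1 hK k (θ := q * η) hδ (by positivity) hη (by linarith)
    (JG_of (lat 1 hμ) hK k δ hq.le h)
  filter_upwards [h2] with J hJ
  refine le_trans ?_ hJ
  rw [Nat.cast_le]
  refine Finset.card_le_card fun j hj => ?_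
  rw [Finset.mem_filter] at hj ⊢
  refine ⟨hj.1, ?_⟩
  obtain ⟨n, hn1, hn2, hn3⟩ := hj.2
  refine ⟨n, hn1, hn2, ?_⟩
  have h3 := mul_lt_mul_of_pos_left hn3 hq
  rw [mul_sub, mul_inv_cancel₀ hq.ne'] at h3
  exact h3
-- END neu_most

end Pool.Agent.Am3
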