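import Pool.Agent.Am3.Jun4
import Pool.Agent.Am3.Most

/-!
# Every symmetric class weighs at least `|S| / μ`: junctions with the last step of the first word
-/

set_option autoImplicit false

namespace Pool.Agent.Am3

open Finset Filter Topology Pool.Agent.Bub4 Pool.Agent.SawM2 Pool.Agent.Taw Pool.Agent.Trp

variable {S V : Type} [Fintype S] [AddCommGroup V] {K : ℝ}

/-- the mass of the words of length `n + 1` with the weight `φ` on their tails, divided by the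
mass of one free step -/
noncomputable def tl (Y : Sys S V) (φ : List S → ℝ) (n : ℕ) : ℝ :=
  (Y.z * Fintype.card S)⁻¹ * Y.E (n + 1) fun w => Y.sv w * φ w.tail

/-- if `φ` is invariant under a transitive group then the first step does not matter -/
theorem tl_eq (Y : Sys S V) (T : Subgroup (Equiv.Perm S)) (hT : ∀ σ ∈ T, Sy Y σ)
    (htr : ∀ x y : S, ∃ σ ∈ T, σ x = y) {φ : List S → ℝ}
    (hinv : ∀ σ ∈ T, ∀ w, φ (w.map σ) = φ w) (n : ℕ) (a : S) :
    (Y.E n fun v => Y.sv (a :: v) * φ v) = tl Y φ n := by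
  have h1 : ∀ b : S, (Y.E n fun v => Y.sv (b :: v) * φ v) =
      Y.E n fun v => Y.sv (a :: v) * φ v := by
    intro b
    obtain ⟨σ, hσ, hab⟩ := htr b a
    rw [← E_map Y σ n fun v => Y.sv (a :: v) * φ v]
    refine Y.E_congr fun v _ => ?_
    rw [hinv σ hσ, ← hab, ← List.map_cons, sv_map Y (hT σ hσ)]
  unfold tl
  rw [Y.E_succ]
  simp only [List.tail_cons]
  rw [Finset.sum_congr rfl fun b _ => h1 b, Finset.sum_const, Finset.card_univ, nsmul_eq_mul]
  have hz := Y.z_pos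
  have : Nonempty S := ⟨a⟩
  have hc : (0 : ℝ) < Fintype.card S := by exact_mod_cast Fintype.card_pos
  field_simp

theorem tl_nonneg (Y : Sys S V) {φ : List S → ℝ} (hφ : ∀ w, 0 ≤ φ w) (n : ℕ) : 0 ≤ tl Y φ n := by
  unfold tl
  have hz := Y.z_pos
  exact mul_nonneg (by positivity) (Y.E_nonneg' fun w => mul_nonneg (Y.sv_nonneg w) (hφ _))

/-- a junction: the last step of the first word in front of the second word -/
theorem junction2 (Y : Sys S V) (T : Subgroup (Equiv.Perm S)) (hT : ∀ σ ∈ T, Sy Y σ)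
    (htr : ∀ x y : S, ∃ σ ∈ T, σ x = y) (p q : ℕ) (hp : 1 ≤ p)
    {F G : List S → ℝ} (hF : ∀ w, 0 ≤ F w) (hG : ∀ w, 0 ≤ G w)
    (hinv : ∀ σ ∈ T, ∀ w, G (w.map σ) = G w) :
    (Y.E (p + q) fun w => Y.sv w * (F (w.take p) * G (w.drop p))) ≤
      (Y.E p fun u => Y.sv u * F u) * tl Y G q := by
  rw [Y.E_add p q, ← Y.E_mul_right]
  refine Y.E_mono fun u hu => ?_
  obtain ⟨u', a, rfl⟩ : ∃ u' a, u = u' ++ [a] := by
    have h0 : u ≠ [] := by
      rintro rfl
      simp at hu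
      omega
    exact ⟨u.dropLast, u.getLast h0, (List.dropLast_append_getLast h0).symm⟩
  rw [← tl_eq Y T hT htr hinv q a, ← Y.E_mul_left]
  refine Y.E_mono fun v _ => ?_
  have h1 : ((u' ++ [a]) ++ v).take p = u' ++ [a] := by rw [← hu]; exact List.take_left
  have h2 : ((u' ++ [a]) ++ v).drop p = v := by rw [← hu]; exact List.drop_left
  rw [h1, h2]
  have h3 : Y.sv ((u' ++ [a]) ++ v) ≤ Y.sv (u' ++ [a]) * Y.sv (a :: v) := by
    have h4 : Y.sv ((u' ++ [a]) ++ v) ≤ Y.sv (u' ++ [a]) := Y.sv_append_left _ _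
    have h5 : Y.sv ((u' ++ [a]) ++ v) ≤ Y.sv (a :: v) := by
      rw [List.append_assoc]
      exact Y.sv_append_right _ _
    calc Y.sv ((u' ++ [a]) ++ v) = Y.sv ((u' ++ [a]) ++ v) * Y.sv ((u' ++ [a]) ++ v) :=
          (Y.sv_mul_self _).symm
      _ ≤ _ := mul_le_mul h4 h5 (Y.sv_nonneg _) (Y.sv_nonneg _)
  calc Y.sv ((u' ++ [a]) ++ v) * (F (u' ++ [a]) * G v)
      ≤ (Y.sv (u' ++ [a]) * Y.sv (a :: v)) * (F (u' ++ [a]) * G v) :=
        mul_le_mul_of_nonneg_right h3 (mul_nonneg (hF _) (hG v))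
    _ = Y.sv (u' ++ [a]) * F (u' ++ [a]) * (Y.sv (a :: v) * G v) := by ring

omit [Fintype S] in
private theorem mu_bk (φ : List S → ℝ) (L M : ℕ) (w : List S) (hw : w.length = M * L + L) :
    ∏ i ∈ range (M + 1), φ (bk L i w) =
      (∏ i ∈ range M, φ (bk L i (w.take (M * L)))) * φ (w.drop (M * L)) := by
  have h3 : ∀ i ∈ range M, φ (bk L i w) = φ (bk L i (w.take (M * L))) := by
    intro i hi
    have hi' : i + 1 ≤ M := Finset.mem_range.1 hi
    have h5 : (i + 1) * L ≤ M * L := Nat.mul_le_mul_right L hi'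
    rw [Nat.succ_mul] at h5
    unfold bk
    rw [List.drop_take, List.take_take, Nat.min_eq_left (by omega)]
  have h4 : bk L M w = w.drop (M * L) := by
    unfold bk
    refine List.take_of_length_le ?_
    rw [List.length_drop, hw]
    omega
  rw [Finset.prod_range_succ, h4, Finset.prod_congr rfl h3]

/-- the product over `M + 1` blocks -/
theorem blk_prod2 (Y : Sys S V) (T : Subgroup (Equiv.Perm S)) (hT : ∀ σ ∈ T, Sy Y σ)
    (htr : ∀ x y : S, ∃ σ ∈ T, σ x = y) (φ : List S → ℝ)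
    (hφ : ∀ w, 0 ≤ φ w) (hinv : ∀ σ ∈ T, ∀ w, φ (w.map σ) = φ w) (L M : ℕ) (hL : 1 ≤ L) :
    (Y.E ((M + 1) * L) fun w => Y.sv w * ∏ i ∈ range (M + 1), φ (bk L i w)) ≤
      (Y.E L fun v => Y.sv v * φ v) * tl Y φ L ^ M := by
  induction M with
  | zero =>
    rw [zero_add, pow_zero, mul_one, one_mul]
    refine Y.E_mono fun w hw => le_of_eq ?_
    have h2 := mu_bk φ L 0 w (by rw [zero_mul, zero_add, hw])
    rw [zero_add] at h2
    rw [h2, Finset.prod_range_zero, one_mul, zero_mul, List.drop_zero]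
  | succ M ih =>
    have h1 : (Y.E ((M + 1 + 1) * L) fun w => Y.sv w * ∏ i ∈ range (M + 1 + 1), φ (bk L i w)) ≤
        (Y.E ((M + 1) * L) fun w => Y.sv w * ∏ i ∈ range (M + 1), φ (bk L i w)) * tl Y φ L := by
      rw [Nat.succ_mul (M + 1) L]
      refine le_trans (Y.E_mono fun w hw => le_of_eq ?_)
        (junction2 Y T hT htr ((M + 1) * L) L (Nat.mul_pos (Nat.succ_pos M) hL)
          (F := fun w => ∏ i ∈ range (M + 1), φ (bk L i w)) (G := φ)
          (fun w => Finset.prod_nonneg fun i _ => hφ _) hφ hinv)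
      rw [mu_bk φ L (M + 1) w hw]
    refine h1.trans ?_
    rw [pow_succ, ← mul_assoc]
    exact mul_le_mul_of_nonneg_right ih (tl_nonneg Y hφ L)

/-- one free step has mass at least `1` -/
theorem one_le_zc (Y : Sys S V) (h1 : ∀ n, 1 ≤ Y.a n) : 1 ≤ Y.z * Fintype.card S := by
  have h2 : Y.a 1 ≤ Y.z * Fintype.card S := by
    unfold Sys.a
    rw [Y.E_succ]
    refine mul_le_mul_of_nonneg_left ?_ Y.z_pos.le
    calc (∑ s : S, Y.E 0 fun w => Y.sv (s :: w)) ≤ ∑ _s : S, (1 : ℝ) :=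
          Finset.sum_le_sum fun s _ => Y.sv_le_one _
      _ = Fintype.card S := by simp
  exact (h1 1).trans h2

section vec

variable {W : Type} [NormedAddCommGroup W] [InnerProductSpace ℝ W] {X : List S → W}
  {act : Equiv.Perm S → W → W} {k : ℕ} {T : Subgroup (Equiv.Perm S)} {c b : Equiv.Perm S}

omit [Fintype S] in
private theorem mu_Tb {ρ : ℝ} {v : W} {L : ℕ} {w : List S} (h : Bl X v ρ L w) :
    Tb T X v ρ L w := by
  refine ⟨1, T.one_mem, ?_⟩
  have e : w.map (1 : Equiv.Perm S) = w := by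
    rw [Equiv.Perm.coe_one, List.map_id]
  rw [e]
  exact h

omit [Fintype S] in
private theorem mu_inv {ρ : ℝ} {v : W} {L : ℕ} {σ : Equiv.Perm S} (hσ : σ ∈ T) (w : List S) :
    Tb T X v ρ L (w.map σ) ↔ Tb T X v ρ L w := by
  constructor
  · rintro ⟨τ, hτ, h⟩
    refine ⟨τ * σ, T.mul_mem hτ hσ, ?_⟩
    rw [List.map_map] at h
    exact h
  · rintro ⟨τ, hτ, h⟩
    refine ⟨τ * σ⁻¹, T.mul_mem hτ (T.inv_mem hσ), ?_⟩
    have e : (w.map σ).map (τ * σ⁻¹ : Equiv.Perm S) = w.map τ := by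
      rw [List.map_map]
      refine List.map_congr_left fun x _ => ?_
      simp
    rw [e]
    exact h

/-- the second bound for the mass of the words all but few of whose children are near `v` -/
theorem two_bd2 (Y : Sys S V) (h1 : ∀ n, 1 ≤ Y.a n) (hK : ∀ n, Y.a n ≤ K) (hG : Gr Y T c b)
    {ρ lam : ℝ} (hlam : 0 ≤ lam) (L M : ℕ) (hL : 1 ≤ L) (v : W) :
    (Y.E ((M + 1) * L) fun w => Y.sv w *
      ∏ i ∈ range (M + 1), (ind (Bl X v ρ L (bk L i w)) + Real.exp (-lam))) ≤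
      2 * K * (tl Y (fun w => ind (Tb T X v ρ L w)) L + K * Real.exp (-lam)) ^ M := by
  have he : (0 : ℝ) < Real.exp (-lam) := Real.exp_pos _
  have he1 : Real.exp (-lam) ≤ 1 := Real.exp_le_one_iff.2 (by linarith)
  have hK0 : 0 ≤ K := (Y.a_nonneg 0).trans (hK 0)
  have hle : (Y.E ((M + 1) * L) fun w => Y.sv w *
      ∏ i ∈ range (M + 1), (ind (Bl X v ρ L (bk L i w)) + Real.exp (-lam))) ≤
      (Y.E ((M + 1) * L) fun w => Y.sv w *
        ∏ i ∈ range (M + 1), (ind (Tb T X v ρ L (bk L i w)) + Real.exp (-lam))) := by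
    refine Y.E_mono fun w _ => mul_le_mul_of_nonneg_left ?_ (Y.sv_nonneg w)
    refine Finset.prod_le_prod (fun i _ => add_nonneg (ind_nonneg _) he.le) fun i _ => ?_
    have h1 : ind (Bl X v ρ L (bk L i w)) ≤ ind (Tb T X v ρ L (bk L i w)) :=
      ind_mono mu_Tb
    linarith
  have h3 := blk_prod2 Y T hG.sy hG.tr (fun w => ind (Tb T X v ρ L w) + Real.exp (-lam))
    (fun w => add_nonneg (ind_nonneg _) he.le)
    (fun σ hσ w => by rw [ind_congr (mu_inv hσ w)]) L M hL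
  have h4 : (Y.E L fun w => Y.sv w * (ind (Tb T X v ρ L w) + Real.exp (-lam))) ≤ 2 * K := by
    calc (Y.E L fun w => Y.sv w * (ind (Tb T X v ρ L w) + Real.exp (-lam)))
        ≤ Y.E L fun w => Y.sv w * 2 := Y.E_mono fun w _ =>
          mul_le_mul_of_nonneg_left (by
            have := ind_le_one (Tb T X v ρ L w)
            linarith) (Y.sv_nonneg w)
      _ = Y.a L * 2 := by rw [Y.E_mul_right]; rfl
      _ ≤ 2 * K := by linarith [hK L]
  have h5 : tl Y (fun w => ind (Tb T X v ρ L w) + Real.exp (-lam)) L ≤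
      tl Y (fun w => ind (Tb T X v ρ L w)) L + K * Real.exp (-lam) := by
    have hz := one_le_zc Y h1
    have h6 : (Y.z * Fintype.card S)⁻¹ ≤ 1 := inv_le_one_of_one_le₀ hz
    have h7 : 0 ≤ (Y.z * Fintype.card S)⁻¹ := by positivity
    unfold tl
    have h8 : (Y.E (L + 1) fun w => Y.sv w * (ind (Tb T X v ρ L w.tail) + Real.exp (-lam))) =
        (Y.E (L + 1) fun w => Y.sv w * ind (Tb T X v ρ L w.tail)) +
          Y.a (L + 1) * Real.exp (-lam) := by
      unfold Sys.a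
      rw [← Y.E_mul_right, ← Y.E_fadd]
      refine Y.E_congr fun v _ => ?_
      ring
    rw [h8, mul_add]
    have h9 : 0 ≤ Y.a (L + 1) * Real.exp (-lam) := mul_nonneg (Y.a_nonneg _) he.le
    have h10 : (Y.z * Fintype.card S)⁻¹ * (Y.a (L + 1) * Real.exp (-lam)) ≤
        Y.a (L + 1) * Real.exp (-lam) := mul_le_of_le_one_left h9 h6
    have h11 : Y.a (L + 1) * Real.exp (-lam) ≤ K * Real.exp (-lam) :=
      mul_le_mul_of_nonneg_right (hK _) he.le
    linarith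
  have h6 : 0 ≤ tl Y (fun w => ind (Tb T X v ρ L w) + Real.exp (-lam)) L :=
    tl_nonneg Y (fun w => add_nonneg (ind_nonneg _) he.le) L
  refine hle.trans (h3.trans ?_)
  exact mul_le_mul h4 (pow_le_pow_left₀ h6 h5 M) (pow_nonneg h6 M) (by positivity)

/-- a parent near `v` all of whose children are below the top value -/
theorem near_one (Y : Sys S V) (hX : Vx Y T X act k) {s e ρ lam : ℝ} (he : 0 < e)
    (hes : 2 * e ≤ s) (heρ : 2 * e ≤ ρ) (hlam : 0 ≤ lam) (L M : ℕ) (hL : 1 ≤ L) (hM : 1 ≤ M)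
    (hk : (k : ℝ) ≤ e * L) (w : List S) (hw : w.length = M * L) (v : W)
    (hv : ‖X w - ((M * L : ℕ) : ℝ) • v‖ < ρ * (M * L : ℕ))
    (hn : (s - e) * (M * L : ℕ) ≤ ‖X w‖) (hc : ∀ i < M, ‖X (bk L i w)‖ < (s + e) * L) :
    1 ≤ Real.exp (lam * (24 * s * e / ρ ^ 2) * M) *
          ∏ i ∈ range M, (ind (Bl X v (2 * ρ) L (bk L i w)) + Real.exp (-lam)) := by
  have hcard := near_pt Y hX he hes heρ L M hL hM hk w hw v hv hn hc
  obtain ⟨B, hB, hBm, hBs⟩ : ∃ B : Finset ℕ,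
      (open Classical in (range M).filter fun i => ¬ Bl X v (2 * ρ) L (bk L i w)) = B ∧
        (∀ i ∈ range M, (i ∈ B ↔ ¬ Bl X v (2 * ρ) L (bk L i w))) ∧ B ⊆ range M := by
    classical
    refine ⟨_, rfl, fun i hi => ?_, Finset.filter_subset _ _⟩
    exact ⟨fun h => (Finset.mem_filter.1 h).2, fun h => Finset.mem_filter.2 ⟨hi, h⟩⟩
  rw [hB] at hcard
  have hprod : Real.exp (-lam) ^ B.card ≤
      ∏ i ∈ range M, (ind (Bl X v (2 * ρ) L (bk L i w)) + Real.exp (-lam)) := by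
    have h3 : ∏ i ∈ range M, (if i ∈ B then Real.exp (-lam) else 1) = Real.exp (-lam) ^ B.card := by
      rw [← Finset.prod_filter, Finset.prod_const, Finset.filter_mem_eq_inter,
        Finset.inter_eq_right.2 hBs]
    rw [← h3]
    refine Finset.prod_le_prod (fun i _ => ?_) fun i hi => ?_
    · split_ifs
      · exact (Real.exp_pos _).le
      · exact zero_le_one
    · by_cases hiB : i ∈ B
      · rw [if_pos hiB]
        have := ind_nonneg (Bl X v (2 * ρ) L (bk L i w))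
        linarith
      · rw [if_neg hiB]
        have h4 : Bl X v (2 * ρ) L (bk L i w) := by
          by_contra hcon
          exact hiB ((hBm i hi).2 hcon)
        rw [ind_of h4]
        have := Real.exp_pos (-lam)
        linarith
  have h11 : (1 : ℝ) ≤ Real.exp (lam * (24 * s * e / ρ ^ 2) * M) * Real.exp (-lam) ^ B.card := by
    rw [← Real.exp_nat_mul, ← Real.exp_add]
    refine Real.one_le_exp ?_
    have := mul_le_mul_of_nonneg_left hcard hlam
    linarith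
  have h12 := mul_le_mul_of_nonneg_left hprod
    (Real.exp_pos (lam * (24 * s * e / ρ ^ 2) * M)).le
  linarith

/-- the parent of length `M (L + 1)` seen through its blocks of length `L + 1` and through the
blocks of length `L` of its prefix of length `M L` -/
theorem pow2 (Y : Sys S V) (hX : Vx Y T X act k) {s e ρ lam : ℝ} (he : 0 < e)
    (hes : 2 * e ≤ s) (heρ : 2 * e ≤ ρ) (hlam : 0 ≤ lam) (A : Finset W)
    (hA : ∀ x : W, ‖x‖ ≤ 1 → ∃ v ∈ A, ‖x - v‖ < ρ / 2) (L M : ℕ) (hL : 1 ≤ L) (hM : 1 ≤ M)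
    (hk : (k : ℝ) ≤ e * L) (hk2 : 1 + (k : ℝ) ≤ e / 2 * L) (hk3 : 2 + (k : ℝ) + ρ ≤ ρ / 2 * L)
    (w : List S) (hw : w.length = M * (L + 1)) :
    ind ((s - e / 2) * (M * (L + 1) : ℕ) ≤ ‖X w‖) ≤
      (∑ i ∈ range M, ind ((s + e) * (L + 1 : ℕ) ≤ ‖X (bk (L + 1) i w)‖)) +
      (∑ i ∈ range M, ind ((s + e) * L ≤ ‖X (bk L i (w.take (M * L)))‖)) +
      ∑ v ∈ (open Classical in A.filter fun v => s - e - ρ ≤ ‖v‖ ∧ ‖v‖ ≤ 1 + ρ),
        min (Real.exp (lam * (24 * s * e / ρ ^ 2) * M) *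
            ∏ i ∈ range M, (ind (Bl X v (2 * ρ) (L + 1) (bk (L + 1) i w)) + Real.exp (-lam)))
          (Real.exp (lam * (24 * s * e / ρ ^ 2) * M) *
            ∏ i ∈ range M, (ind (Bl X v (2 * ρ) L (bk L i (w.take (M * L)))) +
              Real.exp (-lam))) := by
  have hs1 : 0 ≤ ∑ i ∈ range M, ind ((s + e) * (L + 1 : ℕ) ≤ ‖X (bk (L + 1) i w)‖) :=
    Finset.sum_nonneg fun _ _ => ind_nonneg _
  have hs2 : 0 ≤ ∑ i ∈ range M, ind ((s + e) * L ≤ ‖X (bk L i (w.take (M * L)))‖) :=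
    Finset.sum_nonneg fun _ _ => ind_nonneg _
  have hpn : ∀ (v : W) (L' : ℕ) (w' : List S), 0 ≤ Real.exp (lam * (24 * s * e / ρ ^ 2) * M) *
      ∏ i ∈ range M, (ind (Bl X v (2 * ρ) L' (bk L' i w')) + Real.exp (-lam)) := fun v L' w' =>
    mul_nonneg (Real.exp_pos _).le
      (Finset.prod_nonneg fun _ _ => add_nonneg (ind_nonneg _) (Real.exp_pos _).le)
  have hp0 : ∀ v : W, 0 ≤ min (Real.exp (lam * (24 * s * e / ρ ^ 2) * M) *
            ∏ i ∈ range M, (ind (Bl X v (2 * ρ) (L + 1) (bk (L + 1) i w)) + Real.exp (-lam)))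
          (Real.exp (lam * (24 * s * e / ρ ^ 2) * M) *
            ∏ i ∈ range M, (ind (Bl X v (2 * ρ) L (bk L i (w.take (M * L)))) +
              Real.exp (-lam))) := fun v => le_min (hpn v _ _) (hpn v _ _)
  have hp1 := Finset.sum_nonneg (s := (open Classical in A.filter fun v =>
    s - e - ρ ≤ ‖v‖ ∧ ‖v‖ ≤ 1 + ρ)) fun v _ => hp0 v
  by_cases h1 : (s - e / 2) * (M * (L + 1) : ℕ) ≤ ‖X w‖
  swap
  · rw [ind_not h1]
    exact add_nonneg (add_nonneg hs1 hs2) hp1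
  rw [ind_of h1]
  by_cases h2 : ∃ i ∈ range M, (s + e) * (L + 1 : ℕ) ≤ ‖X (bk (L + 1) i w)‖
  · obtain ⟨i, hi, h3⟩ := h2
    have h4 : ind ((s + e) * (L + 1 : ℕ) ≤ ‖X (bk (L + 1) i w)‖) ≤
        ∑ i ∈ range M, ind ((s + e) * (L + 1 : ℕ) ≤ ‖X (bk (L + 1) i w)‖) :=
      Finset.single_le_sum (f := fun i => ind ((s + e) * (L + 1 : ℕ) ≤ ‖X (bk (L + 1) i w)‖))
        (fun _ _ => ind_nonneg _) hi
    rw [ind_of h3] at h4
    linarith
  by_cases h2' : ∃ i ∈ range M, (s + e) * L ≤ ‖X (bk L i (w.take (M * L)))‖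
  · obtain ⟨i, hi, h3⟩ := h2'
    have h4 : ind ((s + e) * L ≤ ‖X (bk L i (w.take (M * L)))‖) ≤
        ∑ i ∈ range M, ind ((s + e) * L ≤ ‖X (bk L i (w.take (M * L)))‖) :=
      Finset.single_le_sum (f := fun i => ind ((s + e) * L ≤ ‖X (bk L i (w.take (M * L)))‖))
        (fun _ _ => ind_nonneg _) hi
    rw [ind_of h3] at h4
    linarith
  push Not at h2 h2'
  obtain ⟨N, hN⟩ : ∃ N : ℝ, N = ((M * (L + 1) : ℕ) : ℝ) := ⟨_, rfl⟩
  have hM0 : (1 : ℝ) ≤ M := by exact_mod_cast hM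
  have hL0 : (1 : ℝ) ≤ L := by exact_mod_cast hL
  have hNML : N = M * L + M := by
    rw [hN]
    push_cast
    ring
  have hML0 : (0 : ℝ) < (M : ℝ) * L := by positivity
  have hN0 : 0 < N := by rw [hNML]; positivity
  have hx1 : ‖N⁻¹ • X w‖ = N⁻¹ * ‖X w‖ := by
    rw [norm_smul, Real.norm_of_nonneg (inv_nonneg.2 hN0.le)]
  have hle := hX.le w
  rw [hw, ← hN] at hle
  have hx2 : ‖N⁻¹ • X w‖ ≤ 1 := by
    rw [hx1, inv_mul_le_iff₀ hN0, mul_one]
    exact hle
  obtain ⟨v, hvA, hv⟩ := hA (N⁻¹ • X w) hx2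
  rw [← hN] at h1
  have hv' : ‖X w - N • v‖ < ρ / 2 * N := by
    have h3 : X w - N • v = N • (N⁻¹ • X w - v) := by
      rw [smul_sub, smul_inv_smul₀ hN0.ne']
    rw [h3, norm_smul, Real.norm_of_nonneg hN0.le, mul_comm]
    exact mul_lt_mul_of_pos_right hv hN0
  have hvn : s - e - ρ ≤ ‖v‖ := by
    have h3 : s - e / 2 ≤ ‖N⁻¹ • X w‖ := by
      rw [hx1, le_inv_mul_iff₀ hN0, mul_comm]
      exact h1
    have h4 := norm_sub_norm_le (N⁻¹ • X w) v
    linarith
  have hvn2 : ‖v‖ ≤ 1 + ρ / 2 := by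
    have h4 := norm_sub_norm_le v (N⁻¹ • X w)
    rw [norm_sub_rev] at h4
    linarith
  have hρ0 : 0 < ρ := by linarith
  -- blocks of length `L + 1`
  have hone := near_one Y hX he hes heρ hlam (L + 1) M (by omega) hM (by
    push_cast
    linarith) w hw v (by rw [← hN]; nlinarith) (by rw [← hN]; nlinarith)
    (fun i hi => h2 i (Finset.mem_range.2 hi))
  -- blocks of length `L`
  have hle2 : M * L ≤ w.length := by rw [hw]; exact Nat.mul_le_mul_left M (Nat.le_succ L)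
  have htl : (w.take (M * L)).length = M * L := by
    rw [List.length_take, Nat.min_eq_left hle2]
  have hdl : ((w.drop (M * L)).length : ℝ) = M := by
    rw [List.length_drop, hw]
    have h5 : M * (L + 1) - M * L = M := by
      rw [Nat.mul_succ]
      omega
    rw [h5]
  have hdiff : ‖X w - X (w.take (M * L))‖ ≤ M + k := by
    have h5 := hX.add (w.take (M * L)) (w.drop (M * L))
    rw [List.take_append_drop] at h5
    have h6 := hX.le (w.drop (M * L))
    rw [hdl] at h6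
    have h7 : X w - X (w.take (M * L)) =
        (X w - X (w.take (M * L)) - X (w.drop (M * L))) + X (w.drop (M * L)) := by abel
    rw [h7]
    refine (norm_add_le _ _).trans ?_
    linarith
  have hkM : (k : ℝ) ≤ k * M := le_mul_of_one_le_right (Nat.cast_nonneg k) hM0
  have hMLc : ((M * L : ℕ) : ℝ) = M * L := by push_cast; ring
  have hone2 := near_one Y hX he hes heρ hlam L M hL hM hk (w.take (M * L)) htl v (by
      rw [hMLc]
      have h8 : X (w.take (M * L)) - ((M : ℝ) * L) • v =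
          -(X w - X (w.take (M * L))) + (X w - N • v) + (M : ℝ) • v := by
        rw [hNML, add_smul]
        abel
      have h9 : ‖(M : ℝ) • v‖ ≤ M * (1 + ρ / 2) := by
        rw [norm_smul, Real.norm_of_nonneg (by positivity)]
        exact mul_le_mul_of_nonneg_left hvn2 (by positivity)
      rw [h8]
      refine lt_of_le_of_lt (norm_add_le _ _) ?_
      have h10 := norm_add_le (-(X w - X (w.take (M * L)))) (X w - N • v)
      rw [norm_neg] at h10
      have h11 := mul_le_mul_of_nonneg_left hk3 (show (0 : ℝ) ≤ M by positivity)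
      have h12 : ‖X w - N • v‖ < ρ / 2 * (M * L) + ρ / 2 * M := by
        refine hv'.trans_le (le_of_eq ?_)
        rw [hNML]
        ring
      have h14 : (M : ℝ) * (2 + k + ρ) = M + M + k * M + ρ / 2 * M + M * (ρ / 2) := by ring
      have h15 : (M : ℝ) * (ρ / 2 * L) = ρ / 2 * (M * L) := by ring
      have h16 : ρ * ((M : ℝ) * L) = ρ / 2 * (M * L) + ρ / 2 * (M * L) := by ring
      rw [h14, h15] at h11
      rw [h16]
      linarith) (by
      rw [hMLc]
      have h8 : ‖X w‖ - ‖X (w.take (M * L))‖ ≤ M + k := (norm_sub_norm_le _ _).trans hdiff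
      have h11 := mul_le_mul_of_nonneg_left hk2 (show (0 : ℝ) ≤ M by positivity)
      have h12 : 0 ≤ (s - e / 2) * M := mul_nonneg (by linarith) (by positivity)
      rw [hNML] at h1
      nlinarith) (fun i hi => h2' i (Finset.mem_range.2 hi))
  have h13 : (1 : ℝ) ≤ ∑ v ∈ (open Classical in A.filter fun v => s - e - ρ ≤ ‖v‖ ∧ ‖v‖ ≤ 1 + ρ),
        min (Real.exp (lam * (24 * s * e / ρ ^ 2) * M) *
            ∏ i ∈ range M, (ind (Bl X v (2 * ρ) (L + 1) (bk (L + 1) i w)) + Real.exp (-lam)))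
          (Real.exp (lam * (24 * s * e / ρ ^ 2) * M) *
            ∏ i ∈ range M, (ind (Bl X v (2 * ρ) L (bk L i (w.take (M * L)))) +
              Real.exp (-lam))) :=
    (le_min hone hone2).trans (Finset.single_le_sum (f := fun v => min
      (Real.exp (lam * (24 * s * e / ρ ^ 2) * M) *
            ∏ i ∈ range M, (ind (Bl X v (2 * ρ) (L + 1) (bk (L + 1) i w)) + Real.exp (-lam)))
          (Real.exp (lam * (24 * s * e / ρ ^ 2) * M) *
            ∏ i ∈ range M, (ind (Bl X v (2 * ρ) L (bk L i (w.take (M * L)))) +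
              Real.exp (-lam))))
      (fun v _ => hp0 v) (Finset.mem_filter.2 ⟨hvA, hvn, by linarith⟩))
  linarith

/-- the prefix of length `M L` of a word of length `M (L + 1)` -/
theorem pre_le (Y : Sys S V) (hK : ∀ n, Y.a n ≤ K) (f : List S → ℝ) (hf : ∀ w, 0 ≤ f w)
    (L M : ℕ) : (Y.E (M * (L + 1)) fun w => Y.sv w * f (w.take (M * L))) ≤
      K * Y.E (M * L) fun w => Y.sv w * f w := by
  have h1 := split2 Y (M * L) M (F := f) (G := fun _ => (1 : ℝ)) hf (fun _ => zero_le_one)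
  have h2 : (Y.E M fun v => Y.sv v * (1 : ℝ)) ≤ K := by
    have : (Y.E M fun v => Y.sv v * (1 : ℝ)) = Y.a M := by
      unfold Sys.a
      exact Y.E_congr fun w _ => mul_one _
    rw [this]
    exact hK M
  have h3 : 0 ≤ Y.E (M * L) fun w => Y.sv w * f w :=
    Y.E_nonneg' fun w => mul_nonneg (Y.sv_nonneg w) (hf w)
  rw [Nat.mul_succ]
  calc (Y.E (M * L + M) fun w => Y.sv w * f (w.take (M * L)))
      = Y.E (M * L + M) fun w => Y.sv w * (f (w.take (M * L)) * 1) :=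
        Y.E_congr fun w _ => by rw [mul_one]
    _ ≤ (Y.E (M * L) fun u => Y.sv u * f u) * (Y.E M fun v => Y.sv v * (1 : ℝ)) := h1
    _ ≤ (Y.E (M * L) fun u => Y.sv u * f u) * K := mul_le_mul_of_nonneg_left h2 h3
    _ = _ := mul_comm _ _

/-- a word whose tail is near some image of `v` is itself near this image -/
theorem tl_le (Y : Sys S V) (hX : Vx Y T X act k) {ρ : ℝ} (v : W) (L : ℕ)
    (h : 1 + (k : ℝ) + ‖v‖ ≤ ρ * L) (hρ : 0 ≤ ρ) :
    tl Y (fun w => ind (Tb T X v ρ L w)) L ≤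
      (Y.z * Fintype.card S)⁻¹ * tm Y T X v (2 * ρ) (L + 1) := by
  unfold tl tm
  have hz := Y.z_pos
  refine mul_le_mul_of_nonneg_left ?_ (by positivity)
  refine Y.E_mono fun w hw => mul_le_mul_of_nonneg_left (ind_mono ?_) (Y.sv_nonneg w)
  rintro ⟨σ, hσ, h1⟩
  refine ⟨σ, hσ, ?_⟩
  obtain ⟨a, u, rfl⟩ : ∃ a u, w = a :: u := by
    cases w with
    | nil => simp at hw
    | cons a u => exact ⟨a, u, rfl⟩
  rw [List.tail_cons] at h1
  unfold Bl at h1 ⊢
  have h2 := hX.add [σ a] (u.map σ)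
  have h3 := hX.le [σ a]
  rw [List.length_singleton, Nat.cast_one] at h3
  have h4 : (a :: u).map σ = [σ a] ++ u.map σ := by simp
  rw [h4]
  have h5 : X ([σ a] ++ u.map σ) - ((L + 1 : ℕ) : ℝ) • v =
      (X ([σ a] ++ u.map σ) - X [σ a] - X (u.map σ)) + X [σ a] +
        (X (u.map σ) - (L : ℝ) • v) - v := by
    push_cast
    rw [add_smul, one_smul]
    abel
  rw [h5]
  have h6 := norm_sub_le ((X ([σ a] ++ u.map σ) - X [σ a] - X (u.map σ)) + X [σ a] +
        (X (u.map σ) - (L : ℝ) • v)) v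
  have h7 := norm_add_le ((X ([σ a] ++ u.map σ) - X [σ a] - X (u.map σ)) + X [σ a])
    (X (u.map σ) - (L : ℝ) • v)
  have h8 := norm_add_le (X ([σ a] ++ u.map σ) - X [σ a] - X (u.map σ)) (X [σ a])
  push_cast
  nlinarith

theorem bm_mono (Y : Sys S V) {ρ : ℝ} (hρ : 0 ≤ ρ) (v : W) (L : ℕ) :
    bm Y X v ρ L ≤ bm Y X v (2 * ρ) L := by
  unfold bm
  refine Y.E_mono fun w _ => mul_le_mul_of_nonneg_left (ind_mono fun h => ?_) (Y.sv_nonneg w)
  unfold Bl at h ⊢
  have hL : (0 : ℝ) ≤ ρ * L := mul_nonneg hρ (Nat.cast_nonneg L)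
  linarith

private theorem pick2_pow {x θ : ℝ} (hx0 : 0 ≤ x) (hx : x < 1 - θ) (hθ : 0 < θ) (M : ℕ) :
    (x + θ / 4) ^ M ≤ Real.exp (-(3 * θ * M / 4)) := by
  calc (x + θ / 4) ^ M ≤ (Real.exp (-(3 * θ / 4))) ^ M := by
        apply pow_le_pow_left₀ (by positivity)
        have h9 := Real.add_one_le_exp (-(3 * θ / 4))
        linarith
    _ = Real.exp (-(3 * θ * M / 4)) := by rw [← Real.exp_nat_mul]; congr 1; ring

private theorem pick2_sum (Y : Sys S V) (hK : ∀ n, Y.a n ≤ K) (hX : Vx Y T X act k)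
    {s e ρ lam : ℝ} (he : 0 < e)
    (hes : 2 * e ≤ s) (heρ : 2 * e ≤ ρ) (hlam : 0 ≤ lam) (A : Finset W)
    (hA : ∀ x : W, ‖x‖ ≤ 1 → ∃ v ∈ A, ‖x - v‖ < ρ / 2) (L M : ℕ) (hL : 1 ≤ L) (hM : 1 ≤ M)
    (hk : (k : ℝ) ≤ e * L) (hk2 : 1 + (k : ℝ) ≤ e / 2 * L) (hk3 : 2 + (k : ℝ) + ρ ≤ ρ / 2 * L) :
    fm Y (fun w => ‖X w‖) (s - e / 2) (M * (L + 1)) ≤
      M * (K ^ 2 * fm Y (fun w => ‖X w‖) (s + e) (L + 1)) +
      K * (M * (K ^ 2 * fm Y (fun w => ‖X w‖) (s + e) L)) +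
      ∑ v ∈ (open Classical in A.filter fun v => s - e - ρ ≤ ‖v‖ ∧ ‖v‖ ≤ 1 + ρ),
        min (Real.exp (lam * (24 * s * e / ρ ^ 2) * M) * (Y.E (M * (L + 1)) fun w => Y.sv w *
            ∏ i ∈ range M, (ind (Bl X v (2 * ρ) (L + 1) (bk (L + 1) i w)) + Real.exp (-lam))))
          (Real.exp (lam * (24 * s * e / ρ ^ 2) * M) * (K * Y.E (M * L) fun w => Y.sv w *
            ∏ i ∈ range M, (ind (Bl X v (2 * ρ) L (bk L i w)) + Real.exp (-lam)))) := by
  have hbl : ∀ L' : ℕ, (Y.E (M * L') fun w => Y.sv w *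
      ∑ i ∈ range M, ind ((s + e) * L' ≤ ‖X (bk L' i w)‖)) ≤
      M * (K ^ 2 * fm Y (fun w => ‖X w‖) (s + e) L') := by
    intro L'
    have h3 : (Y.E (M * L') fun w => Y.sv w *
        ∑ i ∈ range M, ind ((s + e) * L' ≤ ‖X (bk L' i w)‖)) =
        ∑ i ∈ range M, Y.E (M * L') fun w => Y.sv w * ind ((s + e) * L' ≤ ‖X (bk L' i w)‖) := by
      rw [← Y.E_fsum]
      exact Y.E_congr fun w _ => Finset.mul_sum _ _ _
    rw [h3]
    have h4 : (∑ i ∈ range M, Y.E (M * L') fun w => Y.sv w *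
        ind ((s + e) * L' ≤ ‖X (bk L' i w)‖)) ≤
        ∑ i ∈ range M, K ^ 2 * fm Y (fun w => ‖X w‖) (s + e) L' :=
      Finset.sum_le_sum fun i hi => blk_one Y hK (fun v => ind ((s + e) * L' ≤ ‖X v‖))
        (fun _ => ind_nonneg _) (Finset.mem_range.1 hi)
    rw [Finset.sum_const, Finset.card_range, nsmul_eq_mul] at h4
    exact h4
  have h1 : fm Y (fun w => ‖X w‖) (s - e / 2) (M * (L + 1)) ≤
      (Y.E (M * (L + 1)) fun w => Y.sv w *
        ∑ i ∈ range M, ind ((s + e) * (L + 1 : ℕ) ≤ ‖X (bk (L + 1) i w)‖)) +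
      (Y.E (M * (L + 1)) fun w => Y.sv w *
        (fun u => ∑ i ∈ range M, ind ((s + e) * L ≤ ‖X (bk L i u)‖)) (w.take (M * L))) +
      (Y.E (M * (L + 1)) fun w => ∑ v ∈ (open Classical in A.filter fun v =>
          s - e - ρ ≤ ‖v‖ ∧ ‖v‖ ≤ 1 + ρ),
        Y.sv w * min (Real.exp (lam * (24 * s * e / ρ ^ 2) * M) *
            ∏ i ∈ range M, (ind (Bl X v (2 * ρ) (L + 1) (bk (L + 1) i w)) + Real.exp (-lam)))
          (Real.exp (lam * (24 * s * e / ρ ^ 2) * M) *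
            ∏ i ∈ range M, (ind (Bl X v (2 * ρ) L (bk L i (w.take (M * L)))) +
              Real.exp (-lam)))) := by
    unfold fm
    rw [← Y.E_fadd, ← Y.E_fadd]
    refine Y.E_mono fun w hw => ?_
    have h2 := mul_le_mul_of_nonneg_left
      (pow2 Y hX he hes heρ hlam A hA L M hL hM hk hk2 hk3 w hw) (Y.sv_nonneg w)
    refine h2.trans (le_of_eq ?_)
    rw [mul_add, mul_add]
    congr 1
    exact Finset.mul_sum _ _ _
  refine h1.trans (add_le_add (add_le_add ?_ ?_) ?_)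
  · exact hbl (L + 1)
  · refine (pre_le Y hK (fun u => ∑ i ∈ range M, ind ((s + e) * L ≤ ‖X (bk L i u)‖))
      (fun w => Finset.sum_nonneg fun _ _ => ind_nonneg _) L M).trans ?_
    exact mul_le_mul_of_nonneg_left (hbl L) ((Y.a_nonneg 0).trans (hK 0))
  · rw [Y.E_fsum]
    refine Finset.sum_le_sum fun v _ => le_min ?_ ?_
    · rw [← Y.E_mul_left]
      refine Y.E_mono fun w _ => ?_
      have h5 := mul_le_mul_of_nonneg_left (min_le_left
        (Real.exp (lam * (24 * s * e / ρ ^ 2) * M) *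
            ∏ i ∈ range M, (ind (Bl X v (2 * ρ) (L + 1) (bk (L + 1) i w)) + Real.exp (-lam)))
          (Real.exp (lam * (24 * s * e / ρ ^ 2) * M) *
            ∏ i ∈ range M, (ind (Bl X v (2 * ρ) L (bk L i (w.take (M * L)))) +
              Real.exp (-lam)))) (Y.sv_nonneg w)
      refine h5.trans (le_of_eq ?_)
      ring
    · have h6 := pre_le Y hK (fun u => ∏ i ∈ range M,
        (ind (Bl X v (2 * ρ) L (bk L i u)) + Real.exp (-lam)))
        (fun w => Finset.prod_nonneg fun _ _ => add_nonneg (ind_nonneg _) (Real.exp_pos _).le) L M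
      refine le_trans ?_ (mul_le_mul_of_nonneg_left h6 (Real.exp_pos _).le)
      rw [← Y.E_mul_left]
      refine Y.E_mono fun w _ => ?_
      have h5 := mul_le_mul_of_nonneg_left (min_le_right
        (Real.exp (lam * (24 * s * e / ρ ^ 2) * M) *
            ∏ i ∈ range M, (ind (Bl X v (2 * ρ) (L + 1) (bk (L + 1) i w)) + Real.exp (-lam)))
          (Real.exp (lam * (24 * s * e / ρ ^ 2) * M) *
            ∏ i ∈ range M, (ind (Bl X v (2 * ρ) L (bk L i (w.take (M * L)))) +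
              Real.exp (-lam)))) (Y.sv_nonneg w)
      refine h5.trans (le_of_eq ?_)
      ring

omit [Fintype S] in
private theorem pick2_C {y θ : ℝ} (hy : y ≤ θ / 8) (hθ1 : θ < 1) (M : ℕ) :
    Real.exp (y * (M + 1 : ℕ)) ≤ 2 * Real.exp (θ / 8 * M) := by
  have h11 : Real.exp (y * (M + 1 : ℕ)) ≤ Real.exp (θ / 8 * (M + 1 : ℕ)) :=
    Real.exp_le_exp.2 (mul_le_mul_of_nonneg_right hy (Nat.cast_nonneg _))
  have h12 : Real.exp (θ / 8 * (M + 1 : ℕ)) = Real.exp (θ / 8) * Real.exp (θ / 8 * M) := by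
    rw [← Real.exp_add]
    congr 1
    push_cast
    ring
  have h13 : Real.exp (θ / 8) ≤ 2 := by
    have h14 : Real.exp (θ / 8) ≤ Real.exp (1 / 2) := Real.exp_le_exp.2 (by linarith)
    have h15 : Real.exp (1 / 2) ≤ 2 := by
      have h16 := Real.exp_one_lt_d9
      have h17 : Real.exp (1 / 2) * Real.exp (1 / 2) = Real.exp 1 := by
        rw [← Real.exp_add]
        norm_num
      nlinarith [Real.exp_pos (1 / 2 : ℝ)]
    linarith
  rw [h12] at h11
  exact h11.trans (mul_le_mul_of_nonneg_right h13 (Real.exp_pos _).le)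

private theorem pick2_fin {θ : ℝ} (hθ : 0 < θ) (M : ℕ) :
    2 * Real.exp (θ / 8 * M) * (2 * K ^ 2 * Real.exp (-(3 * θ * M / 4))) ≤
      4 * K ^ 2 * Real.exp (-(θ * M / 2)) := by
  have h14 : 2 * Real.exp (θ / 8 * M) * (2 * K ^ 2 * Real.exp (-(3 * θ * M / 4))) =
      4 * K ^ 2 * Real.exp (-(5 * θ * M / 8)) := by
    have h15 : Real.exp (-(5 * θ * M / 8)) =
        Real.exp (θ / 8 * M) * Real.exp (-(3 * θ * M / 4)) := by
      rw [← Real.exp_add]
      congr 1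
      ring
    rw [h15]
    ring
  rw [h14]
  refine mul_le_mul_of_nonneg_left (Real.exp_le_exp.2 ?_) (by positivity)
  have h16 : 0 ≤ θ * M := by positivity
  linarith

private theorem pick2_M (_hK : 0 < K) {θ κ : ℝ} (hθ : 0 < θ) (hκ : 0 < κ) (m : ℕ) :
    ∃ M : ℕ, (m : ℝ) * (4 * K ^ 2 * Real.exp (-(θ * M / 2))) < κ / 4 := by
  have h2 : Tendsto (fun M : ℕ => (m : ℝ) * (4 * K ^ 2 * Real.exp (-(θ * M / 2))))
      atTop (𝓝 0) := by
    have h5 : Tendsto (fun M : ℕ => Real.exp (-(θ * M / 2))) atTop (𝓝 0) := by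
      apply Real.tendsto_exp_atBot.comp
      apply tendsto_neg_atTop_atBot.comp
      have h3 : Tendsto (fun M : ℕ => (θ / 2) * (M : ℝ)) atTop atTop :=
        tendsto_natCast_atTop_atTop.const_mul_atTop (by positivity)
      refine h3.congr fun M => by ring
    have h6 := (h5.const_mul (4 * K ^ 2)).const_mul (m : ℝ)
    rw [mul_zero, mul_zero] at h6
    exact h6
  exact (h2.eventually (gt_mem_nhds (show (0 : ℝ) < κ / 4 by positivity))).exists

private theorem pick2_lin {x : ℝ} (hx : 0 < x) (y : ℝ) : ∀ᶠ n : ℕ in atTop, y ≤ x * n := by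
  have h3 : Tendsto (fun n : ℕ => x * (n : ℝ)) atTop atTop :=
    tendsto_natCast_atTop_atTop.const_mul_atTop hx
  exact h3.eventually (eventually_ge_atTop y)

private theorem pick2_small (hK : 0 < K) {κ y : ℝ} (M : ℕ)
    (hy : y < κ / (4 * ((M + 1 : ℕ) * K ^ 3))) :
    K * (((M + 1 : ℕ) : ℝ) * (K ^ 2 * y)) < κ / 4 := by
  have hM1 : (0 : ℝ) < ((M + 1 : ℕ) : ℝ) := by exact_mod_cast Nat.succ_pos M
  have h6 : ((M + 1 : ℕ) : ℝ) * K ^ 3 * y <
      ((M + 1 : ℕ) : ℝ) * K ^ 3 * (κ / (4 * ((M + 1 : ℕ) * K ^ 3))) :=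
    mul_lt_mul_of_pos_left hy (by positivity)
  have h7 : ((M + 1 : ℕ) : ℝ) * K ^ 3 * (κ / (4 * ((M + 1 : ℕ) * K ^ 3))) = κ / 4 := by
    field_simp
  rw [h7] at h6
  calc K * (((M + 1 : ℕ) : ℝ) * (K ^ 2 * y)) = ((M + 1 : ℕ) : ℝ) * K ^ 3 * y := by ring
    _ < κ / 4 := h6

/-- the bound of the mass of the parents near `v` -/
private theorem pick2_P (Y : Sys S V) (h1 : ∀ n, 1 ≤ Y.a n) (hK : ∀ n, Y.a n ≤ K)
    (hG : Gr Y T c b) (hX : Vx Y T X act k) {r θ lam y : ℝ} (hr : 0 < r) (hθ : 0 < θ)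
    (hθ1 : θ < 1) (hlam : 0 ≤ lam) (hexp : K * Real.exp (-lam) = θ / 4) (hy : y ≤ θ / 8)
    (L M : ℕ) (hL : 1 ≤ L) (v : W) (hv : 1 + (k : ℝ) + ‖v‖ ≤ 2 * r * L)
    (hcon : ¬ (1 - θ ≤ bm Y X v (2 * (2 * r)) (L + 1) ∧
      1 - θ ≤ (Y.z * Fintype.card S)⁻¹ * tm Y T X v (2 * (2 * r)) (L + 1))) :
    min (Real.exp (y * (M + 1 : ℕ)) *
            (Y.E ((M + 1) * (L + 1)) fun w => Y.sv w * ∏ i ∈ range (M + 1),
              (ind (Bl X v (2 * r) (L + 1) (bk (L + 1) i w)) + Real.exp (-lam))))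
          (Real.exp (y * (M + 1 : ℕ)) *
            (K * Y.E ((M + 1) * L) fun w => Y.sv w *
            ∏ i ∈ range (M + 1), (ind (Bl X v (2 * r) L (bk L i w)) + Real.exp (-lam)))) ≤
        4 * K ^ 2 * Real.exp (-(θ * M / 2)) := by
  have hK1 : 1 ≤ K := (h1 0).trans (hK 0)
  have hK0 : 0 < K := lt_of_lt_of_le one_pos hK1
  have hC := pick2_C hy hθ1 M
  have hfin := pick2_fin (K := K) hθ M
  obtain ⟨hb1, -⟩ := two_bd Y hK hG hX (ρ := 2 * r) (lam := lam) (L + 1) (M + 1) (by omega) v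
  have hb2 := two_bd2 (X := X) Y h1 hK hG (ρ := 2 * r) hlam L M hL v
  rw [hexp] at hb1 hb2
  have hbm0 : 0 ≤ bm Y X v (2 * r) (L + 1) :=
    Y.E_nonneg' fun w => mul_nonneg (Y.sv_nonneg w) (ind_nonneg _)
  have htl0 : 0 ≤ tl Y (fun w => ind (Tb T X v (2 * r) L w)) L :=
    tl_nonneg Y (fun w => ind_nonneg _) L
  have he8 : 0 < Real.exp (-(3 * θ * M / 4)) := Real.exp_pos _
  by_cases hc1 : bm Y X v (2 * r) (L + 1) < 1 - θ
  · refine (min_le_left _ _).trans (le_trans ?_ hfin)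
    have h8 := hb1.trans (pick2_pow hbm0 hc1 hθ (M + 1))
    have h9 : Real.exp (-(3 * θ * (M + 1 : ℕ) / 4)) ≤ Real.exp (-(3 * θ * M / 4)) := by
      apply Real.exp_le_exp.2
      push_cast
      linarith
    have h10 : Real.exp (-(3 * θ * M / 4)) ≤ 2 * K ^ 2 * Real.exp (-(3 * θ * M / 4)) := by
      have h11 : 1 ≤ K ^ 2 := one_le_pow₀ hK1
      exact le_mul_of_one_le_left he8.le (by linarith)
    exact mul_le_mul hC (h8.trans (h9.trans h10))
      (Y.E_nonneg' fun w => mul_nonneg (Y.sv_nonneg w)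
        (Finset.prod_nonneg fun _ _ => add_nonneg (ind_nonneg _) (Real.exp_pos _).le))
      (by positivity)
  · have hc2 : tl Y (fun w => ind (Tb T X v (2 * r) L w)) L < 1 - θ := by
      by_contra hc3
      refine hcon ⟨?_, ?_⟩
      · exact (not_lt.1 hc1).trans (bm_mono Y (by positivity) v (L + 1))
      · exact (not_lt.1 hc3).trans (tl_le Y hX v L hv (by positivity))
    refine (min_le_right _ _).trans (le_trans ?_ hfin)
    have h8 := mul_le_mul_of_nonneg_left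
      (pick2_pow htl0 hc2 hθ M) (show (0 : ℝ) ≤ 2 * K by positivity)
    have h9 : K * (Y.E ((M + 1) * L) fun w => Y.sv w *
        ∏ i ∈ range (M + 1), (ind (Bl X v (2 * r) L (bk L i w)) + Real.exp (-lam))) ≤
        2 * K ^ 2 * Real.exp (-(3 * θ * M / 4)) := by
      refine (mul_le_mul_of_nonneg_left (hb2.trans h8) hK0.le).trans (le_of_eq ?_)
      ring
    exact mul_le_mul hC h9
      (mul_nonneg hK0.le (Y.E_nonneg' fun w => mul_nonneg (Y.sv_nonneg w)
        (Finset.prod_nonneg fun _ _ => add_nonneg (ind_nonneg _) (Real.exp_pos _).le)))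
      (by positivity)

/-- at every large length one class has mass `1` and its saturation mass `z |S|` -/
theorem pick2 [ProperSpace W] (Y : Sys S V) (h1 : ∀ n, 1 ≤ Y.a n) (hK : ∀ n, Y.a n ≤ K)
    (hG : Gr Y T c b) (hX : Vx Y T X act k) {s ρ θ : ℝ} (hs : 0 < s) (hρ : 0 < ρ) (hθ : 0 < θ)
    (hθ1 : θ < 1)
    (hlow : ∀ e : ℝ, 0 < e → ∃ κ' : ℝ, 0 < κ' ∧
      ∀ᶠ n : ℕ in atTop, κ' ≤ fm Y (fun w => ‖X w‖) (s - e) n)
    (hup : ∀ e : ℝ, 0 < e → ∀ x : ℝ, 0 < x →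
      ∀ᶠ n : ℕ in atTop, fm Y (fun w => ‖X w‖) (s + e) n < x) :
    ∀ᶠ n : ℕ in atTop, ∃ v : W, s - 2 * ρ ≤ ‖v‖ ∧ 1 - θ ≤ bm Y X v (2 * ρ) n ∧
      1 - θ ≤ (Y.z * Fintype.card S)⁻¹ * tm Y T X v (2 * ρ) n := by
  obtain ⟨r, rfl⟩ : ∃ r, ρ = 2 * r := ⟨ρ / 2, by ring⟩
  have hr : 0 < r := by linarith
  have hK1 : 1 ≤ K := (h1 0).trans (hK 0)
  have hK0 : 0 < K := lt_of_lt_of_le one_pos hK1
  obtain ⟨lam, hlam⟩ : ∃ lam : ℝ, lam = Real.log (4 * K / θ) := ⟨_, rfl⟩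
  have hq : 1 < 4 * K / θ := by
    rw [lt_div_iff₀ hθ]; linarith
  have hlam0 : 0 < lam := by rw [hlam]; exact Real.log_pos hq
  have hexp : K * Real.exp (-lam) = θ / 4 := by
    rw [Real.exp_neg, hlam, Real.exp_log (by positivity)]
    field_simp
  obtain ⟨e, he⟩ : ∃ e : ℝ, e = min (s / 2) (min (r / 2) (θ * r ^ 2 / (192 * lam * s))) := ⟨_, rfl⟩
  have he0 : 0 < e := by
    rw [he]
    exact lt_min (by positivity) (lt_min (by positivity) (by positivity))
  have he1 : e ≤ s / 2 := by rw [he]; exact min_le_left _ _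
  have he2 : e ≤ r / 2 := by rw [he]; exact (min_le_right _ _).trans (min_le_left _ _)
  have he3 : e ≤ θ * r ^ 2 / (192 * lam * s) := by
    rw [he]; exact (min_le_right _ _).trans (min_le_right _ _)
  have hle : lam * (24 * s * e / r ^ 2) ≤ θ / 8 := by
    have h2 : lam * (24 * s * e / r ^ 2) ≤
        lam * (24 * s * (θ * r ^ 2 / (192 * lam * s)) / r ^ 2) := by
      gcongr
    have h3 : lam * (24 * s * (θ * r ^ 2 / (192 * lam * s)) / r ^ 2) = θ / 8 := by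
      field_simp
      norm_num
    linarith
  obtain ⟨A, hA⟩ := cover (W := W) (show 0 < r / 2 by positivity)
  obtain ⟨κ, hκ, hlowκ⟩ := hlow (e / 2) (by positivity)
  obtain ⟨M, hM⟩ := pick2_M hK0 hθ hκ A.card
  have hM0 : (0 : ℝ) ≤ M := Nat.cast_nonneg M
  have hM1 : (0 : ℝ) < ((M + 1 : ℕ) : ℝ) := by exact_mod_cast Nat.succ_pos M
  have hmul : Tendsto (fun L : ℕ => (M + 1) * (L + 1)) atTop atTop :=
    (tendsto_add_atTop_nat 1).const_mul_atTop' (Nat.succ_pos M)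
  have hsm := hup e he0 (κ / (4 * ((M + 1 : ℕ) * K ^ 3))) (by positivity)
  have hmain : ∀ᶠ L : ℕ in atTop, ∃ v : W, s - 2 * (2 * r) ≤ ‖v‖ ∧
      1 - θ ≤ bm Y X v (2 * (2 * r)) (L + 1) ∧
      1 - θ ≤ (Y.z * Fintype.card S)⁻¹ * tm Y T X v (2 * (2 * r)) (L + 1) := by
    filter_upwards [hmul.eventually hlowκ, hsm, (tendsto_add_atTop_nat 1).eventually hsm,
      pick2_lin he0 k, pick2_lin (half_pos he0) (1 + k), pick2_lin (half_pos hr) (2 + k + r),
      pick2_lin (show 0 < 2 * r by positivity) (1 + k + (1 + r)), eventually_ge_atTop 1]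
      with L hd hs1 hs2 hl1 hl2 hl3 hl4 hL
    by_contra hcon
    have hm := pick2_sum Y hK hX (s := s) (e := e) (ρ := r) (lam := lam) he0 (by linarith)
      (by linarith) hlam0.le A hA L (M + 1) hL (Nat.succ_pos M) hl1 hl2 hl3
    have hfm : ∀ n, 0 ≤ fm Y (fun w => ‖X w‖) (s + e) n := fun n =>
      Y.E_nonneg' fun w => mul_nonneg (Y.sv_nonneg w) (ind_nonneg _)
    have h51 := pick2_small hK0 M hs1
    have h52 := pick2_small hK0 M hs2
    have h53 : ((M + 1 : ℕ) : ℝ) * (K ^ 2 * fm Y (fun w => ‖X w‖) (s + e) (L + 1)) ≤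
        K * (((M + 1 : ℕ) : ℝ) * (K ^ 2 * fm Y (fun w => ‖X w‖) (s + e) (L + 1))) :=
      le_mul_of_one_le_left (mul_nonneg hM1.le (mul_nonneg (by positivity) (hfm _))) hK1
    have hP : ∀ v : W, s - e - r ≤ ‖v‖ ∧ ‖v‖ ≤ 1 + r →
        min (Real.exp (lam * (24 * s * e / r ^ 2) * (M + 1 : ℕ)) *
            (Y.E ((M + 1) * (L + 1)) fun w => Y.sv w * ∏ i ∈ range (M + 1),
              (ind (Bl X v (2 * r) (L + 1) (bk (L + 1) i w)) + Real.exp (-lam))))
          (Real.exp (lam * (24 * s * e / r ^ 2) * (M + 1 : ℕ)) *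
            (K * Y.E ((M + 1) * L) fun w => Y.sv w *
            ∏ i ∈ range (M + 1), (ind (Bl X v (2 * r) L (bk L i w)) + Real.exp (-lam)))) ≤
        4 * K ^ 2 * Real.exp (-(θ * M / 2)) := by
      rintro v ⟨hv, hv2⟩
      exact pick2_P Y h1 hK hG hX hr hθ hθ1 hlam0.le hexp hle L M hL v (by linarith)
        fun h => hcon ⟨v, by linarith, h.1, h.2⟩
    have h21 := Finset.sum_le_sum (s := (open Classical in A.filter fun v =>
      s - e - r ≤ ‖v‖ ∧ ‖v‖ ≤ 1 + r)) fun v hv => hP v (Finset.mem_filter.1 hv).2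
    rw [Finset.sum_const, nsmul_eq_mul] at h21
    have h22 : (((open Classical in A.filter fun v =>
        s - e - r ≤ ‖v‖ ∧ ‖v‖ ≤ 1 + r).card : ℕ) : ℝ) * (4 * K ^ 2 * Real.exp (-(θ * M / 2))) ≤
        (A.card : ℝ) * (4 * K ^ 2 * Real.exp (-(θ * M / 2))) := by
      refine mul_le_mul_of_nonneg_right ?_ (by positivity)
      exact_mod_cast Finset.card_filter_le _ _
    linarith
  obtain ⟨N, hN⟩ := eventually_atTop.1 hmain
  filter_upwards [eventually_ge_atTop (N + 1)] with n hn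
  obtain ⟨L, rfl⟩ : ∃ L, n = L + 1 := ⟨n - 1, by omega⟩
  exact hN L (by omega)

/-- the typed classes weigh `2 z |S|` -/
theorem arr7 [ProperSpace W] (Y : Sys S V) (h1 : ∀ n, 1 ≤ Y.a n) (hK : ∀ n, Y.a n ≤ K)
    (hG : Gr Y T c b) (hX : Vx Y T X act k) (hz : Y.z * Fintype.card S ≤ 2) {δ κ : ℝ}
    (hδ : 0 < δ) (hκ : 0 < κ)
    (hf : ∃ᶠ n : ℕ in atTop, κ ≤ fm Y (fun w => ‖X w‖) δ n) :
    ∃ t : ℝ, 0 < t ∧ ∀ θ : ℝ, 0 < θ → ∀ᶠ n : ℕ in atTop,
      2 * (Y.z * Fintype.card S) * (1 - θ) ≤ fm Y (fun w => ‖X w‖) t n := by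
  obtain ⟨s, hs, -, hsE⟩ := top Y h1 hK (norm_sb Y hX) hδ hκ hf
  have hs0 : 0 < s := hδ.trans_le hs
  have hzc := one_le_zc Y h1
  have hz0 : 0 < Y.z * Fintype.card S := by linarith
  refine ⟨s / 2, by positivity, fun θ hθ => ?_⟩
  rcases le_or_gt 1 θ with hθ1 | hθ1
  · refine Filter.Eventually.of_forall fun n => ?_
    have h2 : 2 * (Y.z * Fintype.card S) * (1 - θ) ≤ 0 :=
      mul_nonpos_of_nonneg_of_nonpos (by positivity) (by linarith)
    exact h2.trans (Y.E_nonneg' fun w => mul_nonneg (Y.sv_nonneg w) (ind_nonneg _))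
  · have hρ : 0 < s / 100 := by positivity
    have hp := pick2 Y h1 hK hG hX hs0 hρ hθ hθ1 (fun e he => (hsE e he).1)
      (fun e he => (hsE e he).2)
    filter_upwards [hp, eventually_ge_atTop 1] with L hL hL1
    obtain ⟨v, hv, hb, ht⟩ := hL
    have h6 : 0 ≤ 1 - θ := by linarith
    by_cases hall : ∀ σ ∈ T, ‖act σ v - v‖ < 4 * (s / 100) ∨ ‖act σ v + v‖ < 4 * (s / 100)
    · have hg := grp Y hG hX v (by linarith) hall
      have h3 := typed2 Y hG hX hρ v (by linarith) (t := s / 2) (by linarith) hg L hL1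
      refine le_trans ?_ h3
      rw [le_inv_mul_iff₀ hz0] at ht
      linarith
    · push Not at hall
      obtain ⟨σ, hσ, h4, h5⟩ := hall
      have h3 := typed4 Y hG hX hρ v (by linarith) (t := s / 2) (by linarith) hσ h4 h5 L hL1
      refine le_trans ?_ h3
      calc 2 * (Y.z * Fintype.card S) * (1 - θ) ≤ 4 * (1 - θ) :=
            mul_le_mul_of_nonneg_right (by linarith) h6
        _ ≤ 4 * bm Y X v (2 * (s / 100)) L := by linarith

end vec

section lattice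

open Pool.Agent.SubBall (St Vt stv)

theorem mu_card (m : ℕ) : (Fintype.card (St m) : ℝ) = 2 * (m + 2) := by
  have : Fintype.card (St m) = (m + 2) * 2 := by
    simp [Pool.Agent.SubBall.St]
  rw [this]
  push_cast
  ring

private theorem mu_sum {m : ℕ} {μ : ℝ} (hμ : 0 < μ) (w : List (St m))
    (hw : ∀ s ∈ w, s.2 = true) : ∑ i, (lat m hμ).sm w i = w.length := by
  induction w with
  | nil => simp
  | cons s w ih =>
    rw [Sys.sm_cons]
    have h1 : ∑ i, ((lat m hμ).vec s + (lat m hμ).sm w) i =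
        ∑ i, (lat m hμ).vec s i + ∑ i, (lat m hμ).sm w i := by
      rw [← Finset.sum_add_distrib]
      rfl
    rw [h1, ih fun x hx => hw x (List.mem_cons_of_mem _ hx)]
    have h2 : ∑ i, (lat m hμ).vec s i = 1 := by
      show ∑ i, stv m s i = 1
      unfold stv
      rw [if_pos (hw s List.mem_cons_self)]
      simp
    rw [h2, List.length_cons]
    push_cast
    ring

private theorem mu_saw {m : ℕ} {μ : ℝ} (hμ : 0 < μ) (w : List (St m))
    (hw : ∀ s ∈ w, s.2 = true) : (lat m hμ).Saw w := by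
  intro b hb hb0 h
  have h1 := mu_sum hμ b fun s hs => hw s (hb.subset hs)
  rw [h] at h1
  have h2 : b.length ≠ 0 := fun h3 => hb0 (List.length_eq_zero_iff.1 h3)
  have h3 : ∑ i, (0 : Vt m) i = 0 := by simp
  rw [h3] at h1
  exact h2 (by exact_mod_cast h1.symm)

private theorem mu_E {m : ℕ} {μ : ℝ} (hμ : 0 < μ) (n : ℕ) :
    ((lat m hμ).E n fun w => ind (∀ s ∈ w, s.2 = true)) = ((lat m hμ).z * (m + 2)) ^ n := by
  induction n with
  | zero =>
    rw [pow_zero]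
    show ind (∀ s ∈ ([] : List (St m)), s.2 = true) = 1
    exact ind_of (by simp)
  | succ n ih =>
    rw [(lat m hμ).E_succ]
    have h1 : ∀ s : St m, ((lat m hμ).E n fun w => ind (∀ x ∈ s :: w, x.2 = true)) =
        if s.2 = true then ((lat m hμ).z * (m + 2)) ^ n else 0 := by
      intro s
      by_cases hs : s.2 = true
      · rw [if_pos hs, ← ih]
        refine (lat m hμ).E_congr fun w _ => ?_
        refine ind_congr ?_
        rw [List.forall_mem_cons]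
        exact ⟨fun h => h.2, fun h => ⟨hs, h⟩⟩
      · rw [if_neg hs]
        have h2 : ((lat m hμ).E n fun w => ind (∀ x ∈ s :: w, x.2 = true)) =
            (lat m hμ).E n fun _ => 0 * (0 : ℝ) := by
          refine (lat m hμ).E_congr fun w _ => ?_
          rw [ind_not, zero_mul]
          rw [List.forall_mem_cons]
          exact fun h => hs h.1
        rw [h2, (lat m hμ).E_mul_left, zero_mul]
    rw [Finset.sum_congr rfl fun s _ => h1 s]
    have h3 : (∑ s : St m, if s.2 = true then ((lat m hμ).z * (m + 2)) ^ n else 0) =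
        (m + 2) * ((lat m hμ).z * (m + 2)) ^ n := by
      show (∑ s : Fin (m + 2) × Bool, if s.2 = true then ((lat m hμ).z * (m + 2)) ^ n else 0) = _
      rw [Fintype.sum_prod_type]
      simp
    rw [h3, pow_succ]
    ring

/-- the directed words: `d ≤ μ` -/
theorem mu_z {m : ℕ} {μ : ℝ} (hμ : 0 < μ) (hK : ∀ n, (lat m hμ).a n ≤ K) :
    (lat m hμ).z * Fintype.card (St m) ≤ 2 := by
  have h1 : ∀ n, ((lat m hμ).z * (m + 2)) ^ n ≤ K := by
    intro n
    rw [← mu_E hμ n]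
    refine le_trans ((lat m hμ).E_mono fun w _ => ?_) (hK n)
    by_cases h : ∀ s ∈ w, s.2 = true
    · rw [ind_of h, (lat m hμ).sv_of (mu_saw hμ w h)]
    · rw [ind_not h]
      exact (lat m hμ).sv_nonneg w
  have h2 : (lat m hμ).z * (m + 2) ≤ 1 := by
    by_contra hcon
    rw [not_le] at hcon
    obtain ⟨n, hn⟩ := pow_unbounded_of_one_lt K hcon
    exact absurd (h1 n) (not_le.2 hn)
  rw [mu_card]
  linarith

theorem mu_zc (m : ℕ) {μ : ℝ} (hμ : 0 < μ) :
    (lat m hμ).z * Fintype.card (St m) = 2 * (m + 2) / μ := by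
  have h1 : (lat m hμ).z = μ⁻¹ := rfl
  rw [h1, mu_card]
  field_simp

/-- the typed words of a lattice with a transitive group -/
private theorem arrows_gen {m : ℕ} {μ : ℝ} (hμ : 0 < μ) (h1 : ∀ n, 1 ≤ (lat m hμ).a n)
    (hK : ∀ n, (lat m hμ).a n ≤ K) (hno : ¬ NoArr (lat m hμ))
    (hgr : ∃ (T : Subgroup (Equiv.Perm (St m))) (c b : Equiv.Perm (St m)), Gr (lat m hμ) T c b) :
    ∃ (k : ℕ) (t : ℝ), 0 < t ∧ ∀ θ : ℝ, 0 < θ →
      ∀ᶠ n : ℕ in atTop, 2 * (2 * (m + 2) / μ) * (1 - θ) ≤ ty (lat m hμ) k t n := by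
  unfold NoArr at hno
  push Not at hno
  obtain ⟨k, δ, hδ, n0, hn0⟩ := hno
  obtain ⟨T, c, b, hG⟩ := hgr
  have hX := XV_vx (lat m hμ) k T hG.sy
  have hne : Nonempty (Fin k → St m) := ⟨fun _ => (0, true)⟩
  have hcard : (0 : ℝ) < Fintype.card (Fin k → St m) :=
    Nat.cast_pos.2 Fintype.card_pos
  have hf : ∃ᶠ n : ℕ in atTop, δ ≤ fm (lat m hμ) (fun w => ‖XV (lat m hμ) k w‖)
      (δ / Fintype.card (Fin k → St m)) n := by
    refine (eventually_atTop.2 ⟨n0, fun n hn => ?_⟩).frequently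
    exact (hn0 n hn).le.trans (XV_ty (lat m hμ) k n).2
  obtain ⟨t, ht, h⟩ := arr7 (lat m hμ) h1 hK hG hX (mu_z hμ hK) (div_pos hδ hcard) hδ hf
  refine ⟨k, t, ht, fun θ hθ => ?_⟩
  filter_upwards [h θ hθ] with n hn
  rw [mu_zc] at hn
  exact hn.trans (XV_ty (lat m hμ) k n).1

/-- `ℤ³`: the typed words weigh `12 / μ` -/
theorem arrows_mu {μ : ℝ} (hμ : 0 < μ) (h1 : ∀ n, 1 ≤ (lat 1 hμ).a n)
    (hK : ∀ n, (lat 1 hμ).a n ≤ K) (hno : ¬ NoArr (lat 1 hμ)) :
    ∃ (k : ℕ) (t : ℝ), 0 < t ∧ ∀ θ : ℝ, 0 < θ →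
      ∀ᶠ n : ℕ in atTop, 12 / μ * (1 - θ) ≤ ty (lat 1 hμ) k t n := by
  obtain ⟨k, t, ht, h⟩ := arrows_gen hμ h1 hK hno (lat_gr hμ)
  refine ⟨k, t, ht, fun θ hθ => ?_⟩
  filter_upwards [h θ hθ] with n hn
  have h2 : 2 * (2 * (((1 : ℕ) : ℝ) + 2) / μ) = 12 / μ := by
    push_cast
    ring
  rw [h2] at hn
  exact hn

/-- `ℤ⁴`: the typed words weigh `16 / μ` -/
theorem arrows4_mu {μ : ℝ} (hμ : 0 < μ) (h1 : ∀ n, 1 ≤ (lat 2 hμ).a n)
    (hK : ∀ n, (lat 2 hμ).a n ≤ K) (hno : ¬ NoArr (lat 2 hμ)) :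
    ∃ (k : ℕ) (t : ℝ), 0 < t ∧ ∀ θ : ℝ, 0 < θ →
      ∀ᶠ n : ℕ in atTop, 16 / μ * (1 - θ) ≤ ty (lat 2 hμ) k t n := by
  obtain ⟨k, t, ht, h⟩ := arrows_gen hμ h1 hK hno (lat_gr4 hμ)
  refine ⟨k, t, ht, fun θ hθ => ?_⟩
  filter_upwards [h θ hθ] with n hn
  have h2 : 2 * (2 * (((2 : ℕ) : ℝ) + 2) / μ) = 16 / μ := by
    push_cast
    ring
  rw [h2] at hn
  exact hn

end lattice

section neutral

private theorem mu_Nt (Y : Sys S V) (T : Subgroup (Equiv.Perm S)) (hT : ∀ σ ∈ T, Sy Y σ) (k : ℕ)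
    (δ : ℝ) {σ : Equiv.Perm S} (hσ : σ ∈ T) (w : List S) :
    Nt Y k δ (w.map σ) ↔ Nt Y k δ w := by
  unfold Nt
  rw [List.length_map]
  constructor
  · intro h γ hγ
    have h1 := h (γ.map σ) (by rw [List.length_map, hγ])
    rwa [Xg_map Y (hT σ hσ)] at h1
  · intro h γ hγ
    have e : (γ.map (σ⁻¹ : Equiv.Perm S)).map σ = γ := by
      rw [List.map_map]
      have e2 : (σ : S → S) ∘ (σ⁻¹ : Equiv.Perm S) = id := by
        funext x
        simp
      rw [e2, List.map_id]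
    have h1 := h (γ.map (σ⁻¹ : Equiv.Perm S)) (by rw [List.length_map, hγ])
    rw [← Xg_map Y (hT σ hσ), e] at h1
    exact h1

/-- the junction inequality for the neutral words -/
theorem JG_mu (Y : Sys S V) (hK : ∀ n, Y.a n ≤ K) (T : Subgroup (Equiv.Perm S))
    (hT : ∀ σ ∈ T, Sy Y σ) (htr : ∀ x y : S, ∃ σ ∈ T, σ x = y) (k : ℕ) (δ : ℝ) :
    JG Y k δ K fun L => tl Y (fun w => ind (Nt Y k δ w)) L := by
  intro L M hL hM
  have h0 := tl_nonneg Y (φ := fun w => ind (Nt Y k δ w)) (fun _ => ind_nonneg _) L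
  refine ⟨h0, ?_⟩
  obtain ⟨M', rfl⟩ : ∃ M', M = M' + 1 := ⟨M - 1, by omega⟩
  rw [Nat.add_sub_cancel]
  refine (blk_prod2 Y T hT htr (fun w => ind (Nt Y k δ w)) (fun _ => ind_nonneg _)
    (fun σ hσ w => by rw [ind_congr (mu_Nt Y T hT k δ hσ w)]) L M' hL).trans ?_
  refine mul_le_mul_of_nonneg_right ?_ (pow_nonneg h0 M')
  exact (nm_le_a Y k δ L).trans (hK L)

/-- a word with a neutral tail is neutral -/
theorem nm_tl (Y : Sys S V) (k : ℕ) {δ : ℝ} (hδ : 0 ≤ δ) (L : ℕ) (h : 1 + (k : ℝ) ≤ δ * L) :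
    tl Y (fun w => ind (Nt Y k δ w)) L ≤
      (Y.z * Fintype.card S)⁻¹ * nm Y k (2 * δ) (L + 1) := by
  unfold tl nm
  have hz := Y.z_pos
  refine mul_le_mul_of_nonneg_left ?_ (by positivity)
  refine Y.E_mono fun w hw => mul_le_mul_of_nonneg_left (ind_mono ?_) (Y.sv_nonneg w)
  intro h1 γ hγ
  obtain ⟨a, u, rfl⟩ : ∃ a u, w = a :: u := by
    cases w with
    | nil => simp at hw
    | cons a u => exact ⟨a, u, rfl⟩
  rw [List.tail_cons] at h1
  have h2 := h1 γ hγ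
  have h3 := Xg_append Y γ [a] u
  have h4 := Xg_le Y γ [a]
  have h5 : ((u.length : ℕ) : ℝ) = L := by
    rw [List.length_cons] at hw
    exact_mod_cast (Nat.succ_injective hw)
  have h6 : [a] ++ u = a :: u := rfl
  rw [h6, hγ] at h3
  rw [List.length_singleton, Nat.cast_one] at h4
  rw [h5] at h2
  rw [List.length_cons, Nat.cast_add, Nat.cast_one, h5]
  rw [abs_le] at h2 h3 h4 ⊢
  have h7 : 0 ≤ δ * L := mul_nonneg hδ (Nat.cast_nonneg L)
  constructor <;> nlinarith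

open Classical in
/-- `ℤ³`: the neutral words weigh `6 / μ` at every length of most octaves -/
theorem neu_most_mu {μ : ℝ} (hμ : 0 < μ) (h1 : ∀ n, 1 ≤ (lat 1 hμ).a n)
    (hK : ∀ n, (lat 1 hμ).a n ≤ K) (k : ℕ) {δ η : ℝ} (hδ : 0 < δ) (hη : 0 < η) :
    ∀ᶠ J : ℕ in atTop, (((range J).filter fun j => ∃ n : ℕ, 2 ^ j ≤ n ∧ n < 2 ^ (j + 1) ∧
      nm (lat 1 hμ) k δ n < 6 / μ - η).card : ℝ) ≤ η * J := by
  have hK1 : 1 ≤ K := (h1 0).trans (hK 0)
  obtain ⟨T, c, b, hG⟩ := lat_gr hμ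
  have hq : ((lat 1 hμ).z * Fintype.card (Pool.Agent.SubBall.St 1))⁻¹ = μ / 6 := by
    rw [mu_zc]
    push_cast
    rw [inv_div]
    ring
  have h2 := most_G hμ h1 hK k (δ := δ / 2) (θ := μ / 6 * η) (ε := η / 4) (by positivity)
    (by positivity) (by positivity) (by linarith) (JG_mu (lat 1 hμ) hK T hG.sy hG.tr k (δ / 2))
  obtain ⟨n0, hn0⟩ := exists_nat_ge ((1 + (k : ℝ)) / (δ / 2))
  obtain ⟨J1, hJ1⟩ := exists_nat_ge (((n0 : ℝ) + 1) / (η / 2))
  filter_upwards [h2, eventually_ge_atTop J1] with J hJ hJJ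
  set G : ℕ → ℝ := fun L => tl (lat 1 hμ) (fun w => ind (Nt (lat 1 hμ) k (δ / 2) w)) L with hGd
  set B : Finset ℕ := (range J).filter (BadO G (μ / 6 * η)) with hB
  have hsub : ((range J).filter fun j => ∃ n : ℕ, 2 ^ j ≤ n ∧ n < 2 ^ (j + 1) ∧
      nm (lat 1 hμ) k δ n < 6 / μ - η) ⊆ range (n0 + 1) ∪ (B ∪ B.image (· + 1)) := by
    intro j hj
    rw [Finset.mem_filter, Finset.mem_range] at hj
    obtain ⟨hjJ, n, hn1, hn2, hn3⟩ := hj
    rw [Finset.mem_union, Finset.mem_range]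
    by_cases hjn : j < n0 + 1
    · exact Or.inl hjn
    right
    have hp : j < 2 ^ j := Nat.lt_two_pow_self
    obtain ⟨L, rfl⟩ : ∃ L, n = L + 1 := ⟨n - 1, by omega⟩
    have hL : n0 ≤ L := by omega
    have h3 : G L < 1 - μ / 6 * η := by
      have h4 := nm_tl (lat 1 hμ) k (δ := δ / 2) (by positivity) L (by
        have h5 : (1 + (k : ℝ)) / (δ / 2) ≤ L := hn0.trans (by exact_mod_cast hL)
        rw [div_le_iff₀ (by positivity)] at h5
        linarith)
      have h6 : 2 * (δ / 2) = δ := by ring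
      rw [hq, h6] at h4
      have h7 := mul_lt_mul_of_pos_left hn3 (show 0 < μ / 6 by positivity)
      have h8 : μ / 6 * (6 / μ - η) = 1 - μ / 6 * η := by
        field_simp
      rw [h8] at h7
      exact lt_of_le_of_lt h4 h7
    rw [Finset.mem_union, Finset.mem_image]
    by_cases hLj : 2 ^ j ≤ L
    · left
      rw [hB, Finset.mem_filter, Finset.mem_range]
      exact ⟨hjJ, L, hLj, by omega, h3⟩
    · right
      obtain ⟨i, rfl⟩ : ∃ i, j = i + 1 := ⟨j - 1, by omega⟩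
      refine ⟨i, ?_, rfl⟩
      rw [hB, Finset.mem_filter, Finset.mem_range]
      refine ⟨by omega, L, ?_, by omega, h3⟩
      have h9 : 2 ^ (i + 1) = 2 * 2 ^ i := by rw [pow_succ, mul_comm]
      have h10 : 1 ≤ 2 ^ i := Nat.one_le_two_pow
      omega
  have h3 : (((range J).filter fun j => ∃ n : ℕ, 2 ^ j ≤ n ∧ n < 2 ^ (j + 1) ∧
      nm (lat 1 hμ) k δ n < 6 / μ - η).card : ℝ) ≤ ((n0 : ℝ) + 1) + 2 * B.card := by
    have h4 := (Finset.card_le_card hsub).trans (Finset.card_union_le _ _)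
    have h5 := Finset.card_union_le B (B.image (· + 1))
    have h6 : (B.image (· + 1)).card ≤ B.card := Finset.card_image_le
    rw [Finset.card_range] at h4
    have h7 : ((range J).filter fun j => ∃ n : ℕ, 2 ^ j ≤ n ∧ n < 2 ^ (j + 1) ∧
      nm (lat 1 hμ) k δ n < 6 / μ - η).card ≤ (n0 + 1) + 2 * B.card := by omega
    exact_mod_cast h7
  have h4 : (B.card : ℝ) ≤ η / 4 * J := hJ
  have h5 : ((n0 : ℝ) + 1) ≤ η / 2 * J := by
    have h6 : (((n0 : ℝ) + 1) / (η / 2)) ≤ J := hJ1.trans (by exact_mod_cast hJJ)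
    rw [div_le_iff₀ (by positivity)] at h6
    linarith
  linarith

end neutral

end Pool.Agent.Am3
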