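import Pool.Agent.Trp.Lat
import Pool.Agent.Am3.Arr

/-!
# The neutral class has full mass at infinitely many octaves
-/

set_option autoImplicit false

namespace Pool.Agent.Am3

open Finset Filter Topology Pool.Agent.Bub4 Pool.Agent.SawM2 Pool.Agent.SawDiff Pool.Agent.Taw
  Pool.Agent.Trp
open Pool.Agent.SawNice (pa fu)

variable {S V : Type} [Fintype S] [AddCommGroup V] {K : ℝ}

-- BEGIN neu_word
private theorem neu_word_pt {lam D : ℝ} (hlam0 : 0 ≤ lam) (n : ℕ) (P : ℕ → Prop) :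
    ind (∃ A ⊆ range n, (n : ℝ) - D ≤ A.card ∧ ∀ i ∈ A, P i) ≤
      Real.exp (lam * D) * ∏ i ∈ range n, (ind (P i) + Real.exp (-lam)) := by
  classical
  have hf0 : ∀ i, 0 ≤ ind (P i) + Real.exp (-lam) := fun i =>
    add_nonneg (ind_nonneg _) (Real.exp_pos _).le
  by_cases h : ∃ A ⊆ range n, (n : ℝ) - D ≤ A.card ∧ ∀ i ∈ A, P i
  · rw [ind_of h]
    obtain ⟨A, hA, hc, hP⟩ := h
    have h1 : ∏ i ∈ A, (1 : ℝ) ≤ ∏ i ∈ A, (ind (P i) + Real.exp (-lam)) := by
      refine Finset.prod_le_prod (fun i _ => zero_le_one) fun i hi => ?_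
      rw [ind_of (hP i hi)]
      linarith [Real.exp_pos (-lam)]
    have h2 : ∏ i ∈ range n \ A, Real.exp (-lam) ≤
        ∏ i ∈ range n \ A, (ind (P i) + Real.exp (-lam)) :=
      Finset.prod_le_prod (fun i _ => (Real.exp_pos _).le) fun i _ => by
        linarith [ind_nonneg (P i)]
    rw [Finset.prod_const_one] at h1
    rw [Finset.prod_const, ← Real.exp_nat_mul] at h2
    have h3 : ((range n \ A).card : ℝ) ≤ D := by
      have h4 := Finset.card_sdiff_add_card_eq_card hA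
      rw [Finset.card_range] at h4
      have h5 : ((range n \ A).card : ℝ) + A.card = n := by exact_mod_cast h4
      linarith
    have h6 : Real.exp (-(lam * D)) ≤ Real.exp ((range n \ A).card * -lam) := by
      refine Real.exp_le_exp.mpr ?_
      nlinarith
    have h7 : Real.exp (-(lam * D)) ≤ ∏ i ∈ range n, (ind (P i) + Real.exp (-lam)) := by
      rw [← Finset.prod_sdiff hA]
      calc Real.exp (-(lam * D)) ≤ Real.exp ((range n \ A).card * -lam) * 1 := by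
            rw [mul_one]; exact h6
        _ ≤ _ := mul_le_mul h2 h1 zero_le_one (Finset.prod_nonneg fun i _ => hf0 i)
    calc (1 : ℝ) = Real.exp (lam * D) * Real.exp (-(lam * D)) := by
          rw [← Real.exp_add]; simp
      _ ≤ _ := mul_le_mul_of_nonneg_left h7 (Real.exp_pos _).le
  · have h1 : ind (∃ A ⊆ range n, (n : ℝ) - D ≤ A.card ∧ ∀ i ∈ A, P i) = 0 := ind_not h
    rw [h1]
    exact mul_nonneg (Real.exp_pos _).le (Finset.prod_nonneg fun i _ => hf0 i)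

private theorem neu_word_prod {K η : ℝ} (hK0 : 0 ≤ K) (hη : 0 < η) (i1 n : ℕ) (c : ℕ → ℝ)
    (hc0 : ∀ i, 0 ≤ c i) (hc : ∀ i, c i ≤ K + 1) (hc1 : ∀ i ≥ i1, c i ≤ Real.exp (-(η / 2))) :
    ∏ i ∈ range n, c i ≤
      (K + 1) ^ i1 * Real.exp (η / 2 * i1) * Real.exp (-(η / 2) * n) := by
  classical
  have hx : (1 : ℝ) ≤ (K + 1) * Real.exp (η / 2) := by
    have h1 : (1 : ℝ) ≤ Real.exp (η / 2) := Real.one_le_exp (by linarith)
    nlinarith
  have h1 : ∀ i ∈ range n, c i ≤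
      (if i < i1 then (K + 1) * Real.exp (η / 2) else 1) * Real.exp (-(η / 2)) := by
    intro i _
    split_ifs with h
    · rw [mul_assoc, ← Real.exp_add, add_neg_cancel, Real.exp_zero, mul_one]
      exact hc i
    · rw [one_mul]
      exact hc1 i (not_lt.mp h)
  refine (Finset.prod_le_prod (fun i _ => hc0 i) h1).trans ?_
  rw [Finset.prod_mul_distrib, Finset.prod_const, Finset.card_range, Finset.prod_ite,
    Finset.prod_const, Finset.prod_const_one, mul_one, ← Real.exp_nat_mul]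
  have h2 : ((range n).filter fun i => i < i1).card ≤ i1 := by
    calc ((range n).filter fun i => i < i1).card ≤ (range i1).card := by
          refine Finset.card_le_card fun i hi => ?_
          rw [Finset.mem_filter] at hi
          exact Finset.mem_range.mpr hi.2
      _ = i1 := Finset.card_range _
  have h3 : ((K + 1) * Real.exp (η / 2)) ^ ((range n).filter fun i => i < i1).card ≤
      ((K + 1) * Real.exp (η / 2)) ^ i1 := pow_le_pow_right₀ hx h2
  have h4 : ((K + 1) * Real.exp (η / 2)) ^ i1 = (K + 1) ^ i1 * Real.exp (η / 2 * i1) := by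
    rw [mul_pow, ← Real.exp_nat_mul, mul_comm (i1 : ℝ)]
  have h5 : Real.exp ((n : ℝ) * -(η / 2)) = Real.exp (-(η / 2) * n) := by
    rw [mul_comm]
  rw [h5, ← h4]
  exact mul_le_mul_of_nonneg_right h3 (Real.exp_pos _).le

/-- words which are neutral at all octaves below `n` but at most `D` -/
theorem neu_word (Y : Sys S V) (hK : ∀ n, Y.a n ≤ K) (k : ℕ) {δ η lam D : ℝ} (hη : 0 < η)
    (hη1 : η ≤ 1) (hlam : K * Real.exp (-lam) ≤ η / 2) (hlam0 : 0 ≤ lam) (i1 n N : ℕ)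
    (h : ∀ i ≥ i1, nm Y k δ (2 ^ i) ≤ 1 - η) (hN : 2 ^ n ≤ N) :
    (Y.E N fun u => Y.sv u * ind (∃ A ⊆ range n, (n : ℝ) - D ≤ A.card ∧
      ∀ i ∈ A, Nt Y k δ (bl i u))) ≤
      K ^ 2 * (Real.exp (lam * D) * ((K + 1) ^ i1 * Real.exp (η / 2 * i1) *
        Real.exp (-(η / 2) * n))) := by
  have hK0 : 0 ≤ K := (Y.a_nonneg 0).trans (hK 0)
  have hφ : ∀ (i : ℕ) (w : List S), 0 ≤ ind (Nt Y k δ w) + Real.exp (-lam) := fun i w =>
    add_nonneg (ind_nonneg _) (Real.exp_pos _).le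
  have h1 := oct_prod Y hK (fun _ w => ind (Nt Y k δ w) + Real.exp (-lam)) hφ n N hN
  have h2 : ∀ i, (Y.E (2 ^ i) fun w => Y.sv w * (ind (Nt Y k δ w) + Real.exp (-lam))) =
      nm Y k δ (2 ^ i) + Y.a (2 ^ i) * Real.exp (-lam) := by
    intro i
    unfold nm Sys.a
    rw [← Y.E_mul_right, ← Y.E_fadd]
    exact Y.E_congr fun w _ => by ring
  have h3 : ∀ i, Y.a (2 ^ i) * Real.exp (-lam) ≤ η / 2 := fun i =>
    (mul_le_mul_of_nonneg_right (hK _) (Real.exp_pos _).le).trans hlam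
  have h4 : ∀ i, nm Y k δ (2 ^ i) ≤ K := by
    intro i
    refine le_trans ?_ (hK (2 ^ i))
    unfold nm Sys.a
    refine Y.E_mono fun w _ => ?_
    calc Y.sv w * ind (Nt Y k δ w) ≤ Y.sv w * 1 :=
          mul_le_mul_of_nonneg_left (ind_le_one _) (Y.sv_nonneg w)
      _ = Y.sv w := mul_one _
  have h5 := neu_word_prod hK0 hη i1 n
    (fun i => Y.E (2 ^ i) fun w => Y.sv w * (ind (Nt Y k δ w) + Real.exp (-lam)))
    (fun i => Y.E_nonneg' fun w => mul_nonneg (Y.sv_nonneg w) (hφ i w))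
    (fun i => by
      show (Y.E (2 ^ i) fun w => Y.sv w * (ind (Nt Y k δ w) + Real.exp (-lam))) ≤ K + 1
      rw [h2 i]
      have := h3 i
      have := h4 i
      linarith)
    (fun i hi => by
      show (Y.E (2 ^ i) fun w => Y.sv w * (ind (Nt Y k δ w) + Real.exp (-lam))) ≤ _
      rw [h2 i]
      have h6 := h3 i
      have h7 := h i hi
      have h8 := Real.add_one_le_exp (-(η / 2))
      linarith)
  calc (Y.E N fun u => Y.sv u * ind (∃ A ⊆ range n, (n : ℝ) - D ≤ A.card ∧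
      ∀ i ∈ A, Nt Y k δ (bl i u)))
      ≤ Y.E N fun u => Real.exp (lam * D) * (Y.sv u * ∏ i ∈ range n,
          (ind (Nt Y k δ (bl i u)) + Real.exp (-lam))) := by
        refine Y.E_mono fun u _ => ?_
        calc Y.sv u * ind (∃ A ⊆ range n, (n : ℝ) - D ≤ A.card ∧
            ∀ i ∈ A, Nt Y k δ (bl i u))
            ≤ Y.sv u * (Real.exp (lam * D) * ∏ i ∈ range n,
                (ind (Nt Y k δ (bl i u)) + Real.exp (-lam))) :=
              mul_le_mul_of_nonneg_left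
                (neu_word_pt hlam0 n fun i => Nt Y k δ (bl i u)) (Y.sv_nonneg u)
          _ = _ := by ring
    _ = Real.exp (lam * D) * Y.E N fun u => Y.sv u * ∏ i ∈ range n,
          (ind (Nt Y k δ (bl i u)) + Real.exp (-lam)) := Y.E_mul_left _ _ _
    _ ≤ Real.exp (lam * D) * (K ^ 2 * ((K + 1) ^ i1 * Real.exp (η / 2 * i1) *
          Real.exp (-(η / 2) * n))) := by
        refine mul_le_mul_of_nonneg_left (h1.trans ?_) (Real.exp_pos _).le
        exact mul_le_mul_of_nonneg_left h5 (by positivity)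
    _ = _ := by ring
-- END neu_word

-- BEGIN Tp_upper2
private theorem Tp_upper2_bar (Y : Sys S V) (u : List S) : Y.sv (bar Y u) = Y.sv u := by
  unfold bar
  rw [Y.sv_reverse, Y.sv_neg]

private theorem Tp_upper2_tp1 (Y : Sys S V) (u v w : List S) :
    tp Y u v w ≤ Y.sv (bar Y u ++ v) * Y.sv w := by
  unfold tp
  have h1 : Y.sv (bar Y u ++ w) ≤ 1 := Y.sv_le_one _
  have h2 : Y.sv (bar Y v ++ w) ≤ Y.sv w := Y.sv_append_right _ _
  have h3 := Y.sv_nonneg (bar Y u ++ v)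
  have h4 := Y.sv_nonneg (bar Y u ++ w)
  have h5 := Y.sv_nonneg (bar Y v ++ w)
  calc Y.sv (bar Y u ++ v) * Y.sv (bar Y u ++ w) * Y.sv (bar Y v ++ w)
      ≤ Y.sv (bar Y u ++ v) * 1 * Y.sv w := by gcongr
    _ = _ := by ring

private theorem Tp_upper2_tp2 (Y : Sys S V) (u v w : List S) :
    tp Y u v w ≤ Y.sv (bar Y u ++ w) * Y.sv v := by
  unfold tp
  have h1 : Y.sv (bar Y u ++ v) ≤ Y.sv v := Y.sv_append_right _ _
  have h2 : Y.sv (bar Y v ++ w) ≤ 1 := Y.sv_le_one _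
  have h3 := Y.sv_nonneg (bar Y u ++ v)
  have h4 := Y.sv_nonneg (bar Y u ++ w)
  have h5 := Y.sv_nonneg (bar Y v ++ w)
  have h6 := Y.sv_nonneg v
  calc Y.sv (bar Y u ++ v) * Y.sv (bar Y u ++ w) * Y.sv (bar Y v ++ w)
      ≤ Y.sv v * Y.sv (bar Y u ++ w) * 1 := by gcongr
    _ = _ := by ring

private theorem Tp_upper2_tp3 (Y : Sys S V) (u v w : List S) :
    tp Y u v w ≤ Y.sv (bar Y v ++ w) * Y.sv u := by
  unfold tp
  have h1 : Y.sv (bar Y u ++ v) ≤ Y.sv u := by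
    have := Y.sv_append_left (bar Y u) v
    rwa [Tp_upper2_bar] at this
  have h2 : Y.sv (bar Y u ++ w) ≤ 1 := Y.sv_le_one _
  have h3 := Y.sv_nonneg (bar Y u ++ v)
  have h4 := Y.sv_nonneg (bar Y u ++ w)
  have h5 := Y.sv_nonneg (bar Y v ++ w)
  have h6 := Y.sv_nonneg u
  calc Y.sv (bar Y u ++ v) * Y.sv (bar Y u ++ w) * Y.sv (bar Y v ++ w)
      ≤ Y.sv u * 1 * Y.sv (bar Y v ++ w) := by gcongr
    _ = _ := by ring

private theorem Tp_upper2_tp4 (Y : Sys S V) (u v w : List S) :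
    tp Y u v w ≤ Y.sv u * Y.sv v * Y.sv w := by
  have h1 := Tp_upper2_tp1 Y u v w
  have h2 := Y.sv_append_le (bar Y u) v
  rw [Tp_upper2_bar] at h2
  exact h1.trans (mul_le_mul_of_nonneg_right h2 (Y.sv_nonneg w))

private theorem Tp_upper2_tp0 (Y : Sys S V) (u v w : List S) : 0 ≤ tp Y u v w :=
  mul_nonneg (mul_nonneg (Y.sv_nonneg _) (Y.sv_nonneg _)) (Y.sv_nonneg _)

/-- the three estimates for one pattern give `|Xg| ≤ 3/2 δ 2 ^ i` -/
private theorem Tp_upper2_tri {a b c d : ℝ} (h1 : |a + b| ≤ d) (h2 : |a + c| ≤ d) (h3 : |b + c| ≤ d) :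
    |a| ≤ 3 / 2 * d := by
  rw [abs_le] at *
  constructor <;> linarith [h1.1, h1.2, h2.1, h2.2, h3.1, h3.2]

open Classical in
/-- the octaves at which `u`, `v` are not matched for some pattern -/
private noncomputable def Tp_upper2_B (Y : Sys S V) (k : ℕ) (δ : ℝ) (n : ℕ) (u v : List S) : Finset ℕ :=
  (Finset.univ : Finset (Fin k → S)).biUnion fun f => (range n).filter fun i =>
    δ * 2 ^ i < |Xg Y (List.ofFn f) (u.take (2 ^ i)) + Xg Y (List.ofFn f) (v.take (2 ^ i))|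

private theorem Tp_upper2_B_card (Y : Sys S V) (k : ℕ) (δ : ℝ) (n : ℕ) (u v : List S) {x : ℝ}
    (h : ∀ γ : List S, γ.length = k → (um Y γ δ n u v : ℝ) ≤ x) :
    ((Tp_upper2_B Y k δ n u v).card : ℝ) ≤ (Fintype.card (Fin k → S) : ℝ) * x := by
  classical
  have h1 : ((Tp_upper2_B Y k δ n u v).card : ℝ) ≤
      ((∑ f : Fin k → S, um Y (List.ofFn f) δ n u v : ℕ) : ℝ) := by
    exact_mod_cast Finset.card_biUnion_le
  refine h1.trans ?_
  push_cast
  calc (∑ f : Fin k → S, (um Y (List.ofFn f) δ n u v : ℝ)) ≤ ∑ _f : Fin k → S, x :=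
        Finset.sum_le_sum fun f _ => h _ (List.length_ofFn)
    _ = _ := by rw [Finset.sum_const, Finset.card_univ, nsmul_eq_mul]

private theorem Tp_upper2_B_not (Y : Sys S V) {k : ℕ} {δ : ℝ} {n : ℕ} {u v : List S} {i : ℕ}
    (hi : i < n) (h : i ∉ Tp_upper2_B Y k δ n u v) (γ : List S) (hγ : γ.length = k) :
    |Xg Y γ (u.take (2 ^ i)) + Xg Y γ (v.take (2 ^ i))| ≤ δ * 2 ^ i := by
  classical
  by_contra hcon
  push Not at hcon
  refine h ?_
  subst hγ
  refine Finset.mem_biUnion.2 ⟨γ.get, Finset.mem_univ _, Finset.mem_filter.2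
    ⟨Finset.mem_range.2 hi, ?_⟩⟩
  rw [List.ofFn_get]
  exact hcon

/-- if the octaves `i`, `i + 1` are matched the block is neutral -/
private theorem Tp_upper2_neutral (Y : Sys S V) {k : ℕ} {δ : ℝ} {n : ℕ} {u v w : List S} {i : ℕ}
    (hi : i + 1 < n) (hk : (k : ℝ) ≤ δ / 2 * 2 ^ i) (hu : 2 * 2 ^ n ≤ u.length)
    (h : ∀ j, j = i ∨ j = i + 1 → j ∉ Tp_upper2_B Y k (δ / 9) n u v ∧
      j ∉ Tp_upper2_B Y k (δ / 9) n u w ∧ j ∉ Tp_upper2_B Y k (δ / 9) n v w) :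
    Nt Y k δ (bl i u) := by
  intro γ hγ
  have key : ∀ j, j = i ∨ j = i + 1 → |Xg Y γ (u.take (2 ^ j))| ≤ 3 / 2 * (δ / 9 * 2 ^ j) := by
    intro j hj
    have hjn : j < n := by omega
    obtain ⟨h1, h2, h3⟩ := h j hj
    exact Tp_upper2_tri (Tp_upper2_B_not Y hjn h1 γ hγ) (Tp_upper2_B_not Y hjn h2 γ hγ)
      (Tp_upper2_B_not Y hjn h3 γ hγ)
  have h1 := key i (Or.inl rfl)
  have h2 := key (i + 1) (Or.inr rfl)
  have h3 := Xg_append Y γ (u.take (2 ^ i)) (bl i u)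
  have h4 : u.take (2 ^ i) ++ bl i u = u.take (2 ^ (i + 1)) := by
    unfold bl
    rw [pow_succ, mul_two, List.take_add]
  rw [h4, hγ] at h3
  have h5 : (bl i u).length = 2 ^ i := by
    unfold bl
    rw [List.length_take, List.length_drop]
    have h6 : 2 ^ i ≤ 2 ^ n := Nat.pow_le_pow_right (by norm_num) (by omega)
    omega
  rw [h5]
  push_cast
  have hp : (2 : ℝ) ^ (i + 1) = 2 ^ i * 2 := pow_succ _ _
  rw [hp] at h2
  rw [abs_le] at *
  constructor <;> linarith [h1.1, h1.2, h2.1, h2.2, h3.1, h3.2]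

private theorem Tp_upper2_count (Y : Sys S V) {k : ℕ} {δ e : ℝ} {n i₀ : ℕ} {u v w : List S}
    (G : Finset ℕ) (hG : G ⊆ range n) (hk : ∀ i, i₀ ≤ i → (k : ℝ) ≤ δ / 2 * 2 ^ i)
    (hu : 2 * 2 ^ n ≤ u.length)
    (h1 : ∀ γ : List S, γ.length = k → (um Y γ (δ / 9) n u v : ℝ) ≤ e * n)
    (h2 : ∀ γ : List S, γ.length = k → (um Y γ (δ / 9) n u w : ℝ) ≤ e * n)
    (h3 : ∀ γ : List S, γ.length = k → (um Y γ (δ / 9) n v w : ℝ) ≤ e * n) :
    ∃ A ∈ G.powerset, (G.card : ℝ) - (i₀ + 1 + 6 * ((Fintype.card (Fin k → S) : ℝ) * (e * n))) ≤ A.card ∧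
      ∀ i ∈ A, Nt Y k δ (bl i u) := by
  classical
  obtain ⟨B, hB⟩ : ∃ B, B = (Tp_upper2_B Y k (δ / 9) n u v ∪ Tp_upper2_B Y k (δ / 9) n u w) ∪
    Tp_upper2_B Y k (δ / 9) n v w := ⟨_, rfl⟩
  have hBc : (B.card : ℝ) ≤ 3 * ((Fintype.card (Fin k → S) : ℝ) * (e * n)) := by
    have c1 := Tp_upper2_B_card Y k (δ / 9) n u v h1
    have c2 := Tp_upper2_B_card Y k (δ / 9) n u w h2
    have c3 := Tp_upper2_B_card Y k (δ / 9) n v w h3
    have c4 : B.card ≤ (Tp_upper2_B Y k (δ / 9) n u v).card + (Tp_upper2_B Y k (δ / 9) n u w).card +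
        (Tp_upper2_B Y k (δ / 9) n v w).card := by
      rw [hB]
      exact (Finset.card_union_le _ _).trans (Nat.add_le_add_right (Finset.card_union_le _ _) _)
    have c5 : (B.card : ℝ) ≤ (Tp_upper2_B Y k (δ / 9) n u v).card + (Tp_upper2_B Y k (δ / 9) n u w).card +
        (Tp_upper2_B Y k (δ / 9) n v w).card := by exact_mod_cast c4
    linarith
  refine ⟨G.filter fun i => Nt Y k δ (bl i u), Finset.mem_powerset.2 (Finset.filter_subset _ _), ?_,
    fun i hi => (Finset.mem_filter.1 hi).2⟩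
  have hsub : G ⊆ (G.filter fun i => Nt Y k δ (bl i u)) ∪
      ((range (i₀ + 1)).image (fun i => if i = i₀ then n - 1 else i) ∪ (B ∪ B.image fun j => j - 1)) := by
    intro i hi
    have hin : i < n := Finset.mem_range.1 (hG hi)
    by_cases ha : Nt Y k δ (bl i u)
    · exact Finset.mem_union_left _ (Finset.mem_filter.2 ⟨hi, ha⟩)
    refine Finset.mem_union_right _ ?_
    by_cases hi0 : i < i₀
    · refine Finset.mem_union_left _ (Finset.mem_image.2 ⟨i, Finset.mem_range.2 (by omega), ?_⟩)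
      rw [if_neg (by omega)]
    by_cases hi1 : i + 1 < n
    · refine Finset.mem_union_right _ ?_
      by_contra hcon
      refine ha (Tp_upper2_neutral Y (v := v) (w := w) hi1 (hk i (by omega)) hu fun j hj => ?_)
      have hjB : j ∉ B := by
        intro hjB
        refine hcon ?_
        rcases hj with rfl | rfl
        · exact Finset.mem_union_left _ hjB
        · exact Finset.mem_union_right _ (Finset.mem_image.2 ⟨i + 1, hjB, by omega⟩)
      rw [hB, Finset.mem_union, Finset.mem_union] at hjB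
      push Not at hjB
      exact ⟨hjB.1.1, hjB.1.2, hjB.2⟩
    · refine Finset.mem_union_left _ (Finset.mem_image.2 ⟨i₀, Finset.mem_range.2 (by omega), ?_⟩)
      rw [if_pos rfl]
      omega
  have hc1 := Finset.card_le_card hsub
  have hc2 : G.card ≤ (G.filter fun i => Nt Y k δ (bl i u)).card + ((i₀ + 1) + (B.card + B.card)) := by
    refine hc1.trans ((Finset.card_union_le _ _).trans (Nat.add_le_add_left ?_ _))
    refine (Finset.card_union_le _ _).trans (Nat.add_le_add ?_ ?_)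
    · refine Finset.card_image_le.trans ?_
      rw [Finset.card_range]
    · exact (Finset.card_union_le _ _).trans (Nat.add_le_add_left Finset.card_image_le _)
  have hc3 : (G.card : ℝ) ≤ (G.filter fun i => Nt Y k δ (bl i u)).card + ((i₀ + 1) + (B.card + B.card)) := by
    exact_mod_cast hc2
  linarith

/-- the three expectations of the unmatched pairs -/
private theorem Tp_upper2_exp (Y : Sys S V) (hK : ∀ n, Y.a n ≤ K) (N : ℕ) (bad : List S → List S → Prop)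
    {b : ℝ} (hb : 0 ≤ b)
    (hp : (Y.E N fun u => Y.E N fun v => Y.sv (bar Y u ++ v) * ind (bad u v)) ≤ b) :
    (Y.E N fun u => Y.E N fun v => Y.E N fun w =>
      Y.sv (bar Y u ++ v) * ind (bad u v) * Y.sv w) ≤ K * b ∧
    (Y.E N fun u => Y.E N fun v => Y.E N fun w =>
      Y.sv (bar Y u ++ w) * ind (bad u w) * Y.sv v) ≤ K * b ∧
    (Y.E N fun u => Y.E N fun v => Y.E N fun w =>
      Y.sv (bar Y v ++ w) * ind (bad v w) * Y.sv u) ≤ K * b := by
  have ha0 : 0 ≤ Y.a N := Y.a_nonneg N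
  have haK : Y.a N ≤ K := hK N
  have e1 : (Y.E N fun u => Y.E N fun v => Y.E N fun w =>
      Y.sv (bar Y u ++ v) * ind (bad u v) * Y.sv w) ≤ K * b := by
    have : (Y.E N fun u => Y.E N fun v => Y.E N fun w =>
        Y.sv (bar Y u ++ v) * ind (bad u v) * Y.sv w) =
        (Y.E N fun u => Y.E N fun v => Y.sv (bar Y u ++ v) * ind (bad u v)) * Y.a N := by
      simp only [Y.E_mul_left, Y.E_mul_right]
      rfl
    rw [this]
    calc _ ≤ b * K := mul_le_mul hp haK ha0 hb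
      _ = _ := by ring
  have e2 : (Y.E N fun u => Y.E N fun v => Y.E N fun w =>
      Y.sv (bar Y u ++ w) * ind (bad u w) * Y.sv v) ≤ K * b := by
    have : (Y.E N fun u => Y.E N fun v => Y.E N fun w =>
        Y.sv (bar Y u ++ w) * ind (bad u w) * Y.sv v) =
        (Y.E N fun u => Y.E N fun w => Y.sv (bar Y u ++ w) * ind (bad u w)) * Y.a N := by
      rw [← Y.E_mul_right]
      refine Y.E_congr fun u _ => ?_
      rw [Y.E_comm, ← Y.E_mul_right]
      refine Y.E_congr fun w _ => ?_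
      rw [Y.E_mul_left]
      rfl
    rw [this]
    calc _ ≤ b * K := mul_le_mul hp haK ha0 hb
      _ = _ := by ring
  have e3 : (Y.E N fun u => Y.E N fun v => Y.E N fun w =>
      Y.sv (bar Y v ++ w) * ind (bad v w) * Y.sv u) ≤ K * b := by
    have : (Y.E N fun u => Y.E N fun v => Y.E N fun w =>
        Y.sv (bar Y v ++ w) * ind (bad v w) * Y.sv u) =
        (Y.E N fun v => Y.E N fun w => Y.sv (bar Y v ++ w) * ind (bad v w)) * Y.a N := by
      simp only [Y.E_mul_left, Y.E_mul_right]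
      rfl
    rw [this]
    calc _ ≤ b * K := mul_le_mul hp haK ha0 hb
      _ = _ := by ring
  exact ⟨e1, e2, e3⟩


/-- pointwise estimate -/
private theorem Tp_upper2_pt (Y : Sys S V) {k : ℕ} {δ e θ L D : ℝ} {n i₀ N : ℕ}
    (hN : N = 2 * 2 ^ n) (hk : ∀ i, i₀ ≤ i → (k : ℝ) ≤ δ / 2 * 2 ^ i)
    (hL : L = (Fintype.card (Fin k → S) : ℝ)) (heL : 6 * (L * e) ≤ θ / 10)
    (hD : D = i₀ + 1 + θ / 10 * n) (bad : List S → List S → Prop)
    (hbad : bad = fun u v => ∃ γ : List S, γ.length = k ∧ e * n ≤ (um Y γ (δ / 9) n u v : ℝ))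
    (u v w : List S) (hu : u.length = N) : tp Y u v w ≤
      Y.sv (bar Y u ++ v) * ind (bad u v) * Y.sv w + Y.sv (bar Y u ++ w) * ind (bad u w) * Y.sv v +
        Y.sv (bar Y v ++ w) * ind (bad v w) * Y.sv u +
        (Y.sv u * ind (∃ A ⊆ range n, (n : ℝ) - D ≤ A.card ∧ ∀ i ∈ A, Nt Y k δ (bl i u))) *
          Y.sv v * Y.sv w := by
  have t1 : 0 ≤ Y.sv (bar Y u ++ v) * ind (bad u v) * Y.sv w :=
    mul_nonneg (mul_nonneg (Y.sv_nonneg _) (ind_nonneg _)) (Y.sv_nonneg _)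
  have t2 : 0 ≤ Y.sv (bar Y u ++ w) * ind (bad u w) * Y.sv v :=
    mul_nonneg (mul_nonneg (Y.sv_nonneg _) (ind_nonneg _)) (Y.sv_nonneg _)
  have t3 : 0 ≤ Y.sv (bar Y v ++ w) * ind (bad v w) * Y.sv u :=
    mul_nonneg (mul_nonneg (Y.sv_nonneg _) (ind_nonneg _)) (Y.sv_nonneg _)
  have t4 : 0 ≤ (Y.sv u * ind (∃ A ⊆ range n, (n : ℝ) - D ≤ A.card ∧
      ∀ i ∈ A, Nt Y k δ (bl i u))) * Y.sv v * Y.sv w :=
    mul_nonneg (mul_nonneg (mul_nonneg (Y.sv_nonneg _) (ind_nonneg _)) (Y.sv_nonneg _))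
      (Y.sv_nonneg _)
  by_cases b1 : bad u v
  · have := Tp_upper2_tp1 Y u v w
    rw [ind_of b1, mul_one] at t1 ⊢
    linarith
  by_cases b2 : bad u w
  · have := Tp_upper2_tp2 Y u v w
    rw [ind_of b2, mul_one] at t2 ⊢
    linarith
  by_cases b3 : bad v w
  · have := Tp_upper2_tp3 Y u v w
    rw [ind_of b3, mul_one] at t3 ⊢
    linarith
  have hcnt : ∃ A ∈ (range n).powerset,
      (((range n).card : ℕ) : ℝ) - (i₀ + 1 + 6 * ((Fintype.card (Fin k → S) : ℝ) * (e * n))) ≤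
        A.card ∧ ∀ i ∈ A, Nt Y k δ (bl i u) := by
    refine Tp_upper2_count Y (v := v) (w := w) (range n) (Finset.Subset.refl _) hk
      (by rw [hu, hN]) ?_ ?_ ?_
    · intro γ hγ
      by_contra hcon
      exact b1 (by rw [hbad]; exact ⟨γ, hγ, (not_le.1 hcon).le⟩)
    · intro γ hγ
      by_contra hcon
      exact b2 (by rw [hbad]; exact ⟨γ, hγ, (not_le.1 hcon).le⟩)
    · intro γ hγ
      by_contra hcon
      exact b3 (by rw [hbad]; exact ⟨γ, hγ, (not_le.1 hcon).le⟩)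
  obtain ⟨A, hA, hAc, hAn⟩ := hcnt
  rw [Finset.card_range, ← hL] at hAc
  have h7 : 6 * (L * (e * n)) ≤ θ / 10 * n := by
    have := mul_le_mul_of_nonneg_right heL (Nat.cast_nonneg (α := ℝ) n)
    linarith
  have hP : ∃ A ⊆ range n, (n : ℝ) - D ≤ A.card ∧ ∀ i ∈ A, Nt Y k δ (bl i u) :=
    ⟨A, Finset.mem_powerset.1 hA, by rw [hD]; linarith, hAn⟩
  have h11 := Tp_upper2_tp4 Y u v w
  rw [ind_of hP, mul_one] at t4 ⊢
  linarith

theorem Tp_upper2 (Y : Sys S V) (h1 : ∀ n, 1 ≤ Y.a n) (hK : ∀ n, Y.a n ≤ K) (k : ℕ) {δ η : ℝ}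
    (hδ : 0 < δ) (hη : 0 < η) (i1 : ℕ) (h : ∀ i ≥ i1, nm Y k δ (2 ^ i) ≤ 1 - η) :
    ∃ c : ℝ, 0 < c ∧ ∃ C : ℝ, 0 < C ∧ ∀ n : ℕ,
      Tp Y (2 * 2 ^ n) (2 * 2 ^ n) (2 * 2 ^ n) ≤ C * Real.exp (-c * n) := by
  classical
  have hK1 : 1 ≤ K := (h1 0).trans (hK 0)
  have hK0 : 0 < K := by linarith
  obtain ⟨y, hy⟩ : ∃ y : ℝ, y = min η 1 := ⟨_, rfl⟩
  have hy0 : 0 < y := by rw [hy]; exact lt_min hη one_pos
  have hy1 : y ≤ 1 := by rw [hy]; exact min_le_right _ _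
  have hyη : y ≤ η := by rw [hy]; exact min_le_left _ _
  have h' : ∀ i ≥ i1, nm Y k δ (2 ^ i) ≤ 1 - y := fun i hi => (h i hi).trans (by linarith)
  obtain ⟨lam, hlam⟩ : ∃ lam : ℝ, lam = Real.log (2 * K / y) := ⟨_, rfl⟩
  have hq1 : 1 ≤ 2 * K / y := by
    rw [le_div_iff₀ hy0]
    linarith
  have hlam0 : 0 ≤ lam := by rw [hlam]; exact Real.log_nonneg hq1
  have hlamK : K * Real.exp (-lam) ≤ y / 2 := by
    rw [hlam, Real.exp_neg, Real.exp_log (by positivity)]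
    refine le_of_eq ?_
    field_simp
  obtain ⟨θ, hθe⟩ : ∃ θ : ℝ, θ = 10 * (y / 4) / (lam + 1) := ⟨_, rfl⟩
  have hθ : 0 < θ := by rw [hθe]; positivity
  have hlθ : lam * (θ / 10) ≤ y / 4 := by
    rw [hθe]
    have e1 : lam * (10 * (y / 4) / (lam + 1) / 10) = y / 4 * (lam / (lam + 1)) := by
      field_simp
    rw [e1]
    have e2 : lam / (lam + 1) ≤ 1 := by
      rw [div_le_one (by linarith)]
      linarith
    have e3 : 0 ≤ y / 4 := by positivity
    nlinarith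
  obtain ⟨L, hL⟩ : ∃ L : ℝ, L = (Fintype.card (Fin k → S) : ℝ) := ⟨_, rfl⟩
  have hL0 : 0 ≤ L := by rw [hL]; exact Nat.cast_nonneg _
  obtain ⟨e, he⟩ : ∃ e : ℝ, e = θ / (60 * (L + 1)) := ⟨_, rfl⟩
  have he0 : 0 < e := by rw [he]; positivity
  have heL : 6 * (L * e) ≤ θ / 10 := by
    rw [he]
    have : 6 * (L * (θ / (60 * (L + 1)))) = θ / 10 * (L / (L + 1)) := by
      field_simp
      ring
    rw [this]
    have h3 : L / (L + 1) ≤ 1 := by
      rw [div_le_one (by linarith)]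
      linarith
    have h4 : 0 ≤ θ / 10 := by positivity
    nlinarith
  obtain ⟨i₀, hi₀⟩ : ∃ i₀ : ℕ, (k : ℝ) / (δ / 2) < 2 ^ i₀ :=
    pow_unbounded_of_one_lt _ (by norm_num)
  have hk : ∀ i, i₀ ≤ i → (k : ℝ) ≤ δ / 2 * 2 ^ i := by
    intro i hi
    rw [div_lt_iff₀ (by positivity)] at hi₀
    have h5 : (2 : ℝ) ^ i₀ ≤ 2 ^ i := pow_le_pow_right₀ (by norm_num) hi
    have h6 : 0 < δ / 2 := by positivity
    nlinarith
  obtain ⟨c₁, hc₁, C₁, hC₁, hpair⟩ := pair_le Y hK k (δ := δ / 9) (e := e) (by positivity) he0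
  obtain ⟨W, hW⟩ : ∃ W : ℝ, W = Real.exp (lam * (i₀ + 1)) *
    ((K + 1) ^ i1 * Real.exp (y / 2 * i1)) := ⟨_, rfl⟩
  have hW0 : 0 < W := by rw [hW]; positivity
  refine ⟨min c₁ (y / 4), lt_min hc₁ (by positivity), 3 * (K * C₁) + K ^ 4 * W, by positivity,
    fun n => ?_⟩
  obtain ⟨N, hN⟩ : ∃ N, N = 2 * 2 ^ n := ⟨_, rfl⟩
  rw [← hN]
  obtain ⟨bad, hbad⟩ : ∃ bad : List S → List S → Prop, bad = fun u v =>
    ∃ γ : List S, γ.length = k ∧ e * n ≤ (um Y γ (δ / 9) n u v : ℝ) := ⟨_, rfl⟩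
  have hp : (Y.E N fun u => Y.E N fun v => Y.sv (bar Y u ++ v) * ind (bad u v)) ≤
      C₁ * Real.exp (-c₁ * n) := by
    rw [hN, hbad]
    exact hpair n
  obtain ⟨D, hD⟩ : ∃ D : ℝ, D = i₀ + 1 + θ / 10 * n := ⟨_, rfl⟩
  have hpt := Tp_upper2_pt Y hN hk hL heL hD bad hbad
  have hexp0 : 0 ≤ C₁ * Real.exp (-c₁ * n) := by positivity
  obtain ⟨e1, e2, e3⟩ := Tp_upper2_exp Y hK N bad hexp0 hp
  have ha0 : 0 ≤ Y.a N := Y.a_nonneg N
  have haK : Y.a N ≤ K := hK N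
  have hn0 : (0 : ℝ) ≤ n := Nat.cast_nonneg n
  have hword : (Y.E N fun u => Y.sv u * ind (∃ A ⊆ range n, (n : ℝ) - D ≤ A.card ∧
      ∀ i ∈ A, Nt Y k δ (bl i u))) ≤ K ^ 2 * (W * Real.exp (-(y / 4) * n)) := by
    refine (neu_word Y hK k hy0 hy1 hlamK hlam0 i1 n N h' (by rw [hN]; omega)).trans ?_
    refine mul_le_mul_of_nonneg_left ?_ (by positivity)
    have e4 : Real.exp (lam * D) ≤ Real.exp (lam * (i₀ + 1)) * Real.exp (y / 4 * n) := by
      rw [← Real.exp_add]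
      refine Real.exp_le_exp.2 ?_
      rw [hD]
      have e5 := mul_le_mul_of_nonneg_right hlθ hn0
      nlinarith
    have e6 : Real.exp (y / 4 * n) * Real.exp (-(y / 2) * n) = Real.exp (-(y / 4) * n) := by
      rw [← Real.exp_add]
      congr 1
      ring
    have e7 : 0 ≤ (K + 1) ^ i1 * Real.exp (y / 2 * i1) * Real.exp (-(y / 2) * n) := by positivity
    calc Real.exp (lam * D) * ((K + 1) ^ i1 * Real.exp (y / 2 * i1) * Real.exp (-(y / 2) * n))
        ≤ (Real.exp (lam * (i₀ + 1)) * Real.exp (y / 4 * n)) *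
          ((K + 1) ^ i1 * Real.exp (y / 2 * i1) * Real.exp (-(y / 2) * n)) :=
          mul_le_mul_of_nonneg_right e4 e7
      _ = Real.exp (lam * (i₀ + 1)) * ((K + 1) ^ i1 * Real.exp (y / 2 * i1)) *
          (Real.exp (y / 4 * n) * Real.exp (-(y / 2) * n)) := by ring
      _ = _ := by rw [e6, hW]
  have e4 : (Y.E N fun u => Y.E N fun v => Y.E N fun w =>
      (Y.sv u * ind (∃ A ⊆ range n, (n : ℝ) - D ≤ A.card ∧ ∀ i ∈ A, Nt Y k δ (bl i u))) *
        Y.sv v * Y.sv w) ≤ K ^ 4 * W * Real.exp (-(y / 4) * n) := by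
    have e5 : (Y.E N fun u => Y.E N fun v => Y.E N fun w =>
        (Y.sv u * ind (∃ A ⊆ range n, (n : ℝ) - D ≤ A.card ∧ ∀ i ∈ A, Nt Y k δ (bl i u))) *
          Y.sv v * Y.sv w) =
        (Y.E N fun u => Y.sv u * ind (∃ A ⊆ range n, (n : ℝ) - D ≤ A.card ∧
          ∀ i ∈ A, Nt Y k δ (bl i u))) * Y.a N * Y.a N := by
      simp only [Y.E_mul_left, Y.E_mul_right]
      rfl
    rw [e5]
    have e6 : 0 ≤ K ^ 2 * (W * Real.exp (-(y / 4) * n)) := by positivity
    calc _ ≤ K ^ 2 * (W * Real.exp (-(y / 4) * n)) * K * K :=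
          mul_le_mul (mul_le_mul hword haK ha0 e6) haK ha0 (mul_nonneg e6 hK0.le)
      _ = _ := by ring
  have hT : Tp Y N N N ≤ K * (C₁ * Real.exp (-c₁ * n)) + K * (C₁ * Real.exp (-c₁ * n)) +
      K * (C₁ * Real.exp (-c₁ * n)) + K ^ 4 * W * Real.exp (-(y / 4) * n) := by
    unfold Tp
    refine (Y.E_mono fun u hu => Y.E_mono fun v _ => Y.E_mono fun w _ => hpt u v w hu).trans ?_
    simp only [Y.E_fadd]
    linarith
  have hm1 : Real.exp (-c₁ * n) ≤ Real.exp (-(min c₁ (y / 4)) * n) := by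
    refine Real.exp_le_exp.2 ?_
    have := mul_le_mul_of_nonneg_right (min_le_left c₁ (y / 4)) hn0
    linarith
  have hm2 : Real.exp (-(y / 4) * n) ≤ Real.exp (-(min c₁ (y / 4)) * n) := by
    refine Real.exp_le_exp.2 ?_
    have := mul_le_mul_of_nonneg_right (min_le_right c₁ (y / 4)) hn0
    linarith
  have hKC : 0 ≤ 3 * (K * C₁) := by positivity
  have hKW : 0 ≤ K ^ 4 * W := by positivity
  have hm3 := mul_le_mul_of_nonneg_left hm1 hKC
  have hm4 := mul_le_mul_of_nonneg_left hm2 hKW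
  linarith
-- END Tp_upper2

-- BEGIN neu
theorem neu {μ : ℝ} (hμ : 0 < μ) (h1 : ∀ n, 1 ≤ (lat 1 hμ).a n)
    (hK : ∀ n, (lat 1 hμ).a n ≤ K) (k : ℕ) {δ η : ℝ} (hδ : 0 < δ) (hη : 0 < η) :
    ∃ᶠ i : ℕ in atTop, 1 - η < nm (lat 1 hμ) k δ (2 ^ i) := by
  intro hcon
  have hcon2 : ∀ᶠ i : ℕ in atTop, nm (lat 1 hμ) k δ (2 ^ i) ≤ 1 - η :=
    hcon.mono fun i hi => not_lt.1 hi
  obtain ⟨i1, hi1⟩ := eventually_atTop.1 hcon2
  obtain ⟨c, hc, C, hC, hup⟩ := Tp_upper2 (lat 1 hμ) h1 hK k hδ hη i1 hi1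
  have hlog : (0 : ℝ) < Real.log 2 := Real.log_pos one_lt_two
  set e : ℝ := c / (2 * Real.log 2) with he
  have he0 : 0 < e := by positivity
  have hlow := low_lat hμ h1 hK he0
  have hT : Tendsto (fun J : ℕ => 2 * 2 ^ J) atTop atTop := by
    refine tendsto_atTop_mono (fun J => ?_) tendsto_id
    have : J < 2 ^ J := Nat.lt_two_pow_self
    simp only [id]
    omega
  have hlow2 := hT.eventually hlow
  have hexp : ∀ᶠ J : ℕ in atTop, C * Real.exp (-c * J) < ((2 * 2 ^ J : ℕ) : ℝ) ^ (-e) := by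
    have h3 : Tendsto (fun J : ℕ => Real.exp (c / 2 * J)) atTop atTop :=
      Real.tendsto_exp_atTop.comp (tendsto_natCast_atTop_atTop.const_mul_atTop (by positivity))
    filter_upwards [h3.eventually_gt_atTop (C * (2 : ℝ) ^ e)] with J hJ
    have h4 : ((2 * 2 ^ J : ℕ) : ℝ) ^ (-e) = (2 : ℝ) ^ (-e) * Real.exp (-(c / 2) * J) := by
      push_cast
      rw [Real.mul_rpow (by norm_num) (by positivity)]
      congr 1
      rw [← Real.rpow_natCast, ← Real.rpow_mul (by norm_num), Real.rpow_def_of_pos (by norm_num)]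
      congr 1
      rw [he]
      field_simp
    rw [h4]
    have h5 : (2 : ℝ) ^ (-e) * (2 : ℝ) ^ e = 1 := by
      rw [← Real.rpow_add (by norm_num)]
      simp
    have h6 : Real.exp (-(c / 2) * J) = Real.exp (-c * J) * Real.exp (c / 2 * J) := by
      rw [← Real.exp_add]
      congr 1
      ring
    rw [h6]
    have h7 : 0 < Real.exp (-c * J) := Real.exp_pos _
    have h8 : (0 : ℝ) < (2 : ℝ) ^ (-e) := Real.rpow_pos_of_pos (by norm_num) _
    have h9 := mul_lt_mul_of_pos_left hJ (mul_pos h8 h7)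
    calc C * Real.exp (-c * J) = ((2 : ℝ) ^ (-e) * (2 : ℝ) ^ e) * (C * Real.exp (-c * J)) := by
          rw [h5, one_mul]
      _ = (2 : ℝ) ^ (-e) * Real.exp (-c * J) * (C * (2 : ℝ) ^ e) := by ring
      _ < _ := h9
      _ = _ := by ring
  obtain ⟨J, h2, h3⟩ := (hlow2.and hexp).exists
  exact absurd (h2.trans (hup J)) (not_le.2 h3)
-- END neu

end Pool.Agent.Am3
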